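import Mathlib

namespace Pool.Agent.Helper505.HC

open scoped ContDiff

/-- `Generated X F`: `F` is one of the fields `X i` or an iterated Lie bracket of them. -/
inductive Generated {ι E : Type} [NormedAddCommGroup E] [NormedSpace ℂ E] (X : ι → E → E) :
    (E → E) → Prop
  | base (i : ι) : Generated X (X i)
  | bracket (F G : E → E) : Generated X F → Generated X G →
      Generated X (VectorField.lieBracket ℂ F G)

/-- `OccursInOrder W Z k n`: on some complex vector space `E` of dimension `n` there is a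
holomorphic frame map `y ↦ X y`, where `X y : W → T_y E = E` is injective and linear, such that
* the fields `y ↦ X y w` (`w ∈ W`) and their iterated Lie brackets span `T_y E` at every `y`;
* there is a holomorphic vector field `σ`, not identically zero, vanishing at `0` to order at
  least `k + 1`;
* the maps `y ↦ y + s σ(y)` form the flow of `σ`;
* the derivative of each of them maps the cone `X y (Z)` onto the cone `X (y + s σ(y)) (Z)`. -/
def OccursInOrder (W : Type) [NormedAddCommGroup W] [NormedSpace ℂ W] (Z : Set W)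
    (k n : ℕ) : Prop :=
  ∃ (E : Type) (_ : NormedAddCommGroup E) (_ : NormedSpace ℂ E)
    (_ : FiniteDimensional ℂ E) (X : E → W →L[ℂ] E) (σ : E → E),
    Module.finrank ℂ E = n ∧
    ContDiff ℂ ω X ∧ (∀ y, Function.Injective (X y)) ∧
    (∀ y, Submodule.span ℂ {v : E | ∃ F : E → E,
      Generated (fun (w : W) (z : E) => X z w) F ∧ F y = v} = ⊤) ∧
    ContDiff ℂ ω σ ∧ (∃ y, σ y ≠ 0) ∧
    (∃ C : ℝ, ∀ y, ‖y‖ ≤ 1 → ‖σ y‖ ≤ C * ‖y‖ ^ (k + 1)) ∧
    (∀ (s : ℂ) (y : E), σ (y + s • σ y) = σ y) ∧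
    (∀ (s : ℂ) (y : E),
      (fderiv ℂ (fun z => z + s • σ z) y) '' (X y '' Z) = X (y + s • σ y) '' Z)

/-- `Z` spans `W`, and `Z` occurs in every order `k` (on spaces of some dimension). -/
def OccursInAllOrders (W : Type) [NormedAddCommGroup W] [NormedSpace ℂ W] (Z : Set W) : Prop :=
  Submodule.span ℂ Z = ⊤ ∧ ∀ k : ℕ, ∃ n : ℕ, OccursInOrder W Z k n

/-- `A` is a nonzero square-zero linear symmetry of the cone `Z ⊆ W`. -/
def HasSquareZero (W : Type) [NormedAddCommGroup W] [NormedSpace ℂ W] (Z : Set W) : Prop :=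
  ∃ A : W →ₗ[ℂ] W, A ≠ 0 ∧ (∀ w, A (A w) = 0) ∧ ∀ (s : ℂ) (z : W), z ∈ Z → z + s • A z ∈ Z

/-- `φ` vanishes at the base point of `q / p` to order at least `k + 1`. -/
def VanishesTo {q : Type} [LieRing q] [LieAlgebra ℂ q] (p : LieSubalgebra ℂ q) : ℕ → q → Prop
  | 0, φ => φ ∈ p
  | k + 1, φ => φ ∈ p ∧ ∀ x : q, VanishesTo p k ⁅x, φ⁆

/-- `(q, p, j)` with `φ` is an infinitesimal model of a locally homogeneous bracket-generating cone
structure with fibre `Z ⊆ W` and with a nonzero symmetry `φ` in `f^k`, that is, vanishing to order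
at least `k + 1` at the base point. -/
def HomogeneousModel (k : ℕ) (W : Type) [NormedAddCommGroup W] [NormedSpace ℂ W] (Z : Set W) :
    Prop :=
  ∃ (q : Type) (_ : LieRing q) (_ : LieAlgebra ℂ q) (p : LieSubalgebra ℂ q)
    (j : W →ₗ[ℂ] q ⧸ p.toSubmodule) (φ : q),
    FiniteDimensional ℂ q ∧ Function.Injective j ∧
    (∀ I : LieIdeal ℂ q, (∀ x ∈ I, x ∈ p) → I = ⊥) ∧
    LieSubalgebra.lieSpan ℂ q {x : q | p.toSubmodule.mkQ x ∈ LinearMap.range j} = ⊤ ∧
    (∀ b ∈ p, ∃ B : W →L[ℂ] W,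
      (∀ (w : W) (x : q), p.toSubmodule.mkQ x = j w → p.toSubmodule.mkQ ⁅b, x⁆ = j (B w)) ∧
      ∀ s : ℂ, ∀ z ∈ Z, NormedSpace.exp (s • B) z ∈ Z) ∧
    φ ≠ 0 ∧ VanishesTo p k φ

/-- The affine cone over the plane conic. -/
def conic : Set (Fin 3 → ℂ) := {w | w 0 * w 2 = w 1 ^ 2}

/-- The affine cone over the Segre variety: `m × n` matrices of rank at most one. -/
def segreCone (m n : ℕ) : Set (Fin m → Fin n → ℂ) := {w | ∀ a b i j, w a i * w b j = w a j * w b i}

/-- The affine cone over the smooth quadric. -/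
def quadricCone (q : ℕ) : Set (Fin q → ℂ) := {w | ∑ i, w i ^ 2 = 0}

/-- `Z` contains an affine line that misses `0`. -/
def ContainsLine (W : Type) [NormedAddCommGroup W] [NormedSpace ℂ W] (Z : Set W) : Prop :=
  ∃ z v : W, v ≠ 0 ∧ ∀ s : ℂ, z + s • v ∈ Z ∧ z + s • v ≠ 0

/-- `Q` is a Lie algebra of holomorphic vector fields on `E`. -/
structure IsLieAlg {E : Type} [NormedAddCommGroup E] [NormedSpace ℂ E]
    (Q : Submodule ℂ (E → E)) : Prop where
  smooth : ∀ V ∈ Q, ContDiff ℂ ω V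
  bracket : ∀ V ∈ Q, ∀ W ∈ Q, VectorField.lieBracket ℂ V W ∈ Q

/-- `Q` is generated, as a Lie algebra, by its fields with value in `j W` at `0`. -/
def BracketGenerating {W E : Type} [NormedAddCommGroup W] [NormedSpace ℂ W]
    [NormedAddCommGroup E] [NormedSpace ℂ E] (Q : Submodule ℂ (E → E)) (j : W →ₗ[ℂ] E) : Prop :=
  ∀ S : Submodule ℂ (E → E), (∀ V ∈ Q, V 0 ∈ LinearMap.range j → V ∈ S) →
    (∀ V ∈ S, ∀ V' ∈ S, VectorField.lieBracket ℂ V V' ∈ S) → Q ≤ S

/-- The isotropy at `0` of `Q` preserves the cone `j Z`. -/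
def PreservesCone {W E : Type} [NormedAddCommGroup W] [NormedSpace ℂ W]
    [NormedAddCommGroup E] [NormedSpace ℂ E] (Q : Submodule ℂ (E → E)) (j : W →ₗ[ℂ] E)
    (Z : Set W) : Prop :=
  ∀ V ∈ Q, V 0 = 0 → ∀ s : ℂ, ∀ z ∈ Z, ∃ z' ∈ Z, NormedSpace.exp (s • fderiv ℂ V 0) (j z) = j z'

/-- `φ` vanishes at `0` to order at least `3`. -/
def VanishesToOrderThree {E : Type} [NormedAddCommGroup E] [NormedSpace ℂ E] (φ : E → E) : Prop :=
  φ 0 = 0 ∧ fderiv ℂ φ 0 = 0 ∧ fderiv ℂ (fderiv ℂ φ) 0 = 0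

/-- `(W, Z)` is the fibre at `0` of a locally homogeneous bracket-generating cone structure with
a finite-dimensional transitive Lie algebra `Q` of symmetries and a nonzero symmetry `φ ∈ Q`
vanishing at `0` to order at least `3`. -/
def HomogeneousFibre (W : Type) [NormedAddCommGroup W] [NormedSpace ℂ W] (Z : Set W) : Prop :=
  ∃ (E : Type) (_ : NormedAddCommGroup E) (_ : NormedSpace ℂ E) (Q : Submodule ℂ (E → E))
    (j : W →ₗ[ℂ] E) (φ : E → E),
    Function.Injective j ∧ FiniteDimensional ℂ Q ∧ IsLieAlg Q ∧ (∀ v : E, ∃ V ∈ Q, V 0 = v) ∧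
    BracketGenerating Q j ∧ PreservesCone Q j Z ∧ φ ∈ Q ∧ φ ≠ 0 ∧ VanishesToOrderThree φ

end Pool.Agent.Helper505.HC
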