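import Pool.Agent.Helper505.HCDefs

namespace Pool.Agent.Helper505.HC

open scoped ContDiff

section aux

open MvPolynomial

/-- iterated derivative of a function along a list of vector fields -/
noncomputable def iterD {E : Type} [NormedAddCommGroup E] [NormedSpace ℂ E] :
    List (E → E) → (E → ℂ) → (E → ℂ)
  | [], g => g
  | V :: l, g => fun y => fderiv ℂ (iterD l g) y (V y)

/-- a system of `ρ` vector fields with `N` solutions `(f s, p s)` of `X_j f_i = δ_ij p` -/
structure Sys {E : Type} [NormedAddCommGroup E] [NormedSpace ℂ E] {ρ N : ℕ}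
    (X : Fin ρ → E → E) (f : Fin N → Fin ρ → E → ℂ) (p : Fin N → E → ℂ) : Prop where
  hX : ∀ i, ContDiff ℂ ω (X i)
  hf : ∀ s i, ContDiff ℂ ω (f s i)
  hp : ∀ s, ContDiff ℂ ω (p s)
  f0 : ∀ s i, f s i 0 = 0
  rel : ∀ s i j y, fderiv ℂ (f s i) y (X j y) = if i = j then p s y else 0
  hx : ∃ x : Fin ρ → E → ℂ, (∀ i, Differentiable ℂ (x i)) ∧
    ∀ i j y, fderiv ℂ (x i) y (X j y) = if i = j then 1 else 0
  bg : ∀ y, Submodule.span ℂ {v : E | ∃ F : E → E, Generated X F ∧ F y = v} = ⊤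
  nd : ∀ y (c : Fin N → ℂ), (∀ l : List (E → E), l ≠ [] → (∀ V ∈ l, Generated X V) →
    ∑ s, c s * iterD l (p s) y = 0) → c = 0

/-- the new space -/
abbrev newE (E : Type) (N : ℕ) : Type := E × ((Fin N → ℂ) × ℂ)

/-- the new fields -/
noncomputable def newX {E : Type} [NormedAddCommGroup E] [NormedSpace ℂ E] {ρ N : ℕ}
    (X : Fin ρ → E → E) (p : Fin N → E → ℂ) :
    Fin (ρ + 1) → newE E N → newE E N :=
  Fin.cases (fun z => (0, (fun s => p s z.1, 1))) (fun i z => (X i z.1, 0))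

/-- the new solutions -/
noncomputable def newf {E : Type} {ρ N N' : ℕ}
    (f : Fin N → Fin ρ → E → ℂ) (P : Fin N' → MvPolynomial (Fin N) ℂ) :
    Fin N' → Fin (ρ + 1) → newE E N → ℂ := fun a =>
  Fin.cases (fun z => eval z.2.1 (P a))
    (fun i z => ∑ s, f s i z.1 * eval z.2.1 (pderiv s (P a)))

/-- the new common derivatives -/
noncomputable def newp {E : Type} {N N' : ℕ}
    (p : Fin N → E → ℂ) (P : Fin N' → MvPolynomial (Fin N) ℂ) :
    Fin N' → newE E N → ℂ := fun a z => ∑ s, p s z.1 * eval z.2.1 (pderiv s (P a))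

/-- the new solutions, on the smaller space (auxiliary) -/
noncomputable def newf0 {E : Type} {ρ N N' : ℕ}
    (f : Fin N → Fin ρ → E → ℂ) (P : Fin N' → MvPolynomial (Fin N) ℂ) :
    Fin N' → Fin (ρ + 1) → E × (Fin N → ℂ) → ℂ := fun a =>
  Fin.cases (fun z => eval z.2 (P a)) (fun i z => ∑ s, f s i z.1 * eval z.2 (pderiv s (P a)))

theorem eval_hasFDerivAt_aux {N : ℕ} (c : Fin N → ℂ) (v : Fin N → ℂ) :
    (∑ s, c s • (ContinuousLinearMap.proj (R := ℂ) (φ := fun _ : Fin N => ℂ) s)) v =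
      ∑ s, c s * v s := by
  rw [ContinuousLinearMap.sum_apply]
  rfl

theorem eval_hasFDerivAt {N : ℕ} (P : MvPolynomial (Fin N) ℂ) (u : Fin N → ℂ) :
    HasFDerivAt (fun v : Fin N → ℂ => eval v P)
      (∑ s, eval u (pderiv s P) • (ContinuousLinearMap.proj (R := ℂ) (φ := fun _ : Fin N => ℂ) s)) u := by
  induction P using MvPolynomial.induction_on with
  | C a =>
    have h : (∑ s, eval u (pderiv s (C a : MvPolynomial (Fin N) ℂ)) •
        (ContinuousLinearMap.proj (R := ℂ) (φ := fun _ : Fin N => ℂ) s)) = 0 := by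
      refine ContinuousLinearMap.ext fun v => ?_
      rw [eval_hasFDerivAt_aux]
      show _ = (0 : ℂ)
      refine Finset.sum_eq_zero fun s _ => ?_
      rw [pderiv_C, map_zero, zero_mul]
    rw [h]
    simp only [eval_C]
    exact hasFDerivAt_const _ _
  | add p q hp hq =>
    have h := hp.add hq
    have e : (∑ s, eval u (pderiv s p) •
          (ContinuousLinearMap.proj (R := ℂ) (φ := fun _ : Fin N => ℂ) s)) +
        (∑ s, eval u (pderiv s q) •
          (ContinuousLinearMap.proj (R := ℂ) (φ := fun _ : Fin N => ℂ) s)) =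
        ∑ s, eval u (pderiv s (p + q)) •
          (ContinuousLinearMap.proj (R := ℂ) (φ := fun _ : Fin N => ℂ) s) := by
      refine ContinuousLinearMap.ext fun v => ?_
      rw [ContinuousLinearMap.add_apply, eval_hasFDerivAt_aux, eval_hasFDerivAt_aux,
        eval_hasFDerivAt_aux, ← Finset.sum_add_distrib]
      refine Finset.sum_congr rfl fun s _ => ?_
      rw [map_add, map_add, add_mul]
    refine (h.congr_fderiv e).congr_of_eventuallyEq (Filter.Eventually.of_forall fun v => ?_)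
    exact map_add (eval v) p q
  | mul_X p n hp =>
    have hX : HasFDerivAt (fun v : Fin N → ℂ => v n)
        (ContinuousLinearMap.proj (R := ℂ) (φ := fun _ : Fin N => ℂ) n) u :=
      hasFDerivAt_apply n u
    have h := hp.mul hX
    have e : eval u p • (ContinuousLinearMap.proj (R := ℂ) (φ := fun _ : Fin N => ℂ) n) +
        u n • (∑ s, eval u (pderiv s p) •
          (ContinuousLinearMap.proj (R := ℂ) (φ := fun _ : Fin N => ℂ) s)) =
        ∑ s, eval u (pderiv s (p * X n)) •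
          (ContinuousLinearMap.proj (R := ℂ) (φ := fun _ : Fin N => ℂ) s) := by
      refine ContinuousLinearMap.ext fun v => ?_
      have e0 : (eval u p • (ContinuousLinearMap.proj (R := ℂ) (φ := fun _ : Fin N => ℂ) n) +
        u n • (∑ s, eval u (pderiv s p) •
          (ContinuousLinearMap.proj (R := ℂ) (φ := fun _ : Fin N => ℂ) s))) v =
          eval u p * v n + u n * (∑ s, eval u (pderiv s p) •
          (ContinuousLinearMap.proj (R := ℂ) (φ := fun _ : Fin N => ℂ) s)) v := rfl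
      rw [e0, eval_hasFDerivAt_aux, eval_hasFDerivAt_aux]
      have e1 : ∀ s, eval u (pderiv s (p * X n)) * v s =
          (if s = n then eval u p * v s else 0) + u n * (eval u (pderiv s p) * v s) := by
        intro s
        rw [Derivation.leibniz, smul_eq_mul, smul_eq_mul, map_add, map_mul, map_mul, eval_X,
          add_mul, mul_assoc (u n)]
        congr 1
        rw [pderiv_X]
        by_cases hs : s = n
        · subst hs
          rw [Pi.single_eq_same, map_one, mul_one, if_pos rfl]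
        · rw [Pi.single_eq_of_ne (Ne.symm hs), map_zero, mul_zero, zero_mul, if_neg hs]
      rw [Finset.sum_congr rfl fun s _ => e1 s, Finset.sum_add_distrib, ← Finset.mul_sum]
      congr 1
      rw [Finset.sum_ite_eq' Finset.univ n, if_pos (Finset.mem_univ n)]
    refine (h.congr_fderiv e).congr_of_eventuallyEq (Filter.Eventually.of_forall fun v => ?_)
    show eval v (p * X n) = eval v p * v n
    rw [map_mul, eval_X]

theorem eval_contDiff {N : ℕ} (P : MvPolynomial (Fin N) ℂ) :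
    ContDiff ℂ ω (fun v : Fin N → ℂ => eval v P) := by
  induction P using MvPolynomial.induction_on with
  | C a => simp only [eval_C]; exact contDiff_const
  | add p q hp hq => simp only [map_add]; exact hp.add hq
  | mul_X p n hp =>
    simp only [map_mul, eval_X]
    exact hp.mul (contDiff_apply ℂ ℂ n)

theorem eval_bound {N R : ℕ} (P : MvPolynomial (Fin N) ℂ) (hP : P.IsHomogeneous R) :
    ∃ C : ℝ, 0 ≤ C ∧ ∀ u : Fin N → ℂ, ‖eval u P‖ ≤ C * ‖u‖ ^ R := by
  refine ⟨∑ d ∈ P.support, ‖P.coeff d‖, Finset.sum_nonneg fun _ _ => norm_nonneg _, fun u => ?_⟩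
  rw [eval_eq', Finset.sum_mul]
  refine (norm_sum_le _ _).trans (Finset.sum_le_sum fun d hd => ?_)
  rw [norm_mul, norm_prod]
  refine mul_le_mul_of_nonneg_left ?_ (norm_nonneg _)
  have hR : ∑ i, d i = R := by
    have h := hP (mem_support_iff.1 hd)
    rw [← h, Finsupp.weight_apply, Finsupp.sum_fintype]
    · simp
    · intro i; simp
  calc ∏ i, ‖u i ^ d i‖ ≤ ∏ i, ‖u‖ ^ d i := by
        refine Finset.prod_le_prod (fun i _ => norm_nonneg _) fun i _ => ?_
        rw [norm_pow]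
        exact pow_le_pow_left₀ (norm_nonneg _) (norm_le_pi_norm u i) _
    _ = ‖u‖ ^ R := by rw [Finset.prod_pow_eq_pow_sum, hR]

theorem generated_contDiff {ι E : Type} [NormedAddCommGroup E] [NormedSpace ℂ E]
    (X : ι → E → E) (hX : ∀ i, ContDiff ℂ ω (X i)) (V : E → E) (hV : Generated X V) :
    ContDiff ℂ ω V := by
  induction hV with
  | base i => exact hX i
  | bracket F G _ _ hF hG =>
    have h1 : ContDiff ℂ ω (fun y => fderiv ℂ G y (F y)) :=
      (hG.fderiv_right (m := ω) le_top).clm_apply hF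
    have h2 : ContDiff ℂ ω (fun y => fderiv ℂ F y (G y)) :=
      (hF.fderiv_right (m := ω) le_top).clm_apply hG
    exact h1.sub h2

theorem iterD_contDiff {E : Type} [NormedAddCommGroup E] [NormedSpace ℂ E]
    (l : List (E → E)) (hl : ∀ V ∈ l, ContDiff ℂ ω V) (g : E → ℂ) (hg : ContDiff ℂ ω g) :
    ContDiff ℂ ω (iterD l g) := by
  induction l with
  | nil => exact hg
  | cons V l ih =>
    have h1 := ih (fun W hW => hl W (List.mem_cons_of_mem _ hW))
    have h2 := hl V List.mem_cons_self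
    have h3 : ContDiff ℂ ω (fun y => fderiv ℂ (iterD l g) y (V y)) :=
      (h1.fderiv_right (m := ω) le_top).clm_apply h2
    exact h3

theorem span_top_of_dual {N : ℕ} (S : Set (Fin N → ℂ))
    (h : ∀ c : Fin N → ℂ, (∀ v ∈ S, ∑ s, c s * v s = 0) → c = 0) :
    Submodule.span ℂ S = ⊤ := by
  classical
  by_contra hne
  obtain ⟨f, hf0, hf⟩ := Submodule.exists_le_ker_of_lt_top (Submodule.span ℂ S) (lt_top_iff_ne_top.mpr hne)
  have hfv : ∀ v : Fin N → ℂ, f v = ∑ s, f (Pi.single s 1) * v s := by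
    intro v
    have hv : v = ∑ s, v s • (Pi.single s 1 : Fin N → ℂ) := by
      funext t
      rw [Finset.sum_apply, Finset.sum_eq_single t]
      · simp
      · intro b _ hb
        rw [Pi.smul_apply, Pi.single_eq_of_ne (Ne.symm hb), smul_zero]
      · intro h; exact absurd (Finset.mem_univ _) h
    conv_lhs => rw [hv]
    rw [map_sum]
    apply Finset.sum_congr rfl
    intro s _
    rw [map_smul, smul_eq_mul, mul_comm]
  have hc := h (fun s => f (Pi.single s 1)) (by
    intro v hv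
    rw [← hfv v]
    exact hf (Submodule.subset_span hv))
  apply hf0
  apply LinearMap.ext
  intro v
  rw [hfv v]
  simp only [LinearMap.zero_apply]
  apply Finset.sum_eq_zero
  intro s _
  have := congrFun hc s
  simp only [Pi.zero_apply] at this
  rw [this, zero_mul]

/-- the directional derivative of a polynomial -/
noncomputable def dirD {N : ℕ} (v : Fin N → ℂ) (P : MvPolynomial (Fin N) ℂ) :
    MvPolynomial (Fin N) ℂ := ∑ t, C (v t) * pderiv t P

theorem dirD_exists_hom {N : ℕ} (v : Fin N → ℂ) (R : ℕ) (P : MvPolynomial (Fin N) ℂ)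
    (hP : P.IsHomogeneous (R + 1)) : (dirD v P).IsHomogeneous R := by
  unfold dirD
  apply IsHomogeneous.sum
  intro t _
  exact (hP.pderiv).C_mul _

/-- if the vectors in `S` span, a nonzero form of degree `R` has a nonzero constant iterated
directional derivative along vectors of `S` -/
theorem dirD_exists {N : ℕ} (S : Set (Fin N → ℂ)) (hS : Submodule.span ℂ S = ⊤) (R : ℕ) :
    ∀ P : MvPolynomial (Fin N) ℂ, P.IsHomogeneous R → P ≠ 0 →
      ∃ L : List (Fin N → ℂ), L.length = R ∧ (∀ v ∈ L, v ∈ S) ∧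
        ∃ c : ℂ, c ≠ 0 ∧ L.foldr dirD P = C c := by
  classical
  induction R with
  | zero =>
    intro P hP hP0
    have h1 : P = C (P.coeff 0) := by
      rw [← totalDegree_eq_zero_iff_eq_C]
      exact hP.totalDegree hP0
    refine ⟨[], rfl, by simp, P.coeff 0, ?_, ?_⟩
    · intro h
      rw [h, C_0] at h1
      exact hP0 h1
    · exact h1
  | succ R ih =>
    intro P hP hP0
    have hex : ∃ v ∈ S, dirD v P ≠ 0 := by
      by_contra hcon
      push Not at hcon
      have hall : ∀ v : Fin N → ℂ, dirD v P = 0 := by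
        intro v
        have hv : v ∈ Submodule.span ℂ S := by rw [hS]; trivial
        induction hv using Submodule.span_induction with
        | mem x hx => exact hcon x hx
        | zero => simp [dirD]
        | add x y _ _ hx hy =>
          unfold dirD at hx hy ⊢
          have : ∑ t, C ((x + y) t) * pderiv t P = ∑ t, C (x t) * pderiv t P +
              ∑ t, C (y t) * pderiv t P := by
            rw [← Finset.sum_add_distrib]
            refine Finset.sum_congr rfl fun t _ => ?_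
            rw [Pi.add_apply, C_add, add_mul]
          rw [this, hx, hy, add_zero]
        | smul a x _ hx =>
          unfold dirD at hx ⊢
          have : ∑ t, C ((a • x) t) * pderiv t P = C a * ∑ t, C (x t) * pderiv t P := by
            rw [Finset.mul_sum]
            refine Finset.sum_congr rfl fun t _ => ?_
            rw [Pi.smul_apply, smul_eq_mul, C_mul, mul_assoc]
          rw [this, hx, mul_zero]
      have hpd : ∀ s, pderiv s P = 0 := by
        intro s
        have h1 := hall (Pi.single s 1)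
        unfold dirD at h1
        rw [Finset.sum_eq_single s] at h1
        · simpa using h1
        · intro b _ hb
          rw [Pi.single_eq_of_ne hb, C_0, zero_mul]
        · intro h
          exact absurd (Finset.mem_univ s) h
      have heu := hP.sum_X_mul_pderiv
      simp only [hpd, mul_zero, Finset.sum_const_zero] at heu
      rw [nsmul_eq_mul] at heu
      rcases mul_eq_zero.1 heu.symm with h | h
      · have h2 : ((R + 1 : ℕ) : MvPolynomial (Fin N) ℂ) ≠ 0 := by
          exact_mod_cast Nat.succ_ne_zero R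
        exact h2 h
      · exact hP0 h
    obtain ⟨v, hv, hvP⟩ := hex
    obtain ⟨L, hL1, hL2, c, hc, hL3⟩ := ih (dirD v P) (dirD_exists_hom v R P hP) hvP
    refine ⟨L ++ [v], by simp [hL1], ?_, c, hc, ?_⟩
    · intro w hw
      rw [List.mem_append, List.mem_singleton] at hw
      rcases hw with hw | hw
      · exact hL2 w hw
      · rw [hw]; exact hv
    · rw [List.foldr_append]
      exact hL3

theorem ker_basis899 {V W ι : Type*} [AddCommGroup V] [Module ℂ V] [AddCommGroup W] [Module ℂ W]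
    [Fintype ι] [Module.Finite ℂ V] [Module.Finite ℂ W] (D : ι → V →ₗ[ℂ] W) :
    ∃ (N' : ℕ) (P : Fin N' → V), LinearIndependent ℂ P ∧ (∀ a i, D i (P a) = 0) ∧
      Module.finrank ℂ V ≤ N' + Fintype.card ι * Module.finrank ℂ W := by
  classical
  let L : V →ₗ[ℂ] (ι → W) := LinearMap.pi D
  let b := Module.finBasis ℂ (LinearMap.ker L)
  refine ⟨Module.finrank ℂ (LinearMap.ker L), fun a => (b a : V), ?_, ?_, ?_⟩
  · exact b.linearIndependent.map' (LinearMap.ker L).subtype (Submodule.ker_subtype _)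
  · intro a i
    have h4 : L (b a : V) = 0 := (b a).2
    exact congrFun h4 i
  · have h8 := LinearMap.finrank_range_add_finrank_ker L
    have h9 : Module.finrank ℂ (LinearMap.range L) ≤ Module.finrank ℂ (ι → W) :=
      Submodule.finrank_le _
    rw [Module.finrank_pi_fintype, Finset.sum_const, Finset.card_univ, smul_eq_mul] at h9
    omega

/-- the constraint maps -/
noncomputable def cmap899 {N : ℕ} (c : Fin N → Fin N → ℂ) :
    MvPolynomial (Fin N) ℂ →ₗ[ℂ] MvPolynomial (Fin N) ℂ :=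
  ∑ s, ∑ t, c s t • ((pderiv s).toLinearMap ∘ₗ (pderiv t).toLinearMap)

theorem cmap899_apply {N : ℕ} (c : Fin N → Fin N → ℂ) (P : MvPolynomial (Fin N) ℂ) :
    cmap899 c P = ∑ s, ∑ t, c s t • pderiv s (pderiv t P) := by
  simp [cmap899, LinearMap.sum_apply]

theorem cmap899_mem {N : ℕ} (c : Fin N → Fin N → ℂ) (R : ℕ) (P : MvPolynomial (Fin N) ℂ)
    (hP : P ∈ homogeneousSubmodule (Fin N) ℂ R) :
    cmap899 c P ∈ homogeneousSubmodule (Fin N) ℂ (R - 2) := by
  rw [cmap899_apply]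
  refine Submodule.sum_mem _ fun s _ => Submodule.sum_mem _ fun t _ => Submodule.smul_mem _ _ ?_
  rw [mem_homogeneousSubmodule] at hP ⊢
  have h1 := (hP.pderiv (i := t)).pderiv (i := s)
  have h2 : R - 1 - 1 = R - 2 := by omega
  rwa [h2] at h1

theorem comb899 {N q : ℕ} (c : Fin N → Fin N → Fin q → ℂ) (G : Fin q → ℂ)
    (Q : MvPolynomial (Fin N) ℂ)
    (h3 : ∀ e : Fin q, ∑ s, ∑ t, c s t e • pderiv s (pderiv t Q) = 0) (F : Fin N → Fin N → ℂ)
    (h6 : ∀ s t, F s t = ∑ e, c s t e * G e) :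
    ∑ s, ∑ t, C (F s t) * pderiv s (pderiv t Q) = 0 := by
  have h1 : ∀ s t, C (F s t) * pderiv s (pderiv t Q) =
      ∑ e, G e • (c s t e • pderiv s (pderiv t Q)) := by
    intro s t
    rw [← smul_eq_C_mul, h6, Finset.sum_smul]
    refine Finset.sum_congr rfl fun e _ => ?_
    rw [smul_smul, mul_comm]
  calc ∑ s, ∑ t, C (F s t) * pderiv s (pderiv t Q)
      = ∑ s, ∑ t, ∑ e, G e • (c s t e • pderiv s (pderiv t Q)) :=
        Finset.sum_congr rfl fun s _ => Finset.sum_congr rfl fun t _ => h1 s t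
    _ = ∑ s, ∑ e, ∑ t, G e • (c s t e • pderiv s (pderiv t Q)) :=
        Finset.sum_congr rfl fun s _ => Finset.sum_comm
    _ = ∑ e, ∑ s, ∑ t, G e • (c s t e • pderiv s (pderiv t Q)) := Finset.sum_comm
    _ = ∑ e, G e • ∑ s, ∑ t, c s t e • pderiv s (pderiv t Q) := by
        simp only [Finset.smul_sum]
    _ = 0 := by simp only [h3, smul_zero, Finset.sum_const_zero]

/-- all forms satisfying the quadratic constraints: there are many -/
theorem exists_forms {E : Type} {ρ N q R : ℕ} (hR : 2 ≤ R)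
    (f : Fin N → Fin ρ → E → ℂ) (g : Fin q → E → ℂ)
    (hg : ∀ s t i j, (fun y => f s i y * f t j y) ∈ Submodule.span ℂ (Set.range g))
    (hfin : ∀ D, FiniteDimensional ℂ (homogeneousSubmodule (Fin N) ℂ D)) :
    ∃ (N' : ℕ) (P : Fin N' → MvPolynomial (Fin N) ℂ), LinearIndependent ℂ P ∧
      (∀ a, (P a).IsHomogeneous R) ∧
      (∀ a i j y, ∑ s, ∑ t, C (f s i y * f t j y) * pderiv s (pderiv t (P a)) = 0) ∧
      Module.finrank ℂ (homogeneousSubmodule (Fin N) ℂ R) ≤
        N' + ρ ^ 2 * q * Module.finrank ℂ (homogeneousSubmodule (Fin N) ℂ (R - 2)) := by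
  classical
  have h1 : ∀ s t i j, ∃ c : Fin q → ℂ, ∑ a, c a • g a = fun y => f s i y * f t j y :=
    fun s t i j => (Submodule.mem_span_range_iff_exists_fun ℂ).1 (hg s t i j)
  choose c hc using h1
  have i1 : Module.Finite ℂ (homogeneousSubmodule (Fin N) ℂ R) := hfin _
  have i2 : Module.Finite ℂ (homogeneousSubmodule (Fin N) ℂ (R - 2)) := hfin _
  obtain ⟨N', P, hP1, hP2, hP3⟩ := ker_basis899 (V := homogeneousSubmodule (Fin N) ℂ R)
    (W := homogeneousSubmodule (Fin N) ℂ (R - 2)) (ι := Fin ρ × Fin ρ × Fin q)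
    (fun w => (cmap899 (fun s t => c s t w.1 w.2.1 w.2.2)).restrict
      (cmap899_mem (fun s t => c s t w.1 w.2.1 w.2.2) R))
  refine ⟨N', fun a => (P a : MvPolynomial (Fin N) ℂ), ?_, ?_, ?_, ?_⟩
  · exact hP1.map' (homogeneousSubmodule (Fin N) ℂ R).subtype (Submodule.ker_subtype _)
  · intro a
    exact (mem_homogeneousSubmodule _ _).1 (P a).2
  · intro a i j y
    refine comb899 (fun s t e => c s t i j e) (fun e => g e y) _ ?_ (fun s t => f s i y * f t j y) ?_
    · intro e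
      rw [← cmap899_apply (fun s t => c s t i j e)]
      exact congrArg Subtype.val (hP2 a (i, j, e))
    · intro s t
      have h7 := congrFun (hc s t i j) y
      simp only [Finset.sum_apply, Pi.smul_apply, smul_eq_mul] at h7
      exact h7.symm
  · rw [Fintype.card_prod, Fintype.card_prod, Fintype.card_fin, Fintype.card_fin] at hP3
    have h10 : ρ * (ρ * q) = ρ ^ 2 * q := by ring
    rwa [h10] at hP3

/-- the monomial basis of the space of forms -/
noncomputable def basis_homog (N D : ℕ) :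
    Module.Basis {d : Fin N →₀ ℕ | d.degree = D} ℂ (homogeneousSubmodule (Fin N) ℂ D) :=
  (basisRestrictSupport ℂ {d : Fin N →₀ ℕ | d.degree = D}).map
    (LinearEquiv.ofEq _ _ (homogeneousSubmodule_eq_finsupp_supported (R := ℂ) (Fin N) D).symm)

/-- multi-indices of degree `D` -/
noncomputable def equiv_homog (N D : ℕ) : Sym (Fin N) D ≃ {d : Fin N →₀ ℕ | d.degree = D} :=
  (Sym.equivNatSum (Fin N) D).trans (Equiv.subtypeEquivRight fun _ => Iff.rfl)

theorem finrank_homog (N D : ℕ) :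
    Module.finrank ℂ (homogeneousSubmodule (Fin N) ℂ D) = Nat.multichoose N D := by
  rw [Module.finrank_eq_nat_card_basis (basis_homog N D), ← Nat.card_congr (equiv_homog N D),
    Nat.card_eq_fintype_card, Sym.card_sym_eq_multichoose, Fintype.card_fin]

theorem finDim_homog (N D : ℕ) : FiniteDimensional ℂ (homogeneousSubmodule (Fin N) ℂ D) := by
  have : Finite {d : Fin N →₀ ℕ | d.degree = D} := Finite.of_equiv _ (equiv_homog N D)
  exact Module.Finite.of_basis (basis_homog N D)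

/-- the linear map whose range contains the products -/
noncomputable def npT {E : Type} {ρ N q : ℕ} (R : ℕ)
    (f : Fin N → Fin ρ → E → ℂ) (g : Fin q → E → ℂ) :
    ((homogeneousSubmodule (Fin N) ℂ (2 * R)) ×
      (Fin ρ → Fin N → homogeneousSubmodule (Fin N) ℂ (2 * R - 1)) ×
      (Fin q → homogeneousSubmodule (Fin N) ℂ (2 * R - 2))) →ₗ[ℂ] (E × (Fin N → ℂ) → ℂ) where
  toFun Q := fun z => eval z.2 (Q.1 : MvPolynomial (Fin N) ℂ) +
    (∑ i, ∑ s, f s i z.1 * eval z.2 (Q.2.1 i s : MvPolynomial (Fin N) ℂ)) +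
    ∑ a, g a z.1 * eval z.2 (Q.2.2 a : MvPolynomial (Fin N) ℂ)
  map_add' Q Q' := by
    funext z
    simp only [Prod.fst_add, Prod.snd_add, Pi.add_apply, Submodule.coe_add, map_add, mul_add,
      Finset.sum_add_distrib]
    ring
  map_smul' c Q := by
    funext z
    simp only [Prod.smul_fst, Prod.smul_snd, Pi.smul_apply, Submodule.coe_smul, smul_eval,
      RingHom.id_apply, smul_eq_mul, mul_add, Finset.mul_sum, mul_left_comm]

theorem npT_apply {E : Type} {ρ N q : ℕ} (R : ℕ)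
    (f : Fin N → Fin ρ → E → ℂ) (g : Fin q → E → ℂ) (Q : (homogeneousSubmodule (Fin N) ℂ (2 * R)) ×
      (Fin ρ → Fin N → homogeneousSubmodule (Fin N) ℂ (2 * R - 1)) ×
      (Fin q → homogeneousSubmodule (Fin N) ℂ (2 * R - 2))) (z : E × (Fin N → ℂ)) :
    npT R f g Q z = eval z.2 (Q.1 : MvPolynomial (Fin N) ℂ) +
    (∑ i, ∑ s, f s i z.1 * eval z.2 (Q.2.1 i s : MvPolynomial (Fin N) ℂ)) +
    ∑ a, g a z.1 * eval z.2 (Q.2.2 a : MvPolynomial (Fin N) ℂ) := rfl

theorem np_m0 {E : Type} {ρ N q : ℕ} (R : ℕ)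
    (f : Fin N → Fin ρ → E → ℂ) (g : Fin q → E → ℂ) (Q : MvPolynomial (Fin N) ℂ)
    (hQ : Q.IsHomogeneous (2 * R)) :
    (fun z : E × (Fin N → ℂ) => eval z.2 Q) ∈ LinearMap.range (npT R f g) := by
  refine ⟨(⟨Q, hQ⟩, 0, 0), ?_⟩
  funext z
  rw [npT_apply]
  simp

theorem np_m1 {E : Type} {ρ N q : ℕ} (R : ℕ)
    (f : Fin N → Fin ρ → E → ℂ) (g : Fin q → E → ℂ) (Q : MvPolynomial (Fin N) ℂ)
    (hQ : Q.IsHomogeneous (2 * R - 1)) (i : Fin ρ) (s : Fin N) :
    (fun z : E × (Fin N → ℂ) => f s i z.1 * eval z.2 Q) ∈ LinearMap.range (npT R f g) := by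
  refine ⟨(0, fun i' s' => if i' = i ∧ s' = s then ⟨Q, hQ⟩ else 0, 0), ?_⟩
  funext z
  rw [npT_apply]
  simp only [ZeroMemClass.coe_zero, map_zero, Pi.zero_apply, mul_zero, Finset.sum_const_zero,
    add_zero, zero_add]
  rw [Finset.sum_eq_single i, Finset.sum_eq_single s]
  · rw [if_pos ⟨rfl, rfl⟩]
  · intro s' _ hs
    rw [if_neg (fun h => hs h.2)]
    simp
  · intro h
    exact absurd (Finset.mem_univ _) h
  · intro i' _ hi
    refine Finset.sum_eq_zero (fun s' _ => ?_)
    rw [if_neg (fun h => hi h.1)]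
    simp
  · intro h
    exact absurd (Finset.mem_univ _) h

theorem np_m2 {E : Type} {ρ N q : ℕ} (R : ℕ)
    (f : Fin N → Fin ρ → E → ℂ) (g : Fin q → E → ℂ) (Q : MvPolynomial (Fin N) ℂ)
    (hQ : Q.IsHomogeneous (2 * R - 2)) (a : Fin q) :
    (fun z : E × (Fin N → ℂ) => g a z.1 * eval z.2 Q) ∈ LinearMap.range (npT R f g) := by
  refine ⟨(0, 0, fun a' => if a' = a then ⟨Q, hQ⟩ else 0), ?_⟩
  funext z
  rw [npT_apply]
  simp only [ZeroMemClass.coe_zero, map_zero, Pi.zero_apply, mul_zero, Finset.sum_const_zero,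
    add_zero, zero_add]
  rw [Finset.sum_eq_single a]
  · rw [if_pos rfl]
  · intro a' _ ha
    rw [if_neg ha]
    simp
  · intro h
    exact absurd (Finset.mem_univ _) h

theorem np_m3 {E : Type} {ρ N q : ℕ} (R : ℕ)
    (f : Fin N → Fin ρ → E → ℂ) (g : Fin q → E → ℂ) (Q : MvPolynomial (Fin N) ℂ)
    (hQ : Q.IsHomogeneous (2 * R - 2)) (h : E → ℂ) (hh : h ∈ Submodule.span ℂ (Set.range g)) :
    (fun z : E × (Fin N → ℂ) => h z.1 * eval z.2 Q) ∈ LinearMap.range (npT R f g) := by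
  induction hh using Submodule.span_induction with
  | mem x hx =>
    obtain ⟨a, rfl⟩ := hx
    exact np_m2 R f g Q hQ a
  | zero =>
    have : (fun z : E × (Fin N → ℂ) => (0 : E → ℂ) z.1 * eval z.2 Q) = 0 := by
      funext z
      simp
    rw [this]
    exact Submodule.zero_mem _
  | add x y _ _ hx hy =>
    have : (fun z : E × (Fin N → ℂ) => (x + y) z.1 * eval z.2 Q) =
        (fun z => x z.1 * eval z.2 Q) + (fun z => y z.1 * eval z.2 Q) := by
      funext z
      simp [add_mul]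
    rw [this]
    exact Submodule.add_mem _ hx hy
  | smul c x _ hx =>
    have : (fun z : E × (Fin N → ℂ) => (c • x) z.1 * eval z.2 Q) =
        c • (fun z : E × (Fin N → ℂ) => x z.1 * eval z.2 Q) := by
      funext z
      simp [mul_assoc]
    rw [this]
    exact Submodule.smul_mem _ _ hx

/-- the products of the new solutions lie in a space of controlled dimension -/
theorem new_products0 {E : Type} {ρ N N' q R : ℕ} (hR : 1 ≤ R)
    (f : Fin N → Fin ρ → E → ℂ) (g : Fin q → E → ℂ)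
    (hg : ∀ s t i j, (fun y => f s i y * f t j y) ∈ Submodule.span ℂ (Set.range g))
    (P : Fin N' → MvPolynomial (Fin N) ℂ) (hP : ∀ a, (P a).IsHomogeneous R)
    (hfin : ∀ D, FiniteDimensional ℂ (homogeneousSubmodule (Fin N) ℂ D)) :
    ∃ (q' : ℕ) (g' : Fin q' → E × (Fin N → ℂ) → ℂ),
      (∀ a b i j, (fun z => newf0 f P a i z * newf0 f P b j z) ∈
        Submodule.span ℂ (Set.range g')) ∧
      q' ≤ Module.finrank ℂ (homogeneousSubmodule (Fin N) ℂ (2 * R)) +
        ρ * N * Module.finrank ℂ (homogeneousSubmodule (Fin N) ℂ (2 * R - 1)) +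
        q * Module.finrank ℂ (homogeneousSubmodule (Fin N) ℂ (2 * R - 2)) := by
  have hpd : ∀ a s, (pderiv s (P a)).IsHomogeneous (R - 1) := fun a s => (hP a).pderiv
  have key : ∀ a b i j, (fun z => newf0 f P a i z * newf0 f P b j z) ∈
      LinearMap.range (npT R f g) := by
    intro a b i j
    have hmix : ∀ a b (j : Fin ρ), (fun z : E × (Fin N → ℂ) => eval z.2 (P a) *
        ∑ s, f s j z.1 * eval z.2 (pderiv s (P b))) ∈ LinearMap.range (npT R f g) := by
      intro a b j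
      have h1 : (fun z : E × (Fin N → ℂ) => eval z.2 (P a) *
          ∑ s, f s j z.1 * eval z.2 (pderiv s (P b))) =
          ∑ s, fun z : E × (Fin N → ℂ) => f s j z.1 * eval z.2 (P a * pderiv s (P b)) := by
        funext z
        rw [Finset.sum_apply, Finset.mul_sum]
        refine Finset.sum_congr rfl (fun s _ => ?_)
        rw [map_mul]
        ring
      rw [h1]
      refine Submodule.sum_mem _ (fun s _ => ?_)
      apply np_m1
      have h2 := (hP a).mul (hpd b s)
      have h3 : R + (R - 1) = 2 * R - 1 := by omega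
      rwa [h3] at h2
    refine Fin.cases ?_ (fun i => ?_) i
    · refine Fin.cases ?_ (fun j => ?_) j
      · have h1 := np_m0 R f g (P a * P b) (by
          have := (hP a).mul (hP b)
          rwa [← two_mul] at this)
        have h2 : (fun z => newf0 f P a 0 z * newf0 f P b 0 z) =
            (fun z : E × (Fin N → ℂ) => eval z.2 (P a * P b)) := by
          funext z
          rw [map_mul]
          rfl
        rw [h2]
        exact h1
      · exact hmix a b j
    · refine Fin.cases ?_ (fun j => ?_) j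
      · have h1 := hmix b a i
        have h2 : (fun z => newf0 f P a i.succ z * newf0 f P b 0 z) =
            (fun z : E × (Fin N → ℂ) => eval z.2 (P b) *
              ∑ s, f s i z.1 * eval z.2 (pderiv s (P a))) := by
          funext z
          exact mul_comm _ _
        rw [h2]
        exact h1
      · have h1 : (fun z => newf0 f P a i.succ z * newf0 f P b j.succ z) =
            ∑ s, ∑ t, fun z : E × (Fin N → ℂ) => (fun y => f s i y * f t j y) z.1 *
              eval z.2 (pderiv s (P a) * pderiv t (P b)) := by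
          funext z
          have h2 : newf0 f P a i.succ z * newf0 f P b j.succ z =
            (∑ s, f s i z.1 * eval z.2 (pderiv s (P a))) *
              ∑ t, f t j z.1 * eval z.2 (pderiv t (P b)) := rfl
          rw [h2, Finset.sum_apply, Finset.sum_mul]
          refine Finset.sum_congr rfl (fun s _ => ?_)
          rw [Finset.sum_apply, Finset.mul_sum]
          refine Finset.sum_congr rfl (fun t _ => ?_)
          rw [map_mul]
          ring
        rw [h1]
        refine Submodule.sum_mem _ (fun s _ => Submodule.sum_mem _ (fun t _ => ?_))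
        apply np_m3 R f g _ _ (fun y => f s i y * f t j y) (hg s t i j)
        have h2 := (hpd a s).mul (hpd b t)
        have h3 : (R - 1) + (R - 1) = 2 * R - 2 := by omega
        rwa [h3] at h2
  haveI := hfin (2 * R)
  haveI := hfin (2 * R - 1)
  haveI := hfin (2 * R - 2)
  let b := Module.finBasis ℂ (LinearMap.range (npT (E := E) R f g))
  refine ⟨Module.finrank ℂ (LinearMap.range (npT (E := E) R f g)), fun k => (b k : _), ?_, ?_⟩
  · have hspan : Submodule.span ℂ (Set.range (fun k => ((b k : LinearMap.range (npT (E := E) R f g)) :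
        E × (Fin N → ℂ) → ℂ))) = LinearMap.range (npT (E := E) R f g) := by
      have h1 : Set.range (fun k => ((b k : LinearMap.range (npT (E := E) R f g)) :
        E × (Fin N → ℂ) → ℂ)) =
        (LinearMap.range (npT (E := E) R f g)).subtype '' Set.range b := by
        rw [← Set.range_comp]
        rfl
      rw [h1, ← Submodule.map_span, b.span_eq, Submodule.map_top, Submodule.range_subtype]
    intro a b' i j
    rw [hspan]
    exact key a b' i j
  · refine (LinearMap.finrank_range_le (npT (E := E) R f g)).trans (le_of_eq ?_)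
    rw [Module.finrank_prod, Module.finrank_prod, Module.finrank_pi_fintype,
      Module.finrank_pi_fintype]
    simp only [Module.finrank_pi_fintype, Finset.sum_const, Finset.card_univ, Fintype.card_fin,
      smul_eq_mul]
    ring

theorem num_step_fac (N k : ℕ) : k.factorial * Nat.multichoose N k = N.ascFactorial k := by
  rw [Nat.ascFactorial_eq_factorial_mul_choose', Nat.multichoose_eq]

theorem num_step_rec (N k : ℕ) :
    (k + 1) * Nat.multichoose N (k + 1) = (N + k) * Nat.multichoose N k := by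
  have h1 := num_step_fac N (k + 1)
  have h2 := num_step_fac N k
  rw [Nat.ascFactorial_succ, ← h2, Nat.factorial_succ] at h1
  have h3 : k.factorial * ((k + 1) * Nat.multichoose N (k + 1))
      = k.factorial * ((N + k) * Nat.multichoose N k) := by
    calc k.factorial * ((k + 1) * Nat.multichoose N (k + 1))
        = (k + 1) * k.factorial * Nat.multichoose N (k + 1) := by ring
      _ = (N + k) * (k.factorial * Nat.multichoose N k) := h1
      _ = _ := by ring
  exact Nat.eq_of_mul_eq_mul_left (Nat.factorial_pos k) h3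

theorem num_step_ge (N k : ℕ) (hN : 1 ≤ N) : N ≤ Nat.multichoose N (k + 1) := by
  induction k with
  | zero => simp
  | succ k ih =>
    refine ih.trans ?_
    have h := num_step_rec N (k + 1)
    have h2 : (k + 1 + 1) * Nat.multichoose N (k + 1) ≤ (N + (k + 1)) * Nat.multichoose N (k + 1) :=
      Nat.mul_le_mul_right _ (by omega)
    rw [← h] at h2
    exact Nat.le_of_mul_le_mul_left h2 (by omega)

theorem num_step_sq (N k : ℕ) :
    N ^ 2 * Nat.multichoose N k ≤ (k + 2) ^ 2 * Nat.multichoose N (k + 2) := by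
  have h1 := num_step_rec N k
  have h2 := num_step_rec N (k + 1)
  have h3 : (k + 1) * (k + 2) * Nat.multichoose N (k + 2)
      = (N + k) * (N + (k + 1)) * Nat.multichoose N k := by
    calc (k + 1) * (k + 2) * Nat.multichoose N (k + 2)
        = (k + 1) * ((k + 1 + 1) * Nat.multichoose N (k + 1 + 1)) := by ring_nf
      _ = (N + (k + 1)) * ((k + 1) * Nat.multichoose N (k + 1)) := by rw [h2]; ring
      _ = _ := by rw [h1]; ring
  calc N ^ 2 * Nat.multichoose N k ≤ (N + k) * (N + (k + 1)) * Nat.multichoose N k := by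
        apply Nat.mul_le_mul_right
        nlinarith
    _ = (k + 1) * (k + 2) * Nat.multichoose N (k + 2) := h3.symm
    _ ≤ _ := by
        apply Nat.mul_le_mul_right
        nlinarith

theorem num_step_pow (N K : ℕ) (hN : 2 * K ^ 2 ≤ N) (hN1 : 1 ≤ N) :
    (N + K) ^ K ≤ 2 * N ^ K := by
  have hNr : (0 : ℝ) < N := by exact_mod_cast hN1
  have hKN : (2 : ℝ) * (K : ℝ) ^ 2 ≤ N := by exact_mod_cast hN
  have hKN' : (K : ℝ) / N ≤ 1 := by
    rw [div_le_one hNr]
    have h1 : (K : ℝ) ≤ (K : ℝ) ^ 2 := by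
      exact_mod_cast Nat.le_self_pow (by norm_num) K
    nlinarith [sq_nonneg (K : ℝ)]
  have hb : (1 : ℝ) + (K : ℝ) * (-((K : ℝ) / N)) ≤ (1 + -((K : ℝ) / N)) ^ K :=
    one_add_mul_le_pow (by linarith) K
  have h2 : (1 : ℝ) / 2 ≤ (1 + -((K : ℝ) / N)) ^ K := by
    refine le_trans ?_ hb
    have : (K : ℝ) * ((K : ℝ) / N) ≤ 1 / 2 := by
      rw [← mul_div_assoc, div_le_iff₀ hNr]
      nlinarith
    linarith
  have h3 : ((N : ℝ) + K) ^ K * (1 + -((K : ℝ) / N)) ^ K ≤ (N : ℝ) ^ K := by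
    rw [← mul_pow]
    apply pow_le_pow_left₀
    · apply mul_nonneg (by positivity)
      linarith
    · have : ((N : ℝ) + K) * (1 + -((K : ℝ) / N)) = N - (K : ℝ) ^ 2 / N := by
        field_simp
        ring
      rw [this]
      have : 0 ≤ (K : ℝ) ^ 2 / N := by positivity
      linarith
  have h4 : ((N : ℝ) + K) ^ K * (1 / 2) ≤ (N : ℝ) ^ K :=
    (mul_le_mul_of_nonneg_left h2 (by positivity)).trans h3
  have h5 : ((N : ℝ) + K) ^ K ≤ 2 * (N : ℝ) ^ K := by linarith
  exact_mod_cast h5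

theorem num_step_two (R : ℕ) (hR : 4 ≤ R) : R ^ 2 ≤ 2 ^ R := by
  induction R, hR using Nat.le_induction with
  | base => norm_num
  | succ n hn ih =>
    rw [pow_succ 2 n]
    nlinarith

theorem num_step_cb (ρ m' R : ℕ) (hR : R = 32 * m' * (1 + ρ) + 4) :
    8 * m' * (2 + ρ * (2 * R)) ≤ Nat.centralBinom R := by
  have h1 := Nat.four_pow_le_two_mul_self_mul_centralBinom R (by omega)
  have h2 := num_step_two R (by omega)
  have h3 : 32 * m' * (1 + ρ) ≤ 2 ^ R := by
    have : R < 2 ^ R := Nat.lt_two_pow_self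
    omega
  have h4 : 32 * m' * (1 + ρ) * R ^ 2 ≤ 4 ^ R := by
    calc 32 * m' * (1 + ρ) * R ^ 2 ≤ 2 ^ R * 2 ^ R := Nat.mul_le_mul h3 h2
      _ = 4 ^ R := by
        rw [← mul_pow]
        norm_num
  have h5 : 2 * R * (8 * m' * (2 + ρ * (2 * R))) ≤ 32 * m' * (1 + ρ) * R ^ 2 := by
    have h6 : 2 * R * (8 * m' * (2 + ρ * (2 * R))) = 32 * m' * (R * (1 + ρ * R)) := by ring
    have h7 : 32 * m' * (1 + ρ) * R ^ 2 = 32 * m' * (R * (R + ρ * R)) := by ring
    rw [h6, h7]
    apply Nat.mul_le_mul_left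
    apply Nat.mul_le_mul_left
    omega
  have h8 : 2 * R * (8 * m' * (2 + ρ * (2 * R))) ≤ 2 * R * Nat.centralBinom R :=
    (h5.trans h4).trans h1
  exact Nat.le_of_mul_le_mul_left h8 (by omega)

/-- the numerical lemma for the inductive step -/
theorem num_step (ρ m' : ℕ) : ∃ R m : ℕ, 2 ≤ R ∧ ∀ N q N' : ℕ, m ≤ N → m * q ≤ N ^ 2 →
    Nat.multichoose N R ≤ N' + ρ ^ 2 * q * Nat.multichoose N (R - 2) →
    m' ≤ N' ∧
    m' * (Nat.multichoose N (2 * R) + ρ * N * Nat.multichoose N (2 * R - 1) +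
      q * Nat.multichoose N (2 * R - 2)) ≤ N' ^ 2 := by
  obtain ⟨R, hR⟩ : ∃ R, R = 32 * m' * (1 + ρ) + 4 := ⟨_, rfl⟩
  have hcb := num_step_cb ρ m' R hR
  have hR4 : 4 ≤ R := by omega
  refine ⟨R, 2 * ρ ^ 2 * R ^ 2 + 2 * m' + 8 * R ^ 2 + 1, by omega, ?_⟩
  intro N q N' hN hq hN'
  obtain ⟨r, rfl⟩ : ∃ r, R = r + 2 := ⟨R - 2, by omega⟩
  have hr2 : r + 2 - 2 = r := by omega
  rw [hr2] at hN'
  have hN1 : 1 ≤ N := by omega
  set m : ℕ := 2 * ρ ^ 2 * (r + 2) ^ 2 + 2 * m' + 8 * (r + 2) ^ 2 + 1 with hm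
  -- step 1
  have s1 : 2 * (ρ ^ 2 * q * Nat.multichoose N r) ≤ Nat.multichoose N (r + 2) := by
    have h1 := num_step_sq N r
    have h2 : (r + 2) ^ 2 * (2 * (ρ ^ 2 * q * Nat.multichoose N r))
        ≤ (r + 2) ^ 2 * Nat.multichoose N (r + 2) := by
      refine le_trans ?_ h1
      have h3 : m * q * Nat.multichoose N r ≤ N ^ 2 * Nat.multichoose N r :=
        Nat.mul_le_mul_right _ hq
      refine le_trans ?_ h3
      have h4 : (r + 2) ^ 2 * (2 * (ρ ^ 2 * q * Nat.multichoose N r))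
          = (2 * ρ ^ 2 * (r + 2) ^ 2) * q * Nat.multichoose N r := by ring
      rw [h4]
      apply Nat.mul_le_mul_right
      apply Nat.mul_le_mul_right
      omega
    exact Nat.le_of_mul_le_mul_left h2 (by positivity)
  have s2 : Nat.multichoose N (r + 2) ≤ 2 * N' := by omega
  have s3 : N ≤ Nat.multichoose N (r + 2) := num_step_ge N (r + 1) hN1
  refine ⟨by omega, ?_⟩
  have hK1 : 2 * (r + 2) - 1 = 2 * r + 3 := by omega
  have hK2 : 2 * (r + 2) - 2 = 2 * r + 2 := by omega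
  have hK : 2 * (r + 2) = 2 * r + 4 := by ring
  rw [hK1, hK2, hK]
  rw [hK] at hcb
  -- step 3
  have t1 : N * Nat.multichoose N (2 * r + 3) ≤ (2 * r + 4) * Nat.multichoose N (2 * r + 4) := by
    have := num_step_rec N (2 * r + 3)
    have h2 : (2 * r + 4) * Nat.multichoose N (2 * r + 4)
        = (N + (2 * r + 3)) * Nat.multichoose N (2 * r + 3) := this
    rw [h2]
    apply Nat.mul_le_mul_right
    omega
  have t2 : q * Nat.multichoose N (2 * r + 2) ≤ Nat.multichoose N (2 * r + 4) := by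
    have h1 := num_step_sq N (2 * r + 2)
    have h2 : (2 * r + 4) ^ 2 * (q * Nat.multichoose N (2 * r + 2))
        ≤ (2 * r + 4) ^ 2 * Nat.multichoose N (2 * r + 4) := by
      refine le_trans ?_ h1
      have h3 : m * q * Nat.multichoose N (2 * r + 2) ≤ N ^ 2 * Nat.multichoose N (2 * r + 2) :=
        Nat.mul_le_mul_right _ hq
      refine le_trans ?_ h3
      rw [← mul_assoc]
      apply Nat.mul_le_mul_right
      apply Nat.mul_le_mul_right
      have : (2 * r + 4) ^ 2 = 4 * (r + 2) ^ 2 := by ring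
      rw [this]
      omega
    exact Nat.le_of_mul_le_mul_left h2 (by positivity)
  have t3 : Nat.multichoose N (2 * r + 4) + ρ * N * Nat.multichoose N (2 * r + 3) +
      q * Nat.multichoose N (2 * r + 2) ≤ (2 + ρ * (2 * r + 4)) * Nat.multichoose N (2 * r + 4) := by
    have : ρ * N * Nat.multichoose N (2 * r + 3)
        ≤ ρ * ((2 * r + 4) * Nat.multichoose N (2 * r + 4)) := by
      rw [mul_assoc]
      exact Nat.mul_le_mul_left _ t1
    calc _ ≤ Nat.multichoose N (2 * r + 4) + ρ * ((2 * r + 4) * Nat.multichoose N (2 * r + 4)) +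
          Nat.multichoose N (2 * r + 4) := by omega
      _ = _ := by ring
  -- step 4
  have u1 : (2 * r + 4).factorial * Nat.multichoose N (2 * r + 4) ≤ 2 * (N ^ (r + 2)) ^ 2 := by
    rw [num_step_fac]
    have h1 : N.ascFactorial (2 * r + 4) ≤ (N + (2 * r + 4)) ^ (2 * r + 4) :=
      (Nat.ascFactorial_le _ (Nat.le_succ N)).trans (Nat.ascFactorial_le_pow_add N _)
    have h2 := num_step_pow N (2 * r + 4) (by
      have : 2 * (2 * r + 4) ^ 2 = 8 * (r + 2) ^ 2 := by ring
      rw [this]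
      omega) hN1
    refine (h1.trans h2).trans (le_of_eq ?_)
    rw [← pow_mul]
    ring_nf
  have u2 : N ^ (r + 2) ≤ (r + 2).factorial * Nat.multichoose N (r + 2) := by
    rw [num_step_fac]
    exact Nat.pow_succ_le_ascFactorial N _
  have u3 : (2 * r + 4).factorial = Nat.centralBinom (r + 2) * ((r + 2).factorial) ^ 2 := by
    have h1 : r + 2 ≤ 2 * (r + 2) := by omega
    have := Nat.choose_mul_factorial_mul_factorial h1
    have h2 : 2 * (r + 2) - (r + 2) = r + 2 := by omega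
    rw [h2, hK] at this
    rw [← this, Nat.centralBinom_eq_two_mul_choose, hK]
    ring
  have u4 : Nat.centralBinom (r + 2) * Nat.multichoose N (2 * r + 4)
      ≤ 2 * Nat.multichoose N (r + 2) ^ 2 := by
    have h1 : ((r + 2).factorial) ^ 2 * (Nat.centralBinom (r + 2) * Nat.multichoose N (2 * r + 4))
        ≤ ((r + 2).factorial) ^ 2 * (2 * Nat.multichoose N (r + 2) ^ 2) := by
      calc ((r + 2).factorial) ^ 2 * (Nat.centralBinom (r + 2) * Nat.multichoose N (2 * r + 4))
          = (2 * r + 4).factorial * Nat.multichoose N (2 * r + 4) := by rw [u3]; ring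
        _ ≤ 2 * (N ^ (r + 2)) ^ 2 := u1
        _ ≤ 2 * ((r + 2).factorial * Nat.multichoose N (r + 2)) ^ 2 := by
            apply Nat.mul_le_mul_left
            exact Nat.pow_le_pow_left u2 2
        _ = _ := by ring
    exact Nat.le_of_mul_le_mul_left h1 (by positivity)
  have u5 : Nat.multichoose N (r + 2) ^ 2 ≤ 4 * N' ^ 2 := by
    calc Nat.multichoose N (r + 2) ^ 2 ≤ (2 * N') ^ 2 := Nat.pow_le_pow_left s2 2
      _ = _ := by ring
  have u6 : 8 * m' * (2 + ρ * (2 * r + 4)) * Nat.multichoose N (2 * r + 4)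
      ≤ 8 * N' ^ 2 := by
    refine (Nat.mul_le_mul_right _ hcb).trans (u4.trans ?_)
    omega
  have u7 : m' * (Nat.multichoose N (2 * r + 4) + ρ * N * Nat.multichoose N (2 * r + 3) +
      q * Nat.multichoose N (2 * r + 2))
      ≤ m' * ((2 + ρ * (2 * r + 4)) * Nat.multichoose N (2 * r + 4)) :=
    Nat.mul_le_mul_left _ t3
  have u8 : 8 * (m' * ((2 + ρ * (2 * r + 4)) * Nat.multichoose N (2 * r + 4))) ≤ 8 * N' ^ 2 := by
    refine le_trans (le_of_eq ?_) u6
    ring
  omega

theorem num_final_step (M k : ℕ) :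
    Nat.multichoose (M + 1) (k + 1) * (k + 1) = Nat.multichoose (M + 1) k * (M + k + 1) := by
  rw [Nat.multichoose_eq, Nat.multichoose_eq]
  have h1 : M + 1 + (k + 1) - 1 = M + k + 1 := by omega
  have h2 : M + 1 + k - 1 = M + k := by omega
  rw [h1, h2]
  have := Nat.add_one_mul_choose_eq (M + k) k
  rw [← this, Nat.mul_comm]

/-- the numerical lemma for the final step -/
theorem num_final (ρ r : ℕ) (hr : 2 ≤ r) : ∃ m : ℕ, ∀ N q : ℕ, m ≤ N → m * q ≤ N ^ 2 →
    ρ ^ 2 * q * Nat.multichoose N (r - 2) < Nat.multichoose N r := by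
  obtain ⟨t, rfl⟩ : ∃ t, r = t + 2 := ⟨r - 2, by omega⟩
  refine ⟨ρ ^ 2 * (t + 2) ^ 2 + 1, ?_⟩
  intro N q hN hq
  obtain ⟨M, rfl⟩ : ∃ M, N = M + 1 := ⟨N - 1, by omega⟩
  rw [Nat.add_sub_cancel]
  have h1 := num_final_step M t
  have h2 := num_final_step M (t + 1)
  rw [show t + 1 + 1 = t + 2 from rfl] at h2
  have hpos : 0 < Nat.multichoose (M + 1) t := by
    rw [Nat.multichoose_eq]
    apply Nat.choose_pos
    omega
  generalize Nat.multichoose (M + 1) t = c at *
  generalize Nat.multichoose (M + 1) (t + 1) = d at *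
  generalize Nat.multichoose (M + 1) (t + 2) = e at *
  have h3 : e * ((t + 2) * (t + 1)) = c * ((M + t + 1) * (M + (t + 1) + 1)) := by
    calc e * ((t + 2) * (t + 1)) = (e * (t + 2)) * (t + 1) := by ring
      _ = (d * (M + (t + 1) + 1)) * (t + 1) := by rw [h2]
      _ = (d * (t + 1)) * (M + (t + 1) + 1) := by ring
      _ = (c * (M + t + 1)) * (M + (t + 1) + 1) := by rw [h1]
      _ = _ := by ring
  have h4 : (M + 1) ^ 2 ≤ (M + t + 1) * (M + (t + 1) + 1) := by
    rw [pow_two]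
    exact Nat.mul_le_mul (by omega) (by omega)
  have h5 : ρ ^ 2 * q * ((t + 2) * (t + 1)) < (M + 1) ^ 2 := by
    rcases Nat.eq_zero_or_pos q with hq0 | hq0
    · subst hq0
      simp
    · refine lt_of_lt_of_le ?_ hq
      have h6 : (t + 2) * (t + 1) ≤ (t + 2) ^ 2 := by
        rw [pow_two]; exact Nat.mul_le_mul le_rfl (by omega)
      calc ρ ^ 2 * q * ((t + 2) * (t + 1)) ≤ ρ ^ 2 * q * (t + 2) ^ 2 := Nat.mul_le_mul le_rfl h6
        _ < ρ ^ 2 * q * (t + 2) ^ 2 + q := by omega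
        _ = (ρ ^ 2 * (t + 2) ^ 2 + 1) * q := by ring
  have h7 : ρ ^ 2 * q * c * ((t + 2) * (t + 1)) < e * ((t + 2) * (t + 1)) := by
    rw [h3]
    calc ρ ^ 2 * q * c * ((t + 2) * (t + 1)) = c * (ρ ^ 2 * q * ((t + 2) * (t + 1))) := by ring
      _ < c * (M + 1) ^ 2 := Nat.mul_lt_mul_of_pos_left h5 hpos
      _ ≤ _ := Nat.mul_le_mul le_rfl h4
  exact Nat.lt_of_mul_lt_mul_right h7

theorem fderiv_lift899 {E : Type} [NormedAddCommGroup E] [NormedSpace ℂ E] {N : ℕ}
    (G : E → E) (hG : Differentiable ℂ G) (z v : newE E N) :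
    fderiv ℂ (fun z => ((G z.1, 0) : newE E N)) z v = (fderiv ℂ G z.1 v.1, 0) := by
  have h1 : HasFDerivAt (fun z : newE E N => G z.1)
      ((fderiv ℂ G z.1).comp (ContinuousLinearMap.fst ℂ E ((Fin N → ℂ) × ℂ))) z :=
    (hG z.1).hasFDerivAt.comp z hasFDerivAt_fst
  have h2 := h1.prodMk (hasFDerivAt_const (𝕜 := ℂ) (0 : (Fin N → ℂ) × ℂ) z)
  rw [h2.fderiv]
  rfl

theorem fderiv_vert899 {E : Type} [NormedAddCommGroup E] [NormedSpace ℂ E] {N : ℕ}
    (h : Fin N → E → ℂ) (hh : ∀ s, Differentiable ℂ (h s)) (c : ℂ) (z v : newE E N) :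
    fderiv ℂ (fun z => ((0, (fun s => h s z.1, c)) : newE E N)) z v =
      (0, (fun s => fderiv ℂ (h s) z.1 v.1, 0)) := by
  have h1 : HasFDerivAt (fun (z : newE E N) s => h s z.1)
      (ContinuousLinearMap.pi fun s => (fderiv ℂ (h s) z.1).comp
        (ContinuousLinearMap.fst ℂ E ((Fin N → ℂ) × ℂ))) z :=
    hasFDerivAt_pi.2 fun s => (hh s z.1).hasFDerivAt.comp z hasFDerivAt_fst
  have h2 := (hasFDerivAt_const (𝕜 := ℂ) (0 : E) z).prodMk
    (h1.prodMk (hasFDerivAt_const (𝕜 := ℂ) c z))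
  rw [h2.fderiv]
  rfl

/-- lifts of generated fields are generated -/
theorem lift_generated {E : Type} [NormedAddCommGroup E] [NormedSpace ℂ E] {ρ N : ℕ}
    (X : Fin ρ → E → E) (p : Fin N → E → ℂ)
    (hX : ∀ V : E → E, Generated X V → ContDiff ℂ ω V)
    (V : E → E) (hV : Generated X V) :
    Generated (newX X p) (fun z => ((V z.1, 0) : newE E N)) := by
  induction hV with
  | base i => exact Generated.base (X := newX X p) (Fin.succ i)
  | bracket F G hF hG ihF ihG =>
    have h1 : (fun z => ((VectorField.lieBracket ℂ F G z.1, 0) : newE E N)) =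
        VectorField.lieBracket ℂ (fun z => ((F z.1, 0) : newE E N))
          (fun z => ((G z.1, 0) : newE E N)) := by
      funext z
      rw [VectorField.lieBracket, VectorField.lieBracket,
        fderiv_lift899 G ((hX G hG).differentiable (by simp)),
        fderiv_lift899 F ((hX F hF).differentiable (by simp)), Prod.mk_sub_mk, sub_zero]
    rw [h1]
    exact Generated.bracket _ _ ihF ihG

theorem step899 {E : Type} [NormedAddCommGroup E] [NormedSpace ℂ E] {ρ N : ℕ}
    (X : Fin ρ → E → E) (p : Fin N → E → ℂ)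
    (hX : ∀ V : E → E, Generated X V → ContDiff ℂ ω V)
    (V : E → E) (hV : Generated X V) (h : Fin N → E → ℂ) (hh : ∀ s, Differentiable ℂ (h s)) (c : ℂ)
    (hW : Generated (newX X p) (fun z => ((0, (fun s => h s z.1, c)) : newE E N))) :
    Generated (newX X p)
      (fun z => ((0, (fun s => fderiv ℂ (h s) z.1 (V z.1), 0)) : newE E N)) := by
  have h1 : (fun z => ((0, (fun s => fderiv ℂ (h s) z.1 (V z.1), 0)) : newE E N)) =
      VectorField.lieBracket ℂ (fun z => ((V z.1, 0) : newE E N))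
        (fun z => ((0, (fun s => h s z.1, c)) : newE E N)) := by
    funext z
    rw [VectorField.lieBracket, fderiv_vert899 h hh,
      fderiv_lift899 V ((hX V hV).differentiable (by simp)), map_zero]
    exact (sub_zero _).symm
  rw [h1]
  exact Generated.bracket _ _ (lift_generated X p hX V hV) hW

/-- the vertical fields given by iterated derivatives are generated -/
theorem vert_generated {E : Type} [NormedAddCommGroup E] [NormedSpace ℂ E] {ρ N : ℕ}
    (X : Fin ρ → E → E) (p : Fin N → E → ℂ)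
    (hX : ∀ V : E → E, Generated X V → ContDiff ℂ ω V)
    (hD : ∀ l : List (E → E), (∀ V ∈ l, Generated X V) → ∀ s, ContDiff ℂ ω (iterD l (p s)))
    (l : List (E → E)) (hne : l ≠ []) (hl : ∀ V ∈ l, Generated X V) :
    Generated (newX X p) (fun z => ((0, (fun s => iterD l (p s) z.1, 0)) : newE E N)) := by
  induction l with
  | nil => exact absurd rfl hne
  | cons V l ih =>
    have hl' : ∀ W ∈ l, Generated X W := fun W hW => hl W (List.mem_cons_of_mem _ hW)
    have hh : ∀ s, Differentiable ℂ (iterD l (p s)) := fun s =>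
      (hD l hl' s).differentiable (by simp)
    rcases eq_or_ne l [] with rfl | hne'
    · exact step899 X p hX V (hl V (List.mem_cons_self)) (fun s => iterD [] (p s)) hh 1
        (Generated.base (X := newX X p) 0)
    · exact step899 X p hX V (hl V (List.mem_cons_self)) (fun s => iterD l (p s)) hh 0
        (ih hne' hl')

theorem new_rel_aux0 {N : ℕ} (s t : Fin N) (P : MvPolynomial (Fin N) ℂ) :
    pderiv s (pderiv t P) = pderiv t (pderiv s P) := by
  classical
  have h : ⁅(pderiv s : Derivation ℂ (MvPolynomial (Fin N) ℂ) (MvPolynomial (Fin N) ℂ)),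
      (pderiv t : Derivation ℂ (MvPolynomial (Fin N) ℂ) (MvPolynomial (Fin N) ℂ))⁆ = 0 := by
    apply MvPolynomial.derivation_ext
    intro i
    rw [Derivation.commutator_apply, pderiv_X, pderiv_X]
    by_cases h1 : t = i
    · by_cases h2 : s = i
      · subst h1; subst h2; simp
      · subst h1; simp [Pi.single_apply]
        split_ifs <;> simp
    · by_cases h2 : s = i
      · subst h2; simp [Pi.single_apply]
        split_ifs <;> simp
      · simp [Pi.single_apply]
        split_ifs <;> simp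
  have h3 := congrArg (fun D => D P) h
  simp only [Derivation.commutator_apply, Derivation.zero_apply] at h3
  exact sub_eq_zero.1 h3

theorem new_rel_aux1 {E : Type} [NormedAddCommGroup E] [NormedSpace ℂ E] {N : ℕ}
    (Q : MvPolynomial (Fin N) ℂ) (z : newE E N) :
    HasFDerivAt (fun z : newE E N => eval z.2.1 Q)
      ((∑ s, eval z.2.1 (pderiv s Q) •
        (ContinuousLinearMap.proj (R := ℂ) (φ := fun _ : Fin N => ℂ) s)).comp
        ((ContinuousLinearMap.fst ℂ (Fin N → ℂ) ℂ).comp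
          (ContinuousLinearMap.snd ℂ E ((Fin N → ℂ) × ℂ)))) z := by
  have h1 : HasFDerivAt (fun z : newE E N => z.2.1)
      ((ContinuousLinearMap.fst ℂ (Fin N → ℂ) ℂ).comp
        (ContinuousLinearMap.snd ℂ E ((Fin N → ℂ) × ℂ))) z :=
    ((ContinuousLinearMap.fst ℂ (Fin N → ℂ) ℂ).comp
        (ContinuousLinearMap.snd ℂ E ((Fin N → ℂ) × ℂ))).hasFDerivAt
  exact (eval_hasFDerivAt Q z.2.1).comp z h1

theorem new_rel_aux2 {E : Type} [NormedAddCommGroup E] [NormedSpace ℂ E] {N : ℕ}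
    (Q : MvPolynomial (Fin N) ℂ) (z w : newE E N) :
    fderiv ℂ (fun z : newE E N => eval z.2.1 Q) z w =
      ∑ s, eval z.2.1 (pderiv s Q) * w.2.1 s := by
  rw [(new_rel_aux1 Q z).fderiv]
  simp [ContinuousLinearMap.sum_apply]

theorem new_rel_aux3 {E : Type} [NormedAddCommGroup E] [NormedSpace ℂ E] {N : ℕ}
    (g : Fin N → E → ℂ) (hg : ∀ s, Differentiable ℂ (g s))
    (Q : Fin N → MvPolynomial (Fin N) ℂ) (z w : newE E N) :
    fderiv ℂ (fun z : newE E N => ∑ s, g s z.1 * eval z.2.1 (Q s)) z w =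
      ∑ s, (fderiv ℂ (g s) z.1 w.1 * eval z.2.1 (Q s)
        + g s z.1 * ∑ t, eval z.2.1 (pderiv t (Q s)) * w.2.1 t) := by
  have h2 : ∀ s, HasFDerivAt (fun z : newE E N => g s z.1)
      ((fderiv ℂ (g s) z.1).comp (ContinuousLinearMap.fst ℂ E ((Fin N → ℂ) × ℂ))) z := by
    intro s
    have h1 : HasFDerivAt (fun z : newE E N => z.1)
        (ContinuousLinearMap.fst ℂ E ((Fin N → ℂ) × ℂ)) z :=
      (ContinuousLinearMap.fst ℂ E ((Fin N → ℂ) × ℂ)).hasFDerivAt
    exact (hg s z.1).hasFDerivAt.comp z h1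
  have h3 : ∀ s, HasFDerivAt (fun z : newE E N => g s z.1 * eval z.2.1 (Q s)) _ z :=
    fun s => (h2 s).mul (new_rel_aux1 (Q s) z)
  have h4 := HasFDerivAt.fun_sum (u := Finset.univ) (fun s _ => h3 s)
  rw [h4.fderiv]
  simp only [ContinuousLinearMap.sum_apply, ContinuousLinearMap.add_apply,
    ContinuousLinearMap.smul_apply, ContinuousLinearMap.comp_apply,
    ContinuousLinearMap.coe_fst', ContinuousLinearMap.coe_snd', ContinuousLinearMap.proj_apply,
    smul_eq_mul]
  refine Finset.sum_congr rfl fun s _ => ?_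
  ring

theorem new_rel_aux4 {E : Type} [NormedAddCommGroup E] [NormedSpace ℂ E] {ρ N N' : ℕ}
    (X : Fin ρ → E → E) (f : Fin N → Fin ρ → E → ℂ) (p : Fin N → E → ℂ)
    (h : Sys X f p) (P : Fin N' → MvPolynomial (Fin N) ℂ)
    (hc : ∀ a i j y, ∑ s, ∑ t, C (f s i y * f t j y) * pderiv s (pderiv t (P a)) = 0)
    (a : Fin N') (i : Fin ρ) (y : E) (u : Fin N → ℂ) :
    ∑ s, f s i y * ∑ t, eval u (pderiv t (pderiv s (P a))) * p t y = 0 := by
  have hd : ∀ s, Differentiable ℂ (f s i) := fun s => (h.hf s i).differentiable (by simp)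
  have h0 : (fun y => ∑ s, ∑ t, (f s i y * f t i y) * eval u (pderiv s (pderiv t (P a)))) =
      fun _ => 0 := by
    funext y
    have := congrArg (eval u) (hc a i i y)
    simpa [map_sum] using this
  have h1 : HasFDerivAt
      (fun y => ∑ s, ∑ t, (f s i y * f t i y) * eval u (pderiv s (pderiv t (P a)))) _ y :=
    HasFDerivAt.fun_sum (u := Finset.univ) (fun s _ => HasFDerivAt.fun_sum (u := Finset.univ)
      (fun t _ => ((hd s y).hasFDerivAt.mul (hd t y).hasFDerivAt).mul_const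
        (eval u (pderiv s (pderiv t (P a))))))
  have h2 := h1.fderiv
  rw [h0] at h2
  have h3 := congrArg (fun L => L (X i y)) h2
  simp only [fderiv_fun_const, Pi.zero_apply, ContinuousLinearMap.zero_apply,
    ContinuousLinearMap.sum_apply, ContinuousLinearMap.add_apply,
    ContinuousLinearMap.smul_apply, smul_eq_mul, h.rel, if_true] at h3
  have h4 : ∑ s, ∑ t, eval u (pderiv s (pderiv t (P a))) * (f s i y * p t y + f t i y * p s y) =
      2 * ∑ s, f s i y * ∑ t, eval u (pderiv t (pderiv s (P a))) * p t y := by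
    have h5 : ∑ s, ∑ t, eval u (pderiv s (pderiv t (P a))) * (f t i y * p s y) =
        ∑ s, f s i y * ∑ t, eval u (pderiv t (pderiv s (P a))) * p t y := by
      rw [Finset.sum_comm]
      refine Finset.sum_congr rfl fun s _ => ?_
      rw [Finset.mul_sum]
      refine Finset.sum_congr rfl fun t _ => ?_
      ring
    have h6 : ∑ s, ∑ t, eval u (pderiv s (pderiv t (P a))) * (f s i y * p t y) =
        ∑ s, f s i y * ∑ t, eval u (pderiv t (pderiv s (P a))) * p t y := by
      refine Finset.sum_congr rfl fun s _ => ?_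
      rw [Finset.mul_sum]
      refine Finset.sum_congr rfl fun t _ => ?_
      rw [show pderiv s (pderiv t (P a)) = pderiv t (pderiv s (P a)) from
        new_rel_aux0 _ _ _]
      ring
    rw [two_mul]
    nth_rewrite 1 [← h6]
    rw [← h5, ← Finset.sum_add_distrib]
    refine Finset.sum_congr rfl fun s _ => ?_
    rw [← Finset.sum_add_distrib]
    refine Finset.sum_congr rfl fun t _ => ?_
    ring
  have h7 := h3.symm.trans rfl
  rw [h4] at h7
  simpa using h7

/-- the relations for the new system -/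
theorem new_rel {E : Type} [NormedAddCommGroup E] [NormedSpace ℂ E] {ρ N N' : ℕ}
    (X : Fin ρ → E → E) (f : Fin N → Fin ρ → E → ℂ) (p : Fin N → E → ℂ)
    (h : Sys X f p) (P : Fin N' → MvPolynomial (Fin N) ℂ)
    (hc : ∀ a i j y, ∑ s, ∑ t, C (f s i y * f t j y) * pderiv s (pderiv t (P a)) = 0)
    (a : Fin N') (i j : Fin (ρ + 1)) (z : newE E N) :
    fderiv ℂ (newf f P a i) z (newX X p j z) = if i = j then newp p P a z else 0 := by
  have hd : ∀ s i, Differentiable ℂ (f s i) := fun s i => (h.hf s i).differentiable (by simp)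
  refine Fin.cases ?_ (fun i => ?_) i
  · refine Fin.cases ?_ (fun j => ?_) j
    · show fderiv ℂ (fun z : newE E N => eval z.2.1 (P a)) z _ = _
      rw [new_rel_aux2, if_pos rfl]
      unfold newp
      refine Finset.sum_congr rfl fun s _ => ?_
      show _ * p s z.1 = _
      ring
    · show fderiv ℂ (fun z : newE E N => eval z.2.1 (P a)) z _ = _
      rw [new_rel_aux2, if_neg (Fin.succ_ne_zero j).symm]
      refine Finset.sum_eq_zero fun s _ => ?_
      show _ * (0 : ℂ) = _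
      ring
  · refine Fin.cases ?_ (fun j => ?_) j
    · show fderiv ℂ (fun z : newE E N => ∑ s, f s i z.1 * eval z.2.1 (pderiv s (P a))) z _ = _
      rw [new_rel_aux3 (fun s => f s i) (fun s => hd s i), if_neg (Fin.succ_ne_zero i)]
      rw [← new_rel_aux4 X f p h P hc a i z.1 z.2.1]
      refine Finset.sum_congr rfl fun s _ => ?_
      show fderiv ℂ (f s i) z.1 (0 : E) * _ + f s i z.1 * ∑ t, _ * p t z.1 = _
      rw [map_zero]
      ring
    · show fderiv ℂ (fun z : newE E N => ∑ s, f s i z.1 * eval z.2.1 (pderiv s (P a))) z _ = _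
      rw [new_rel_aux3 (fun s => f s i) (fun s => hd s i)]
      have h1 : ∀ s, fderiv ℂ (f s i) z.1 (newX X p j.succ z).1 =
          if i = j then p s z.1 else 0 := fun s => h.rel s i j z.1
      have h2 : ∀ t, (newX X p j.succ z).2.1 t = 0 := fun t => rfl
      simp only [h1, h2, mul_zero, Finset.sum_const_zero, add_zero, Fin.succ_inj]
      by_cases hij : i = j
      · simp only [hij, if_true]
        rfl
      · simp [hij]

theorem new_coords {E : Type} [NormedAddCommGroup E] [NormedSpace ℂ E] {ρ N : ℕ}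
    (X : Fin ρ → E → E) (p : Fin N → E → ℂ)
    (hx : ∃ x : Fin ρ → E → ℂ, (∀ i, Differentiable ℂ (x i)) ∧
      ∀ i j y, fderiv ℂ (x i) y (X j y) = if i = j then 1 else 0) :
    ∃ x : Fin (ρ + 1) → newE E N → ℂ, (∀ i, Differentiable ℂ (x i)) ∧
      ∀ i j y, fderiv ℂ (x i) y (newX X p j y) = if i = j then 1 else 0 := by
  obtain ⟨x, hd, hr⟩ := hx
  have h0 : ∀ z : newE E N, HasFDerivAt (fun z : newE E N => z.2.2)
      ((ContinuousLinearMap.snd ℂ (Fin N → ℂ) ℂ).comp
        (ContinuousLinearMap.snd ℂ E ((Fin N → ℂ) × ℂ))) z :=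
    fun z => ((ContinuousLinearMap.snd ℂ (Fin N → ℂ) ℂ).comp
        (ContinuousLinearMap.snd ℂ E ((Fin N → ℂ) × ℂ))).hasFDerivAt
  have h1 : ∀ i, ∀ z : newE E N, HasFDerivAt (fun z : newE E N => x i z.1)
      ((fderiv ℂ (x i) z.1).comp (ContinuousLinearMap.fst ℂ E ((Fin N → ℂ) × ℂ))) z := by
    intro i z
    have h1 : HasFDerivAt (fun z : newE E N => z.1)
        (ContinuousLinearMap.fst ℂ E ((Fin N → ℂ) × ℂ)) z :=
      (ContinuousLinearMap.fst ℂ E ((Fin N → ℂ) × ℂ)).hasFDerivAt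
    exact (hd i z.1).hasFDerivAt.comp z h1
  refine ⟨Fin.cases (fun z => z.2.2) (fun i z => x i z.1), ?_, ?_⟩
  · intro i
    refine Fin.cases ?_ (fun i => ?_) i
    · exact fun z => (h0 z).differentiableAt
    · exact fun z => (h1 i z).differentiableAt
  · intro i j z
    refine Fin.cases ?_ (fun i => ?_) i
    · refine Fin.cases ?_ (fun j => ?_) j
      · show fderiv ℂ (fun z : newE E N => z.2.2) z _ = _
        rw [(h0 z).fderiv]
        rfl
      · show fderiv ℂ (fun z : newE E N => z.2.2) z _ = _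
        rw [(h0 z).fderiv, if_neg (Fin.succ_ne_zero j).symm]
        rfl
    · refine Fin.cases ?_ (fun j => ?_) j
      · show fderiv ℂ (fun z : newE E N => x i z.1) z _ = _
        rw [(h1 i z).fderiv, if_neg (Fin.succ_ne_zero i)]
        show fderiv ℂ (x i) z.1 (0 : E) = 0
        rw [map_zero]
      · show fderiv ℂ (fun z : newE E N => x i z.1) z _ = _
        rw [(h1 i z).fderiv]
        show fderiv ℂ (x i) z.1 (X j z.1) = _
        rw [hr]
        simp only [Fin.succ_inj]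

theorem new_iterD_lift {E : Type} [NormedAddCommGroup E] [NormedSpace ℂ E] {N : ℕ}
    (p : Fin N → E → ℂ) (P : MvPolynomial (Fin N) ℂ)
    (l : List (E → E))
    (hD : ∀ l' : List (E → E), l' <:+ l → ∀ s, Differentiable ℂ (iterD l' (p s))) :
    iterD (l.map fun V => fun z : newE E N => ((V z.1, 0) : newE E N))
      (fun z => ∑ s, p s z.1 * eval z.2.1 (pderiv s P)) =
    fun z => ∑ s, iterD l (p s) z.1 * eval z.2.1 (pderiv s P) := by
  induction l with
  | nil => rfl
  | cons V l ih =>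
    have hD' : ∀ l' : List (E → E), l' <:+ l → ∀ s, Differentiable ℂ (iterD l' (p s)) :=
      fun l' h s => hD l' (h.trans (List.suffix_cons V l)) s
    have ih' := ih hD'
    funext z
    have hkey : iterD ((V :: l).map fun V => fun z : newE E N => ((V z.1, 0) : newE E N))
        (fun z => ∑ s, p s z.1 * eval z.2.1 (pderiv s P)) z =
        fderiv ℂ (iterD (l.map fun V => fun z : newE E N => ((V z.1, 0) : newE E N))
          (fun z => ∑ s, p s z.1 * eval z.2.1 (pderiv s P))) z (V z.1, 0) := rfl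
    rw [hkey, ih']
    have h1 : ∀ s, HasFDerivAt (iterD l (p s)) (fderiv ℂ (iterD l (p s)) z.1) z.1 :=
      fun s => (hD l (List.suffix_cons V l) s z.1).hasFDerivAt
    have h2 : ∀ s, HasFDerivAt (fun z : newE E N => iterD l (p s) z.1)
        ((fderiv ℂ (iterD l (p s)) z.1).comp
          (ContinuousLinearMap.fst ℂ E ((Fin N → ℂ) × ℂ))) z :=
      fun s => HasFDerivAt.comp z (h1 s) hasFDerivAt_fst
    have h0 : HasFDerivAt (fun z : newE E N => z.2.1)
        ((ContinuousLinearMap.fst ℂ (Fin N → ℂ) ℂ).comp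
          (ContinuousLinearMap.snd ℂ E ((Fin N → ℂ) × ℂ))) z :=
      ((ContinuousLinearMap.fst ℂ (Fin N → ℂ) ℂ).comp
          (ContinuousLinearMap.snd ℂ E ((Fin N → ℂ) × ℂ))).hasFDerivAt
    have h3 : ∀ s, HasFDerivAt (fun z : newE E N => eval z.2.1 (pderiv s P))
        ((∑ t, eval z.2.1 (pderiv t (pderiv s P)) •
          (ContinuousLinearMap.proj (R := ℂ) (φ := fun _ : Fin N => ℂ) t)).comp
          ((ContinuousLinearMap.fst ℂ (Fin N → ℂ) ℂ).comp
          (ContinuousLinearMap.snd ℂ E ((Fin N → ℂ) × ℂ)))) z :=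
      fun s => HasFDerivAt.comp (g := fun u : Fin N → ℂ => eval u (pderiv s P))
        (f := fun z : newE E N => z.2.1) z (eval_hasFDerivAt (pderiv s P) z.2.1) h0
    have h4 := HasFDerivAt.fun_sum (u := Finset.univ) (fun s _ => (h2 s).mul (h3 s))
    have h5 : fderiv ℂ (fun z : newE E N => ∑ s, iterD l (p s) z.1 * eval z.2.1 (pderiv s P)) z
        = _ := HasFDerivAt.fderiv h4
    rw [h5]
    rw [sum_apply]
    refine Finset.sum_congr rfl fun s _ => ?_
    simp [iterD, mul_comm]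

/-- vertical derivatives: `B y` is an arbitrary family of polynomials -/
theorem vert_deriv {E : Type} [NormedAddCommGroup E] [NormedSpace ℂ E] {N : ℕ}
    (B : E → MvPolynomial (Fin N) ℂ)
    (hB : Differentiable ℂ (fun z : newE E N => eval z.2.1 (B z.1)))
    (z : newE E N) (v : Fin N → ℂ) :
    fderiv ℂ (fun z : newE E N => eval z.2.1 (B z.1)) z (0, (v, 0)) =
      eval z.2.1 (dirD v (B z.1)) := by
  have hγ : HasDerivAt (fun t : ℂ => ((z.1, (z.2.1 + t • v, z.2.2)) : newE E N))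
      ((0, (v, 0)) : newE E N) 0 := by
    have e1 : HasDerivAt (fun t : ℂ => z.2.1 + t • v) v 0 := by
      simpa using ((hasDerivAt_id (0 : ℂ)).smul_const v).const_add z.2.1
    have e2 : HasDerivAt (fun _ : ℂ => z.1) (0 : E) 0 := hasDerivAt_const _ _
    have e3 : HasDerivAt (fun _ : ℂ => z.2.2) (0 : ℂ) 0 := hasDerivAt_const _ _
    exact e2.prodMk (e1.prodMk e3)
  have hγ0 : (fun t : ℂ => ((z.1, (z.2.1 + t • v, z.2.2)) : newE E N)) 0 = z := by
    simp
  have hF : HasFDerivAt (fun z : newE E N => eval z.2.1 (B z.1))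
      (fderiv ℂ (fun z : newE E N => eval z.2.1 (B z.1)) z)
      ((fun t : ℂ => ((z.1, (z.2.1 + t • v, z.2.2)) : newE E N)) 0) := by
    rw [hγ0]; exact (hB z).hasFDerivAt
  have hc := hF.comp_hasDerivAt (0 : ℂ) hγ
  have e1 : HasDerivAt (fun t : ℂ => z.2.1 + t • v) v 0 := by
    simpa using ((hasDerivAt_id (0 : ℂ)).smul_const v).const_add z.2.1
  have hP : HasFDerivAt (fun u : Fin N → ℂ => eval u (B z.1))
      (∑ s, eval z.2.1 (pderiv s (B z.1)) •
        (ContinuousLinearMap.proj (R := ℂ) (φ := fun _ : Fin N => ℂ) s))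
      ((fun t : ℂ => z.2.1 + t • v) 0) := by
    have : (fun t : ℂ => z.2.1 + t • v) 0 = z.2.1 := by simp
    rw [this]; exact eval_hasFDerivAt _ _
  have hc2 := hP.comp_hasDerivAt (0 : ℂ) e1
  have heq := hc.unique hc2
  rw [heq, dirD]
  simp [mul_comm]

/-- The `j`-th derivative of `x ↦ ((k+1) x^k)_k`. -/
noncomputable def G (M j : ℕ) (x : ℂ) : Fin M → ℂ :=
  fun k => ((k : ℕ) + 1 : ℂ) * (Nat.descFactorial (k : ℕ) j : ℂ) * x ^ ((k : ℕ) - j)

theorem G_hasDerivAt (M j : ℕ) (x : ℂ) : HasDerivAt (G M j) (G M (j + 1) x) x := by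
  rw [hasDerivAt_pi]
  intro k
  have h := (hasDerivAt_pow ((k : ℕ) - j) x).const_mul
    (((k : ℕ) + 1 : ℂ) * (Nat.descFactorial (k : ℕ) j : ℂ))
  have e : G M (j + 1) x k = ((k : ℕ) + 1 : ℂ) * (Nat.descFactorial (k : ℕ) j : ℂ) *
      ((((k : ℕ) - j : ℕ) : ℂ) * x ^ ((k : ℕ) - j - 1)) := by
    unfold G
    rw [Nat.descFactorial_succ, Nat.cast_mul, Nat.sub_sub]
    ring
  rw [e]
  exact h

theorem G_span (M : ℕ) (x : ℂ) :
    Submodule.span ℂ (Set.range fun j : ℕ => G M j x) = ⊤ := by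
  classical
  set S := Submodule.span ℂ (Set.range fun j : ℕ => G M j x) with hS
  have hsum : ∀ v : Fin M → ℂ, v = ∑ l, v l • (Pi.single l (1 : ℂ) : Fin M → ℂ) := by
    intro v
    funext i
    rw [Finset.sum_apply, Finset.sum_eq_single i]
    · simp
    · intro l _ hl
      simp [Pi.single_apply, Ne.symm hl]
    · intro h
      exact absurd (Finset.mem_univ _) h
  have key : ∀ n : ℕ, ∀ k : Fin M, M - (k : ℕ) ≤ n →
      (Pi.single k (1 : ℂ) : Fin M → ℂ) ∈ S := by
    intro n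
    induction n with
    | zero =>
      intro k hk
      have := k.2
      omega
    | succ n ih =>
      intro k hk
      have h1 := hsum (G M (k : ℕ) x)
      rw [← Finset.add_sum_erase _ _ (Finset.mem_univ k)] at h1
      have h2 : ∑ l ∈ Finset.univ.erase k, G M (k : ℕ) x l •
          (Pi.single l (1 : ℂ) : Fin M → ℂ) ∈ S := by
        apply Submodule.sum_mem
        intro l hl
        have hlk : l ≠ k := Finset.ne_of_mem_erase hl
        rcases lt_or_gt_of_ne (fun h : (l : ℕ) = k => hlk (Fin.ext h)) with h | h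
        · have e : G M (k : ℕ) x l = 0 := by
            unfold G
            rw [Nat.descFactorial_of_lt h]
            simp
          rw [e, zero_smul]
          exact zero_mem _
        · apply Submodule.smul_mem
          apply ih
          have := k.2
          omega
      have h3 : G M (k : ℕ) x ∈ S := Submodule.subset_span ⟨(k : ℕ), rfl⟩
      have h4 : G M (k : ℕ) x k • (Pi.single k (1 : ℂ) : Fin M → ℂ) ∈ S := by
        have h5 := sub_mem h3 h2
        have h6 : G M (k : ℕ) x - ∑ l ∈ Finset.univ.erase k, G M (k : ℕ) x l •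
          (Pi.single l (1 : ℂ) : Fin M → ℂ) =
            G M (k : ℕ) x k • (Pi.single k (1 : ℂ) : Fin M → ℂ) := by
          rw [sub_eq_iff_eq_add]
          exact h1
        rwa [h6] at h5
      have h7 : G M (k : ℕ) x k ≠ 0 := by
        unfold G
        rw [Nat.descFactorial_self, Nat.sub_self, pow_zero, mul_one]
        apply mul_ne_zero
        · exact_mod_cast Nat.succ_ne_zero (k : ℕ)
        · exact_mod_cast Nat.factorial_ne_zero (k : ℕ)
      exact (Submodule.smul_mem_iff S h7).1 h4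
  rw [eq_top_iff]
  intro v _
  rw [hsum v]
  exact Submodule.sum_mem _ fun l _ => Submodule.smul_mem _ _ (key (M) l (by omega))

theorem good_one_h1 (M j : ℕ) (k : Fin M) (x : ℂ) :
    HasDerivAt (fun y => G M j y k) (G M (j + 1) x k) x :=
  (hasDerivAt_pi.1 (G_hasDerivAt M j x)) k

theorem good_one_h2 (M : ℕ) (k : Fin M) (j : ℕ) :
    iterD (List.replicate j (fun _ : ℂ => (1 : ℂ))) (fun y => G M 0 y k) = fun y => G M j y k := by
  induction j with
  | zero => rfl
  | succ j ih =>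
    rw [List.replicate_succ, iterD, ih]
    funext y
    rw [(good_one_h1 M j k y).hasFDerivAt.fderiv]
    simp

theorem good_one_h3 (N : ℕ) (y : ℂ) (c : Fin N → ℂ)
    (h : ∀ j, 1 ≤ j → ∑ s : Fin N, c s * G (N + 1) j y s.succ = 0) : c = 0 := by
  let c' : Fin (N + 1) → ℂ := Fin.cons (-∑ s : Fin N, c s * G (N + 1) 0 y s.succ) c
  let Φ : (Fin (N + 1) → ℂ) →ₗ[ℂ] ℂ :=
    { toFun := fun v => ∑ k, c' k * v k
      map_add' := fun v w => by
        simp only [Pi.add_apply, mul_add, Finset.sum_add_distrib]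
      map_smul' := fun a v => by
        simp only [Pi.smul_apply, smul_eq_mul, RingHom.id_apply, Finset.mul_sum]
        refine Finset.sum_congr rfl fun k _ => ?_
        ring }
  have hΦ : ∀ j, Φ (G (N + 1) j y) = 0 := by
    intro j
    show ∑ k, c' k * G (N + 1) j y k = 0
    rw [Fin.sum_univ_succ]
    have e1 : ∀ s : Fin N, c' s.succ = c s := fun s => rfl
    have e0 : c' 0 = -∑ s : Fin N, c s * G (N + 1) 0 y s.succ := rfl
    simp only [e1]
    rcases Nat.eq_zero_or_pos j with rfl | hj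
    · have e2 : G (N + 1) 0 y 0 = 1 := by simp [G]
      rw [e0, e2, mul_one]
      ring
    · have e2 : G (N + 1) j y 0 = 0 := by
        obtain ⟨i, rfl⟩ : ∃ i, j = i + 1 := ⟨j - 1, by omega⟩
        simp [G]
      rw [e2, mul_zero, zero_add]
      exact h j hj
  have hΦ0 : Φ = 0 := by
    have h1 : Submodule.span ℂ (Set.range fun j : ℕ => G (N + 1) j y) ≤ LinearMap.ker Φ := by
      rw [Submodule.span_le]
      rintro _ ⟨j, rfl⟩
      exact hΦ j
    rw [G_span] at h1
    exact LinearMap.ker_eq_top.1 (top_le_iff.1 h1)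
  funext s
  have h1 : Φ (Pi.single s.succ 1) = c s := by
    show ∑ k, c' k * (Pi.single s.succ 1 : Fin (N + 1) → ℂ) k = c s
    rw [Finset.sum_eq_single s.succ]
    · rw [Pi.single_eq_same, mul_one]; rfl
    · intro k _ hk
      rw [Pi.single_eq_of_ne hk, mul_zero]
    · intro hn; exact absurd (Finset.mem_univ _) hn
  rw [hΦ0] at h1
  exact h1.symm

/-- the base of the induction -/
theorem good_one (m : ℕ) : ∃ (N q : ℕ) (X : Fin 1 → ℂ → ℂ) (f : Fin N → Fin 1 → ℂ → ℂ)
    (p : Fin N → ℂ → ℂ) (g : Fin q → ℂ → ℂ), Sys X f p ∧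
    (∀ s t i j, (fun y => f s i y * f t j y) ∈ Submodule.span ℂ (Set.range g)) ∧
    m ≤ N ∧ m * q ≤ N ^ 2 := by
  
  refine ⟨3 * m + 3, 2 * (3 * m + 3) + 3, fun _ _ => 1, fun s _ y => y ^ ((s : ℕ) + 2),
    fun s y => G (3 * m + 3 + 1) 0 y s.succ, fun k y => y ^ (k : ℕ), ?_, ?_, by omega, by nlinarith⟩
  · have hpf : ∀ s : Fin (3 * m + 3), (fun y : ℂ => G (3 * m + 3 + 1) 0 y s.succ) =
        fun y => ((s : ℕ) + 2 : ℂ) * y ^ ((s : ℕ) + 1) := by
      intro s
      funext y
      simp only [G, Fin.val_succ, Nat.descFactorial_zero, Nat.sub_zero]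
      push_cast
      ring
    constructor
    · exact fun i => contDiff_const
    · exact fun s i => contDiff_id.pow _
    · intro s
      rw [hpf s]
      exact contDiff_const.mul (contDiff_id.pow _)
    · intro s i
      simp
    · intro s i j y
      have hij : i = j := Subsingleton.elim _ _
      rw [if_pos hij]
      have h1 := congrFun (hpf s) y
      rw [h1]
      have h2 : HasDerivAt (fun y : ℂ => y ^ ((s : ℕ) + 2))
          ((((s : ℕ) + 2 : ℕ) : ℂ) * y ^ ((s : ℕ) + 2 - 1)) y := hasDerivAt_pow _ y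
      rw [h2.hasFDerivAt.fderiv]
      simp only [ContinuousLinearMap.toSpanSingleton_apply, smul_eq_mul, one_mul]
      push_cast
      rfl
    · refine ⟨fun _ y => y, fun i => differentiable_id, fun i j y => ?_⟩
      have hij : i = j := Subsingleton.elim _ _
      rw [if_pos hij, (hasDerivAt_id' y).hasFDerivAt.fderiv]
      simp
    · intro y
      rw [eq_top_iff]
      have h1 : (1 : ℂ) ∈ Submodule.span ℂ
          {v : ℂ | ∃ F : ℂ → ℂ, Generated (fun (_ : Fin 1) (_ : ℂ) => (1 : ℂ)) F ∧ F y = v} :=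
        Submodule.subset_span ⟨fun _ => 1, Generated.base (X := fun (_ : Fin 1) (_ : ℂ) => (1 : ℂ)) 0, rfl⟩
      intro z _
      have h2 := Submodule.smul_mem _ z h1
      simpa using h2
    · intro y c hc
      apply good_one_h3 (3 * m + 3) y c
      intro j hj
      have h1 := hc (List.replicate j (fun _ : ℂ => (1 : ℂ)))
        (by
          intro h0
          have := congrArg List.length h0
          simp at this
          omega)
        (by
          intro V hV
          rw [List.eq_of_mem_replicate hV]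
          exact Generated.base (X := fun (_ : Fin 1) (_ : ℂ) => (1 : ℂ)) 0)
      simp only [good_one_h2] at h1
      exact h1
  · intro s t i j
    apply Submodule.subset_span
    refine ⟨⟨(s : ℕ) + 2 + ((t : ℕ) + 2), by omega⟩, ?_⟩
    funext y
    simp only
    rw [pow_add]

/-- a smooth function vanishing at 0 is bounded by a multiple of the norm on the unit ball -/
theorem lin_bound {E : Type} [NormedAddCommGroup E] [NormedSpace ℂ E] [FiniteDimensional ℂ E]
    (f : E → ℂ) (hf : ContDiff ℂ ω f) (h0 : f 0 = 0) :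
    ∃ C : ℝ, 0 ≤ C ∧ ∀ y, ‖y‖ ≤ 1 → ‖f y‖ ≤ C * ‖y‖ := by
  haveI : ProperSpace E := FiniteDimensional.proper ℂ E
  have hf1 : ContDiff ℂ 1 f := hf.of_le (by simp)
  have hc : Continuous (fderiv ℂ f) := hf1.continuous_fderiv (by simp)
  have hd : Differentiable ℂ f := hf1.differentiable (by simp)
  have hK : IsCompact (Metric.closedBall (0 : E) 1) := isCompact_closedBall _ _
  obtain ⟨C, hC⟩ := hK.exists_bound_of_continuousOn hc.continuousOn
  have hC0 : 0 ≤ C := (norm_nonneg _).trans (hC 0 (by simp))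
  refine ⟨C, hC0, ?_⟩
  intro y hy
  have h := Convex.norm_image_sub_le_of_norm_fderiv_le (𝕜 := ℂ) (f := f) (C := C)
    (s := Metric.closedBall (0 : E) 1) (x := 0) (y := y)
    (fun x _ => hd x) hC (convex_closedBall _ _) (by simp) (by simpa using hy)
  rw [h0, sub_zero, sub_zero] at h
  exact h

theorem eval_ne_zero {N : ℕ} (P : MvPolynomial (Fin N) ℂ) (hP : P ≠ 0) :
    ∃ u : Fin N → ℂ, eval u P ≠ 0 := by
  by_contra hcon
  push Not at hcon
  exact hP (MvPolynomial.funext (fun u => by rw [hcon u, map_zero]))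

theorem new_products {E : Type} {ρ N N' q R : ℕ} (hR : 1 ≤ R)
    (f : Fin N → Fin ρ → E → ℂ) (g : Fin q → E → ℂ)
    (hg : ∀ s t i j, (fun y => f s i y * f t j y) ∈ Submodule.span ℂ (Set.range g))
    (P : Fin N' → MvPolynomial (Fin N) ℂ) (hP : ∀ a, (P a).IsHomogeneous R)
    (hfin : ∀ D, FiniteDimensional ℂ (homogeneousSubmodule (Fin N) ℂ D)) :
    ∃ (q' : ℕ) (g' : Fin q' → newE E N → ℂ),
      (∀ a b i j, (fun z => newf f P a i z * newf f P b j z) ∈
        Submodule.span ℂ (Set.range g')) ∧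
      q' ≤ Module.finrank ℂ (homogeneousSubmodule (Fin N) ℂ (2 * R)) +
        ρ * N * Module.finrank ℂ (homogeneousSubmodule (Fin N) ℂ (2 * R - 1)) +
        q * Module.finrank ℂ (homogeneousSubmodule (Fin N) ℂ (2 * R - 2)) := by
  obtain ⟨q', g', h1, h2⟩ := new_products0 hR f g hg P hP hfin
  refine ⟨q', fun k z => g' k (z.1, z.2.1), ?_, h2⟩
  intro a b i j
  let T : (E × (Fin N → ℂ) → ℂ) →ₗ[ℂ] (newE E N → ℂ) :=
    LinearMap.funLeft ℂ ℂ (fun z : newE E N => (z.1, z.2.1))
  have h3 := Submodule.mem_map_of_mem (f := T) (h1 a b i j)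
  rw [Submodule.map_span, ← Set.range_comp] at h3
  have h4 : T (fun z => newf0 f P a i z * newf0 f P b j z) =
      fun z => newf f P a i z * newf f P b j z := by
    funext z
    refine Fin.cases ?_ (fun i => ?_) i <;> refine Fin.cases ?_ (fun j => ?_) j <;> rfl
  rw [h4] at h3
  exact h3

theorem dirD_add {N : ℕ} (v : Fin N → ℂ) (P Q : MvPolynomial (Fin N) ℂ) :
    dirD v (P + Q) = dirD v P + dirD v Q := by
  simp [dirD, mul_add, Finset.sum_add_distrib]

theorem dirD_smul {N : ℕ} (v : Fin N → ℂ) (c : ℂ) (P : MvPolynomial (Fin N) ℂ) :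
    dirD v (c • P) = c • dirD v P := by
  simp [dirD, Finset.smul_sum]

theorem foldr_dirD_sum {N N' : ℕ} (L : List (Fin N → ℂ)) (c : Fin N' → ℂ)
    (P : Fin N' → MvPolynomial (Fin N) ℂ) :
    L.foldr dirD (∑ a, c a • P a) = ∑ a, c a • L.foldr dirD (P a) := by
  induction L with
  | nil => rfl
  | cons v L ih =>
    simp only [List.foldr_cons]
    rw [ih]
    let T : MvPolynomial (Fin N) ℂ →ₗ[ℂ] MvPolynomial (Fin N) ℂ :=
      { toFun := dirD v, map_add' := dirD_add v, map_smul' := fun c P => dirD_smul v c P }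
    have h : ∀ Q, dirD v Q = T Q := fun Q => rfl
    simp only [h, map_sum, map_smul]

theorem iterD_append {E : Type} [NormedAddCommGroup E] [NormedSpace ℂ E]
    (l l' : List (E → E)) (g : E → ℂ) : iterD (l ++ l') g = iterD l (iterD l' g) := by
  induction l with
  | nil => rfl
  | cons V l ih => simp only [List.cons_append, iterD, ih]

theorem eval_dirD {N : ℕ} (v u : Fin N → ℂ) (P : MvPolynomial (Fin N) ℂ) :
    eval u (dirD v P) = ∑ t, v t * eval u (pderiv t P) := by
  simp [dirD, eval_sum]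

section newsys

variable {E : Type} [NormedAddCommGroup E] [NormedSpace ℂ E] {ρ N N' R : ℕ}

/-- the lifted field -/
def liftF (N : ℕ) (V : E → E) : newE E N → newE E N := fun z => (V z.1, 0)

/-- the vertical field attached to a list of fields -/
noncomputable def vertF (p : Fin N → E → ℂ) (l : List (E → E)) : newE E N → newE E N :=
  fun z => (0, (fun s => iterD l (p s) z.1, 0))

theorem iter_formula (X : Fin ρ → E → E) (f : Fin N → Fin ρ → E → ℂ) (p : Fin N → E → ℂ)
    (h : Sys X f p) (P : MvPolynomial (Fin N) ℂ) (l : List (E → E))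
    (hl : ∀ V ∈ l, Generated X V)
    (LL : List (List (E → E))) (hLL : ∀ l' ∈ LL, l' ≠ [] ∧ ∀ V ∈ l', Generated X V) :
    iterD (LL.map (vertF p) ++ l.map (liftF N))
      (fun z => ∑ s, p s z.1 * eval z.2.1 (pderiv s P)) =
    fun z => eval z.2.1 ((LL.map fun l' => fun s => iterD l' (p s) z.1).foldr dirD
      (dirD (fun s => iterD l (p s) z.1) P)) := by
  have hV : ∀ V, Generated X V → ContDiff ℂ ω V := fun V hV => generated_contDiff X h.hX V hV
  have hD : ∀ l : List (E → E), (∀ V ∈ l, Generated X V) → ∀ s, ContDiff ℂ ω (iterD l (p s)) :=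
    fun l hl s => iterD_contDiff l (fun V hVl => hV V (hl V hVl)) (p s) (h.hp s)
  have hev : ∀ Q : MvPolynomial (Fin N) ℂ, ContDiff ℂ ω (fun z : newE E N => eval z.2.1 Q) :=
    fun Q => (eval_contDiff Q).comp (contDiff_fst.comp contDiff_snd)
  have hbase : ContDiff ℂ ω (fun z : newE E N => ∑ s, p s z.1 * eval z.2.1 (pderiv s P)) :=
    ContDiff.sum fun s _ => ((h.hp s).comp contDiff_fst).mul (hev _)
  have hlift : ∀ V, Generated X V → ContDiff ℂ ω (liftF N V) := fun V hV' =>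
    ((hV V hV').comp contDiff_fst).prodMk contDiff_const
  have hvert : ∀ l : List (E → E), (∀ V ∈ l, Generated X V) → ContDiff ℂ ω (vertF p l) :=
    fun l hl => contDiff_const.prodMk
      ((contDiff_pi.mpr fun s => (hD l hl s).comp contDiff_fst).prodMk contDiff_const)
  induction LL with
  | nil =>
    have h1 := new_iterD_lift p P l (fun l' hl' s =>
      (hD l' (fun V hVl => hl V (hl'.subset hVl)) s).differentiable (by simp))
    simp only [List.map_nil, List.nil_append, List.foldr_nil]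
    unfold liftF
    rw [h1]
    funext z
    rw [eval_dirD]
  | cons l' LL ih =>
    have ih' := ih (fun m hm => hLL m (List.mem_cons_of_mem _ hm))
    simp only [List.map_cons, List.cons_append, iterD, List.foldr_cons]
    have hd : ContDiff ℂ ω (iterD (LL.map (vertF p) ++ l.map (liftF N))
        (fun z => ∑ s, p s z.1 * eval z.2.1 (pderiv s P))) := by
      apply iterD_contDiff _ _ _ hbase
      intro V hV'
      rw [List.mem_append, List.mem_map, List.mem_map] at hV'
      rcases hV' with ⟨m, hm, rfl⟩ | ⟨V', hV'', rfl⟩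
      · exact hvert m (hLL m (List.mem_cons_of_mem _ hm)).2
      · exact hlift V' (hl V' hV'')
    rw [ih'] at hd ⊢
    funext z
    exact vert_deriv (fun y => (LL.map fun l' => fun s => iterD l' (p s) y).foldr dirD
      (dirD (fun s => iterD l (p s) y) P)) (hd.differentiable (by simp)) z _

theorem new_sys (hR : 2 ≤ R)
    (X : Fin ρ → E → E) (f : Fin N → Fin ρ → E → ℂ) (p : Fin N → E → ℂ)
    (h : Sys X f p) (P : Fin N' → MvPolynomial (Fin N) ℂ)
    (hli : LinearIndependent ℂ P) (hP : ∀ a, (P a).IsHomogeneous R)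
    (hc : ∀ a i j y, ∑ s, ∑ t, C (f s i y * f t j y) * pderiv s (pderiv t (P a)) = 0) :
    Sys (newX X p) (newf f P) (newp p P) := by
  have hV : ∀ V, Generated X V → ContDiff ℂ ω V := fun V hV => generated_contDiff X h.hX V hV
  have hD : ∀ l : List (E → E), (∀ V ∈ l, Generated X V) → ∀ s, ContDiff ℂ ω (iterD l (p s)) :=
    fun l hl s => iterD_contDiff l (fun V hVl => hV V (hl V hVl)) (p s) (h.hp s)
  have hev : ∀ Q : MvPolynomial (Fin N) ℂ, ContDiff ℂ ω (fun z : newE E N => eval z.2.1 Q) :=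
    fun Q => (eval_contDiff Q).comp (contDiff_fst.comp contDiff_snd)
  refine ⟨?_, ?_, ?_, ?_, fun a i j z => new_rel X f p h P hc a i j z, new_coords X p h.hx,
    ?_, ?_⟩
  · intro i
    refine Fin.cases ?_ (fun i => ?_) i
    · show ContDiff ℂ ω (fun z : newE E N => ((0, (fun s => p s z.1, 1)) : newE E N))
      exact contDiff_const.prodMk
        ((contDiff_pi.mpr fun s => (h.hp s).comp contDiff_fst).prodMk contDiff_const)
    · show ContDiff ℂ ω (fun z : newE E N => ((X i z.1, 0) : newE E N))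
      exact ((h.hX i).comp contDiff_fst).prodMk contDiff_const
  · intro a i
    refine Fin.cases ?_ (fun i => ?_) i
    · exact hev (P a)
    · show ContDiff ℂ ω (fun z : newE E N => ∑ s, f s i z.1 * eval z.2.1 (pderiv s (P a)))
      exact ContDiff.sum fun s _ => ((h.hf s i).comp contDiff_fst).mul (hev _)
  · intro a
    exact ContDiff.sum fun s _ => ((h.hp s).comp contDiff_fst).mul (hev _)
  · intro a i
    refine Fin.cases ?_ (fun i => ?_) i
    · show eval (0 : Fin N → ℂ) (P a) = 0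
      obtain ⟨C, hC, hb⟩ := eval_bound (P a) (hP a)
      have h1 := hb 0
      rw [norm_zero, zero_pow (by omega), mul_zero] at h1
      exact norm_le_zero_iff.mp h1
    · show ∑ s, f s i (0 : E) * _ = 0
      simp [h.f0]
  · intro z
    set S := Submodule.span ℂ {v : newE E N | ∃ F : newE E N → newE E N,
      Generated (newX X p) F ∧ F z = v} with hS
    have hm : ∀ F : newE E N → newE E N, Generated (newX X p) F → F z ∈ S :=
      fun F hF => Submodule.subset_span ⟨F, hF, rfl⟩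
    have hU : Submodule.span ℂ {v : Fin N → ℂ | ∃ l : List (E → E), l ≠ [] ∧
        (∀ V ∈ l, Generated X V) ∧ v = fun s => iterD l (p s) z.1} = ⊤ :=
      span_top_of_dual _ (fun c hc' => h.nd z.1 c
        (fun l hne hl => hc' _ ⟨l, hne, hl, rfl⟩))
    have h1 : ∀ e : E, ((e, 0) : newE E N) ∈ S := by
      intro e
      have he : e ∈ Submodule.span ℂ {v : E | ∃ F : E → E, Generated X F ∧ F z.1 = v} := by
        rw [h.bg z.1]; trivial
      have hmm := Submodule.mem_map_of_mem (f := LinearMap.inl ℂ E ((Fin N → ℂ) × ℂ)) he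
      rw [Submodule.map_span] at hmm
      refine (Submodule.span_le.mpr ?_) hmm
      rintro _ ⟨_, ⟨V, hVg, rfl⟩, rfl⟩
      exact hm _ (lift_generated X p hV V hVg)
    have h2 : ∀ u : Fin N → ℂ, ((0, (u, 0)) : newE E N) ∈ S := by
      intro u
      have hu : u ∈ Submodule.span ℂ {v : Fin N → ℂ | ∃ l : List (E → E), l ≠ [] ∧
        (∀ V ∈ l, Generated X V) ∧ v = fun s => iterD l (p s) z.1} := by
        rw [hU]; trivial
      have hmm := Submodule.mem_map_of_mem (f := (LinearMap.inr ℂ E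
        ((Fin N → ℂ) × ℂ)).comp (LinearMap.inl ℂ (Fin N → ℂ) ℂ)) hu
      rw [Submodule.map_span] at hmm
      refine (Submodule.span_le.mpr ?_) hmm
      rintro _ ⟨_, ⟨l, hne, hl, rfl⟩, rfl⟩
      exact hm _ (vert_generated X p hV hD l hne hl)
    have h3 : ((0, (0, 1)) : newE E N) ∈ S := by
      have h4 := hm _ (Generated.base (X := newX X p) 0)
      have h5 : newX X p 0 z = ((0, (fun s => p s z.1, 1)) : newE E N) := rfl
      rw [h5] at h4
      have h6 := S.sub_mem h4 (h2 (fun s => p s z.1))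
      simpa using h6
    rw [eq_top_iff]
    rintro ⟨e, u, w⟩ -
    have h7 : ((e, (u, w)) : newE E N) = (e, 0) + (0, (u, 0)) + w • ((0, (0, 1)) : newE E N) := by
      simp
    rw [h7]
    exact S.add_mem (S.add_mem (h1 e) (h2 u)) (S.smul_mem _ h3)
  · intro z c hz
    by_contra hc0
    set Q := ∑ a, c a • P a with hQ
    have hQ0 : Q ≠ 0 := by
      intro h0
      apply hc0
      have := Fintype.linearIndependent_iff.mp hli c h0
      funext a
      exact this a
    have hQh : Q.IsHomogeneous R := by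
      rw [hQ]
      apply IsHomogeneous.sum
      intro a _
      have := (isHomogeneous_C (Fin N) (c a)).mul (hP a)
      rw [zero_add] at this
      rw [smul_eq_C_mul]
      exact this
    set S : Set (Fin N → ℂ) := {v : Fin N → ℂ | ∃ l : List (E → E), l ≠ [] ∧
        (∀ V ∈ l, Generated X V) ∧ v = fun s => iterD l (p s) z.1} with hSdef
    have hU : Submodule.span ℂ S = ⊤ :=
      span_top_of_dual _ (fun c hc' => h.nd z.1 c
        (fun l hne hl => hc' _ ⟨l, hne, hl, rfl⟩))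
    obtain ⟨L, hLlen, hLS, c0, hc0', hLc⟩ := dirD_exists S hU R Q hQh hQ0
    have hLL : ∀ L : List (Fin N → ℂ), (∀ v ∈ L, v ∈ S) → ∃ LL : List (List (E → E)),
        (∀ l' ∈ LL, l' ≠ [] ∧ ∀ V ∈ l', Generated X V) ∧
        (LL.map fun l' => fun s => iterD l' (p s) z.1) = L := by
      intro L hL
      induction L with
      | nil => exact ⟨[], by simp, rfl⟩
      | cons v L ih =>
        obtain ⟨LL, h1, h2⟩ := ih (fun w hw => hL w (List.mem_cons_of_mem _ hw))
        obtain ⟨l, hne, hl, rfl⟩ := hL v List.mem_cons_self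
        refine ⟨l :: LL, ?_, ?_⟩
        · intro l' hl'
          rcases List.mem_cons.mp hl' with rfl | h'
          · exact ⟨hne, hl⟩
          · exact h1 l' h'
        · simp only [List.map_cons, h2]
    obtain ⟨LL, hLL1, hLL2⟩ := hLL L hLS
    have hlen : LL.length = R := by rw [← hLlen, ← hLL2, List.length_map]
    obtain ⟨LL', l, rfl⟩ : ∃ LL' l, LL = LL' ++ [l] := by
      have hne : LL ≠ [] := by
        intro h0; rw [h0] at hlen; simp at hlen; omega
      exact ⟨LL.dropLast, LL.getLast hne, (List.dropLast_append_getLast hne).symm⟩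
    have hl := (hLL1 l (by simp)).2
    have hLL' : ∀ l' ∈ LL', l' ≠ [] ∧ ∀ V ∈ l', Generated X V :=
      fun l' hl' => hLL1 l' (by simp [hl'])
    have hlen' : LL' ≠ [] := by
      intro h0; rw [h0] at hlen; simp at hlen; omega
    have hz' := hz (LL'.map (vertF p) ++ l.map (liftF N)) (by simp [hlen']) (by
      intro V hV'
      rw [List.mem_append, List.mem_map, List.mem_map] at hV'
      rcases hV' with ⟨m, hm, rfl⟩ | ⟨V', hV'', rfl⟩
      · exact vert_generated X p hV hD m (hLL' m hm).1 (hLL' m hm).2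
      · exact lift_generated X p hV V' (hl V' hV''))
    have hform : ∀ a, iterD (LL'.map (vertF p) ++ l.map (liftF N)) (newp p P a) z =
        eval z.2.1 (L.foldr dirD (P a)) := by
      intro a
      have h1 := congrFun (iter_formula X f p h (P a) l hl LL' hLL') z
      rw [← hLL2, List.map_append, List.foldr_append]
      exact h1
    simp only [hform] at hz'
    have hfin : eval z.2.1 (L.foldr dirD Q) = 0 := by
      rw [hQ, foldr_dirD_sum, eval_sum]
      simpa [smul_eval] using hz'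
    rw [hLc, eval_C] at hfin
    exact hc0' hfin

end newsys

def Good (ρ m : ℕ) : Prop :=
  ∃ (E : Type) (_ : NormedAddCommGroup E) (_ : NormedSpace ℂ E) (_ : FiniteDimensional ℂ E)
    (N q : ℕ) (X : Fin ρ → E → E) (f : Fin N → Fin ρ → E → ℂ) (p : Fin N → E → ℂ)
    (g : Fin q → E → ℂ), Sys X f p ∧
    (∀ s t i j, (fun y => f s i y * f t j y) ∈ Submodule.span ℂ (Set.range g)) ∧
    m ≤ N ∧ m * q ≤ N ^ 2

theorem good_step (ρ : ℕ) (hgood : ∀ m, Good ρ m) (m' : ℕ) : Good (ρ + 1) m' := by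
  obtain ⟨R, m, hR, hnum⟩ := num_step ρ m'
  obtain ⟨E, _, _, _, N, q, X, f, p, g, hS, hg, hN, hq⟩ := hgood m
  obtain ⟨N', P, hli, hP, hc, hdim⟩ := exists_forms hR f g hg (finDim_homog N)
  obtain ⟨q', g', hg', hq'⟩ := new_products (by omega : 1 ≤ R) f g hg P hP (finDim_homog N)
  simp only [finrank_homog] at hdim hq'
  obtain ⟨h1, h2⟩ := hnum N q N' hN hq hdim
  exact ⟨newE E N, inferInstance, inferInstance, inferInstance, N', q', newX X p, newf f P,
    newp p P, g', new_sys hR X f p hS P hli hP hc, hg', h1,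
    (Nat.mul_le_mul_left _ hq').trans h2⟩

theorem good_all (ρ : ℕ) (hρ : 1 ≤ ρ) : ∀ m, Good ρ m := by
  induction ρ, hρ using Nat.le_induction with
  | base =>
    intro m
    obtain ⟨N, q, X, f, p, g, h⟩ := good_one m
    exact ⟨ℂ, inferInstance, inferInstance, inferInstance, N, q, X, f, p, g, h⟩
  | succ ρ _ ih => exact good_step ρ ih

/-- a system with a solution vanishing to order `r` -/
def HasOrder (ρ r : ℕ) : Prop :=
  ∃ (E : Type) (_ : NormedAddCommGroup E) (_ : NormedSpace ℂ E) (_ : FiniteDimensional ℂ E)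
    (X : Fin ρ → E → E) (f : Fin ρ → E → ℂ) (p : E → ℂ),
    (∀ i, ContDiff ℂ ω (X i)) ∧ (∀ i, ContDiff ℂ ω (f i)) ∧
    (∀ i j y, fderiv ℂ (f i) y (X j y) = if i = j then p y else 0) ∧
    (∃ x : Fin ρ → E → ℂ, (∀ i, Differentiable ℂ (x i)) ∧
      ∀ i j y, fderiv ℂ (x i) y (X j y) = if i = j then 1 else 0) ∧
    (∀ y, Submodule.span ℂ {v : E | ∃ F : E → E, Generated X F ∧ F y = v} = ⊤) ∧
    (∃ i y, f i y ≠ 0) ∧
    (∃ C : ℝ, 0 ≤ C ∧ ∀ i y, ‖y‖ ≤ 1 → ‖f i y‖ ≤ C * ‖y‖ ^ r)

theorem hasOrder_one (r : ℕ) : HasOrder 1 r := by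
  refine ⟨ℂ, inferInstance, inferInstance, inferInstance, fun _ _ => 1, fun _ y => y ^ (r + 1),
    fun y => ((r + 1 : ℕ) : ℂ) * y ^ r, ?_, ?_, ?_, ?_, ?_, ?_, ?_⟩
  · intro i
    exact contDiff_const
  · intro i
    exact contDiff_id.pow (r + 1)
  · intro i j y
    rw [if_pos (Subsingleton.elim i j)]
    have h1 : HasDerivAt (fun y : ℂ => y ^ (r + 1)) (((r + 1 : ℕ) : ℂ) * y ^ (r + 1 - 1)) y :=
      hasDerivAt_pow (r + 1) y
    rw [h1.hasFDerivAt.fderiv]
    simp
  · refine ⟨fun _ y => y, fun _ => differentiable_id, ?_⟩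
    intro i j y
    rw [if_pos (Subsingleton.elim i j)]
    have h1 : HasDerivAt (fun y : ℂ => y) 1 y := hasDerivAt_id y
    rw [h1.hasFDerivAt.fderiv]
    simp
  · intro y
    rw [Submodule.eq_top_iff']
    intro v
    have h1 : (1 : ℂ) ∈ Submodule.span ℂ {v : ℂ | ∃ F : ℂ → ℂ,
        Generated (fun (_ : Fin 1) (_ : ℂ) => (1 : ℂ)) F ∧ F y = v} :=
      Submodule.subset_span ⟨fun _ => 1, Generated.base 0, rfl⟩
    have h2 := Submodule.smul_mem _ v h1
    simpa using h2
  · refine ⟨0, 1, ?_⟩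
    simp
  · refine ⟨1, zero_le_one, ?_⟩
    intro i y hy
    rw [norm_pow, pow_succ, one_mul]
    exact mul_le_of_le_one_right (by positivity) hy

theorem pow_bound {E : Type} [NormedAddCommGroup E] [NormedSpace ℂ E] [FiniteDimensional ℂ E]
    {ρ N r : ℕ} (hr : 2 ≤ r) (f : Fin N → Fin ρ → E → ℂ) (hf : ∀ s i, ContDiff ℂ ω (f s i))
    (f0 : ∀ s i, f s i 0 = 0) (P : Fin 1 → MvPolynomial (Fin N) ℂ)
    (hP : (P 0).IsHomogeneous r) :
    ∃ C : ℝ, 0 ≤ C ∧ ∀ i (y : newE E N), ‖y‖ ≤ 1 → ‖newf f P 0 i y‖ ≤ C * ‖y‖ ^ r := by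
  obtain ⟨C0, hC0, hC0'⟩ := eval_bound (P 0) hP
  have hpd : ∀ s : Fin N, (pderiv s (P 0)).IsHomogeneous (r - 1) := fun s => hP.pderiv
  choose C1 hC1 hC1' using fun (s : Fin N) (j : Fin ρ) => lin_bound (f s j) (hf s j) (f0 s j)
  choose C2 hC2 hC2' using fun s : Fin N => eval_bound (pderiv s (P 0)) (hpd s)
  have hsum : ∀ j : Fin ρ, 0 ≤ ∑ s, C1 s j * C2 s := fun j =>
    Finset.sum_nonneg fun s _ => mul_nonneg (hC1 s j) (hC2 s)
  refine ⟨C0 + ∑ j, ∑ s, C1 s j * C2 s,
    add_nonneg hC0 (Finset.sum_nonneg fun j _ => hsum j), fun i y hy => ?_⟩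
  have hy1 : ‖y.1‖ ≤ ‖y‖ := norm_fst_le y
  have hy2 : ‖y.2.1‖ ≤ ‖y‖ := (norm_fst_le y.2).trans (norm_snd_le y)
  have hyr : 0 ≤ ‖y‖ ^ r := pow_nonneg (norm_nonneg _) _
  refine Fin.cases ?_ (fun j => ?_) i
  · show ‖eval y.2.1 (P 0)‖ ≤ _
    calc ‖eval y.2.1 (P 0)‖ ≤ C0 * ‖y.2.1‖ ^ r := hC0' _
      _ ≤ C0 * ‖y‖ ^ r := mul_le_mul_of_nonneg_left (pow_le_pow_left₀ (norm_nonneg _) hy2 r) hC0
      _ ≤ (C0 + ∑ j, ∑ s, C1 s j * C2 s) * ‖y‖ ^ r :=
        mul_le_mul_of_nonneg_right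
          (le_add_of_nonneg_right (Finset.sum_nonneg fun j _ => hsum j)) hyr
  · show ‖∑ s, f s j y.1 * eval y.2.1 (pderiv s (P 0))‖ ≤ _
    have h1 : ∀ s : Fin N, ‖f s j y.1 * eval y.2.1 (pderiv s (P 0))‖ ≤
        C1 s j * C2 s * ‖y‖ ^ r := by
      intro s
      rw [norm_mul]
      have h2 : ‖f s j y.1‖ ≤ C1 s j * ‖y‖ :=
        (hC1' s j y.1 (hy1.trans hy)).trans (mul_le_mul_of_nonneg_left hy1 (hC1 s j))
      have h3 : ‖eval y.2.1 (pderiv s (P 0))‖ ≤ C2 s * ‖y‖ ^ (r - 1) :=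
        (hC2' s y.2.1).trans (mul_le_mul_of_nonneg_left
          (pow_le_pow_left₀ (norm_nonneg _) hy2 (r - 1)) (hC2 s))
      calc ‖f s j y.1‖ * ‖eval y.2.1 (pderiv s (P 0))‖
          ≤ (C1 s j * ‖y‖) * (C2 s * ‖y‖ ^ (r - 1)) :=
            mul_le_mul h2 h3 (norm_nonneg _) (mul_nonneg (hC1 s j) (norm_nonneg _))
        _ = C1 s j * C2 s * (‖y‖ * ‖y‖ ^ (r - 1)) := by ring
        _ = C1 s j * C2 s * ‖y‖ ^ r := by
            rw [← pow_succ', Nat.sub_add_cancel (by omega)]
    calc ‖∑ s, f s j y.1 * eval y.2.1 (pderiv s (P 0))‖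
        ≤ ∑ s, ‖f s j y.1 * eval y.2.1 (pderiv s (P 0))‖ := norm_sum_le _ _
      _ ≤ ∑ s, C1 s j * C2 s * ‖y‖ ^ r := Finset.sum_le_sum fun s _ => h1 s
      _ = (∑ s, C1 s j * C2 s) * ‖y‖ ^ r := by rw [Finset.sum_mul]
      _ ≤ (C0 + ∑ j, ∑ s, C1 s j * C2 s) * ‖y‖ ^ r := by
        refine mul_le_mul_of_nonneg_right ?_ hyr
        have h4 : ∑ s, C1 s j * C2 s ≤ ∑ j, ∑ s, C1 s j * C2 s :=
          Finset.single_le_sum (f := fun j => ∑ s, C1 s j * C2 s) (fun j _ => hsum j)
            (Finset.mem_univ j)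
        linarith

theorem hasOrder (ρ r : ℕ) (hρ : 1 ≤ ρ) (hr : 2 ≤ r) : HasOrder ρ r := by
  obtain ⟨σ, rfl⟩ : ∃ σ, ρ = σ + 1 := ⟨ρ - 1, by omega⟩
  rcases Nat.eq_zero_or_pos σ with rfl | hσ
  · exact hasOrder_one r
  obtain ⟨m, hm⟩ := num_final σ r hr
  obtain ⟨E, _, _, _, N, q, X, f, p, g, hS, hg, hN, hq⟩ := good_all σ hσ m
  obtain ⟨N', P', hli', hP', hc', hdim⟩ := exists_forms hr f g hg (finDim_homog N)
  simp only [finrank_homog] at hdim
  have hlt := hm N q hN hq
  have hN' : 0 < N' := by omega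
  let P : Fin 1 → MvPolynomial (Fin N) ℂ := fun _ => P' ⟨0, hN'⟩
  have hne : P' ⟨0, hN'⟩ ≠ 0 := hli'.ne_zero _
  have hli : LinearIndependent ℂ P := by
    rw [linearIndependent_unique_iff]
    exact hne
  have hP : ∀ a, (P a).IsHomogeneous r := fun a => hP' _
  have hc : ∀ a i j y, ∑ s, ∑ t, C (f s i y * f t j y) * pderiv s (pderiv t (P a)) = 0 :=
    fun a i j y => hc' _ i j y
  have hS' := new_sys hr X f p hS P hli hP hc
  refine ⟨newE E N, inferInstance, inferInstance, inferInstance, newX X p, newf f P 0, newp p P 0,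
    hS'.hX, fun i => hS'.hf 0 i, fun i j y => hS'.rel 0 i j y, hS'.hx, hS'.bg, ?_,
    pow_bound hr f hS.hf hS.f0 P (hP 0)⟩
  obtain ⟨u, hu⟩ := eval_ne_zero (P 0) hne
  exact ⟨0, ((0, (u, 0)) : newE E N), hu⟩

end aux

/-- data attached to a square zero endomorphism of rank `ρ` -/
structure Data {W : Type} [NormedAddCommGroup W] [NormedSpace ℂ W] (A : W →ₗ[ℂ] W) (ρ : ℕ) where
  K : Submodule ℂ W
  π : W →L[ℂ] K
  α : Fin ρ → W →L[ℂ] ℂ
  e : Fin ρ → W
  r : Fin ρ → K
  πK : ∀ κ : K, π (κ : W) = κ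
  αK : ∀ i (κ : K), α i (κ : W) = 0
  dec : ∀ w, w = (π w : W) + ∑ i, α i w • e i
  πe : ∀ i, π (e i) = 0
  αe : ∀ i j, α i (e j) = if i = j then 1 else 0
  Aw : ∀ w, A w = ((∑ i, α i w • r i : K) : W)
  r0 : ∀ i, r i ≠ 0
  lin : LinearIndependent ℂ r

theorem exists_data {W : Type} [NormedAddCommGroup W] [NormedSpace ℂ W] [FiniteDimensional ℂ W]
    (A : W →ₗ[ℂ] W) (hA : ∀ w, A (A w) = 0) :
    Nonempty (Data A (Module.finrank ℂ (LinearMap.range A))) := by
  classical
  let b := Module.finBasis ℂ (LinearMap.range A)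
  have he : ∀ i, ∃ w : W, A w = (b i : W) := fun i => (b i).2
  choose e he using he
  let α0 : Fin (Module.finrank ℂ (LinearMap.range A)) → W →ₗ[ℂ] ℂ :=
    fun i => (b.coord i) ∘ₗ A.rangeRestrict
  have hα : ∀ i w, α0 i w = b.coord i (A.rangeRestrict w) := fun i w => rfl
  have hAsum : ∀ w, A w = ∑ i, α0 i w • (b i : W) := by
    intro w
    have h1 := b.sum_repr (A.rangeRestrict w)
    have h2 := congrArg Subtype.val h1
    rw [Submodule.coe_sum] at h2
    simp only [Submodule.coe_smul] at h2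
    have h3 : ((A.rangeRestrict w : LinearMap.range A) : W) = A w := rfl
    rw [← h3, ← h2]
    rfl
  have hαe : ∀ i j, α0 i (e j) = if i = j then 1 else 0 := by
    intro i j
    have h1 : A.rangeRestrict (e j) = b j := Subtype.ext (he j)
    rw [hα, h1, Module.Basis.coord_apply, Module.Basis.repr_self, Finsupp.single_apply]
    by_cases h : i = j
    · rw [if_pos h, if_pos h.symm]
    · rw [if_neg h, if_neg (fun h' => h h'.symm)]
  have hαK : ∀ i (κ : LinearMap.ker A), α0 i (κ : W) = 0 := by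
    intro i κ
    have h1 : A.rangeRestrict (κ : W) = 0 := Subtype.ext κ.2
    rw [hα, h1, map_zero]
  let π0 : W →ₗ[ℂ] W := LinearMap.id - ∑ i, (α0 i).smulRight (e i)
  have hπ0 : ∀ w, π0 w = w - ∑ i, α0 i w • e i := by
    intro w
    simp [π0, LinearMap.sum_apply]
  have hπm : ∀ w, π0 w ∈ LinearMap.ker A := by
    intro w
    rw [LinearMap.mem_ker, hπ0, map_sub, map_sum]
    simp only [map_smul, he]
    rw [← hAsum, sub_self]
  let π1 : W →ₗ[ℂ] LinearMap.ker A := π0.codRestrict (LinearMap.ker A) hπm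
  have hbK : ∀ i, (b i : W) ∈ LinearMap.ker A := by
    intro i
    rw [LinearMap.mem_ker, ← he i]
    exact hA _
  exact ⟨{
    K := LinearMap.ker A
    π := LinearMap.toContinuousLinearMap π1
    α := fun i => LinearMap.toContinuousLinearMap (α0 i)
    e := e
    r := fun i => ⟨(b i : W), hbK i⟩
    πK := by
      intro κ
      apply Subtype.ext
      show π0 (κ : W) = κ
      rw [hπ0]
      simp [hαK]
    αK := hαK
    dec := by
      intro w
      show w = π0 w + ∑ i, α0 i w • e i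
      rw [hπ0, sub_add_cancel]
    πe := by
      intro i
      apply Subtype.ext
      show π0 (e i) = 0
      rw [hπ0]
      simp [hαe]
    αe := hαe
    Aw := by
      intro w
      rw [Submodule.coe_sum]
      exact hAsum w
    r0 := by
      intro i h
      have h1 : (b i : W) = 0 := congrArg Subtype.val h
      exact b.ne_zero i (Subtype.ext h1)
    lin := by
      have h1 : LinearIndependent ℂ (fun i => (b i : W)) :=
        b.linearIndependent.map' (LinearMap.range A).subtype (Submodule.ker_subtype _)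
      exact LinearIndependent.of_comp (LinearMap.ker A).subtype h1 }⟩

section construction

variable {W : Type} [NormedAddCommGroup W] [NormedSpace ℂ W] [FiniteDimensional ℂ W]
  {A : W →ₗ[ℂ] W} {ρ : ℕ} {E : Type} [NormedAddCommGroup E] [NormedSpace ℂ E]

/-- the frame -/
noncomputable def frame (d : Data A ρ) (X : Fin ρ → E → E) (y : d.K × E) : W →L[ℂ] d.K × E :=
  d.π.prod 0 + ∑ i, (d.α i).smulRight ((0, X i y.2) : d.K × E)

theorem frame_apply (d : Data A ρ) (X : Fin ρ → E → E) (y : d.K × E) (w : W) :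
    frame d X y w = (d.π w, ∑ i, d.α i w • X i y.2) := by
  have h : ∀ s : Finset (Fin ρ), ∑ i ∈ s, d.α i w • ((0, X i y.2) : d.K × E) =
      (0, ∑ i ∈ s, d.α i w • X i y.2) := by
    intro s
    induction s using Finset.induction_on with
    | empty => simp; rfl
    | insert a s ha ih => rw [Finset.sum_insert ha, Finset.sum_insert ha, ih]; simp
  simp only [frame, ContinuousLinearMap.add_apply, ContinuousLinearMap.prod_apply,
    ContinuousLinearMap.zero_apply, ContinuousLinearMap.sum_apply,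
    ContinuousLinearMap.smulRight_apply]
  rw [h]
  simp

/-- the symmetry -/
noncomputable def sym (d : Data A ρ) (f : Fin ρ → E → ℂ) (y : d.K × E) : d.K × E :=
  (∑ i, f i y.2 • d.r i, 0)

theorem frame_contDiff (d : Data A ρ) (X : Fin ρ → E → E) (hX : ∀ i, ContDiff ℂ ω (X i)) :
    ContDiff ℂ ω (frame d X) := by
  refine contDiff_const.add (ContDiff.sum fun i _ => ?_)
  exact contDiff_const.smulRight (contDiff_const.prodMk ((hX i).comp contDiff_snd))

theorem sym_contDiff (d : Data A ρ) (f : Fin ρ → E → ℂ) (hf : ∀ i, ContDiff ℂ ω (f i)) :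
    ContDiff ℂ ω (sym d f) :=
  (ContDiff.sum fun i _ => ((hf i).comp contDiff_snd).smul contDiff_const).prodMk contDiff_const

theorem frame_injective (d : Data A ρ) (X : Fin ρ → E → E)
    (hx : ∃ x : Fin ρ → E → ℂ, (∀ i, Differentiable ℂ (x i)) ∧
      ∀ i j y, fderiv ℂ (x i) y (X j y) = if i = j then 1 else 0) (y : d.K × E) :
    Function.Injective (frame d X y) := by
  obtain ⟨x, _, hx⟩ := hx
  rw [injective_iff_map_eq_zero]
  intro w hw
  rw [frame_apply] at hw
  simp only [Prod.mk_eq_zero] at hw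
  obtain ⟨h1, h2⟩ := hw
  have h3 : ∀ j, d.α j w = 0 := by
    intro j
    have h4 := congrArg (fderiv ℂ (x j) y.2) h2
    rw [map_sum, map_zero] at h4
    simpa [hx] using h4
  rw [d.dec w, h1]
  simp [h3]

theorem sym_deriv (d : Data A ρ) (X : Fin ρ → E → E) (f : Fin ρ → E → ℂ) (p : E → ℂ)
    (hf : ∀ i, ContDiff ℂ ω (f i))
    (rel : ∀ i j y, fderiv ℂ (f i) y (X j y) = if i = j then p y else 0)
    (y : d.K × E) (s : ℂ) (w : W) :
    (fderiv ℂ (fun z => z + s • sym d f z) y) (frame d X y w) =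
      frame d X y (w + (s * p y.2) • A w) := by
  have hfd : ∀ i, HasFDerivAt (fun z : d.K × E => f i z.2)
      ((fderiv ℂ (f i) y.2).comp (ContinuousLinearMap.snd ℂ d.K E)) y := fun i =>
    HasFDerivAt.comp y ((hf i).differentiable (by simp) y.2).hasFDerivAt
      (ContinuousLinearMap.snd ℂ d.K E).hasFDerivAt
  have hK : HasFDerivAt (fun z : d.K × E => ∑ i, f i z.2 • d.r i) _ y :=
    HasFDerivAt.fun_sum (u := Finset.univ) fun i _ => (hfd i).smul_const (d.r i)
  have hsym0 := hK.prodMk (hasFDerivAt_const (0 : E) y)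
  have hsym : HasFDerivAt (fun z : d.K × E => sym d f z) _ y := hsym0
  have hphi0 := (hasFDerivAt_id y).add (hsym.const_smul s)
  have hphi : HasFDerivAt (fun z : d.K × E => z + s • sym d f z) _ y := hphi0
  rw [hphi.fderiv, frame_apply, frame_apply]
  have hπ : d.π (A w) = ∑ i, d.α i w • d.r i := by
    rw [d.Aw w, d.πK]
  have hα : ∀ i, d.α i (A w) = 0 := by
    intro i; rw [d.Aw w, d.αK]
  have hdir : ∀ i, fderiv ℂ (f i) y.2 (∑ j, d.α j w • X j y.2) = d.α i w * p y.2 := by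
    intro i
    rw [map_sum]
    simp [rel]
  simp only [ContinuousLinearMap.add_apply, ContinuousLinearMap.id_apply,
    ContinuousLinearMap.smul_apply, ContinuousLinearMap.prod_apply,
    ContinuousLinearMap.sum_apply, ContinuousLinearMap.smulRight_apply,
    ContinuousLinearMap.comp_apply, ContinuousLinearMap.coe_snd', hdir,
    ContinuousLinearMap.zero_apply, map_add, map_smul, hπ, hα]
  refine Prod.ext ?_ ?_
  · simp only [Prod.fst_add, Prod.smul_fst, Finset.smul_sum, smul_smul]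
    congr 1
    apply Finset.sum_congr rfl
    intro i _
    congr 1
    ring
  · simp

theorem frame_generated (d : Data A ρ) (X : Fin ρ → E → E) (hX : ∀ i, ContDiff ℂ ω (X i))
    (V : E → E) (hV : Generated X V) :
    Generated (fun (w : W) (z : d.K × E) => frame d X z w)
      (fun z => ((0, V z.2) : d.K × E)) := by
  induction hV with
  | base i =>
    have h1 := Generated.base (X := fun (w : W) (z : d.K × E) => frame d X z w) (d.e i)
    have h2 : (fun z : d.K × E => frame d X z (d.e i)) = fun z => ((0, X i z.2) : d.K × E) := by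
      funext z
      rw [frame_apply, d.πe]
      simp [d.αe]
    rw [h2] at h1
    exact h1
  | bracket F G hF hG ihF ihG =>
    have h1 := Generated.bracket _ _ ihF ihG
    have hd : ∀ V : E → E, Generated X V → ∀ z : d.K × E,
        HasFDerivAt (fun z : d.K × E => ((0, V z.2) : d.K × E))
          ((0 : d.K × E →L[ℂ] d.K).prod
            ((fderiv ℂ V z.2).comp (ContinuousLinearMap.snd ℂ d.K E))) z := by
      intro V hV z
      have hVd := (generated_contDiff X hX V hV).differentiable (by simp) z.2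
      exact (hasFDerivAt_const (0 : d.K) z).prodMk
        (HasFDerivAt.comp z hVd.hasFDerivAt (ContinuousLinearMap.snd ℂ d.K E).hasFDerivAt)
    have h2 : VectorField.lieBracket ℂ (fun z : d.K × E => ((0, F z.2) : d.K × E))
        (fun z => ((0, G z.2) : d.K × E)) =
        fun z => ((0, VectorField.lieBracket ℂ F G z.2) : d.K × E) := by
      funext z
      rw [VectorField.lieBracket, (hd F hF z).fderiv, (hd G hG z).fderiv]
      simp [VectorField.lieBracket]
    rw [h2] at h1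
    exact h1

theorem main_construction [FiniteDimensional ℂ E] (Z : Set W) (d : Data A ρ)
    (hA : ∀ w, A (A w) = 0) (hZ : ∀ (s : ℂ) (z : W), z ∈ Z → z + s • A z ∈ Z) (k : ℕ)
    (X : Fin ρ → E → E) (f : Fin ρ → E → ℂ) (p : E → ℂ)
    (hX : ∀ i, ContDiff ℂ ω (X i)) (hf : ∀ i, ContDiff ℂ ω (f i))
    (rel : ∀ i j y, fderiv ℂ (f i) y (X j y) = if i = j then p y else 0)
    (hx : ∃ x : Fin ρ → E → ℂ, (∀ i, Differentiable ℂ (x i)) ∧
      ∀ i j y, fderiv ℂ (x i) y (X j y) = if i = j then 1 else 0)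
    (hbg : ∀ y, Submodule.span ℂ {v : E | ∃ F : E → E, Generated X F ∧ F y = v} = ⊤)
    (hne : ∃ i y, f i y ≠ 0)
    (hb : ∃ C : ℝ, 0 ≤ C ∧ ∀ i y, ‖y‖ ≤ 1 → ‖f i y‖ ≤ C * ‖y‖ ^ (k + 1)) :
    ∃ n, OccursInOrder W Z k n := by
  refine ⟨Module.finrank ℂ (d.K × E), d.K × E, inferInstance, inferInstance, inferInstance,
    frame d X, sym d f, rfl, frame_contDiff d X hX, frame_injective d X hx, ?_,
    sym_contDiff d f hf, ?_, ?_, ?_, ?_⟩
  · intro y
    set S := Submodule.span ℂ {v : d.K × E | ∃ F : d.K × E → d.K × E,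
      Generated (fun (w : W) (z : d.K × E) => frame d X z w) F ∧ F y = v} with hS
    have hm : ∀ F : d.K × E → d.K × E,
        Generated (fun (w : W) (z : d.K × E) => frame d X z w) F → F y ∈ S :=
      fun F hF => Submodule.subset_span ⟨F, hF, rfl⟩
    rw [eq_top_iff]
    rintro ⟨κ, u⟩ -
    have h1 : ((κ, 0) : d.K × E) ∈ S := by
      have e : frame d X y (κ : W) = ((κ, 0) : d.K × E) := by
        rw [frame_apply, d.πK]
        simp [d.αK]
      rw [← e]
      exact hm _ (Generated.base (X := fun (w : W) (z : d.K × E) => frame d X z w) (κ : W))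
    have h3 : ((0, u) : d.K × E) ∈ S := by
      have hu : u ∈ Submodule.span ℂ {v : E | ∃ F : E → E, Generated X F ∧ F y.2 = v} := by
        rw [hbg]; trivial
      have hmm := Submodule.mem_map_of_mem (f := LinearMap.inr ℂ d.K E) hu
      rw [Submodule.map_span] at hmm
      refine (Submodule.span_le.mpr ?_) hmm
      rintro _ ⟨_, ⟨V, hV, rfl⟩, rfl⟩
      exact hm _ (frame_generated d X hX V hV)
    have h4 : ((κ, u) : d.K × E) = (κ, 0) + (0, u) := by simp
    rw [h4]
    exact S.add_mem h1 h3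
  · obtain ⟨i, y, hy⟩ := hne
    refine ⟨((0, y) : d.K × E), ?_⟩
    intro h
    have h' : ∑ i, f i y • d.r i = 0 := congrArg Prod.fst h
    exact hy (Fintype.linearIndependent_iff.mp d.lin (fun i => f i y) h' i)
  · obtain ⟨C, hC, hb⟩ := hb
    refine ⟨∑ i, C * ‖d.r i‖, ?_⟩
    intro y hy
    have hy2 : ‖y.2‖ ≤ ‖y‖ := norm_snd_le y
    have h3 : ‖sym d f y‖ = ‖∑ i, f i y.2 • d.r i‖ := by
      simp [sym, Prod.norm_def]
    rw [h3, Finset.sum_mul]
    refine (norm_sum_le _ _).trans (Finset.sum_le_sum fun i _ => ?_)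
    rw [norm_smul]
    have h5 := hb i y.2 (hy2.trans hy)
    calc ‖f i y.2‖ * ‖d.r i‖ ≤ (C * ‖y.2‖ ^ (k + 1)) * ‖d.r i‖ := by gcongr
      _ ≤ (C * ‖y‖ ^ (k + 1)) * ‖d.r i‖ := by gcongr
      _ = C * ‖d.r i‖ * ‖y‖ ^ (k + 1) := by ring
  · intro s y
    simp [sym]
  · intro s y
    have hfr : frame d X (y + s • sym d f y) = frame d X y := by
      simp [frame, sym]
    rw [hfr, ← Set.image_comp]
    set c := s * p y.2 with hc
    ext v
    constructor
    · rintro ⟨z, hz, rfl⟩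
      refine ⟨z + c • A z, hZ _ _ hz, ?_⟩
      simp only [Function.comp_apply]
      rw [sym_deriv d X f p hf rel]
    · rintro ⟨z, hz, rfl⟩
      refine ⟨z + (-c) • A z, hZ _ _ hz, ?_⟩
      simp only [Function.comp_apply]
      rw [sym_deriv d X f p hf rel, ← hc]
      congr 1
      rw [map_add, map_smul, hA]
      simp

theorem main_theorem (Z : Set W) (A : W →ₗ[ℂ] W) (hA0 : A ≠ 0) (hA : ∀ w, A (A w) = 0)
    (hZ : ∀ (s : ℂ) (z : W), z ∈ Z → z + s • A z ∈ Z) (k : ℕ) :
    ∃ n, OccursInOrder W Z k n := by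
  obtain ⟨d⟩ := exists_data A hA
  have hρ : 1 ≤ Module.finrank ℂ (LinearMap.range A) := by
    rw [Nat.one_le_iff_ne_zero]
    intro h0
    apply hA0
    rw [Submodule.finrank_eq_zero] at h0
    exact LinearMap.range_eq_bot.mp h0
  obtain ⟨E, _, _, _, X, f, p, hX, hf, rel, hx, hbg, hne, C, hC, hb⟩ :=
    hasOrder (Module.finrank ℂ (LinearMap.range A)) (k + 2) hρ (by omega)
  refine main_construction Z d hA hZ k X f p hX hf rel hx hbg hne ⟨C, hC, fun i y hy => ?_⟩
  refine (hb i y hy).trans ?_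
  have : ‖y‖ ^ (k + 2) ≤ ‖y‖ ^ (k + 1) := pow_le_pow_of_le_one (norm_nonneg _) hy (by omega)
  gcongr

end construction

theorem quadric_aux_iso {q : ℕ} (j k : Fin q) (hjk : j ≠ k) (c : ℂ) (hc : c * c = -1) :
    (Pi.single j 1 + Pi.single k c : Fin q → ℂ) ⬝ᵥ (Pi.single j 1 + Pi.single k c) = 0 := by
  simp [add_dotProduct, hjk, hjk.symm, hc]

/-- every smooth quadric of dimension at least 2 has a square zero rank 2 linear symmetry -/
theorem quadric (q : ℕ) (hq : 4 ≤ q) :
    ∃ A : (Fin q → ℂ) →ₗ[ℂ] (Fin q → ℂ), Module.finrank ℂ (LinearMap.range A) = 2 ∧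
      (∀ w, A (A w) = 0) ∧
      (∀ (s : ℂ) (w : Fin q → ℂ), ∑ i, w i ^ 2 = 0 → ∑ i, (w + s • A w) i ^ 2 = 0) := by
  have h0 : 0 < q := by omega
  have h1 : 1 < q := by omega
  have h2 : 2 < q := by omega
  have h3 : 3 < q := by omega
  set i0 : Fin q := ⟨0, h0⟩ with hi0
  set i1 : Fin q := ⟨1, h1⟩ with hi1
  set i2 : Fin q := ⟨2, h2⟩ with hi2
  set i3 : Fin q := ⟨3, h3⟩ with hi3
  have n01 : i0 ≠ i1 := by simp [hi0, hi1]
  have n02 : i0 ≠ i2 := by simp [hi0, hi2]
  have n03 : i0 ≠ i3 := by simp [hi0, hi3]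
  have n12 : i1 ≠ i2 := by simp [hi1, hi2]
  have n13 : i1 ≠ i3 := by simp [hi1, hi3]
  have n23 : i2 ≠ i3 := by simp [hi2, hi3]
  clear_value i0 i1 i2 i3
  set a : Fin q → ℂ := Pi.single i0 1 + Pi.single i1 Complex.I with ha
  set b : Fin q → ℂ := Pi.single i2 1 + Pi.single i3 Complex.I with hb
  have ha0 : a i0 = 1 := by simp [ha, n01]
  have ha2 : a i2 = 0 := by simp [ha, n02.symm, n12.symm]
  have hb0 : b i0 = 0 := by simp [hb, n02, n03]
  have hb2 : b i2 = 1 := by simp [hb, n23]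
  have haa : a ⬝ᵥ a = 0 := quadric_aux_iso i0 i1 n01 Complex.I Complex.I_mul_I
  have hbb : b ⬝ᵥ b = 0 := quadric_aux_iso i2 i3 n23 Complex.I Complex.I_mul_I
  have hab : a ⬝ᵥ b = 0 := by
    simp [ha, hb, add_dotProduct, n02, n03, n12, n13]
  have hba : b ⬝ᵥ a = 0 := by rw [dotProduct_comm]; exact hab
  let A : (Fin q → ℂ) →ₗ[ℂ] (Fin q → ℂ) :=
    { toFun := fun w => (w ⬝ᵥ a) • b - (w ⬝ᵥ b) • a
      map_add' := by
        intro x y
        simp only [add_dotProduct, add_smul]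
        abel
      map_smul' := by
        intro c x
        simp only [smul_dotProduct, smul_sub, smul_smul, smul_eq_mul, RingHom.id_apply] }
  have hA : ∀ w, A w = (w ⬝ᵥ a) • b - (w ⬝ᵥ b) • a := fun w => rfl
  have hAa : ∀ w, A w ⬝ᵥ a = 0 := by
    intro w
    rw [hA, sub_dotProduct, smul_dotProduct, smul_dotProduct, hba, haa]
    simp
  have hAb : ∀ w, A w ⬝ᵥ b = 0 := by
    intro w
    rw [hA, sub_dotProduct, smul_dotProduct, smul_dotProduct, hbb, hab]
    simp
  refine ⟨A, ?_, ?_, ?_⟩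
  · have hli : LinearIndependent ℂ ![a, b] := by
      rw [LinearIndependent.pair_iff]
      intro s t hst
      have e0 := congrFun hst i0
      have e2 := congrFun hst i2
      simp only [Pi.add_apply, Pi.smul_apply, smul_eq_mul, Pi.zero_apply, ha0, hb0, ha2, hb2] at e0 e2
      constructor
      · simpa using e0
      · simpa using e2
    have hr : LinearMap.range A = Submodule.span ℂ (Set.range ![a, b]) := by
      apply le_antisymm
      · rintro _ ⟨w, rfl⟩
        rw [hA]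
        refine Submodule.sub_mem _ (Submodule.smul_mem _ _ (Submodule.subset_span ⟨1, rfl⟩))
          (Submodule.smul_mem _ _ (Submodule.subset_span ⟨0, rfl⟩))
      · rw [Submodule.span_le]
        rintro _ ⟨i, rfl⟩
        fin_cases i
        · refine ⟨-Pi.single i2 1, ?_⟩
          rw [map_neg, hA, single_dotProduct, single_dotProduct, ha2, hb2]
          simp
        · refine ⟨Pi.single i0 1, ?_⟩
          rw [hA, single_dotProduct, single_dotProduct, ha0, hb0]
          simp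
    rw [hr, finrank_span_eq_card hli]
    simp
  · intro w
    rw [hA (A w), hAa, hAb]
    simp
  · intro s w hw
    have e : ∀ x : Fin q → ℂ, ∑ i, x i ^ 2 = x ⬝ᵥ x := by
      intro x
      unfold dotProduct
      exact Finset.sum_congr rfl fun i _ => by ring
    rw [e] at hw ⊢
    have hwA : A w ⬝ᵥ w = 0 := by
      rw [hA, sub_dotProduct, smul_dotProduct, smul_dotProduct, dotProduct_comm b w,
        dotProduct_comm a w]
      simp only [smul_eq_mul]
      ring
    have hwA' : w ⬝ᵥ A w = 0 := by rw [dotProduct_comm]; exact hwA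
    have hAA : A w ⬝ᵥ A w = 0 := by
      conv_lhs => rw [hA w]
      rw [sub_dotProduct, smul_dotProduct, smul_dotProduct, dotProduct_comm b (_ - _),
        dotProduct_comm a (_ - _), ← hA, hAa, hAb]
      simp
    rw [add_dotProduct, dotProduct_add, dotProduct_add, smul_dotProduct, smul_dotProduct,
      dotProduct_smul, dotProduct_smul, hw, hwA, hwA', hAA]
    simp

theorem quadric_span (q : ℕ) (hq : 4 ≤ q) :
    Submodule.span ℂ {w : Fin q → ℂ | ∑ i, w i ^ 2 = 0} = ⊤ := by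
  have e : ∀ x : Fin q → ℂ, ∑ i, x i ^ 2 = x ⬝ᵥ x := by
    intro x
    unfold dotProduct
    exact Finset.sum_congr rfl fun i _ => by ring
  have hj : ∀ j : Fin q, (Pi.single j 1 : Fin q → ℂ) ∈
      Submodule.span ℂ {w : Fin q → ℂ | ∑ i, w i ^ 2 = 0} := by
    intro j
    haveI : Nontrivial (Fin q) := Fin.nontrivial_iff_two_le.mpr (by omega)
    obtain ⟨k, hk⟩ := exists_ne j
    have m1 : (Pi.single j 1 + Pi.single k Complex.I : Fin q → ℂ) ∈
        Submodule.span ℂ {w : Fin q → ℂ | ∑ i, w i ^ 2 = 0} := by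
      apply Submodule.subset_span
      show ∑ i, _ = _
      rw [e]
      exact quadric_aux_iso j k hk.symm _ Complex.I_mul_I
    have m2 : (Pi.single j 1 + Pi.single k (-Complex.I) : Fin q → ℂ) ∈
        Submodule.span ℂ {w : Fin q → ℂ | ∑ i, w i ^ 2 = 0} := by
      apply Submodule.subset_span
      show ∑ i, _ = _
      rw [e]
      exact quadric_aux_iso j k hk.symm _ (by rw [neg_mul_neg]; exact Complex.I_mul_I)
    have m3 := Submodule.smul_mem _ (1 / 2 : ℂ) (Submodule.add_mem _ m1 m2)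
    have e3 : (1 / 2 : ℂ) • ((Pi.single j 1 + Pi.single k Complex.I : Fin q → ℂ) +
        (Pi.single j 1 + Pi.single k (-Complex.I))) = Pi.single j 1 := by
      rw [Pi.single_neg]
      have : (Pi.single j 1 + Pi.single k Complex.I : Fin q → ℂ) +
        (Pi.single j 1 + -Pi.single k Complex.I) = (2 : ℂ) • Pi.single j 1 := by
        rw [two_smul]; abel
      rw [this, smul_smul]
      norm_num
    rwa [e3] at m3
  rw [eq_top_iff]
  intro w _
  rw [← Finset.univ_sum_single w]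
  refine Submodule.sum_mem _ fun i _ => ?_
  have : (Pi.single i (w i) : Fin q → ℂ) = w i • Pi.single i 1 := by
    rw [← Pi.single_smul]
    simp
  rw [this]
  exact Submodule.smul_mem _ _ (hj i)

/-- the Segre varieties: matrices of rank at most 1 -/
theorem segre (m n : ℕ) (hm : 1 ≤ m) (hn : 2 ≤ n) :
    ∃ A : (Fin m → Fin n → ℂ) →ₗ[ℂ] (Fin m → Fin n → ℂ),
      A ≠ 0 ∧ (∀ w, A (A w) = 0) ∧
      (∀ (s : ℂ) (w : Fin m → Fin n → ℂ), (∀ a b i j, w a i * w b j = w a j * w b i) →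
        ∀ a b i j, (w + s • A w) a i * (w + s • A w) b j =
          (w + s • A w) a j * (w + s • A w) b i) := by
  obtain ⟨A, hA⟩ : ∃ A : (Fin m → Fin n → ℂ) →ₗ[ℂ] (Fin m → Fin n → ℂ),
      ∀ w a j, A w a j = if j = ⟨1, hn⟩ then w a ⟨0, by omega⟩ else 0 := by
    refine ⟨{ toFun := fun w a j => if j = ⟨1, hn⟩ then w a ⟨0, by omega⟩ else 0,
              map_add' := ?_, map_smul' := ?_ }, fun w a j => rfl⟩
    · intro x y
      funext a j
      simp only [Pi.add_apply]
      split_ifs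
      · rfl
      · rw [add_zero]
    · intro c x
      funext a j
      simp only [Pi.smul_apply, smul_eq_mul, RingHom.id_apply]
      split_ifs
      · rfl
      · rw [mul_zero]
  refine ⟨A, ?_, ?_, ?_⟩
  · intro h
    have h1 := hA (fun _ _ => 1) ⟨0, hm⟩ ⟨1, hn⟩
    rw [h, if_pos rfl] at h1
    exact zero_ne_one h1
  · intro w
    funext a j
    rw [hA, hA]
    by_cases h : j = ⟨1, hn⟩
    · rw [if_pos h, if_neg (by intro h2; exact absurd (Fin.mk.inj h2) (by norm_num))]
      rfl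
    · rw [if_neg h]
      rfl
  · intro s w h a b i j
    simp only [Pi.add_apply, Pi.smul_apply, smul_eq_mul, hA]
    have h1 := h a b i j
    have h2 := h a b i ⟨0, by omega⟩
    have h3 := h a b ⟨0, by omega⟩ j
    split_ifs
    · linear_combination h1 + s * h2 + s * h3
    · linear_combination h1 + s * h3
    · linear_combination h1 + s * h2
    · linear_combination h1

theorem segre_span (m n : ℕ) :
    Submodule.span ℂ {w : Fin m → Fin n → ℂ | ∀ a b i j, w a i * w b j = w a j * w b i} = ⊤ := by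
  rw [eq_top_iff]
  intro w _
  have hw : w = ∑ a, Pi.single a (w a) := (Finset.univ_sum_single w).symm
  rw [hw]
  refine Submodule.sum_mem _ (fun a _ => Submodule.subset_span ?_)
  intro b c i j
  by_cases hb : b = a
  · subst hb
    by_cases hc : c = b
    · subst hc
      rw [Pi.single_eq_same]
      ring
    · rw [Pi.single_eq_same, Pi.single_eq_of_ne hc]
      simp
  · rw [Pi.single_eq_of_ne hb]
    simp

section necessity

theorem vanishes_mem {q : Type} [LieRing q] [LieAlgebra ℂ q] (p : LieSubalgebra ℂ q) (k : ℕ)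
    (φ : q) (h : VanishesTo p k φ) : φ ∈ p := by
  cases k with
  | zero => exact h
  | succ k => exact h.1

theorem vanishes_two {q : Type} [LieRing q] [LieAlgebra ℂ q] (p : LieSubalgebra ℂ q) (k : ℕ)
    (hk : 2 ≤ k) (φ : q) (h : VanishesTo p k φ) :
    φ ∈ p ∧ (∀ x : q, ⁅x, φ⁆ ∈ p) ∧ (∀ x y : q, ⁅x, ⁅y, φ⁆⁆ ∈ p) := by
  obtain ⟨m, rfl⟩ : ∃ m, k = m + 2 := ⟨k - 2, by omega⟩
  refine ⟨h.1, fun x => (h.2 x).1, fun x y => vanishes_mem p m _ ((h.2 y).2 x)⟩

def C2aux {q : Type} [LieRing q] [LieAlgebra ℂ q] (C J : LieIdeal ℂ q) : LieIdeal ℂ q where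
  carrier := {x | ∀ j ∈ J, ⁅x, j⁆ ∈ C}
  add_mem' := by
    intro a b ha hb j hj
    rw [add_lie]
    exact C.add_mem (ha j hj) (hb j hj)
  zero_mem' := by
    intro j _
    rw [zero_lie]
    exact C.zero_mem
  smul_mem' := by
    intro c x hx j hj
    rw [smul_lie]
    exact C.smul_mem c (hx j hj)
  lie_mem := by
    intro y x hx j hj
    rw [lie_lie]
    exact C.sub_mem (C.lie_mem (hx j hj)) (hx _ (J.lie_mem hj))

theorem derived_le {q : Type} [LieRing q] [LieAlgebra ℂ q] (C : LieIdeal ℂ q) (φ : q)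
    (h : ∀ j ∈ LieSubmodule.lieSpan ℂ q ({φ} : Set q), ⁅φ, j⁆ ∈ C) :
    ⁅LieSubmodule.lieSpan ℂ q ({φ} : Set q), LieSubmodule.lieSpan ℂ q ({φ} : Set q)⁆ ≤ C := by
  have hJ : LieSubmodule.lieSpan ℂ q ({φ} : Set q)
      ≤ C2aux C (LieSubmodule.lieSpan ℂ q ({φ} : Set q)) := by
    rw [LieSubmodule.lieSpan_le]
    rintro x hx
    rw [Set.mem_singleton_iff] at hx
    subst hx
    exact h
  rw [LieSubmodule.lie_le_iff]
  intro x hx m hm
  exact hJ hx m hm

def Centaux {q : Type} [LieRing q] [LieAlgebra ℂ q] (I : LieIdeal ℂ q) : LieIdeal ℂ q where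
  carrier := {y | ∀ x ∈ I, ⁅y, x⁆ = 0}
  add_mem' := by
    intro a b ha hb j hj
    rw [add_lie, ha j hj, hb j hj, add_zero]
  zero_mem' := by
    intro j _
    rw [zero_lie]
  smul_mem' := by
    intro c x hx j hj
    rw [smul_lie, hx j hj, smul_zero]
  lie_mem := by
    intro y x hx j hj
    rw [lie_lie, hx j hj, lie_zero, hx _ (I.lie_mem hj), sub_zero]

/-- if an ideal `I` commutes with all `[φ, j]`, it commutes with `[J, J]`, where `J` is the ideal
generated by `φ` -/
theorem comm_of_comm {q : Type} [LieRing q] [LieAlgebra ℂ q] (I : LieIdeal ℂ q) (φ : q)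
    (h : ∀ j ∈ LieSubmodule.lieSpan ℂ q ({φ} : Set q), ∀ x ∈ I, ⁅⁅φ, j⁆, x⁆ = 0) :
    ⁅⁅LieSubmodule.lieSpan ℂ q ({φ} : Set q), LieSubmodule.lieSpan ℂ q ({φ} : Set q)⁆, I⁆ = ⊥ := by
  have h1 := derived_le (Centaux I) φ (fun j hj => fun x hx => h j hj x hx)
  rw [LieSubmodule.lie_eq_bot_iff]
  intro x hx m hm
  exact h1 hx m hm

theorem lcs_zero {q : Type} [LieRing q] [LieAlgebra ℂ q] [FiniteDimensional ℂ q]
    (J : LieIdeal ℂ q) (hJ : ∀ x ∈ J, ∀ y, killingForm ℂ q x y = 0) :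
    ∃ n, (fun I : LieIdeal ℂ q => ⁅⁅J, J⁆, I⁆)^[n] ⊤ = ⊥ := by
  have htr : LieModule.traceForm ℂ J q = 0 := by
    ext x y
    rw [LieModule.traceForm_apply_apply]
    have h := hJ x x.2 y
    rw [killingForm_apply_apply] at h
    exact h
  have hn : LieModule.IsNilpotent (LieAlgebra.derivedSeries ℂ J 1) q :=
    LieModule.isNilpotent_derivedSeries_of_traceForm_eq_zero htr
  rw [LieModule.isNilpotent_iff ℂ] at hn
  obtain ⟨k, hk⟩ := hn
  have hmem : ∀ x ∈ (⁅J, J⁆ : LieIdeal ℂ q), ∃ x' : LieAlgebra.derivedSeries ℂ J 1, ((x' : J) : q) = x := by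
    intro x hx
    have hxJ : x ∈ J := (LieSubmodule.lie_le_right J J) hx
    refine ⟨⟨⟨x, hxJ⟩, ?_⟩, rfl⟩
    rw [LieIdeal.derivedSeries_eq_derivedSeriesOfIdeal_comap, LieIdeal.mem_comap]
    exact hx
  have key : ∀ n, ∀ m ∈ (fun I : LieIdeal ℂ q => ⁅⁅J, J⁆, I⁆)^[n] ⊤,
      m ∈ LieModule.lowerCentralSeries ℂ (LieAlgebra.derivedSeries ℂ J 1) q n := by
    intro n
    induction n with
    | zero => intro m _; simp
    | succ n ih =>
      intro m hm
      rw [Function.iterate_succ_apply'] at hm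
      rw [LieModule.lowerCentralSeries_succ]
      rw [← LieSubmodule.mem_toSubmodule, LieSubmodule.lieIdeal_oper_eq_linear_span'] at hm
      induction hm using Submodule.span_induction with
      | mem z hz =>
        obtain ⟨x, hx, y, hy, rfl⟩ := hz
        obtain ⟨x', rfl⟩ := hmem x hx
        exact LieSubmodule.lie_mem_lie (LieSubmodule.mem_top x') (ih y hy)
      | zero => exact zero_mem _
      | add a b _ _ ha hb => exact add_mem ha hb
      | smul c a _ ha => exact SMulMemClass.smul_mem c ha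
  refine ⟨k, ?_⟩
  rw [eq_bot_iff]
  intro m hm
  have := key k m hm
  rw [hk] at this
  rw [LieSubmodule.mem_bot] at this ⊢
  exact this

/-- the filtration: `F 0 = ⊤`, `F 1 = p`, `F (m+2) = {x ∈ F (m+1) | [q, x] ⊆ F (m+1)}` -/
def filt {q : Type} [LieRing q] [LieAlgebra ℂ q] (p : LieSubalgebra ℂ q) : ℕ → Submodule ℂ q
  | 0 => ⊤
  | 1 => p.toSubmodule
  | (m + 2) =>
    { carrier := {x | x ∈ filt p (m + 1) ∧ ∀ y : q, ⁅y, x⁆ ∈ filt p (m + 1)}
      add_mem' := by
        rintro a b ⟨h1, h2⟩ ⟨h3, h4⟩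
        refine ⟨add_mem h1 h3, fun y => ?_⟩
        rw [lie_add]
        exact add_mem (h2 y) (h4 y)
      zero_mem' := ⟨zero_mem _, fun y => by rw [lie_zero]; exact zero_mem _⟩
      smul_mem' := by
        rintro c a ⟨h1, h2⟩
        refine ⟨Submodule.smul_mem _ c h1, fun y => ?_⟩
        rw [lie_smul]
        exact Submodule.smul_mem _ c (h2 y) }

theorem filt_succ_le {q : Type} [LieRing q] [LieAlgebra ℂ q] (p : LieSubalgebra ℂ q) (n : ℕ) :
    filt p (n + 1) ≤ filt p n := by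
  rcases n with _ | n
  · intro x _
    show x ∈ (⊤ : Submodule ℂ q)
    trivial
  · intro x hx
    exact hx.1

theorem filt_anti {q : Type} [LieRing q] [LieAlgebra ℂ q] (p : LieSubalgebra ℂ q) :
    Antitone (filt p) := antitone_nat_of_succ_le (filt_succ_le p)

theorem filt_bracket {q : Type} [LieRing q] [LieAlgebra ℂ q] (p : LieSubalgebra ℂ q) (k : ℕ)
    (z x : q) (hx : x ∈ filt p (k + 1)) : ⁅z, x⁆ ∈ filt p k := by
  rcases k with _ | k
  · show ⁅z, x⁆ ∈ (⊤ : Submodule ℂ q)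
    trivial
  · exact hx.2 z

theorem filt_bracket' {q : Type} [LieRing q] [LieAlgebra ℂ q] (p : LieSubalgebra ℂ q) (k : ℕ)
    (z x : q) (hx : x ∈ filt p (k + 1)) : ⁅x, z⁆ ∈ filt p k := by
  rw [← lie_skew]
  exact neg_mem (filt_bracket p k z x hx)

theorem filt_eventually {q : Type} [LieRing q] [LieAlgebra ℂ q] [FiniteDimensional ℂ q]
    (p : LieSubalgebra ℂ q) (heff : ∀ I : LieIdeal ℂ q, (∀ x ∈ I, x ∈ p) → I = ⊥) :
    ∃ n, filt p n = ⊥ := by
  have hart : IsArtinian ℂ q := inferInstance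
  obtain ⟨n, hn⟩ := IsArtinian.monotone_stabilizes
    (⟨fun k => OrderDual.toDual (filt p k), fun a b hab => filt_anti p hab⟩ :
      ℕ →o (Submodule ℂ q)ᵒᵈ)
  have h1 : filt p n = filt p (n + 1) := hn (n + 1) (by omega)
  have h2 : filt p n = filt p (n + 2) := hn (n + 2) (by omega)
  have h3 : filt p (n + 1) = filt p (n + 2) := h1.symm.trans h2
  refine ⟨n + 1, ?_⟩
  let I : LieIdeal ℂ q :=
    { filt p (n + 1) with
      lie_mem := by
        intro x m hm
        have hm' : m ∈ filt p (n + 1) := hm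
        rw [h3] at hm'
        exact filt_bracket p (n + 1) x m hm' }
  have hI : I = ⊥ := by
    apply heff
    intro x hx
    have hx' : x ∈ filt p (n + 1) := hx
    have : x ∈ filt p 1 := filt_anti p (by omega) hx'
    exact this
  rw [eq_bot_iff]
  intro x hx
  have hx' : x ∈ I := hx
  rw [hI] at hx'
  simpa using hx'

theorem filt_lie {q : Type} [LieRing q] [LieAlgebra ℂ q] (p : LieSubalgebra ℂ q)
    (n a b : ℕ) (hab : a + b = n + 1) (x y : q) (hx : x ∈ filt p a) (hy : y ∈ filt p b) :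
    ⁅x, y⁆ ∈ filt p n := by
  induction n generalizing a b x y with
  | zero =>
    show ⁅x, y⁆ ∈ (⊤ : Submodule ℂ q)
    trivial
  | succ n ih =>
    rcases a with _ | a
    · have : b = (n + 1) + 1 := by omega
      subst this
      exact filt_bracket p (n + 1) x y hy
    rcases b with _ | b
    · have : a = (n + 1) := by omega
      subst this
      exact filt_bracket' p (n + 1) y x hx
    rcases n with _ | n
    · have ha : a = 0 := by omega
      have hb : b = 0 := by omega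
      subst ha
      subst hb
      exact p.lie_mem hx hy
    · refine ⟨?_, ?_⟩
      · exact ih (a + 1) b (by omega) x y hx (filt_succ_le p b hy)
      · intro z
        rw [leibniz_lie]
        refine add_mem ?_ ?_
        · exact ih a (b + 1) (by omega) _ _ (filt_bracket p a z x hx) hy
        · exact ih (a + 1) b (by omega) _ _ hx (filt_bracket p b z y hy)

theorem killing_zero {q : Type} [LieRing q] [LieAlgebra ℂ q] [FiniteDimensional ℂ q]
    (p : LieSubalgebra ℂ q) (heff : ∀ I : LieIdeal ℂ q, (∀ x ∈ I, x ∈ p) → I = ⊥) (φ : q)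
    (h0 : φ ∈ p) (h1 : ∀ x : q, ⁅x, φ⁆ ∈ p) (h2 : ∀ x y : q, ⁅x, ⁅y, φ⁆⁆ ∈ p) (y : q) :
    killingForm ℂ q φ y = 0 := by
  obtain ⟨n, hn⟩ := filt_eventually p heff
  have h3 : φ ∈ filt p 3 := ⟨⟨h0, h1⟩, fun z => ⟨h1 z, fun x => h2 x z⟩⟩
  set T : Module.End ℂ q := (LieModule.toEnd ℂ q q φ) ∘ₗ (LieModule.toEnd ℂ q q y) with hT
  have hstep : ∀ b, ∀ z ∈ filt p b, T z ∈ filt p (b + 1) := by
    intro b z hz
    have hTz : T z = ⁅φ, ⁅y, z⁆⁆ := rfl
    rw [hTz]
    rcases b with _ | b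
    · have h4 : ⁅y, z⁆ ∈ filt p 0 := by
        show ⁅y, z⁆ ∈ (⊤ : Submodule ℂ q)
        trivial
      have h5 : ⁅φ, ⁅y, z⁆⁆ ∈ filt p 2 := filt_lie p 2 3 0 rfl _ _ h3 h4
      exact filt_succ_le p 1 h5
    · exact filt_lie p (b + 2) 3 b (by omega) _ _ h3 (filt_bracket p b y z hz)
  have hpow : ∀ k, ∀ z, (T ^ k) z ∈ filt p k := by
    intro k
    induction k with
    | zero =>
      intro z
      show (T ^ 0) z ∈ (⊤ : Submodule ℂ q)
      trivial
    | succ k ih =>
      intro z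
      rw [pow_succ', Module.End.mul_apply]
      exact hstep k _ (ih z)
  have hnil : IsNilpotent T := by
    refine ⟨n, ?_⟩
    ext z
    have := hpow n z
    rw [hn] at this
    simpa using this
  rw [killingForm, LieModule.traceForm_apply_apply]
  exact (LinearMap.isNilpotent_trace_of_isNilpotent hnil).eq_zero

/-- an abelian ideal meeting `p` nontrivially -/
theorem exists_abelian_ideal {q : Type} [LieRing q] [LieAlgebra ℂ q] [FiniteDimensional ℂ q]
    (p : LieSubalgebra ℂ q) (heff : ∀ I : LieIdeal ℂ q, (∀ x ∈ I, x ∈ p) → I = ⊥) (φ : q)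
    (hφ : φ ≠ 0) (h0 : φ ∈ p) (h1 : ∀ x : q, ⁅x, φ⁆ ∈ p) (h2 : ∀ x y : q, ⁅x, ⁅y, φ⁆⁆ ∈ p) :
    ∃ B : LieIdeal ℂ q, (∀ x ∈ B, ∀ y ∈ B, ⁅x, y⁆ = 0) ∧ ∃ b ∈ B, b ∈ p ∧ b ≠ 0 := by
  obtain ⟨J, hJdef⟩ : ∃ J : LieIdeal ℂ q, J = LieSubmodule.lieSpan ℂ q ({φ} : Set q) := ⟨_, rfl⟩
  have hφJ : φ ∈ J := by
    rw [hJdef]; exact LieSubmodule.subset_lieSpan (Set.mem_singleton φ)
  have hJK : J ≤ LieIdeal.killingCompl ℂ q ⊤ := by
    rw [hJdef, LieSubmodule.lieSpan_le]
    intro x hx
    rw [Set.mem_singleton_iff] at hx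
    subst hx
    show x ∈ LieIdeal.killingCompl ℂ q ⊤
    rw [LieIdeal.mem_killingCompl]
    intro y _
    rw [LieModule.traceForm_comm]
    exact killing_zero p heff x h0 h1 h2 y
  have hJ0 : ∀ x ∈ J, ∀ y, killingForm ℂ q x y = 0 := by
    intro x hx y
    have := (LieIdeal.mem_killingCompl ℂ q (I := ⊤)).1 (hJK hx) y (LieSubmodule.mem_top y)
    rw [LieModule.traceForm_comm] at this
    exact this
  obtain ⟨n, hn⟩ := lcs_zero J hJ0
  by_cases hJJ : ⁅J, J⁆ = (⊥ : LieIdeal ℂ q)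
  · refine ⟨J, ?_, φ, hφJ, h0, hφ⟩
    intro x hx y hy
    have : ⁅x, y⁆ ∈ ⁅J, J⁆ := LieSubmodule.lie_mem_lie hx hy
    rw [hJJ] at this
    simpa using this
  · obtain ⟨N, hN⟩ : ∃ N : ℕ → LieIdeal ℂ q,
        N = fun i => (fun I : LieIdeal ℂ q => ⁅⁅J, J⁆, I⁆)^[i] ⁅J, J⁆ := ⟨_, rfl⟩
    have hN0 : N 0 = ⁅J, J⁆ := by rw [hN]; rfl
    have hNs : ∀ i, N (i + 1) = ⁅⁅J, J⁆, N i⁆ := by
      intro i
      rw [hN]
      exact Function.iterate_succ_apply' _ _ _
    have hNtop : ∀ i, N i ≤ (fun I : LieIdeal ℂ q => ⁅⁅J, J⁆, I⁆)^[i] ⊤ := by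
      intro i
      induction i with
      | zero => exact le_top
      | succ i ih =>
        rw [hNs, Function.iterate_succ_apply']
        exact LieSubmodule.mono_lie_right _ ih
    have hex : ∃ m, N m = ⊥ := ⟨n, by
      have := hNtop n
      rw [hn] at this
      exact le_bot_iff.1 this⟩
    have hNle : ∀ i, N i ≤ ⁅J, J⁆ := by
      intro i
      cases i with
      | zero => rw [hN0]
      | succ i => rw [hNs]; exact LieSubmodule.lie_le_left _ _
    classical
    obtain ⟨m, hm, hmin⟩ : ∃ m, N m = ⊥ ∧ ∀ k < m, N k ≠ ⊥ :=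
      ⟨Nat.find hex, Nat.find_spec hex, fun k hk => Nat.find_min hex hk⟩
    have hm0 : m ≠ 0 := by
      rintro rfl
      rw [hN0] at hm
      exact hJJ hm
    obtain ⟨c, rfl⟩ := Nat.exists_eq_succ_of_ne_zero hm0
    have hc : N c ≠ ⊥ := hmin c (Nat.lt_succ_self c)
    have hcb : ⁅⁅J, J⁆, N c⁆ = ⊥ := by rw [← hNs]; exact hm
    refine ⟨N c, ?_, ?_⟩
    · intro x hx y hy
      have : ⁅x, y⁆ ∈ ⁅⁅J, J⁆, N c⁆ := LieSubmodule.lie_mem_lie (hNle c hx) hy
      rw [hcb] at this
      simpa using this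
    · cases c with
      | zero =>
        rw [hN0] at hc ⊢
        have hj : ∃ j ∈ J, ⁅φ, j⁆ ≠ 0 := by
          by_contra hcon
          push Not at hcon
          apply hc
          have h3 := derived_le (⊥ : LieIdeal ℂ q) φ (by
            intro j hj
            rw [← hJdef] at hj
            rw [hcon j hj]
            exact LieSubmodule.zero_mem _)
          rw [← hJdef] at h3
          exact le_bot_iff.1 h3
        obtain ⟨j, hjJ, hj0⟩ := hj
        refine ⟨⁅φ, j⁆, LieSubmodule.lie_mem_lie hφJ hjJ, ?_, hj0⟩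
        rw [← lie_skew]
        exact p.neg_mem (h1 j)
      | succ c =>
        rw [hNs] at hc ⊢
        have hj : ∃ j ∈ J, ∃ x ∈ N c, ⁅⁅φ, j⁆, x⁆ ≠ 0 := by
          by_contra hcon
          push Not at hcon
          apply hc
          have h3 := comm_of_comm (N c) φ (by
            intro j hj x hx
            rw [← hJdef] at hj
            exact hcon j hj x hx)
          rw [← hJdef] at h3
          exact h3
        obtain ⟨j, hjJ, x, hx, hj0⟩ := hj
        refine ⟨⁅⁅φ, j⁆, x⁆,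
          LieSubmodule.lie_mem_lie (LieSubmodule.lie_mem_lie hφJ hjJ) hx, ?_, hj0⟩
        have h4 : ⁅⁅φ, j⁆, x⁆ = ⁅x, ⁅j, φ⁆⁆ := by
          rw [← lie_skew, ← lie_skew φ j, lie_neg, neg_neg]
        rw [h4]
        exact h2 x j

theorem necessity_alg {q : Type} [LieRing q] [LieAlgebra ℂ q] [FiniteDimensional ℂ q]
    (p : LieSubalgebra ℂ q) (heff : ∀ I : LieIdeal ℂ q, (∀ x ∈ I, x ∈ p) → I = ⊥)
    (D : Set q) (hD : LieSubalgebra.lieSpan ℂ q D = ⊤) (φ : q)
    (hφ : φ ≠ 0) (h0 : φ ∈ p) (h1 : ∀ x : q, ⁅x, φ⁆ ∈ p) (h2 : ∀ x y : q, ⁅x, ⁅y, φ⁆⁆ ∈ p) :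
    ∃ b : q, b ∈ p ∧ (∀ x : q, ⁅b, ⁅b, x⁆⁆ = 0) ∧ ∃ x : q, x ∈ D ∧ ⁅b, x⁆ ∉ p := by
  obtain ⟨B, hab, b0, hb0B, hb0p, hb0⟩ := exists_abelian_ideal p heff φ hφ h0 h1 h2
  have key : ∃ b ∈ B, b ∈ p ∧ ∃ x ∈ D, ⁅b, x⁆ ∉ p := by
    by_contra hcon
    push Not at hcon
    let N : LieSubalgebra ℂ q :=
      { carrier := {y | ∀ b ∈ B, b ∈ p → ⁅y, b⁆ ∈ p}
        add_mem' := by
          intro y z hy hz b hb hbp
          rw [add_lie]
          exact add_mem (hy b hb hbp) (hz b hb hbp)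
        zero_mem' := by
          intro b hb hbp
          rw [zero_lie]
          exact zero_mem p
        smul_mem' := by
          intro c y hy b hb hbp
          rw [smul_lie]
          exact p.smul_mem c (hy b hb hbp)
        lie_mem' := by
          intro y z hy hz b hb hbp
          rw [lie_lie]
          exact sub_mem (hy _ (lie_mem_right ℂ q B z b hb) (hz b hb hbp))
            (hz _ (lie_mem_right ℂ q B y b hb) (hy b hb hbp)) }
    have hDN : D ⊆ (N : Set q) := by
      intro x hx b hb hbp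
      have := hcon b hb hbp x hx
      rw [← lie_skew]
      exact neg_mem this
    have hN : ∀ y : q, ∀ b ∈ B, b ∈ p → ⁅y, b⁆ ∈ p := by
      intro y
      have h3 : LieSubalgebra.lieSpan ℂ q D ≤ N := LieSubalgebra.lieSpan_le.2 hDN
      have h4 : y ∈ N := h3 (hD ▸ LieSubalgebra.mem_top y)
      exact h4
    let I : LieIdeal ℂ q :=
      { carrier := {b | b ∈ B ∧ b ∈ p}
        add_mem' := fun {a b} ha hb => ⟨add_mem ha.1 hb.1, add_mem ha.2 hb.2⟩
        zero_mem' := ⟨zero_mem B, zero_mem p⟩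
        smul_mem' := fun c b hb => ⟨B.smul_mem c hb.1, p.smul_mem c hb.2⟩
        lie_mem := fun {x m} hm => ⟨lie_mem_right ℂ q B x m hm.1, hN x m hm.1 hm.2⟩ }
    have hI : I = ⊥ := heff I (fun x hx => hx.2)
    have hb0I : b0 ∈ I := ⟨hb0B, hb0p⟩
    rw [hI, LieSubmodule.mem_bot] at hb0I
    exact hb0 hb0I
  obtain ⟨b, hb, hbp, x, hx, hxp⟩ := key
  refine ⟨b, hbp, fun z => hab b hb _ ?_, x, hx, hxp⟩
  rw [← lie_skew]
  exact neg_mem (lie_mem_right ℂ q B z b hb)

/-- `(q, p, j)` with `φ` is an infinitesimal model of a locally homogeneous bracket-generating cone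
structure with fibre `Z ⊆ W` and with a symmetry `φ` vanishing to order at least 3. -/

theorem exp_square_zero {W : Type} [NormedAddCommGroup W] [NormedSpace ℂ W]
    [FiniteDimensional ℂ W] (B : W →L[ℂ] W) (hB : ∀ w, B (B w) = 0) (z : W) :
    NormedSpace.exp B z = z + B z := by
  have hBB : B * B = 0 := by
    ext w
    exact hB w
  have h : NormedSpace.exp B = 1 + B := by
    rw [NormedSpace.exp_eq_tsum ℂ]
    simp only
    rw [tsum_eq_sum (s := Finset.range 2)]
    · simp [Finset.sum_range_succ]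
    · intro n hn
      have hn2 : 2 ≤ n := by
        have : 1 < n := by simpa using hn
        omega
      obtain ⟨m, rfl⟩ := Nat.exists_eq_add_of_le hn2
      rw [pow_add, pow_two, hBB, zero_mul, smul_zero]
  rw [h]
  simp

theorem squareZero_of_model (W : Type) [NormedAddCommGroup W] [NormedSpace ℂ W]
    [FiniteDimensional ℂ W] (Z : Set W) (k : ℕ) (hk : 2 ≤ k) (h : HomogeneousModel k W Z) : HasSquareZero W Z := by
  obtain ⟨q, iq1, iq2, p, j, φ, hfd, hj, heff, hspan, hmod, hφ0, hφk⟩ := h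
  obtain ⟨hφp, hφ1, hφ2⟩ := vanishes_two p k hk φ hφk
  obtain ⟨b, hbp, hb2, x, hxD, hbx⟩ := necessity_alg p heff
    {x : q | p.toSubmodule.mkQ x ∈ LinearMap.range j} hspan φ hφ0 hφp hφ1 hφ2
  obtain ⟨B, hB, hexp⟩ := hmod b hbp
  have hBB : ∀ w, B (B w) = 0 := by
    intro w
    obtain ⟨y, hy⟩ := p.toSubmodule.mkQ_surjective (j w)
    have h1 := hB w y hy
    have h2 := hB (B w) ⁅b, y⁆ h1
    rw [hb2 y, map_zero] at h2
    have h3 : j (B (B w)) = j 0 := by rw [← h2, map_zero]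
    exact hj h3
  refine ⟨(B : W →ₗ[ℂ] W), ?_, hBB, ?_⟩
  · intro h0
    obtain ⟨w, hw⟩ := hxD
    have h1 := hB w x hw.symm
    have h2 : B w = 0 := by
      have := congrArg (fun L : W →ₗ[ℂ] W => L w) h0
      simpa using this
    rw [h2, map_zero] at h1
    apply hbx
    have h3 : ⁅b, x⁆ ∈ p.toSubmodule := by
      rwa [← Submodule.Quotient.mk_eq_zero, ← Submodule.mkQ_apply]
    exact h3
  · intro s z hz
    have h1 := hexp s z hz
    rw [exp_square_zero (s • B) (by
      intro w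
      simp [hBB])] at h1
    simpa using h1

end necessity

/-- the Lie algebra `Q` as a type -/
def QT {E : Type} [NormedAddCommGroup E] [NormedSpace ℂ E]
    (Q : Submodule ℂ (E → E)) (_ : IsLieAlg Q) : Type := Q

section QT

variable {E : Type} [NormedAddCommGroup E] [NormedSpace ℂ E]
    (Q : Submodule ℂ (E → E)) (hQ : IsLieAlg Q)

noncomputable instance : AddCommGroup (QT Q hQ) := inferInstanceAs (AddCommGroup Q)

noncomputable instance : Module ℂ (QT Q hQ) := inferInstanceAs (Module ℂ Q)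

theorem j34604_smooth {Q : Submodule ℂ (E → E)} (hQ : IsLieAlg Q) (V : Q) (x : E) :
    ContDiffAt ℂ ω V.1 x := (hQ.smooth V.1 V.2).contDiffAt

theorem j34604_diff {Q : Submodule ℂ (E → E)} (hQ : IsLieAlg Q) (V : Q) (x : E) :
    DifferentiableAt ℂ V.1 x :=
  (j34604_smooth hQ V x).differentiableAt (by simp)

noncomputable instance : LieRing (QT Q hQ) where
  bracket V W := (⟨VectorField.lieBracket ℂ V.1 W.1, hQ.bracket _ V.2 _ W.2⟩ : Q)
  add_lie := by
    intro a b c
    apply Subtype.ext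
    funext x
    exact VectorField.lieBracket_add_left (j34604_diff hQ a x) (j34604_diff hQ b x)
  lie_add := by
    intro a b c
    apply Subtype.ext
    funext x
    exact VectorField.lieBracket_add_right (j34604_diff hQ b x) (j34604_diff hQ c x)
  lie_self := by
    intro a
    apply Subtype.ext
    exact VectorField.lieBracket_self
  leibniz_lie := by
    intro a b c
    apply Subtype.ext
    funext x
    exact VectorField.leibniz_identity_lieBracket (n := ω) le_top
      (j34604_smooth hQ a x) (j34604_smooth hQ b x) (j34604_smooth hQ c x)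

noncomputable instance : LieAlgebra ℂ (QT Q hQ) where
  lie_smul := by
    intro t a b
    apply Subtype.ext
    funext x
    exact VectorField.lieBracket_const_smul_right (j34604_diff hQ b x)

/-- the isotropy subalgebra: fields vanishing at 0 -/
noncomputable def iso : LieSubalgebra ℂ (QT Q hQ) where
  carrier := {V | V.1 0 = 0}
  add_mem' := by
    intro a b ha hb
    have ha' : a.1 0 = 0 := ha
    have hb' : b.1 0 = 0 := hb
    change a.1 0 + b.1 0 = 0
    rw [ha', hb', add_zero]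
  zero_mem' := by
    change (0 : E → E) 0 = 0
    rfl
  smul_mem' := by
    intro c a ha
    have ha' : a.1 0 = 0 := ha
    change c • a.1 0 = 0
    rw [ha', smul_zero]
  lie_mem' := by
    intro a b ha hb
    have ha' : a.1 0 = 0 := ha
    have hb' : b.1 0 = 0 := hb
    change VectorField.lieBracket ℂ a.1 b.1 0 = 0
    exact VectorField.lieBracket_eq_zero_of_eq_zero ha' hb'

end QT

theorem eff_aux {E : Type} [NormedAddCommGroup E] [NormedSpace ℂ E]
    (Q : Submodule ℂ (E → E)) (hQ : IsLieAlg Q) (htr : ∀ v : E, ∃ V ∈ Q, V 0 = v)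
    (I : Submodule ℂ (E → E)) (hI : I ≤ Q)
    (hid : ∀ W ∈ Q, ∀ V ∈ I, VectorField.lieBracket ℂ W V ∈ I)
    (h0 : ∀ V ∈ I, V 0 = 0) (n : ℕ) : ∀ V ∈ I, iteratedFDeriv ℂ n V 0 = 0 := by
  induction n using Nat.strong_induction_on with
  | _ n ih =>
    rcases n with _ | n
    · intro V hV
      ext m
      simp [h0 V hV]
    · intro V hV
      ext m
      rw [iteratedFDeriv_succ_apply_right]
      obtain ⟨w, hw⟩ : ∃ w : E, w = m (Fin.last n) := ⟨_, rfl⟩
      rw [← hw]
      obtain ⟨W, hW, hW0⟩ := htr w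
      have hVs : ContDiff ℂ ω V := hQ.smooth V (hI hV)
      have hWs : ContDiff ℂ ω W := hQ.smooth W hW
      have hdV : ContDiff ℂ ω (fderiv ℂ V) := hVs.fderiv_right le_top
      have hdW : ContDiff ℂ ω (fderiv ℂ W) := hWs.fderiv_right le_top
      have hWw : ContDiff ℂ ω (fun x => W x - w) := hWs.sub contDiff_const
      have c1 : ContDiff ℂ ω (fun x => fderiv ℂ V x w) := hdV.clm_apply contDiff_const
      have c2 : ContDiff ℂ ω (fun x => fderiv ℂ V x (W x - w)) := hdV.clm_apply hWw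
      have c3 : ContDiff ℂ ω (fun x => fderiv ℂ W x (V x)) := hdW.clm_apply hVs
      have d2 : iteratedFDeriv ℂ n (fun x => fderiv ℂ V x (W x - w)) 0 = 0 := by
        rw [← norm_le_zero_iff]
        refine (norm_iteratedFDeriv_clm_apply (N := ω) hdV hWw 0 le_top).trans (le_of_eq ?_)
        apply Finset.sum_eq_zero
        intro i hi
        rw [Finset.mem_range] at hi
        by_cases hin : i = n
        · have : ‖iteratedFDeriv ℂ (n - i) (fun x => W x - w) 0‖ = 0 := by
            rw [hin, Nat.sub_self, norm_iteratedFDeriv_zero, hW0, sub_self, norm_zero]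
          rw [this, mul_zero]
        · have : ‖iteratedFDeriv ℂ i (fderiv ℂ V) 0‖ = 0 := by
            rw [norm_iteratedFDeriv_fderiv, ih (i + 1) (by omega) V hV, norm_zero]
          rw [this, mul_zero, zero_mul]
      have d3 : iteratedFDeriv ℂ n (fun x => fderiv ℂ W x (V x)) 0 = 0 := by
        rw [← norm_le_zero_iff]
        refine (norm_iteratedFDeriv_clm_apply (N := ω) hdW hVs 0 le_top).trans (le_of_eq ?_)
        apply Finset.sum_eq_zero
        intro i hi
        rw [Finset.mem_range] at hi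
        have : ‖iteratedFDeriv ℂ (n - i) V 0‖ = 0 := by
          rw [ih (n - i) (by omega) V hV, norm_zero]
        rw [this, mul_zero]
      have d0 : iteratedFDeriv ℂ n (VectorField.lieBracket ℂ W V) 0 = 0 :=
        ih n (by omega) _ (hid W hW V hV)
      have hsplit : VectorField.lieBracket ℂ W V = (fun x => fderiv ℂ V x w) +
          ((fun x => fderiv ℂ V x (W x - w)) - (fun x => fderiv ℂ W x (V x))) := by
        funext x
        simp only [VectorField.lieBracket, Pi.add_apply, Pi.sub_apply, map_sub]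
        abel
      have c2' : ContDiffAt ℂ (n : ℕ∞ω) (fun x => fderiv ℂ V x (W x - w)) 0 :=
        (c2.of_le le_top).contDiffAt
      have c3' : ContDiffAt ℂ (n : ℕ∞ω) (fun x => fderiv ℂ W x (V x)) 0 :=
        (c3.of_le le_top).contDiffAt
      have c1' : ContDiffAt ℂ (n : ℕ∞ω) (fun x => fderiv ℂ V x w) 0 :=
        (c1.of_le le_top).contDiffAt
      have c23' : ContDiffAt ℂ (n : ℕ∞ω) ((fun x => fderiv ℂ V x (W x - w)) -
          (fun x => fderiv ℂ W x (V x))) 0 := c2'.sub c3'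
      rw [hsplit, iteratedFDeriv_add_apply c1' c23', iteratedFDeriv_sub_apply c2' c3',
        d2, d3, sub_self, add_zero] at d0
      have h5 : (fun x => fderiv ℂ V x w) = (ContinuousLinearMap.apply ℂ E w) ∘ (fderiv ℂ V) := rfl
      rw [h5, ContinuousLinearMap.iteratedFDeriv_comp_left _ (hdV.contDiffAt (x := 0)) le_top] at d0
      have h6 := congrArg (fun F => F (Fin.init m)) d0
      simpa using h6

theorem eff {E : Type} [NormedAddCommGroup E] [NormedSpace ℂ E]
    (Q : Submodule ℂ (E → E)) (hQ : IsLieAlg Q) (htr : ∀ v : E, ∃ V ∈ Q, V 0 = v)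
    (I : Submodule ℂ (E → E)) (hI : I ≤ Q)
    (hid : ∀ W ∈ Q, ∀ V ∈ I, VectorField.lieBracket ℂ W V ∈ I)
    (h0 : ∀ V ∈ I, V 0 = 0) : ∀ V ∈ I, V = 0 := by
  intro V hV
  funext x
  have hVs : ContDiff ℂ ω V := hQ.smooth V (hI hV)
  by_contra hne
  have hne' : V x ≠ 0 := hne
  obtain ⟨φ, hφ⟩ := exists_dual_vector ℂ (V x) (norm_ne_zero_iff.mpr hne')
  obtain ⟨L, hL⟩ : ∃ L : ℂ →L[ℂ] E, ∀ t, L t = t • x := ⟨ContinuousLinearMap.toSpanSingleton ℂ x, fun t => by simp⟩
  have hc : ContDiff ℂ ω (V ∘ L) := hVs.comp L.contDiff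
  have hg : ContDiff ℂ ω (φ ∘ (V ∘ L)) := φ.contDiff.comp hc
  have hdiff : Differentiable ℂ (φ ∘ (V ∘ L)) := hg.differentiable (by simp)
  have hz : ∀ n, iteratedDeriv n (φ ∘ (V ∘ L)) 0 = 0 := by
    intro n
    rw [iteratedDeriv_eq_iteratedFDeriv,
      ContinuousLinearMap.iteratedFDeriv_comp_left _ (hc.contDiffAt (x := 0)) le_top,
      ContinuousLinearMap.iteratedFDeriv_comp_right _ hVs 0 le_top, map_zero,
      eff_aux Q hQ htr I hI hid h0 n V hV]
    simp
  have hs := Complex.hasSum_taylorSeries_of_entire hdiff 0 1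
  simp only [hz, smul_zero] at hs
  have h1 := hs.unique hasSum_zero
  simp only [Function.comp_apply, hL, one_smul] at h1
  rw [hφ.2] at h1
  simp at h1
  exact hne h1

theorem order_lemma {E : Type} [NormedAddCommGroup E] [NormedSpace ℂ E]
    (φ V W : E → E) (hφ : ContDiff ℂ ω φ) (hV : ContDiff ℂ ω V) (hW : ContDiff ℂ ω W)
    (h0 : φ 0 = 0) (h1 : fderiv ℂ φ 0 = 0) (h2 : fderiv ℂ (fderiv ℂ φ) 0 = 0) :
    VectorField.lieBracket ℂ W φ 0 = 0 ∧
    VectorField.lieBracket ℂ V (VectorField.lieBracket ℂ W φ) 0 = 0 := by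
  have hdφ : DifferentiableAt ℂ (fderiv ℂ φ) 0 :=
    ((hφ.fderiv_right (m := 1) le_top).differentiable one_ne_zero) 0
  have hdW : DifferentiableAt ℂ (fderiv ℂ W) 0 :=
    ((hW.fderiv_right (m := 1) le_top).differentiable one_ne_zero) 0
  have hφd : DifferentiableAt ℂ φ 0 := (hφ.differentiable (by simp)) 0
  have hWd : DifferentiableAt ℂ W 0 := (hW.differentiable (by simp)) 0
  have e0 : VectorField.lieBracket ℂ W φ 0 = 0 := by
    rw [VectorField.lieBracket, h1, h0]
    all_goals simp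
  refine ⟨e0, ?_⟩
  have a1 := hdφ.hasFDerivAt.clm_apply hWd.hasFDerivAt
  have a2 := hdW.hasFDerivAt.clm_apply hφd.hasFDerivAt
  rw [h2, h1] at a1
  rw [h1, h0] at a2
  have a3 := a1.sub a2
  have a4 : HasFDerivAt (VectorField.lieBracket ℂ W φ) (0 : E →L[ℂ] E) 0 := by
    have e : VectorField.lieBracket ℂ W φ
        = fun y => (fderiv ℂ φ y) (W y) - (fderiv ℂ W y) (φ y) := by
      funext y; rfl
    rw [e]
    convert a3 using 1
    all_goals ext z
    all_goals simp
  rw [VectorField.lieBracket, a4.fderiv, e0]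
  simp

/-- an element of `Q`, as an element of the type `QT` -/
def mkQT {E : Type} [NormedAddCommGroup E] [NormedSpace ℂ E]
    (Q : Submodule ℂ (E → E)) (hQ : IsLieAlg Q) (V : E → E) (hV : V ∈ Q) : QT Q hQ := ⟨V, hV⟩

theorem necessity_fields {E : Type} [NormedAddCommGroup E] [NormedSpace ℂ E]
    (Q : Submodule ℂ (E → E)) [FiniteDimensional ℂ Q] (hQ : IsLieAlg Q)
    (htr : ∀ v : E, ∃ V ∈ Q, V 0 = v) (Z : Set E)
    (hgen : ∀ S : Submodule ℂ (E → E), (∀ V ∈ Q, V 0 ∈ Submodule.span ℂ Z → V ∈ S) →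
      (∀ V ∈ S, ∀ W ∈ S, VectorField.lieBracket ℂ V W ∈ S) → Q ≤ S)
    (hinv : ∀ V ∈ Q, V 0 = 0 → (∀ v, fderiv ℂ V 0 (fderiv ℂ V 0 v) = 0) →
      ∀ (s : ℂ), ∀ z ∈ Z, z + s • fderiv ℂ V 0 z ∈ Z)
    (φ : E → E) (hφQ : φ ∈ Q) (hφ : φ ≠ 0) (h0 : φ 0 = 0) (h1 : fderiv ℂ φ 0 = 0)
    (h2 : fderiv ℂ (fderiv ℂ φ) 0 = 0) :
    ∃ A : E →ₗ[ℂ] E, (∀ v, A (A v) = 0) ∧ (∃ z ∈ Z, A z ≠ 0) ∧
      ∀ (s : ℂ), ∀ z ∈ Z, z + s • A z ∈ Z := by
  haveI : FiniteDimensional ℂ (QT Q hQ) := inferInstanceAs (FiniteDimensional ℂ Q)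
  have hbr : ∀ V W : QT Q hQ, (⁅V, W⁆ : QT Q hQ).1 = VectorField.lieBracket ℂ V.1 W.1 :=
    fun V W => rfl
  have heff : ∀ I : LieIdeal ℂ (QT Q hQ), (∀ x ∈ I, x ∈ iso Q hQ) → I = ⊥ := by
    intro I hI
    let toF : QT Q hQ →ₗ[ℂ] (E → E) := Q.subtype
    have htoF : ∀ V : QT Q hQ, toF V = V.1 := fun V => rfl
    have key := eff Q hQ htr (I.toSubmodule.map toF)
      (by rintro _ ⟨V, _, rfl⟩; exact V.2)
      (by
        rintro W hW _ ⟨V, hV, rfl⟩
        exact ⟨⁅mkQT Q hQ W hW, V⁆, lie_mem_right ℂ (QT Q hQ) I _ _ hV, rfl⟩)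
      (by rintro _ ⟨V, hV, rfl⟩; exact hI V hV)
    rw [eq_bot_iff]
    intro V hV
    have h3 := key V.1 ⟨V, hV, rfl⟩
    exact Subtype.ext h3
  have hD : LieSubalgebra.lieSpan ℂ (QT Q hQ) {x : QT Q hQ | x.1 0 ∈ Submodule.span ℂ Z} = ⊤ := by
    let toF : QT Q hQ →ₗ[ℂ] (E → E) := Q.subtype
    set L := LieSubalgebra.lieSpan ℂ (QT Q hQ) {x : QT Q hQ | x.1 0 ∈ Submodule.span ℂ Z} with hL
    have key := hgen (L.toSubmodule.map toF)
      (by
        intro V hV hV0
        exact ⟨mkQT Q hQ V hV, LieSubalgebra.subset_lieSpan hV0, rfl⟩)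
      (by
        rintro _ ⟨V, hV, rfl⟩ _ ⟨W, hW, rfl⟩
        exact ⟨⁅V, W⁆, L.lie_mem hV hW, rfl⟩)
    rw [eq_top_iff]
    intro V _
    obtain ⟨W, hW, hWV⟩ := key V.2
    have : W = V := Subtype.ext hWV
    rw [← this]
    exact hW
  have hord : ∀ V W : QT Q hQ, VectorField.lieBracket ℂ W.1 φ 0 = 0 ∧
      VectorField.lieBracket ℂ V.1 (VectorField.lieBracket ℂ W.1 φ) 0 = 0 := fun V W =>
    order_lemma φ V.1 W.1 (hQ.smooth φ hφQ) (hQ.smooth _ V.2) (hQ.smooth _ W.2) h0 h1 h2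
  obtain ⟨b, hb, hbb, x, hx, hbx⟩ := necessity_alg (iso Q hQ) heff _ hD
    (mkQT Q hQ φ hφQ) (fun h => hφ (congrArg Subtype.val h)) h0
    (fun x => (hord x x).1) (fun x y => (hord x y).2)
  have hb0 : b.1 0 = 0 := hb
  have hval : ∀ y : QT Q hQ, (⁅b, y⁆ : QT Q hQ).1 0 = -(fderiv ℂ b.1 0 (y.1 0)) := by
    intro y
    rw [hbr, VectorField.lieBracket, hb0]
    simp
  refine ⟨(fderiv ℂ b.1 0 : E →L[ℂ] E), ?_, ?_, ?_⟩
  · intro v
    obtain ⟨V, hV, rfl⟩ := htr v
    have h4 : (⁅b, ⁅b, mkQT Q hQ V hV⁆⁆ : QT Q hQ).1 0 = 0 :=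
      congrArg (fun y : QT Q hQ => y.1 0) (hbb (mkQT Q hQ V hV))
    rw [hval (⁅b, mkQT Q hQ V hV⁆), hval (mkQT Q hQ V hV), map_neg, neg_neg] at h4
    exact h4
  · by_contra hcon
    push_neg at hcon
    apply hbx
    show (⁅b, x⁆ : QT Q hQ).1 0 = 0
    rw [hval]
    have hx' : x.1 0 ∈ Submodule.span ℂ Z := hx
    have h5 : Submodule.span ℂ Z ≤ LinearMap.ker (fderiv ℂ b.1 0 : E →L[ℂ] E).toLinearMap := by
      rw [Submodule.span_le]
      intro z hz
      exact hcon z hz
    have h6 : fderiv ℂ b.1 0 (x.1 0) = 0 := h5 hx'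
    rw [h6, neg_zero]
  · intro s z hz
    refine hinv b.1 b.2 hb0 ?_ s z hz
    intro v
    obtain ⟨V, hV, rfl⟩ := htr v
    have h4 : (⁅b, ⁅b, mkQT Q hQ V hV⁆⁆ : QT Q hQ).1 0 = 0 :=
      congrArg (fun y : QT Q hQ => y.1 0) (hbb (mkQT Q hQ V hV))
    rw [hval (⁅b, mkQT Q hQ V hV⁆), hval (mkQT Q hQ V hV), map_neg, neg_neg] at h4
    exact h4

theorem exp_sq_zero {E : Type} [NormedAddCommGroup E] [NormedSpace ℂ E] (B : E →L[ℂ] E)
    (hB : ∀ v, B (B v) = 0) (s : ℂ) (v : E) : NormedSpace.exp (s • B) v = v + s • B v := by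
  have hB2 : (s • B) ^ 2 = 0 := by
    ext w
    rw [pow_two]
    show (s • B) ((s • B) w) = 0
    simp [hB]
  have h1 : NormedSpace.exp (s • B) = 1 + s • B := by
    rw [NormedSpace.exp_eq_tsum ℂ]
    show ∑' n : ℕ, ((n.factorial : ℂ)⁻¹) • (s • B) ^ n = 1 + s • B
    rw [tsum_eq_sum (s := Finset.range 2)]
    · rw [Finset.sum_range_succ, Finset.sum_range_one]
      simp
    · intro n hn
      have hn2 : 2 ≤ n := by
        by_contra h3
        exact hn (Finset.mem_range.2 (by omega))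
      rw [pow_eq_zero_of_le hn2 hB2, smul_zero]
  rw [h1]
  rfl

theorem hasSquareZero_of_homogeneous (W : Type) [NormedAddCommGroup W] [NormedSpace ℂ W]
    (Z : Set W) (hspan : Submodule.span ℂ Z = ⊤) (h : HomogeneousFibre W Z) :
    HasSquareZero W Z := by
  obtain ⟨E, instE1, instE2, Q, j, φ, hj, hfin, hQ, htr, hgen, hinv, hφQ, hφ, h0, h1, h2⟩ := h
  haveI := hfin
  have hsp : Submodule.span ℂ (j '' Z) = LinearMap.range j := by
    rw [← Submodule.map_span, hspan, Submodule.map_top]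
  obtain ⟨A, hA2, ⟨z1, hz1, hAz1⟩, hAZ⟩ := necessity_fields Q hQ htr (j '' Z)
    (by rw [hsp]; exact hgen)
    (by
      intro V hV hV0 hsq s z hz
      obtain ⟨z0, hz0, rfl⟩ := hz
      obtain ⟨z', hz', he⟩ := hinv V hV hV0 s z0 hz0
      rw [exp_sq_zero _ hsq] at he
      exact ⟨z', hz', he.symm⟩)
    φ hφQ hφ h0 h1 h2
  have hAr : ∀ x ∈ LinearMap.range j, A x ∈ LinearMap.range j := by
    have h3 : (Submodule.span ℂ (j '' Z)).map A ≤ LinearMap.range j := by
      rw [Submodule.map_span_le]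
      intro z hz
      have h4 := hAZ 1 z hz
      rw [one_smul] at h4
      obtain ⟨z', _, hz'⟩ := h4
      obtain ⟨z0, _, hz0⟩ := hz
      exact ⟨z' - z0, by rw [map_sub, hz', hz0]; abel⟩
    rw [hsp] at h3
    intro x hx
    exact h3 (Submodule.mem_map_of_mem hx)
  let e := LinearEquiv.ofInjective j hj
  let A' : W →ₗ[ℂ] W := e.symm.toLinearMap ∘ₗ (A.restrict hAr) ∘ₗ e.toLinearMap
  have hA' : ∀ w, j (A' w) = A (j w) := by
    intro w
    have h3 : e (A' w) = (A.restrict hAr) (e w) := by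
      show e (e.symm ((A.restrict hAr) (e w))) = _
      rw [LinearEquiv.apply_symm_apply]
    have h4 := congrArg Subtype.val h3
    exact h4
  refine ⟨A', ?_, ?_, ?_⟩
  · intro h3
    obtain ⟨z0, _, rfl⟩ := hz1
    apply hAz1
    rw [← hA', h3]
    simp
  · intro w
    apply hj
    rw [hA', hA', hA2, map_zero]
  · intro s z hz
    obtain ⟨z', hz', he⟩ := hAZ s (j z) ⟨z, hz, rfl⟩
    have h3 : j (z + s • A' z) = j z' := by
      rw [he, map_add, map_smul, hA']
    rw [hj h3]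
    exact hz'

/-- words of length at most `ℓ` -/
abbrev WordsLE (ρ ℓ : ℕ) : Type := {w : List (Fin ρ) // w.length ≤ ℓ}

instance (ρ ℓ : ℕ) : Finite (WordsLE ρ ℓ) := (List.finite_length_le (Fin ρ) ℓ).to_subtype

/-- the module -/
abbrev Mod (K : Type) (ρ ℓ : ℕ) : Type := K × (WordsLE ρ ℓ → ℂ)

/-- the operators: prefix deletion -/
noncomputable def Eop {K : Type} [AddCommGroup K] [Module ℂ K] {ρ : ℕ} (ℓ : ℕ) (r : Fin ρ → K)
    (i : Fin ρ) : Module.End ℂ (Mod K ρ ℓ) where
  toFun m := (m.2 ⟨[], by simp⟩ • r i,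
    fun w => if h : w.1.length + 1 ≤ ℓ then m.2 ⟨i :: w.1, by simpa using h⟩ else 0)
  map_add' m m' := by
    refine Prod.ext ?_ ?_
    · simp [add_smul]
    · funext w
      show (if h : w.1.length + 1 ≤ ℓ then (m + m').2 ⟨i :: w.1, by simpa using h⟩ else 0) =
        (if h : w.1.length + 1 ≤ ℓ then m.2 ⟨i :: w.1, by simpa using h⟩ else 0) +
        (if h : w.1.length + 1 ≤ ℓ then m'.2 ⟨i :: w.1, by simpa using h⟩ else 0)
      split_ifs with h
      · rfl
      · simp
  map_smul' c m := by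
    refine Prod.ext ?_ ?_
    · simp [mul_smul]
    · funext w
      show (if h : w.1.length + 1 ≤ ℓ then (c • m).2 ⟨i :: w.1, by simpa using h⟩ else 0) =
        c • (if h : w.1.length + 1 ≤ ℓ then m.2 ⟨i :: w.1, by simpa using h⟩ else 0)
      split_ifs with h
      · rfl
      · simp

attribute [local instance 100] LieRing.ofAssociativeRing

/-- the Lie algebra generated by the operators -/
noncomputable def nLie {K : Type} [AddCommGroup K] [Module ℂ K] {ρ : ℕ} (ℓ : ℕ)
    (r : Fin ρ → K) : LieSubalgebra ℂ (Module.End ℂ (Mod K ρ ℓ)) :=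
  LieSubalgebra.lieSpan ℂ _ (Set.range (Eop ℓ r))

/-! ### the semidirect product -/

section SD

variable {M : Type} [AddCommGroup M] [Module ℂ M] (L : LieSubalgebra ℂ (Module.End ℂ M))

/-- the semidirect product of a linear Lie algebra with its module -/
def SD : Type := L × M

instance : AddCommGroup (SD L) := inferInstanceAs (AddCommGroup (L × M))

instance : Module ℂ (SD L) := inferInstanceAs (Module ℂ (L × M))

instance [FiniteDimensional ℂ M] : FiniteDimensional ℂ (SD L) := by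
  have : FiniteDimensional ℂ (Module.End ℂ M) := inferInstance
  have : FiniteDimensional ℂ L := FiniteDimensional.finiteDimensional_submodule L.toSubmodule
  exact inferInstanceAs (FiniteDimensional ℂ (L × M))

/-- constructor -/
def SD.mk (x : L) (m : M) : SD L := (x, m)

instance : Bracket (SD L) (SD L) :=
  ⟨fun a b => SD.mk L ⁅a.1, b.1⁆ ((a.1 : Module.End ℂ M) b.2 - (b.1 : Module.End ℂ M) a.2)⟩

variable {L}

theorem SD.ext' {a b : SD L} (h : a.1 = b.1) (h' : a.2 = b.2) : a = b := Prod.ext h h'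

theorem SD.lie_fst (a b : SD L) : (⁅a, b⁆ : SD L).1 = ⁅a.1, b.1⁆ := rfl
theorem SD.lie_snd (a b : SD L) : (⁅a, b⁆ : SD L).2 =
  (a.1 : Module.End ℂ M) b.2 - (b.1 : Module.End ℂ M) a.2 := rfl
theorem SD.add_fst (a b : SD L) : (a + b).1 = a.1 + b.1 := rfl
theorem SD.add_snd (a b : SD L) : (a + b).2 = a.2 + b.2 := rfl
theorem SD.sub_fst (a b : SD L) : (a - b).1 = a.1 - b.1 := rfl
theorem SD.sub_snd (a b : SD L) : (a - b).2 = a.2 - b.2 := rfl
theorem SD.smul_fst (c : ℂ) (a : SD L) : (c • a).1 = c • a.1 := rfl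
theorem SD.smul_snd (c : ℂ) (a : SD L) : (c • a).2 = c • a.2 := rfl
theorem SD.zero_fst : (0 : SD L).1 = 0 := rfl
theorem SD.zero_snd : (0 : SD L).2 = 0 := rfl
theorem SD.mk_fst (x : L) (m : M) : (SD.mk L x m).1 = x := rfl
theorem SD.mk_snd (x : L) (m : M) : (SD.mk L x m).2 = m := rfl
theorem SD.coeL_add (x y : L) (m : M) :
    ((x + y : L) : Module.End ℂ M) m = (x : Module.End ℂ M) m + (y : Module.End ℂ M) m := rfl
theorem SD.coeL_smul (c : ℂ) (x : L) (m : M) :
    ((c • x : L) : Module.End ℂ M) m = c • (x : Module.End ℂ M) m := rfl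
theorem SD.coeL_lie (x y : L) (m : M) :
    ((⁅x, y⁆ : L) : Module.End ℂ M) m = (x : Module.End ℂ M) ((y : Module.End ℂ M) m) -
      (y : Module.End ℂ M) ((x : Module.End ℂ M) m) := rfl

variable (L)

noncomputable instance : LieRing (SD L) where
  add_lie a b c := by
    apply SD.ext'
    · simp only [SD.lie_fst, SD.add_fst, add_lie]
    · simp only [SD.lie_snd, SD.add_fst, SD.add_snd, SD.coeL_add, map_add]
      abel
  lie_add a b c := by
    apply SD.ext'
    · simp only [SD.lie_fst, SD.add_fst, lie_add]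
    · simp only [SD.lie_snd, SD.add_fst, SD.add_snd, SD.coeL_add, map_add]
      abel
  lie_self a := by
    apply SD.ext'
    · simp only [SD.lie_fst, SD.zero_fst, lie_self]
    · simp only [SD.lie_snd, SD.zero_snd, sub_self]
  leibniz_lie a b c := by
    apply SD.ext'
    · simp only [SD.lie_fst, SD.add_fst, leibniz_lie a.1 b.1 c.1]
    · simp only [SD.lie_snd, SD.lie_fst, SD.add_snd, SD.coeL_lie, map_sub]
      abel

noncomputable instance : LieAlgebra ℂ (SD L) where
  lie_smul c a b := by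
    apply SD.ext'
    · simp only [SD.lie_fst, SD.smul_fst, lie_smul]
    · simp only [SD.lie_snd, SD.smul_fst, SD.smul_snd, SD.coeL_smul,
        map_smul, smul_sub]

end SD

section PP

variable {K : Type} [AddCommGroup K] [Module ℂ K] {ρ : ℕ} {ℓ : ℕ} (r : Fin ρ → K)

/-- the isotropy subalgebra -/
noncomputable def Pp : LieSubalgebra ℂ (SD (nLie ℓ r)) where
  carrier := {z | z.1 = 0 ∧ z.2.1 = 0}
  add_mem' := by
    rintro a b ⟨h1, h2⟩ ⟨h3, h4⟩
    refine ⟨?_, ?_⟩
    · rw [SD.add_fst, h1, h3, add_zero]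
    · rw [SD.add_snd, Prod.fst_add, h2, h4, add_zero]
  zero_mem' := ⟨rfl, rfl⟩
  smul_mem' := by
    rintro c a ⟨h1, h2⟩
    refine ⟨?_, ?_⟩
    · rw [SD.smul_fst, h1, smul_zero]
    · rw [SD.smul_snd, Prod.smul_fst, h2, smul_zero]
  lie_mem' := by
    rintro a b ⟨h1, h2⟩ ⟨h3, h4⟩
    refine ⟨?_, ?_⟩
    · rw [SD.lie_fst, h1, zero_lie]
    · rw [SD.lie_snd, h1, h3]
      simp

theorem mem_Pp (z : SD (nLie ℓ r)) : z ∈ Pp r ↔ z.1 = 0 ∧ z.2.1 = 0 := Iff.rfl

/-- generator -/
noncomputable def EL (ℓ : ℕ) (i : Fin ρ) : nLie ℓ r :=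
  ⟨Eop ℓ r i, LieSubalgebra.subset_lieSpan ⟨i, rfl⟩⟩

theorem Eop_fst (i : Fin ρ) (m : Mod K ρ ℓ) : (Eop ℓ r i m).1 = m.2 ⟨[], by simp⟩ • r i := rfl

theorem Eop_snd (i : Fin ρ) (m : Mod K ρ ℓ) (w : WordsLE ρ ℓ) (h : w.1.length + 1 ≤ ℓ) :
    (Eop ℓ r i m).2 w = m.2 ⟨i :: w.1, by simpa using h⟩ := by
  show (if h : w.1.length + 1 ≤ ℓ then m.2 ⟨i :: w.1, by simpa using h⟩ else 0) = _
  rw [dif_pos h]

theorem effective (hρ : 1 ≤ ρ) (r0 : ∀ i, r i ≠ 0) (I : LieIdeal ℂ (SD (nLie ℓ r)))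
    (hI : ∀ x ∈ I, x ∈ Pp r) : I = ⊥ := by
  have key : ∀ (w : List (Fin ρ)) (h : w.length ≤ ℓ), ∀ x ∈ I, x.2.2 ⟨w, h⟩ = 0 := by
    intro w
    induction w with
    | nil =>
      intro h x hx
      have hx' : ⁅SD.mk (nLie ℓ r) (EL r ℓ ⟨0, hρ⟩) 0, x⁆ ∈ I := lie_mem_right ℂ _ I _ _ hx
      have h2 := ((mem_Pp r _).1 (hI _ hx')).2
      rw [SD.lie_snd, SD.mk_fst, SD.mk_snd, map_zero, sub_zero] at h2
      have h3 : x.2.2 ⟨[], by simp⟩ • r ⟨0, hρ⟩ = 0 := h2
      rcases smul_eq_zero.1 h3 with h4 | h4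
      · exact h4
      · exact absurd h4 (r0 _)
    | cons i w ih =>
      intro h x hx
      have hx' : ⁅SD.mk (nLie ℓ r) (EL r ℓ i) 0, x⁆ ∈ I := lie_mem_right ℂ _ I _ _ hx
      have hlen : w.length + 1 ≤ ℓ := by simpa using h
      have h2 := ih (by omega) _ hx'
      rw [SD.lie_snd, SD.mk_fst, SD.mk_snd, map_zero, sub_zero] at h2
      have h3 := Eop_snd r i x.2 ⟨w, by omega⟩ hlen
      exact h3.symm.trans h2
  rw [LieSubmodule.eq_bot_iff]
  intro x hx
  have hp := (mem_Pp r _).1 (hI x hx)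
  apply SD.ext'
  · exact hp.1
  · refine Prod.ext hp.2 ?_
    funext w
    exact key w.1 w.2 x hx

end PP

theorem exists_B {W : Type} [NormedAddCommGroup W] [NormedSpace ℂ W]
    [FiniteDimensional ℂ W] (A : W →ₗ[ℂ] W) (c : ℂ) : ∃ B : W →L[ℂ] W, ∀ w, B w = c • A w :=
  ⟨c • LinearMap.toContinuousLinearMap A, fun _ => rfl⟩

section JJ

variable {W : Type} [NormedAddCommGroup W] [NormedSpace ℂ W] {A : W →ₗ[ℂ] W} {ρ : ℕ}
  (d : Data A ρ) (ℓ : ℕ)

/-- the soldering map, at the level of the Lie algebra -/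
noncomputable def Jm : W →ₗ[ℂ] SD (nLie ℓ d.r) where
  toFun w := SD.mk (nLie ℓ d.r) (∑ i, d.α i w • EL d.r ℓ i) ((d.π w, 0) : Mod d.K ρ ℓ)
  map_add' w w' := by
    apply SD.ext'
    · simp only [SD.mk_fst, SD.add_fst, map_add, add_smul, Finset.sum_add_distrib]
    · simp only [SD.mk_snd, SD.add_snd, map_add, Prod.mk_add_mk, add_zero]
  map_smul' c w := by
    apply SD.ext'
    · simp only [SD.mk_fst, SD.smul_fst, map_smul, smul_eq_mul, mul_smul, Finset.smul_sum,
        RingHom.id_apply]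
    · simp only [SD.mk_snd, SD.smul_snd, map_smul, Prod.smul_mk, smul_zero,
        RingHom.id_apply]

theorem Jm_fst (w : W) : (Jm d ℓ w).1 = ∑ i, d.α i w • EL d.r ℓ i := rfl

theorem Jm_snd (w : W) : (Jm d ℓ w).2 = ((d.π w, 0) : Mod d.K ρ ℓ) := rfl

theorem hsum (w : W) (m : Mod d.K ρ ℓ) :
    (((∑ i, d.α i w • EL d.r ℓ i : nLie ℓ d.r) : Module.End ℂ (Mod d.K ρ ℓ)) m).1 =
      m.2 ⟨[], by simp⟩ • ∑ i, d.α i w • d.r i := by
  have : ((∑ i, d.α i w • EL d.r ℓ i : nLie ℓ d.r) : Module.End ℂ (Mod d.K ρ ℓ)) =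
      ∑ i, d.α i w • Eop ℓ d.r i := by
    change (nLie ℓ d.r).toSubmodule.subtype _ = _
    rw [map_sum]
    rfl
  rw [this, LinearMap.sum_apply, Prod.fst_sum, Finset.smul_sum]
  refine Finset.sum_congr rfl fun i _ => ?_
  rw [LinearMap.smul_apply, Prod.smul_fst, Eop_fst, smul_comm]

theorem hmk (x : SD (nLie ℓ d.r)) (w : W) :
    (Pp d.r).toSubmodule.mkQ x = ((Pp d.r).toSubmodule.mkQ ∘ₗ Jm d ℓ) w ↔
      (x.1 = ∑ i, d.α i w • EL d.r ℓ i ∧ x.2.1 = d.π w) := by
  rw [LinearMap.comp_apply, Submodule.mkQ_apply, Submodule.mkQ_apply, Submodule.Quotient.eq]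
  change x - Jm d ℓ w ∈ Pp d.r ↔ _
  rw [mem_Pp, SD.sub_fst, SD.sub_snd, Prod.fst_sub, Jm_fst, Jm_snd, sub_eq_zero, sub_eq_zero]

theorem J_inj : Function.Injective ((Pp d.r).toSubmodule.mkQ ∘ₗ Jm d ℓ) := by
  rw [← LinearMap.ker_eq_bot, LinearMap.ker_eq_bot']
  intro w hw
  have h0 : (Pp d.r).toSubmodule.mkQ (0 : SD (nLie ℓ d.r)) =
      ((Pp d.r).toSubmodule.mkQ ∘ₗ Jm d ℓ) w := by
    rw [map_zero]; exact hw.symm
  obtain ⟨ha, hb⟩ := (hmk d ℓ 0 w).1 h0
  have hπ : d.π w = 0 := hb.symm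
  have hα : ∑ i, d.α i w • d.r i = 0 := by
    have h1 := hsum d ℓ w ((0, fun _ => 1) : Mod d.K ρ ℓ)
    have h2 : (∑ i, d.α i w • EL d.r ℓ i : nLie ℓ d.r) = 0 := ha.symm
    rw [h2] at h1
    have h3 : ((0 : Mod d.K ρ ℓ)).1 = (1 : ℂ) • ∑ i, d.α i w • d.r i := h1
    rw [one_smul] at h3
    exact h3.symm
  have hα' : ∀ i, d.α i w = 0 :=
    Fintype.linearIndependent_iff.1 d.lin (fun i => d.α i w) hα
  rw [d.dec w, hπ]
  simp [hα']

theorem isotropy [FiniteDimensional ℂ W] (b : SD (nLie ℓ d.r)) (hb : b ∈ Pp d.r) (B : W →L[ℂ] W)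
    (hB : ∀ w, B w = (- b.2.2 ⟨[], by simp⟩) • A w) (w : W) (x : SD (nLie ℓ d.r))
    (hx : (Pp d.r).toSubmodule.mkQ x = ((Pp d.r).toSubmodule.mkQ ∘ₗ Jm d ℓ) w) :
    (Pp d.r).toSubmodule.mkQ ⁅b, x⁆ = ((Pp d.r).toSubmodule.mkQ ∘ₗ Jm d ℓ) (B w) := by
  obtain ⟨hb1, hb2⟩ := (mem_Pp d.r b).1 hb
  obtain ⟨hx1, hx2⟩ := (hmk d ℓ x w).1 hx
  have hα : ∀ i, d.α i (B w) = 0 := by
    intro i
    rw [hB, map_smul, d.Aw, d.αK, smul_zero]
  have hπ : d.π (B w) = (- b.2.2 ⟨[], by simp⟩) • ∑ i, d.α i w • d.r i := by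
    rw [hB, map_smul, d.Aw, d.πK]
  rw [hmk]
  refine ⟨?_, ?_⟩
  · rw [SD.lie_fst, hb1, zero_lie]
    symm
    refine Finset.sum_eq_zero fun i _ => ?_
    rw [hα, zero_smul]
  · rw [SD.lie_snd, Prod.fst_sub, hπ, neg_smul]
    have h1 : ((b.1 : Module.End ℂ (Mod d.K ρ ℓ)) x.2).1 = 0 := by
      rw [hb1]; rfl
    have h2 : ((x.1 : Module.End ℂ (Mod d.K ρ ℓ)) b.2).1 =
        b.2.2 ⟨[], by simp⟩ • ∑ i, d.α i w • d.r i := by
      rw [hx1]; exact hsum d ℓ w b.2
    rw [h1, h2, zero_sub]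

theorem generation : LieSubalgebra.lieSpan ℂ (SD (nLie ℓ d.r))
    {x : SD (nLie ℓ d.r) | (Pp d.r).toSubmodule.mkQ x ∈
      LinearMap.range ((Pp d.r).toSubmodule.mkQ ∘ₗ Jm d ℓ)} = ⊤ := by
  set S : Set (SD (nLie ℓ d.r)) := {x | (Pp d.r).toSubmodule.mkQ x ∈
    LinearMap.range ((Pp d.r).toSubmodule.mkQ ∘ₗ Jm d ℓ)} with hS
  have hpS : ∀ x ∈ Pp d.r, x ∈ LieSubalgebra.lieSpan ℂ (SD (nLie ℓ d.r)) S := by
    intro x hx
    refine LieSubalgebra.subset_lieSpan ?_
    refine ⟨0, ?_⟩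
    rw [map_zero]
    exact ((Submodule.Quotient.mk_eq_zero _).2 hx).symm
  have hJS : ∀ w, Jm d ℓ w ∈ LieSubalgebra.lieSpan ℂ (SD (nLie ℓ d.r)) S := by
    intro w
    exact LieSubalgebra.subset_lieSpan ⟨w, rfl⟩
  have hE : ∀ i, SD.mk (nLie ℓ d.r) (EL d.r ℓ i) 0 ∈
      LieSubalgebra.lieSpan ℂ (SD (nLie ℓ d.r)) S := by
    intro i
    have h := hJS (d.e i)
    have : Jm d ℓ (d.e i) = SD.mk (nLie ℓ d.r) (EL d.r ℓ i) 0 := by
      apply SD.ext'
      · rw [Jm_fst, SD.mk_fst]
        simp [d.αe]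
      · rw [Jm_snd, SD.mk_snd, d.πe]
        rfl
    rwa [this] at h
  have hM : ∀ m, SD.mk (nLie ℓ d.r) 0 m ∈ LieSubalgebra.lieSpan ℂ (SD (nLie ℓ d.r)) S := by
    intro m
    have h := hJS (m.1 : W)
    have h' := hpS (SD.mk (nLie ℓ d.r) 0 (0, m.2)) ⟨rfl, rfl⟩
    have h'' := LieSubalgebra.add_mem _ h h'
    have : Jm d ℓ (m.1 : W) + SD.mk (nLie ℓ d.r) 0 (0, m.2) = SD.mk (nLie ℓ d.r) 0 m := by
      apply SD.ext'
      · rw [SD.add_fst, Jm_fst, SD.mk_fst, SD.mk_fst]
        simp [d.αK]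
      · rw [SD.add_snd, Jm_snd, SD.mk_snd, SD.mk_snd, d.πK]
        refine Prod.ext ?_ ?_
        · simp
        · simp
    rwa [this] at h''
  have hL : ∀ x (hx : x ∈ nLie ℓ d.r), SD.mk (nLie ℓ d.r) ⟨x, hx⟩ 0 ∈
      LieSubalgebra.lieSpan ℂ (SD (nLie ℓ d.r)) S := by
    intro x hx
    unfold nLie at hx
    induction hx using LieSubalgebra.lieSpan_induction with
    | mem y h =>
      obtain ⟨i, rfl⟩ := h
      exact hE i
    | zero =>
      exact LieSubalgebra.zero_mem _
    | add a b ha hb iha ihb =>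
      have := LieSubalgebra.add_mem _ iha ihb
      have e : SD.mk (nLie ℓ d.r) ⟨a, ha⟩ 0 + SD.mk (nLie ℓ d.r) ⟨b, hb⟩ 0 =
          SD.mk (nLie ℓ d.r) ⟨a + b, LieSubalgebra.add_mem _ ha hb⟩ 0 := by
        apply SD.ext'
        · rfl
        · rw [SD.add_snd, SD.mk_snd, SD.mk_snd, SD.mk_snd, add_zero]
      rwa [e] at this
    | smul c a ha iha =>
      have := LieSubalgebra.smul_mem _ c iha
      have e : c • SD.mk (nLie ℓ d.r) ⟨a, ha⟩ 0 =
          SD.mk (nLie ℓ d.r) ⟨c • a, LieSubalgebra.smul_mem _ c ha⟩ 0 := by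
        apply SD.ext'
        · rfl
        · rw [SD.smul_snd, SD.mk_snd, SD.mk_snd, smul_zero]
      rwa [e] at this
    | lie a b ha hb iha ihb =>
      have := LieSubalgebra.lie_mem _ iha ihb
      have e : ⁅SD.mk (nLie ℓ d.r) ⟨a, ha⟩ 0, SD.mk (nLie ℓ d.r) ⟨b, hb⟩ 0⁆ =
          SD.mk (nLie ℓ d.r) ⟨⁅a, b⁆, LieSubalgebra.lie_mem _ ha hb⟩ 0 := by
        apply SD.ext'
        · rfl
        · rw [SD.lie_snd, SD.mk_snd, SD.mk_snd, SD.mk_snd, map_zero, map_zero, sub_zero]
      rwa [e] at this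
  rw [eq_top_iff]
  intro x _
  have h := LieSubalgebra.add_mem _ (hL x.1.1 x.1.2) (hM x.2)
  have e : SD.mk (nLie ℓ d.r) ⟨x.1.1, x.1.2⟩ 0 + SD.mk (nLie ℓ d.r) 0 x.2 = x := by
    apply SD.ext'
    · rw [SD.add_fst, SD.mk_fst, SD.mk_fst, add_zero]
    · rw [SD.add_snd, SD.mk_snd, SD.mk_snd, zero_add]
  rwa [e] at h

end JJ

theorem vanishes_mu {K : Type} [AddCommGroup K] [Module ℂ K] {ρ ℓ : ℕ} (r : Fin ρ → K) (k : ℕ)
    (m : Mod K ρ ℓ) (h : ∀ xs : List (Module.End ℂ (Mod K ρ ℓ)), xs.length ≤ k →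
      (∀ x ∈ xs, x ∈ nLie ℓ r) → (xs.prod m).1 = 0) :
    VanishesTo (Pp r) k (SD.mk (nLie ℓ r) 0 m) := by
  induction k generalizing m with
  | zero => exact ⟨rfl, h [] le_rfl (by simp)⟩
  | succ k ih =>
    refine ⟨⟨rfl, h [] (by simp) (by simp)⟩, fun x => ?_⟩
    have e : (⁅x, SD.mk (nLie ℓ r) 0 m⁆ : SD (nLie ℓ r)) =
        SD.mk (nLie ℓ r) 0 ((x.1 : Module.End ℂ (Mod K ρ ℓ)) m) := by
      apply SD.ext'
      · rw [SD.lie_fst, SD.mk_fst, SD.mk_fst, lie_zero]
      · rw [SD.lie_snd, SD.mk_fst, SD.mk_snd, SD.mk_snd]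
        exact sub_zero _
    rw [e]
    apply ih
    intro xs hxs hx
    have h3 := h (xs ++ [(x.1 : Module.End ℂ (Mod K ρ ℓ))]) (by simp; omega) (by
      intro y hy
      rw [List.mem_append, List.mem_singleton] at hy
      rcases hy with hy | rfl
      · exact hx y hy
      · exact x.1.2)
    rw [List.prod_append, List.prod_singleton] at h3
    exact h3

/-- the homogeneous model built from the operators `Eop` -/
theorem model_of_data {W : Type} [NormedAddCommGroup W] [NormedSpace ℂ W]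
    [FiniteDimensional ℂ W] (Z : Set W) (k : ℕ) (A : W →ₗ[ℂ] W) {ρ ℓ : ℕ} (hρ : 1 ≤ ρ)
    (d : Data A ρ)
    (hA : ∀ w, A (A w) = 0) (hZ : ∀ (s : ℂ) (z : W), z ∈ Z → z + s • A z ∈ Z)
    (μ : Mod d.K ρ ℓ) (hμ : μ ≠ 0)
    (h : ∀ xs : List (Module.End ℂ (Mod d.K ρ ℓ)), xs.length ≤ k →
      (∀ x ∈ xs, x ∈ nLie ℓ d.r) → (xs.prod μ).1 = 0) :
    HomogeneousModel k W Z := by
  have : FiniteDimensional ℂ (Mod d.K ρ ℓ) := inferInstance
  refine ⟨SD (nLie ℓ d.r), inferInstance, inferInstance, Pp d.r,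
    (Pp d.r).toSubmodule.mkQ ∘ₗ Jm d ℓ, SD.mk (nLie ℓ d.r) 0 μ, inferInstance, J_inj d ℓ,
    fun I hI => effective d.r hρ d.r0 I hI, generation d ℓ, ?_, ?_, vanishes_mu d.r k μ h⟩
  · -- isotropy
    intro b hb
    obtain ⟨B, hB⟩ := exists_B A (- b.2.2 ⟨[], by simp⟩)
    refine ⟨B, isotropy d ℓ b hb B hB, ?_⟩
    intro s z hz
    rw [exp_square_zero (s • B) (fun w => ?_) z]
    · have h := hZ (s * (- b.2.2 ⟨[], by simp⟩)) z hz
      rw [mul_smul] at h
      rw [smul_apply, hB]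
      exact h
    · rw [smul_apply, smul_apply, map_smul, hB, hB,
        map_smul, hA, smul_zero, smul_zero, smul_zero, smul_zero]
  · intro h
    exact hμ (congrArg (fun z : SD (nLie ℓ d.r) => z.2) h)

/-- auxiliary vectors -/
noncomputable def exists_mu_Lam {K A : Type} [AddCommGroup K] [Module ℂ K] [AddCommGroup A]
    [Module ℂ A] {ρ : ℕ} (ℓ : ℕ) (r : Fin ρ → K) (D : Fin ρ → Module.End ℂ A) (f : Fin ρ → A)
    (p : A) (n : ℕ) : (A →ₗ[ℂ] ℂ) →ₗ[ℂ] Mod K ρ ℓ where
  toFun lam := (if n = ℓ + 1 then ∑ j, lam (f j) • r j else 0,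
    fun w => if w.1.length + n = ℓ then lam ((w.1.map D).prod p) else 0)
  map_add' a b := by
    refine Prod.ext ?_ ?_
    · show (if n = ℓ + 1 then ∑ j, (a + b) (f j) • r j else 0) =
        (if n = ℓ + 1 then ∑ j, a (f j) • r j else 0) +
        (if n = ℓ + 1 then ∑ j, b (f j) • r j else 0)
      split_ifs with h
      · rw [← Finset.sum_add_distrib]
        apply Finset.sum_congr rfl
        intro j _
        rw [LinearMap.add_apply, add_smul]
      · simp
    · funext w
      show (if w.1.length + n = ℓ then (a + b) ((w.1.map D).prod p) else 0) =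
        (if w.1.length + n = ℓ then a ((w.1.map D).prod p) else 0) +
        (if w.1.length + n = ℓ then b ((w.1.map D).prod p) else 0)
      split_ifs with h
      · rfl
      · simp
  map_smul' c a := by
    refine Prod.ext ?_ ?_
    · show (if n = ℓ + 1 then ∑ j, (c • a) (f j) • r j else 0) =
        c • (if n = ℓ + 1 then ∑ j, a (f j) • r j else 0)
      split_ifs with h
      · rw [Finset.smul_sum]
        apply Finset.sum_congr rfl
        intro j _
        rw [LinearMap.smul_apply, smul_eq_mul, mul_smul]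
      · simp
    · funext w
      show (if w.1.length + n = ℓ then (c • a) ((w.1.map D).prod p) else 0) =
        c • (if w.1.length + n = ℓ then a ((w.1.map D).prod p) else 0)
      split_ifs with h
      · rfl
      · simp

theorem exists_mu_key {K A : Type} [AddCommGroup K] [Module ℂ K] [AddCommGroup A] [Module ℂ A]
    {ρ : ℕ} (ℓ : ℕ) (r : Fin ρ → K) (D : Fin ρ → Module.End ℂ A) (f : Fin ρ → A) (p : A)
    (hrel : ∀ i j, D j (f i) = if i = j then p else 0) (i : Fin ρ) (n : ℕ) (lam : A →ₗ[ℂ] ℂ) :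
    Eop ℓ r i (exists_mu_Lam ℓ r D f p n lam) =
      exists_mu_Lam ℓ r D f p (n + 1) (lam ∘ₗ D i) := by
  refine Prod.ext ?_ ?_
  · show (if ([] : List (Fin ρ)).length + n = ℓ then lam (((([] : List (Fin ρ))).map D).prod p)
        else 0) • r i = if n + 1 = ℓ + 1 then ∑ j, (lam ∘ₗ D i) (f j) • r j else 0
    by_cases h : n = ℓ
    · have h1 : ([] : List (Fin ρ)).length + n = ℓ := by simpa using h
      have h2 : n + 1 = ℓ + 1 := by omega
      rw [if_pos h1, if_pos h2, Finset.sum_eq_single i]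
      · rw [LinearMap.comp_apply, hrel, if_pos rfl]
        simp
      · intro j _ hj
        rw [LinearMap.comp_apply, hrel, if_neg hj, map_zero, zero_smul]
      · intro hi
        exact absurd (Finset.mem_univ i) hi
    · have h1 : ¬ ([] : List (Fin ρ)).length + n = ℓ := by simpa using h
      have h2 : ¬ n + 1 = ℓ + 1 := by omega
      rw [if_neg h1, if_neg h2, zero_smul]
  · funext w
    show (if h : w.1.length + 1 ≤ ℓ then
        (if (i :: w.1).length + n = ℓ then lam (((i :: w.1).map D).prod p) else 0) else 0) =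
      if w.1.length + (n + 1) = ℓ then (lam ∘ₗ D i) ((w.1.map D).prod p) else 0
    rw [List.length_cons]
    by_cases h : w.1.length + (n + 1) = ℓ
    · rw [dif_pos (by omega), if_pos (by omega), if_pos h, List.map_cons, List.prod_cons]
      rfl
    · rw [if_neg h]
      by_cases h3 : w.1.length + 1 ≤ ℓ
      · rw [dif_pos h3, if_neg (by omega)]
      · rw [dif_neg h3]

/-- graded pieces -/
noncomputable def exists_mu_H {K A : Type} [AddCommGroup K] [Module ℂ K] [AddCommGroup A]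
    [Module ℂ A] {ρ : ℕ} (ℓ : ℕ) (r : Fin ρ → K) (D : Fin ρ → Module.End ℂ A) (f : Fin ρ → A)
    (p : A) (L : LieSubalgebra ℂ (Module.End ℂ A)) (n : ℕ) :
    Submodule ℂ (Module.End ℂ (Mod K ρ ℓ)) where
  carrier := {x | ∃ V ∈ L, ∀ (k : ℕ) (lam : A →ₗ[ℂ] ℂ), x (exists_mu_Lam ℓ r D f p k lam) =
    exists_mu_Lam ℓ r D f p (k + n) (lam ∘ₗ V)}
  add_mem' := by
    rintro x y ⟨V, hV, hx⟩ ⟨V', hV', hy⟩
    refine ⟨V + V', L.add_mem hV hV', fun k lam => ?_⟩
    rw [LinearMap.add_apply, hx, hy, ← map_add, LinearMap.comp_add]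
  zero_mem' := by
    refine ⟨0, L.zero_mem, fun k lam => ?_⟩
    rw [LinearMap.zero_apply, LinearMap.comp_zero, map_zero]
  smul_mem' := by
    rintro c x ⟨V, hV, hx⟩
    refine ⟨c • V, L.smul_mem c hV, fun k lam => ?_⟩
    rw [LinearMap.smul_apply, hx, ← map_smul, LinearMap.comp_smul]

theorem exists_mu_lie {K A : Type} [AddCommGroup K] [Module ℂ K] [AddCommGroup A]
    [Module ℂ A] {ρ : ℕ} (ℓ : ℕ) (r : Fin ρ → K) (D : Fin ρ → Module.End ℂ A) (f : Fin ρ → A)
    (p : A) (L : LieSubalgebra ℂ (Module.End ℂ A)) (n m : ℕ) (x y : Module.End ℂ (Mod K ρ ℓ))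
    (hx : x ∈ exists_mu_H ℓ r D f p L n) (hy : y ∈ exists_mu_H ℓ r D f p L m) :
    ⁅x, y⁆ ∈ exists_mu_H ℓ r D f p L (n + m) := by
  obtain ⟨V, hV, hx⟩ := hx
  obtain ⟨V', hV', hy⟩ := hy
  refine ⟨⁅V', V⁆, L.lie_mem hV' hV, fun k lam => ?_⟩
  have e1 : ⁅x, y⁆ (exists_mu_Lam ℓ r D f p k lam) =
      x (y (exists_mu_Lam ℓ r D f p k lam)) - y (x (exists_mu_Lam ℓ r D f p k lam)) := rfl
  have e2 : lam ∘ₗ ⁅V', V⁆ = (lam ∘ₗ V') ∘ₗ V - (lam ∘ₗ V) ∘ₗ V' := by
    ext a
    show lam (V' (V a) - V (V' a)) = lam (V' (V a)) - lam (V (V' a))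
    rw [map_sub]
  rw [e1, hy, hx, hx, hy, e2, map_sub, show k + m + n = k + (n + m) by omega,
    show k + n + m = k + (n + m) by omega]

/-- the graded Lie algebra -/
noncomputable def exists_mu_S {K A : Type} [AddCommGroup K] [Module ℂ K] [AddCommGroup A]
    [Module ℂ A] {ρ : ℕ} (ℓ : ℕ) (r : Fin ρ → K) (D : Fin ρ → Module.End ℂ A) (f : Fin ρ → A)
    (p : A) (L : LieSubalgebra ℂ (Module.End ℂ A)) :
    LieSubalgebra ℂ (Module.End ℂ (Mod K ρ ℓ)) :=
  { (⨆ n, exists_mu_H ℓ r D f p L n : Submodule ℂ (Module.End ℂ (Mod K ρ ℓ))) with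
    lie_mem' := by
      intro x y hx hy
      change ⁅x, y⁆ ∈ (⨆ n, exists_mu_H ℓ r D f p L n : Submodule ℂ (Module.End ℂ (Mod K ρ ℓ)))
      change x ∈ (⨆ n, exists_mu_H ℓ r D f p L n : Submodule ℂ (Module.End ℂ (Mod K ρ ℓ))) at hx
      change y ∈ (⨆ n, exists_mu_H ℓ r D f p L n : Submodule ℂ (Module.End ℂ (Mod K ρ ℓ))) at hy
      induction hx using Submodule.iSup_induction' with
      | mem n x hx =>
        induction hy using Submodule.iSup_induction' with
        | mem m y hy =>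
          exact Submodule.mem_iSup_of_mem (n + m) (exists_mu_lie ℓ r D f p L n m x y hx hy)
        | zero => rw [lie_zero]; exact Submodule.zero_mem _
        | add y y' _ _ h1 h2 => rw [lie_add]; exact Submodule.add_mem _ h1 h2
      | zero => rw [zero_lie]; exact Submodule.zero_mem _
      | add x x' _ _ h1 h2 => rw [add_lie]; exact Submodule.add_mem _ h1 h2 }

theorem exists_mu_le {K A : Type} [AddCommGroup K] [Module ℂ K] [AddCommGroup A]
    [Module ℂ A] {ρ : ℕ} (ℓ : ℕ) (r : Fin ρ → K) (D : Fin ρ → Module.End ℂ A) (f : Fin ρ → A)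
    (p : A) (hrel : ∀ i j, D j (f i) = if i = j then p else 0)
    (L : LieSubalgebra ℂ (Module.End ℂ A)) (hL : ∀ i, D i ∈ L)
    (x : Module.End ℂ (Mod K ρ ℓ)) (hx : x ∈ nLie ℓ r) :
    x ∈ (⨆ n, exists_mu_H ℓ r D f p L n : Submodule ℂ (Module.End ℂ (Mod K ρ ℓ))) := by
  have hle : nLie ℓ r ≤ exists_mu_S ℓ r D f p L := by
    unfold nLie
    rw [LieSubalgebra.lieSpan_le]
    rintro _ ⟨i, rfl⟩
    change Eop ℓ r i ∈ (⨆ n, exists_mu_H ℓ r D f p L n : Submodule ℂ (Module.End ℂ (Mod K ρ ℓ)))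
    exact Submodule.mem_iSup_of_mem 1 ⟨D i, hL i, fun k lam =>
      exists_mu_key ℓ r D f p hrel i k lam⟩
  exact hle hx

/-- auxiliary spaces -/
def Gsp {K A : Type} [AddCommGroup K] [Module ℂ K] [AddCommGroup A]
    [Module ℂ A] {ρ : ℕ} (ℓ : ℕ) (r : Fin ρ → K) (D : Fin ρ → Module.End ℂ A) (f : Fin ρ → A)
    (p : A) (ev : A →ₗ[ℂ] ℂ) (L : LieSubalgebra ℂ (Module.End ℂ A)) (t : ℕ) :
    Submodule ℂ (Mod K ρ ℓ) :=
  Submodule.span ℂ {m | ∃ (n : ℕ) (Vs : List (Module.End ℂ A)), Vs.length = t ∧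
    (∀ V ∈ Vs, V ∈ L) ∧ m = exists_mu_Lam ℓ r D f p n (ev ∘ₗ Vs.prod)}

theorem Gsp_step {K A : Type} [AddCommGroup K] [Module ℂ K] [AddCommGroup A]
    [Module ℂ A] {ρ : ℕ} (ℓ : ℕ) (r : Fin ρ → K) (D : Fin ρ → Module.End ℂ A) (f : Fin ρ → A)
    (p : A) (ev : A →ₗ[ℂ] ℂ) (L : LieSubalgebra ℂ (Module.End ℂ A)) (t : ℕ)
    (x : Module.End ℂ (Mod K ρ ℓ))
    (hx : x ∈ (⨆ n, exists_mu_H ℓ r D f p L n : Submodule ℂ (Module.End ℂ (Mod K ρ ℓ))))
    (m : Mod K ρ ℓ) (hm : m ∈ Gsp ℓ r D f p ev L t) : x m ∈ Gsp ℓ r D f p ev L (t + 1) := by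
  induction hx using Submodule.iSup_induction' with
  | mem n x hx =>
    obtain ⟨V, hV, h⟩ := hx
    have h3 : Gsp ℓ r D f p ev L t ≤ (Gsp ℓ r D f p ev L (t + 1)).comap x := by
      unfold Gsp
      rw [Submodule.span_le]
      rintro _ ⟨k, Vs, hlen, hVs, rfl⟩
      refine Submodule.subset_span ⟨k + n, Vs ++ [V], by simp [hlen], ?_, ?_⟩
      · intro V' hV'
        rw [List.mem_append, List.mem_singleton] at hV'
        rcases hV' with hV' | rfl
        · exact hVs V' hV'
        · exact hV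
      · rw [h, List.prod_append, List.prod_singleton]
        rfl
    exact h3 hm
  | zero => rw [LinearMap.zero_apply]; exact Submodule.zero_mem _
  | add x y _ _ hx hy => rw [LinearMap.add_apply]; exact Submodule.add_mem _ hx hy

theorem Gsp_fst {K A : Type} [AddCommGroup K] [Module ℂ K] [AddCommGroup A]
    [Module ℂ A] {ρ : ℕ} (ℓ : ℕ) (r : Fin ρ → K) (D : Fin ρ → Module.End ℂ A) (f : Fin ρ → A)
    (p : A) (ev : A →ₗ[ℂ] ℂ) (L : LieSubalgebra ℂ (Module.End ℂ A)) (t k : ℕ) (htk : t ≤ k)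
    (hk : ∀ Vs : List (Module.End ℂ A), Vs.length ≤ k → (∀ V ∈ Vs, V ∈ L) →
      ∀ j, ev (Vs.prod (f j)) = 0)
    (m : Mod K ρ ℓ) (hm : m ∈ Gsp ℓ r D f p ev L t) : m.1 = 0 := by
  have h3 : Gsp ℓ r D f p ev L t ≤ LinearMap.ker (LinearMap.fst ℂ K (WordsLE ρ ℓ → ℂ)) := by
    unfold Gsp
    rw [Submodule.span_le]
    rintro _ ⟨n, Vs, hlen, hVs, rfl⟩
    show (if n = ℓ + 1 then ∑ j, (ev ∘ₗ Vs.prod) (f j) • r j else 0) = 0
    split_ifs
    · apply Finset.sum_eq_zero
      intro j _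
      rw [LinearMap.comp_apply, hk Vs (by omega) hVs j, zero_smul]
    · rfl
  exact h3 hm

theorem exists_mu {K A : Type} [AddCommGroup K] [Module ℂ K] [AddCommGroup A] [Module ℂ A]
    {ρ : ℕ} (k ℓ : ℕ) (r : Fin ρ → K) (D : Fin ρ → Module.End ℂ A) (f : Fin ρ → A) (p : A)
    (hrel : ∀ i j, D j (f i) = if i = j then p else 0) (ev : A →ₗ[ℂ] ℂ)
    (L : LieSubalgebra ℂ (Module.End ℂ A)) (hL : ∀ i, D i ∈ L)
    (hk : ∀ Vs : List (Module.End ℂ A), Vs.length ≤ k → (∀ V ∈ Vs, V ∈ L) →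
      ∀ j, ev (Vs.prod (f j)) = 0)
    (w : List (Fin ρ)) (hw : w.length = ℓ) (hne : ev ((w.map D).prod p) ≠ 0) :
    ∃ μ : Mod K ρ ℓ, μ ≠ 0 ∧ ∀ xs : List (Module.End ℂ (Mod K ρ ℓ)), xs.length ≤ k →
      (∀ x ∈ xs, x ∈ nLie ℓ r) → (xs.prod μ).1 = 0 := by
  refine ⟨exists_mu_Lam ℓ r D f p 0 ev, ?_, ?_⟩
  · intro h0
    have h := congrFun (congrArg Prod.snd h0) ⟨w, hw.le⟩
    apply hne
    have e : (exists_mu_Lam ℓ r D f p 0 ev).2 ⟨w, hw.le⟩ =
      if w.length + 0 = ℓ then ev ((w.map D).prod p) else 0 := rfl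
    rw [e, if_pos (by omega)] at h
    exact h
  · intro xs hxs hx
    refine Gsp_fst ℓ r D f p ev L xs.length k hxs hk _ ?_
    clear hxs
    induction xs with
    | nil => exact Submodule.subset_span ⟨0, [], rfl, by simp, rfl⟩
    | cons x xs ih =>
      rw [List.prod_cons, List.length_cons]
      exact Gsp_step ℓ r D f p ev L xs.length x
        (exists_mu_le ℓ r D f p hrel L hL x (hx x List.mem_cons_self)) _
        (ih (fun y hy => hx y (List.mem_cons_of_mem _ hy)))

theorem der_pow {A : Type} [CommRing A] [Algebra ℂ A] (m : Ideal A) (d : Derivation ℂ A A)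
    (k : ℕ) (a : A) (ha : a ∈ m ^ (k + 1)) : d a ∈ m ^ k := by
  induction k generalizing a with
  | zero =>
    rw [pow_zero, Ideal.one_eq_top]
    exact Submodule.mem_top
  | succ k ih =>
    have h1 : a ∈ m • m ^ (k + 1) := by
      rw [smul_eq_mul, ← pow_succ']
      exact ha
    refine Submodule.smul_induction_on (p := fun x => d x ∈ m ^ (k + 1)) h1 ?_ ?_
    · intro x hx y hy
      rw [smul_eq_mul, Derivation.leibniz, smul_eq_mul, smul_eq_mul]
      refine Ideal.add_mem _ ?_ ?_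
      · rw [pow_succ']
        exact Ideal.mul_mem_mul hx (ih y hy)
      · exact Ideal.mul_mem_right _ _ hy
    · intro x y hx hy
      rw [map_add]
      exact Ideal.add_mem _ hx hy

theorem der_list {A : Type} [CommRing A] [Algebra ℂ A] (m : Ideal A)
    (Vs : List (Module.End ℂ A)) (hVs : ∀ V ∈ Vs, ∃ d : Derivation ℂ A A, V = (d : A →ₗ[ℂ] A))
    (n : ℕ) (a : A) (ha : a ∈ m ^ (Vs.length + n)) : Vs.prod a ∈ m ^ n := by
  induction Vs generalizing n with
  | nil => simpa using ha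
  | cons V Vs ih =>
    obtain ⟨d, hd⟩ := hVs V List.mem_cons_self
    rw [List.prod_cons]
    have h1 : Vs.prod a ∈ m ^ (n + 1) := by
      apply ih (fun V' hV' => hVs V' (List.mem_cons_of_mem _ hV'))
      rw [List.length_cons] at ha
      rw [show Vs.length + (n + 1) = Vs.length + 1 + n by omega]
      exact ha
    rw [hd]
    exact der_pow m d n _ h1

theorem of_derivations {A : Type} [CommRing A] [Algebra ℂ A] {ρ : ℕ} (k : ℕ)
    (D : Fin ρ → Derivation ℂ A A) (f : Fin ρ → A) (ev : A →ₐ[ℂ] ℂ)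
    (hf : ∀ j, f j ∈ (RingHom.ker ev) ^ (k + 1)) :
    ∃ L : LieSubalgebra ℂ (Module.End ℂ A), (∀ i, (D i : A →ₗ[ℂ] A) ∈ L) ∧
      ∀ Vs : List (Module.End ℂ A), Vs.length ≤ k → (∀ V ∈ Vs, V ∈ L) →
        ∀ j, ev (Vs.prod (f j)) = 0 := by
  let L : LieSubalgebra ℂ (Module.End ℂ A) :=
    { carrier := {T | ∃ d : Derivation ℂ A A, T = (d : A →ₗ[ℂ] A)}
      add_mem' := by
        rintro _ _ ⟨d, rfl⟩ ⟨d', rfl⟩
        exact ⟨d + d', rfl⟩
      zero_mem' := ⟨0, rfl⟩
      smul_mem' := by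
        rintro c _ ⟨d, rfl⟩
        exact ⟨c • d, rfl⟩
      lie_mem' := by
        rintro _ _ ⟨d, rfl⟩ ⟨d', rfl⟩
        exact ⟨⁅d, d'⁆, Derivation.commutator_coe_linear_map.symm⟩ }
  refine ⟨L, fun i => ⟨D i, rfl⟩, ?_⟩
  intro Vs hlen hVs j
  obtain ⟨n, hn⟩ : ∃ n, k + 1 = Vs.length + (n + 1) := ⟨k - Vs.length, by omega⟩
  have h1 := der_list (RingHom.ker ev) Vs hVs (n + 1) (f j) (by rw [← hn]; exact hf j)
  have h3 : Vs.prod (f j) ∈ RingHom.ker ev := Ideal.pow_le_self (Nat.succ_ne_zero n) h1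
  exact h3

/-- analytic functions -/
def Aω (E : Type) [NormedAddCommGroup E] [NormedSpace ℂ E] : Subalgebra ℂ (E → ℂ) where
  carrier := {g | ContDiff ℂ ω g}
  mul_mem' := by
    intro g h h1 h2
    have h1' : ContDiff ℂ ω g := h1
    have h2' : ContDiff ℂ ω h := h2
    exact h1'.mul h2'
  add_mem' := by
    intro g h h1 h2
    have h1' : ContDiff ℂ ω g := h1
    have h2' : ContDiff ℂ ω h := h2
    exact h1'.add h2'
  algebraMap_mem' c := by
    show ContDiff ℂ ω (fun _ : E => c)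
    exact contDiff_const

theorem Aω_diff {E : Type} [NormedAddCommGroup E] [NormedSpace ℂ E] (g : Aω E) (y : E) :
    DifferentiableAt ℂ g.1 y := by
  have h : ContDiff ℂ ω g.1 := g.2
  exact h.differentiable (by simp) y

/-- derivative along a vector field, as a linear map -/
noncomputable def DL {E : Type} [NormedAddCommGroup E] [NormedSpace ℂ E] (V : E → E)
    (hV : ContDiff ℂ ω V) : Aω E →ₗ[ℂ] Aω E where
  toFun g := ⟨fun y => fderiv ℂ g.1 y (V y),
    (ContDiff.fderiv_right (m := ω) (show ContDiff ℂ ω g.1 from g.2) le_top).clm_apply hV⟩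
  map_add' g h := by
    apply Subtype.ext
    funext y
    have h1 : fderiv ℂ (g.1 + h.1) y = fderiv ℂ g.1 y + fderiv ℂ h.1 y :=
      fderiv_add (Aω_diff g y) (Aω_diff h y)
    show fderiv ℂ (g.1 + h.1) y (V y) = fderiv ℂ g.1 y (V y) + fderiv ℂ h.1 y (V y)
    rw [h1]; rfl
  map_smul' c g := by
    apply Subtype.ext
    funext y
    have h1 : fderiv ℂ (c • g.1) y = c • fderiv ℂ g.1 y := fderiv_const_smul (Aω_diff g y) c
    show fderiv ℂ (c • g.1) y (V y) = c • fderiv ℂ g.1 y (V y)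
    rw [h1]; rfl

/-- derivative along a vector field -/
noncomputable def DV {E : Type} [NormedAddCommGroup E] [NormedSpace ℂ E] (V : E → E)
    (hV : ContDiff ℂ ω V) : Derivation ℂ (Aω E) (Aω E) :=
  Derivation.mk' (DL V hV) (by
    intro g h
    apply Subtype.ext
    funext y
    have h1 : fderiv ℂ (g.1 * h.1) y = g.1 y • fderiv ℂ h.1 y + h.1 y • fderiv ℂ g.1 y :=
      fderiv_mul (Aω_diff g y) (Aω_diff h y)
    show fderiv ℂ (g.1 * h.1) y (V y) =
      g.1 y * fderiv ℂ h.1 y (V y) + h.1 y * fderiv ℂ g.1 y (V y)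
    rw [h1]; rfl)

theorem DV_apply {E : Type} [NormedAddCommGroup E] [NormedSpace ℂ E] (V : E → E)
    (hV : ContDiff ℂ ω V) (g : Aω E) (y : E) : (DV V hV g).1 y = fderiv ℂ g.1 y (V y) := rfl

/-- evaluation at `0` -/
noncomputable def ev0 (E : Type) [NormedAddCommGroup E] [NormedSpace ℂ E] : Aω E →ₐ[ℂ] ℂ :=
  (Pi.evalAlgHom ℂ (fun _ : E => ℂ) 0).comp (Aω E).val

theorem ev0_apply {E : Type} [NormedAddCommGroup E] [NormedSpace ℂ E] (g : Aω E) :
    ev0 E g = g.1 0 := rfl

theorem fderiv_lieBracket {E : Type} [NormedAddCommGroup E] [NormedSpace ℂ E] (V V' : E → E)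
    (hV : ContDiff ℂ ω V) (hV' : ContDiff ℂ ω V') (g : E → ℂ) (hg : ContDiff ℂ ω g) (y : E) :
    fderiv ℂ g y (VectorField.lieBracket ℂ V V' y) =
      fderiv ℂ (fun z => fderiv ℂ g z (V' z)) y (V y) -
      fderiv ℂ (fun z => fderiv ℂ g z (V z)) y (V' y) := by
  have hdg : DifferentiableAt ℂ (fderiv ℂ g) y :=
    (ContDiff.fderiv_right (m := ω) hg le_top).differentiable (by simp) y
  have hdV : DifferentiableAt ℂ V y := hV.differentiable (by simp) y
  have hdV' : DifferentiableAt ℂ V' y := hV'.differentiable (by simp) y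
  have e1 : fderiv ℂ (fun z => fderiv ℂ g z (V' z)) y (V y) =
      fderiv ℂ g y (fderiv ℂ V' y (V y)) + fderiv ℂ (fderiv ℂ g) y (V y) (V' y) := by
    rw [fderiv_clm_apply hdg hdV']; rfl
  have e2 : fderiv ℂ (fun z => fderiv ℂ g z (V z)) y (V' y) =
      fderiv ℂ g y (fderiv ℂ V y (V' y)) + fderiv ℂ (fderiv ℂ g) y (V' y) (V y) := by
    rw [fderiv_clm_apply hdg hdV]; rfl
  have hs : IsSymmSndFDerivAt ℂ g y := (hg.contDiffAt).isSymmSndFDerivAt_of_omega
  have hs' := hs (V y) (V' y)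
  rw [e1, e2, hs', VectorField.lieBracket, map_sub]
  ring

theorem exists_word_aux0 {M : Type*} [Ring M] [Algebra ℂ M] (A : Subalgebra ℂ M) (a b c : M)
    (ha : a ∈ A) (hb : b ∈ A) (h : c = a * b - b * a) : c ∈ A := by
  rw [h]
  exact Subalgebra.sub_mem _ (mul_mem ha hb) (mul_mem hb ha)

theorem exists_word_aux1 {E : Type} [NormedAddCommGroup E] [NormedSpace ℂ E] {ρ : ℕ}
    (X : Fin ρ → E → E) (hX : ∀ i, ContDiff ℂ ω (X i)) (V : E → E) (hV : Generated X V) :
    ∃ h : ContDiff ℂ ω V, (DL V h : Module.End ℂ (Aω E)) ∈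
      Algebra.adjoin ℂ (Set.range (fun i => (DL (X i) (hX i) : Module.End ℂ (Aω E)))) := by
  induction hV with
  | base i => exact ⟨hX i, Algebra.subset_adjoin ⟨i, rfl⟩⟩
  | bracket F G hF hG ihF ihG =>
    obtain ⟨h1, h1'⟩ := ihF
    obtain ⟨h2, h2'⟩ := ihG
    refine ⟨h1.lieBracket_vectorField (m := ω) h2 le_top, ?_⟩
    have e : (DL (VectorField.lieBracket ℂ F G) (h1.lieBracket_vectorField (m := ω) h2 le_top) :
        Module.End ℂ (Aω E)) = (DL F h1 : Module.End ℂ (Aω E)) * (DL G h2 : Module.End ℂ (Aω E)) -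
        (DL G h2 : Module.End ℂ (Aω E)) * (DL F h1 : Module.End ℂ (Aω E)) := by
      apply LinearMap.ext
      intro g
      apply Subtype.ext
      funext y
      exact fderiv_lieBracket F G h1 h2 g.1 g.2 y
    exact exists_word_aux0 (M := Module.End ℂ (Aω E)) _ _ _ _ h1' h2' e

theorem exists_word_aux2 {E : Type} [NormedAddCommGroup E] [NormedSpace ℂ E] {ρ : ℕ}
    (X : Fin ρ → E → E) (hX : ∀ i, ContDiff ℂ ω (X i)) (g : E → ℂ) (hg : ContDiff ℂ ω g)
    (l : List (E → E)) (hl : ∀ V ∈ l, Generated X V) :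
    ∃ T : Module.End ℂ (Aω E), T ∈
      Algebra.adjoin ℂ (Set.range (fun i => (DL (X i) (hX i) : Module.End ℂ (Aω E)))) ∧
      iterD l g = (T ⟨g, hg⟩).1 := by
  induction l with
  | nil => exact ⟨1, one_mem _, rfl⟩
  | cons V l ih =>
    obtain ⟨T, hT, hT'⟩ := ih (fun W hW => hl W (List.mem_cons_of_mem _ hW))
    obtain ⟨h1, h2⟩ := exists_word_aux1 X hX V (hl V List.mem_cons_self)
    refine ⟨(DL V h1 : Module.End ℂ (Aω E)) * T, mul_mem h2 hT, ?_⟩
    funext y
    show fderiv ℂ (iterD l g) y (V y) = fderiv ℂ (T ⟨g, hg⟩).1 y (V y)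
    rw [hT']

theorem exists_word_aux3 {ι M : Type*} [Monoid M] (f : ι → M) (x : M)
    (hx : x ∈ Submonoid.closure (Set.range f)) : ∃ w : List ι, x = (w.map f).prod := by
  induction hx using Submonoid.closure_induction with
  | mem x h =>
    obtain ⟨i, rfl⟩ := h
    exact ⟨[i], by simp⟩
  | one => exact ⟨[], by simp⟩
  | mul x y _ _ hx hy =>
    obtain ⟨w1, h1⟩ := hx
    obtain ⟨w2, h2⟩ := hy
    exact ⟨w1 ++ w2, by simp [h1, h2]⟩

theorem exists_word {E : Type} [NormedAddCommGroup E] [NormedSpace ℂ E] {ρ : ℕ}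
    (X : Fin ρ → E → E) (hX : ∀ i, ContDiff ℂ ω (X i)) (g : E → ℂ) (hg : ContDiff ℂ ω g)
    (l : List (E → E)) (hl : ∀ V ∈ l, Generated X V) (hne : iterD l g 0 ≠ 0) :
    ∃ w : List (Fin ρ),
      ev0 E ((w.map (fun i => (DL (X i) (hX i) : Module.End ℂ (Aω E)))).prod ⟨g, hg⟩) ≠ 0 := by
  by_contra hcon
  push Not at hcon
  apply hne
  obtain ⟨T, hT, hT'⟩ := exists_word_aux2 X hX g hg l hl
  rw [hT']
  have h1 : T ∈ Submodule.span ℂ ((Submonoid.closure
      (Set.range (fun i => (DL (X i) (hX i) : Module.End ℂ (Aω E)))) : Submonoid _) :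
      Set (Module.End ℂ (Aω E))) := by
    rw [← Algebra.adjoin_eq_span]
    exact hT
  have key : ∀ S ∈ Submodule.span ℂ ((Submonoid.closure
      (Set.range (fun i => (DL (X i) (hX i) : Module.End ℂ (Aω E)))) : Submonoid _) :
      Set (Module.End ℂ (Aω E))), ev0 E (S ⟨g, hg⟩) = 0 := by
    intro S hS
    induction hS using Submodule.span_induction with
    | mem x hx =>
      obtain ⟨w, hw⟩ := exists_word_aux3 _ x hx
      rw [hw]
      exact hcon w
    | zero => rw [LinearMap.zero_apply, map_zero]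
    | add x y _ _ hx hy => rw [LinearMap.add_apply, map_add, hx, hy, add_zero]
    | smul a x _ hx => rw [LinearMap.smul_apply, map_smul, hx, smul_zero]
  exact key T h1

section formsec

open MvPolynomial

theorem x_cd_753 {E : Type} [NormedAddCommGroup E] [NormedSpace ℂ E] {N : ℕ} (s : Fin N) :
    ContDiff ℂ ω (fun z : newE E N => z.2.1 s) := by
  have h1 : ContDiff ℂ ω (fun z : newE E N => z.2.1) := contDiff_fst.comp contDiff_snd
  exact (contDiff_pi.1 h1) s

theorem ev_753 {E : Type} [NormedAddCommGroup E] [NormedSpace ℂ E] {N : ℕ}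
    (Q : MvPolynomial (Fin N) ℂ) (z : newE E N) :
    (aeval (fun s : Fin N => (⟨fun z : newE E N => z.2.1 s, x_cd_753 s⟩ : Aω (newE E N))) Q :
      Aω (newE E N)).1 z = eval z.2.1 Q := by
  have h1 := comp_aeval_apply (fun s : Fin N => (⟨fun z : newE E N => z.2.1 s, x_cd_753 s⟩ :
    Aω (newE E N))) ((Pi.evalAlgHom ℂ (fun _ : newE E N => ℂ) z).comp (Aω (newE E N)).val) Q
  refine h1.trans ?_
  rw [← coe_aeval_eq_eval]
  rfl

theorem hom_mem {A : Type} [CommRing A] [Algebra ℂ A] {N n : ℕ} (m : Ideal A) (x : Fin N → A)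
    (hx : ∀ s, x s ∈ m) (Q : MvPolynomial (Fin N) ℂ) (hQ : Q.IsHomogeneous n) :
    aeval x Q ∈ m ^ n := by
  rw [aeval_def, eval₂_eq']
  refine Ideal.sum_mem _ fun d hd => Ideal.mul_mem_left _ _ ?_
  have h1 : ∑ i, d i = n := by
    have := hQ (mem_support_iff.1 hd)
    rw [← this]
    simp [Finsupp.weight_apply, Finsupp.sum_fintype]
  rw [← h1, ← Finset.prod_pow_eq_pow_sum]
  exact Ideal.prod_mem_prod fun i _ => Ideal.pow_mem_pow (hx i) _

theorem newf_mem {E : Type} [NormedAddCommGroup E] [NormedSpace ℂ E] {ρ N r : ℕ} (k : ℕ) (hr : k ≤ r)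
    (f : Fin N → Fin ρ → E → ℂ) (hf : ∀ s i, ContDiff ℂ ω (f s i)) (f0 : ∀ s i, f s i 0 = 0)
    (P : Fin 1 → MvPolynomial (Fin N) ℂ) (hP : (P 0).IsHomogeneous r) (i : Fin (ρ + 1))
    (h : ContDiff ℂ ω (newf f P 0 i)) :
    (⟨newf f P 0 i, h⟩ : Aω (newE E N)) ∈ (RingHom.ker (ev0 (newE E N))) ^ k := by
  have hx : ∀ s : Fin N, (⟨fun z : newE E N => z.2.1 s, x_cd_753 s⟩ : Aω (newE E N)) ∈
      RingHom.ker (ev0 (newE E N)) := by
    intro s
    rw [RingHom.mem_ker]
    rfl
  revert h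
  refine Fin.cases ?_ (fun j => ?_) i
  · intro h
    have h1 : (⟨newf f P 0 0, h⟩ : Aω (newE E N)) =
        aeval (fun s : Fin N => (⟨fun z : newE E N => z.2.1 s, x_cd_753 s⟩ : Aω (newE E N)))
          (P 0) := by
      apply Subtype.ext
      funext z
      rw [ev_753]
      rfl
    rw [h1]
    exact Ideal.pow_le_pow_right hr (hom_mem _ _ hx (P 0) hP)
  · intro h
    have hF : ∀ s : Fin N, ContDiff ℂ ω (fun z : newE E N => f s j z.1) := fun s =>
      (hf s j).comp contDiff_fst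
    have h1 : (⟨newf f P 0 j.succ, h⟩ : Aω (newE E N)) =
        ∑ s : Fin N, (⟨fun z : newE E N => f s j z.1, hF s⟩ : Aω (newE E N)) *
          aeval (fun s : Fin N => (⟨fun z : newE E N => z.2.1 s, x_cd_753 s⟩ : Aω (newE E N)))
          (pderiv s (P 0)) := by
      apply Subtype.ext
      funext z
      have h2 : ((∑ s : Fin N, (⟨fun z : newE E N => f s j z.1, hF s⟩ : Aω (newE E N)) *
          aeval (fun s : Fin N => (⟨fun z : newE E N => z.2.1 s, x_cd_753 s⟩ : Aω (newE E N)))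
          (pderiv s (P 0)) : Aω (newE E N))).1 z = ∑ s : Fin N, f s j z.1 *
            (aeval (fun s : Fin N => (⟨fun z : newE E N => z.2.1 s, x_cd_753 s⟩ : Aω (newE E N)))
          (pderiv s (P 0)) : Aω (newE E N)).1 z := by
        have := map_sum ((Pi.evalAlgHom ℂ (fun _ : newE E N => ℂ) z).comp (Aω (newE E N)).val)
          (fun s : Fin N => (⟨fun z : newE E N => f s j z.1, hF s⟩ : Aω (newE E N)) *
          aeval (fun s : Fin N => (⟨fun z : newE E N => z.2.1 s, x_cd_753 s⟩ : Aω (newE E N)))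
          (pderiv s (P 0))) Finset.univ
        exact this
      rw [h2]
      simp_rw [ev_753]
      rfl
    rw [h1]
    refine Ideal.sum_mem _ fun s _ => ?_
    have h3 : (⟨fun z : newE E N => f s j z.1, hF s⟩ : Aω (newE E N)) ∈
        RingHom.ker (ev0 (newE E N)) := by
      rw [RingHom.mem_ker]
      exact f0 s j
    have h4 := hom_mem _ _ hx (pderiv s (P 0)) (hP.pderiv (i := s))
    have h5 := Ideal.mul_mem_mul h3 h4
    rw [← pow_succ'] at h5
    exact Ideal.pow_le_pow_right (by omega) h5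

end formsec

theorem exists_derivations_one (k : ℕ) : ∃ (A : Type) (_ : CommRing A) (_ : Algebra ℂ A)
    (D : Fin 1 → Derivation ℂ A A) (f : Fin 1 → A) (p : A) (ev : A →ₐ[ℂ] ℂ)
    (w : List (Fin 1)), (∀ i j, D j (f i) = if i = j then p else 0) ∧
      (∀ j, f j ∈ (RingHom.ker ev) ^ (k + 1)) ∧
      ev ((w.map (fun i => ((D i : A →ₗ[ℂ] A) : Module.End ℂ A))).prod p) ≠ 0 := by
  refine ⟨Polynomial ℂ, inferInstance, inferInstance, fun _ => Polynomial.derivative',
    fun _ => Polynomial.X ^ (k + 1), Polynomial.derivative (Polynomial.X ^ (k + 1)),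
    Polynomial.aeval (0 : ℂ), List.replicate k 0, ?_, ?_, ?_⟩
  · intro i j
    rw [if_pos (Subsingleton.elim i j)]
    rfl
  · intro _
    have hX : (Polynomial.X : Polynomial ℂ) ∈ RingHom.ker (Polynomial.aeval (0 : ℂ) :
        Polynomial ℂ →ₐ[ℂ] ℂ) := by
      rw [RingHom.mem_ker]; simp
    exact Ideal.pow_mem_pow hX (k + 1)
  · rw [List.map_replicate, List.prod_replicate]
    have h1 : ∀ (n : ℕ) (P : Polynomial ℂ), (((Polynomial.derivative' :
        Derivation ℂ (Polynomial ℂ) (Polynomial ℂ)) : Polynomial ℂ →ₗ[ℂ] Polynomial ℂ) ^ n :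
          Module.End ℂ (Polynomial ℂ)) P = (Polynomial.derivative)^[n] P := by
      intro n P
      rw [Module.End.pow_apply]
      rfl
    intro h0
    have h2 : (Polynomial.aeval (0 : ℂ)) ((Polynomial.derivative)^[k]
        (Polynomial.derivative (Polynomial.X ^ (k + 1) : Polynomial ℂ))) = 0 := by
      rw [← h1]; exact h0
    rw [← Function.iterate_succ_apply, Polynomial.iterate_derivative_X_pow_eq_natCast_mul] at h2
    simp [Nat.factorial_ne_zero] at h2

section final

open MvPolynomial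

theorem exists_derivations (k : ℕ) (hk : 1 ≤ k) (ρ : ℕ) (hρ : 1 ≤ ρ) : ∃ (A : Type) (_ : CommRing A) (_ : Algebra ℂ A)
    (D : Fin ρ → Derivation ℂ A A) (f : Fin ρ → A) (p : A) (ev : A →ₐ[ℂ] ℂ)
    (w : List (Fin ρ)), (∀ i j, D j (f i) = if i = j then p else 0) ∧
      (∀ j, f j ∈ (RingHom.ker ev) ^ (k + 1)) ∧
      ev ((w.map (fun i => ((D i : A →ₗ[ℂ] A) : Module.End ℂ A))).prod p) ≠ 0 := by
  obtain ⟨σ, rfl⟩ : ∃ σ, ρ = σ + 1 := ⟨ρ - 1, by omega⟩
  rcases Nat.eq_zero_or_pos σ with rfl | hσ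
  · exact exists_derivations_one k
  obtain ⟨m, hm⟩ := num_final σ (k + 1) (by omega)
  obtain ⟨E, _, _, _, N, q, X, f, p, g, hS, hg, hN, hq⟩ := good_all σ hσ m
  obtain ⟨N', P', hli', hP', hc', hdim⟩ :=
    exists_forms (by omega : 2 ≤ k + 1) f g hg (finDim_homog N)
  simp only [finrank_homog] at hdim
  have hlt := hm N q hN hq
  have hN' : 0 < N' := by omega
  let P : Fin 1 → MvPolynomial (Fin N) ℂ := fun _ => P' ⟨0, hN'⟩
  have hne : P' ⟨0, hN'⟩ ≠ 0 := hli'.ne_zero _
  have hli : LinearIndependent ℂ P := by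
    rw [linearIndependent_unique_iff]
    exact hne
  have hP : ∀ a, (P a).IsHomogeneous (k + 1) := fun a => hP' _
  have hc : ∀ a i j y, ∑ s, ∑ t, C (f s i y * f t j y) * pderiv s (pderiv t (P a)) = 0 :=
    fun a i j y => hc' _ i j y
  have hS' := new_sys (by omega : 2 ≤ k + 1) X f p hS P hli hP hc
  obtain ⟨l, hl, hlne⟩ : ∃ l : List (newE E N → newE E N),
      (∀ V ∈ l, Generated (newX X p) V) ∧ iterD l (newp p P 0) 0 ≠ 0 := by
    by_contra hcon
    push Not at hcon
    have := hS'.nd 0 (fun _ => 1) (fun l h1 h2 => by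
      rw [Fin.sum_univ_one, one_mul]
      exact hcon l h2)
    exact one_ne_zero (congrFun this 0)
  obtain ⟨w, hw⟩ := exists_word (newX X p) hS'.hX (newp p P 0) (hS'.hp 0) l hl hlne
  refine ⟨Aω (newE E N), inferInstance, inferInstance, fun i => DV (newX X p i) (hS'.hX i),
    fun i => ⟨newf f P 0 i, hS'.hf 0 i⟩, ⟨newp p P 0, hS'.hp 0⟩, ev0 _, w, ?_, ?_, hw⟩
  · intro i j
    apply Subtype.ext
    funext y
    show fderiv ℂ (newf f P 0 i) y (newX X p j y) = _
    rw [hS'.rel 0 i j y]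
    split_ifs <;> rfl
  · intro i
    exact newf_mem (k + 1) (le_refl (k + 1)) f hS.hf hS.f0 P (hP 0) i (hS'.hf 0 i)

end final

theorem model_of_squareZero (W : Type) [NormedAddCommGroup W] [NormedSpace ℂ W]
    [FiniteDimensional ℂ W] (Z : Set W) (k : ℕ) (hk : 2 ≤ k) (h : HasSquareZero W Z) :
    HomogeneousModel k W Z := by
  obtain ⟨A, hA0, hA, hZ⟩ := h
  obtain ⟨d⟩ := exists_data A hA
  have hρ : 1 ≤ Module.finrank ℂ (LinearMap.range A) := by
    rw [Nat.one_le_iff_ne_zero]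
    intro h0
    apply hA0
    rw [Submodule.finrank_eq_zero] at h0
    exact LinearMap.range_eq_bot.mp h0
  obtain ⟨B, _, _, D, f, p, ev, w, hrel, hf, hw⟩ := exists_derivations k (by omega) _ hρ
  obtain ⟨L, hL, h1⟩ := of_derivations k D f ev hf
  obtain ⟨μ, hμ, hx⟩ := exists_mu k w.length d.r (fun i => (D i : B →ₗ[ℂ] B)) f p hrel
    ev.toLinearMap L hL h1 w rfl hw
  exact model_of_data Z k A hρ d hA hZ μ hμ hx

theorem line_of_squareZero (W : Type) [NormedAddCommGroup W] [NormedSpace ℂ W] (Z : Set W)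
    (hs : Submodule.span ℂ Z = ⊤) (h : HasSquareZero W Z) : ContainsLine W Z := by
  obtain ⟨A, hA0, hA, hZ⟩ := h
  by_contra hl
  apply hA0
  have h1 : ∀ z ∈ Z, A z = 0 := by
    intro z hz
    by_contra hne
    apply hl
    refine ⟨z, A z, hne, fun s => ⟨hZ s z hz, fun h2 => ?_⟩⟩
    have h3 := congrArg A h2
    rw [map_add, map_smul, hA, smul_zero, add_zero, map_zero] at h3
    exact hne h3
  have h2 : Submodule.span ℂ Z ≤ LinearMap.ker A := by
    rw [Submodule.span_le]
    exact h1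
  rw [hs] at h2
  ext w
  exact h2 (Submodule.mem_top)

/-- the conic has no nonzero square-zero linear symmetry -/
theorem conic_none (A : (Fin 3 → ℂ) →ₗ[ℂ] (Fin 3 → ℂ)) (hA : ∀ w, A (A w) = 0)
    (h : ∀ (s : ℂ) (w : Fin 3 → ℂ), w 0 * w 2 = w 1 ^ 2 →
      (w + s • A w) 0 * (w + s • A w) 2 = (w + s • A w) 1 ^ 2) : A = 0 := by
  have key : ∀ (w : Fin 3 → ℂ) (i : Fin 3), A w i =
      w 0 * A ![1, 0, 0] i + w 1 * A ![0, 1, 0] i + w 2 * A ![0, 0, 1] i := by
    intro w i
    have hw : w = w 0 • ![1, 0, 0] + w 1 • ![0, 1, 0] + w 2 • ![0, 0, 1] := by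
      funext j
      fin_cases j <;> simp
    conv_lhs => rw [hw]
    simp only [map_add, map_smul, Pi.add_apply, Pi.smul_apply, smul_eq_mul]
  have rel : ∀ t : ℂ, A ![1, t, t ^ 2] 2 + A ![1, t, t ^ 2] 0 * t ^ 2 = 2 * t * A ![1, t, t ^ 2] 1 := by
    intro t
    have h1 := h 1 ![1, t, t ^ 2] (by simp)
    have h2 := h (-1) ![1, t, t ^ 2] (by simp)
    simp only [Pi.add_apply, Pi.smul_apply, smul_eq_mul] at h1 h2
    have e0 : (![1, t, t ^ 2] : Fin 3 → ℂ) 0 = 1 := rfl
    have e1 : (![1, t, t ^ 2] : Fin 3 → ℂ) 1 = t := rfl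
    have e2 : (![1, t, t ^ 2] : Fin 3 → ℂ) 2 = t ^ 2 := rfl
    rw [e0, e1, e2] at h1 h2
    linear_combination (h1 - h2) / 2
  have rel2 : ∀ t : ℂ, (A ![1, 0, 0] 2 + t * A ![0, 1, 0] 2 + t ^ 2 * A ![0, 0, 1] 2)
      + (A ![1, 0, 0] 0 + t * A ![0, 1, 0] 0 + t ^ 2 * A ![0, 0, 1] 0) * t ^ 2
      = 2 * t * (A ![1, 0, 0] 1 + t * A ![0, 1, 0] 1 + t ^ 2 * A ![0, 0, 1] 1) := by
    intro t
    have h1 := rel t
    have e0 : (![1, t, t ^ 2] : Fin 3 → ℂ) 0 = 1 := rfl
    have e1 : (![1, t, t ^ 2] : Fin 3 → ℂ) 1 = t := rfl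
    have e2 : (![1, t, t ^ 2] : Fin 3 → ℂ) 2 = t ^ 2 := rfl
    rw [key ![1, t, t ^ 2] 0, key ![1, t, t ^ 2] 1, key ![1, t, t ^ 2] 2, e0, e1, e2] at h1
    linear_combination h1
  have r0 := rel2 0
  have r1 := rel2 1
  have r2 := rel2 (-1)
  have r3 := rel2 2
  have r4 := rel2 (-2)
  set a00 := A ![1, 0, 0] 0
  set a10 := A ![1, 0, 0] 1
  set a20 := A ![1, 0, 0] 2
  set a01 := A ![0, 1, 0] 0
  set a11 := A ![0, 1, 0] 1
  set a21 := A ![0, 1, 0] 2
  set a02 := A ![0, 0, 1] 0
  set a12 := A ![0, 0, 1] 1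
  set a22 := A ![0, 0, 1] 2
  have c0 : a20 = 0 := by linear_combination r0
  have c4 : a02 = 0 := by
    linear_combination (r3 + r4 - 4 * (r1 + r2) + 6 * r0) / 24
  have c2 : a22 + a00 = 2 * a11 := by
    linear_combination (r1 + r2) / 2 - c0 - c4
  have c3 : a01 = 2 * a12 := by
    linear_combination (r3 - r4 - 2 * (r1 - r2)) / 12
  have c1 : a21 = 2 * a10 := by
    linear_combination (r1 - r2) / 2 - c3
  have s02 := congrFun (hA ![0, 0, 1]) 0
  have s20 := congrFun (hA ![1, 0, 0]) 2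
  have s00 := congrFun (hA ![1, 0, 0]) 0
  have s11 := congrFun (hA ![0, 1, 0]) 1
  have s22 := congrFun (hA ![0, 0, 1]) 2
  rw [key (A ![0, 0, 1]) 0] at s02
  rw [key (A ![1, 0, 0]) 2] at s20
  rw [key (A ![1, 0, 0]) 0] at s00
  rw [key (A ![0, 1, 0]) 1] at s11
  rw [key (A ![0, 0, 1]) 2] at s22
  simp only [Pi.zero_apply] at s02 s20 s00 s11 s22
  change a02 * a00 + a12 * a01 + a22 * a02 = 0 at s02
  change a00 * a20 + a10 * a21 + a20 * a22 = 0 at s20
  change a00 * a00 + a10 * a01 + a20 * a02 = 0 at s00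
  change a01 * a10 + a11 * a11 + a21 * a12 = 0 at s11
  change a02 * a20 + a12 * a21 + a22 * a22 = 0 at s22
  have d12 : a12 = 0 := by
    have : a12 ^ 2 = 0 := by
      rw [c4, c3] at s02
      linear_combination s02 / 2
    exact pow_eq_zero_iff (two_ne_zero) |>.1 this
  have d10 : a10 = 0 := by
    have : a10 ^ 2 = 0 := by
      rw [c0, c1] at s20
      linear_combination s20 / 2
    exact pow_eq_zero_iff (two_ne_zero) |>.1 this
  have d01 : a01 = 0 := by rw [c3, d12, mul_zero]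
  have d21 : a21 = 0 := by rw [c1, d10, mul_zero]
  have d00 : a00 = 0 := by
    have : a00 ^ 2 = 0 := by
      rw [d10, c0] at s00
      linear_combination s00
    exact pow_eq_zero_iff (two_ne_zero) |>.1 this
  have d11 : a11 = 0 := by
    have : a11 ^ 2 = 0 := by
      rw [d01, d21] at s11
      linear_combination s11
    exact pow_eq_zero_iff (two_ne_zero) |>.1 this
  have d22 : a22 = 0 := by
    have : a22 ^ 2 = 0 := by
      rw [c0, d12] at s22
      linear_combination s22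
    exact pow_eq_zero_iff (two_ne_zero) |>.1 this
  refine LinearMap.ext fun w => funext fun i => ?_
  rw [key w i]
  fin_cases i
  · change w 0 * a00 + w 1 * a01 + w 2 * a02 = 0
    rw [d00, d01, c4]; ring
  · change w 0 * a10 + w 1 * a11 + w 2 * a12 = 0
    rw [d10, d11, d12]; ring
  · change w 0 * a20 + w 1 * a21 + w 2 * a22 = 0
    rw [c0, d21, d22]; ring


end Pool.Agent.Helper505.HC
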