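import Mathlib

set_option autoImplicit false

open Filter Topology Equiv Equiv.Perm

namespace Pool.Agent.Helper505.Sinf

theorem inv_app {X : Type} (f : Perm X) (x : X) : f⁻¹ (f x) = x := Equiv.symm_apply_apply f x
theorem app_inv {X : Type} (f : Perm X) (x : X) : f (f⁻¹ x) = x := Equiv.apply_symm_apply f x

/-- `p` is the identity outside `S`. -/
def Off {X : Type} (p : Perm X) (S : Set X) : Prop := ∀ x, x ∉ S → p x = x

theorem Off.mono {X : Type} {p : Perm X} {S T : Set X} (h : Off p S) (hST : S ⊆ T) : Off p T :=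
  fun x hx => h x (fun hs => hx (hST hs))

theorem Off.one {X : Type} (S : Set X) : Off (1 : Perm X) S := fun _ _ => rfl

theorem Off.mul {X : Type} {p q : Perm X} {S : Set X} (hp : Off p S) (hq : Off q S) :
    Off (p * q) S := fun x hx => by rw [Perm.mul_apply, hq x hx, hp x hx]

theorem Off.inv {X : Type} {p : Perm X} {S : Set X} (hp : Off p S) : Off p⁻¹ S :=
  fun x hx => by rw [Perm.inv_eq_iff_eq]; exact (hp x hx).symm

theorem Off.mem_iff {X : Type} {p : Perm X} {S : Set X} (hp : Off p S) (x : X) :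
    p x ∈ S ↔ x ∈ S := by
  constructor
  · intro h
    by_contra hx
    rw [hp x hx] at h
    exact hx h
  · intro h
    by_contra hx
    have := hp.inv (p x) hx
    rw [inv_app] at this
    rw [← this] at hx
    exact hx h

/-- Permutations living on disjoint sets commute. -/
theorem Off.commute {X : Type} {p q : Perm X} {S T : Set X} (hp : Off p S) (hq : Off q T)
    (h : ∀ x, x ∈ S → x ∈ T → False) : Commute p q := by
  apply Perm.Disjoint.commute
  intro x
  by_cases hx : x ∈ S
  · right
    exact hq x (fun h' => h x hx h')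
  · left
    exact hp x hx

theorem Off.conj {X : Type} {p : Perm X} {S : Set X} (hp : Off p S) (g : Perm X) :
    Off (g * p * g⁻¹) (g '' S) := by
  intro x hx
  have h : g⁻¹ x ∉ S := fun h => hx ⟨g⁻¹ x, h, app_inv g x⟩
  rw [Perm.mul_apply, Perm.mul_apply, hp _ h, app_inv]

/-- If `v` and `f` agree on a set containing the support of `w`, they conjugate `w` to the same
permutation. -/
theorem conj_eq_of_agree {X : Type} {v f w : Perm X} {S : Set X} (hw : Off w S)
    (h : ∀ x ∈ S, v x = f x) : v * w * v⁻¹ = f * w * f⁻¹ := by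
  have h1 : Off (f⁻¹ * v) Sᶜ := by
    intro x hx
    have hx' : x ∈ S := by simpa using hx
    rw [Perm.mul_apply, h x hx', inv_app]
  have h2 : Commute (f⁻¹ * v) w := h1.commute hw (fun x hx hx' => hx hx')
  have h3 : f⁻¹ * v * w = w * (f⁻¹ * v) := h2
  calc v * w * v⁻¹ = f * (f⁻¹ * v * w) * v⁻¹ := by group
    _ = f * (w * (f⁻¹ * v)) * v⁻¹ := by rw [h3]
    _ = f * w * f⁻¹ := by group

/-- Two partitions of a countable type into infinite sets are conjugate. -/
theorem exists_match {Y J : Type} [Countable Y] (a d : Y → J)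
    (ha : ∀ j, (a ⁻¹' {j}).Infinite) (hd : ∀ j, (d ⁻¹' {j}).Infinite) :
    ∃ h : Perm Y, ∀ x, d (h x) = a x := by
  have key : ∀ j, Nonempty ({x // a x = j} ≃ {x // d x = j}) := by
    intro j
    have h1 : Infinite {x // a x = j} := (ha j).to_subtype
    have h2 : Infinite {x // d x = j} := (hd j).to_subtype
    exact nonempty_equiv_of_countable
  let e : ∀ j, {x // a x = j} ≃ {x // d x = j} := fun j => (key j).some
  refine ⟨(Equiv.sigmaFiberEquiv a).symm.trans
    ((Equiv.sigmaCongrRight e).trans (Equiv.sigmaFiberEquiv d)), ?_⟩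
  intro x
  exact (e (a x) ⟨x, rfl⟩).2

/-- Matching inside a set. -/
theorem exists_match_in {X : Type} [Countable X] (Y S T : Set X)
    (hS : (Y ∩ S).Infinite) (hS' : (Y \ S).Infinite) (hT : (Y ∩ T).Infinite)
    (hT' : (Y \ T).Infinite) :
    ∃ u : Perm X, Off u Y ∧ ∀ x ∈ Y, u x ∈ T ↔ x ∈ S := by
  classical
  have aux : ∀ S : Set X, (Y ∩ S).Infinite → (Y \ S).Infinite →
      ∀ j : Prop, ((fun y : Y => (y : X) ∈ S) ⁻¹' {j}).Infinite := by
    intro S hS hS' j hfin
    have himg := hfin.image (Subtype.val)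
    by_cases hj : j
    · apply hS
      apply himg.subset
      rintro x ⟨hxY, hxS⟩
      exact ⟨⟨x, hxY⟩, by simp [hxS, hj], rfl⟩
    · apply hS'
      apply himg.subset
      rintro x ⟨hxY, hxS⟩
      exact ⟨⟨x, hxY⟩, by simp [hxS, hj], rfl⟩
  obtain ⟨h, hh⟩ := exists_match (fun y : Y => (y : X) ∈ S) (fun y : Y => (y : X) ∈ T)
    (aux S hS hS') (aux T hT hT')
  refine ⟨Perm.ofSubtype h, ?_, ?_⟩
  · intro x hx
    exact Perm.ofSubtype_apply_of_not_mem h hx
  · intro x hx
    have := hh ⟨x, hx⟩
    rw [Perm.ofSubtype_apply_of_mem h hx]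
    exact iff_of_eq this

/-- A permutation preserving the range of an injection comes from a permutation of the source. -/
theorem perm_restrict {X Z : Type} (j : Z → X) (hj : Function.Injective j) (f : Perm X)
    (hf : Off f (Set.range j)) : ∃ φ : Perm Z, ∀ y, f (j y) = j (φ y) := by
  classical
  let r : Perm (Set.range j) := f.subtypePerm (fun x => hf.mem_iff x)
  let e : Z ≃ Set.range j := Equiv.ofInjective j hj
  refine ⟨(e.trans r).trans e.symm, fun y => ?_⟩
  have h1 : j (((e.trans r).trans e.symm) y) = (e (((e.trans r).trans e.symm) y) : X) := rfl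
  rw [h1]
  simp only [Equiv.trans_apply, Equiv.apply_symm_apply]
  rfl

/-- Gluing permutations along a partition. -/
theorem exists_glue {X J : Type} (l : X → J) (h : J → Perm X)
    (h1 : ∀ x, l (h (l x) x) = l x) (h2 : ∀ x, l ((h (l x))⁻¹ x) = l x) :
    ∃ k : Perm X, ∀ x, k x = h (l x) x := by
  refine ⟨⟨fun x => h (l x) x, fun x => (h (l x))⁻¹ x, ?_, ?_⟩, fun x => rfl⟩
  · intro x
    simp only [h1, inv_app]
  · intro x
    simp only [h2, app_inv]

end Pool.Agent.Helper505.Sinf
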