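import Mathlib
import Pool.Agent.Helper505.SinfBasic

set_option autoImplicit false

open Filter Topology Equiv Equiv.Perm

namespace Pool.Agent.Helper505.Sinf

open Classical in
theorem swap_commute_of_disjoint {X : Type} {p q r s : X} (h1 : p ≠ r) (h2 : p ≠ s)
    (h3 : q ≠ r) (h4 : q ≠ s) : swap p q * swap r s = swap r s * swap p q := by
  apply Equiv.ext
  intro x
  simp only [Perm.mul_apply, swap_apply_def]
  split_ifs <;> simp_all

open Classical in
theorem swap_not_commute {X : Type} {a b d : X} (h1 : a ≠ b) (h2 : a ≠ d) (h3 : b ≠ d) :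
    swap a b * swap a d ≠ swap a d * swap a b := by
  intro h
  have := congrArg (fun f : Perm X => f a) h
  simp only [Perm.mul_apply, swap_apply_left] at this
  rw [swap_apply_of_ne_of_ne h2.symm h3.symm, swap_apply_of_ne_of_ne h1.symm h3] at this
  exact h3 this.symm

theorem pair_aux {X : Type} {p q a d₁ d₂ d₃ : X} (h12 : d₁ ≠ d₂) (h13 : d₁ ≠ d₃) (h23 : d₂ ≠ d₃)
    (c1 : p = a ∨ p = d₁ ∨ q = a ∨ q = d₁) (c2 : p = a ∨ p = d₂ ∨ q = a ∨ q = d₂)
    (c3 : p = a ∨ p = d₃ ∨ q = a ∨ q = d₃) : p = a ∨ q = a := by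
  by_contra hcon
  simp only [not_or] at hcon
  obtain ⟨hp, hq⟩ := hcon
  have e1 : p = d₁ ∨ q = d₁ := by tauto
  have e2 : p = d₂ ∨ q = d₂ := by tauto
  have e3 : p = d₃ ∨ q = d₃ := by tauto
  rcases e1 with e1 | e1 <;> rcases e2 with e2 | e2 <;> rcases e3 with e3 | e3
  · exact h12 (e1.symm.trans e2)
  · exact h12 (e1.symm.trans e2)
  · exact h13 (e1.symm.trans e3)
  · exact h23 (e2.symm.trans e3)
  · exact h23 (e2.symm.trans e3)
  · exact h13 (e1.symm.trans e3)
  · exact h12 (e1.symm.trans e2)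
  · exact h12 (e1.symm.trans e2)

/-- In a Hausdorff group topology on the symmetric group of an infinite set the stabiliser of a point
is a neighbourhood of the identity. -/
theorem stab_point {X : Type} [Infinite X] [TopologicalSpace (Perm X)] [IsTopologicalGroup (Perm X)]
    [T2Space (Perm X)] (a : X) : {g : Perm X | g a = a} ∈ 𝓝 (1 : Perm X) := by
  classical
  -- the key step: nearby elements fix the pair {a, b}
  have key : ∀ b : X, a ≠ b → {g : Perm X | g a = a ∨ g a = b} ∈ 𝓝 (1 : Perm X) := by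
    intro b hab
    obtain ⟨d₁, hd₁⟩ := Infinite.exists_notMem_finset ({a, b} : Finset X)
    obtain ⟨d₂, hd₂⟩ := Infinite.exists_notMem_finset ({a, b, d₁} : Finset X)
    obtain ⟨d₃, hd₃⟩ := Infinite.exists_notMem_finset ({a, b, d₁, d₂} : Finset X)
    simp only [Finset.mem_insert, Finset.mem_singleton, not_or] at hd₁ hd₂ hd₃
    have hopen : ∀ u : Perm X, swap a b * u ≠ u * swap a b →
        {g : Perm X | (g * swap a b * g⁻¹) * u ≠ u * (g * swap a b * g⁻¹)} ∈ 𝓝 (1 : Perm X) := by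
      intro u hu
      have hc : Continuous (fun g : Perm X => (g * swap a b * g⁻¹) * u) := by fun_prop
      have hc' : Continuous (fun g : Perm X => u * (g * swap a b * g⁻¹)) := by fun_prop
      have ho : IsOpen {g : Perm X | (g * swap a b * g⁻¹) * u ≠ u * (g * swap a b * g⁻¹)} :=
        isOpen_ne_fun hc hc'
      apply ho.mem_nhds
      simpa using hu
    have hA : ∀ d : X, a ≠ d → b ≠ d →
        {g : Perm X | (g * swap a b * g⁻¹) * swap a d ≠ swap a d * (g * swap a b * g⁻¹)} ∈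
          𝓝 (1 : Perm X) := fun d h1 h2 => hopen _ (swap_not_commute hab h1 h2)
    have hB : ∀ d : X, a ≠ d → b ≠ d →
        {g : Perm X | (g * swap a b * g⁻¹) * swap b d ≠ swap b d * (g * swap a b * g⁻¹)} ∈
          𝓝 (1 : Perm X) := by
      intro d h1 h2
      apply hopen
      rw [swap_comm a b]
      exact swap_not_commute hab.symm h2 h1
    have h1 := hA d₁ (Ne.symm hd₁.1) (Ne.symm hd₁.2)
    have h2 := hA d₂ (Ne.symm hd₂.1) (Ne.symm hd₂.2.1)
    have h3 := hA d₃ (Ne.symm hd₃.1) (Ne.symm hd₃.2.1)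
    have h4 := hB d₁ (Ne.symm hd₁.1) (Ne.symm hd₁.2)
    have h5 := hB d₂ (Ne.symm hd₂.1) (Ne.symm hd₂.2.1)
    have h6 := hB d₃ (Ne.symm hd₃.1) (Ne.symm hd₃.2.1)
    filter_upwards [h1, h2, h3, h4, h5, h6] with g g1 g2 g3 g4 g5 g6
    have hconj : g * swap a b * g⁻¹ = swap (g a) (g b) := by
      rw [Equiv.mul_swap_eq_swap_mul]
      group
    rw [hconj] at g1 g2 g3 g4 g5 g6
    have hpq : g a ≠ g b := fun h => hab (g.injective h)
    generalize g a = p at *
    generalize g b = q at *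
    have cm : ∀ r s : X, swap p q * swap r s ≠ swap r s * swap p q →
        p = r ∨ p = s ∨ q = r ∨ q = s := by
      intro r s h
      by_contra hcon
      simp only [not_or] at hcon
      exact h (swap_commute_of_disjoint hcon.1 hcon.2.1 hcon.2.2.1 hcon.2.2.2)
    have ha : p = a ∨ q = a :=
      pair_aux (Ne.symm hd₂.2.2) (Ne.symm hd₃.2.2.1) (Ne.symm hd₃.2.2.2) (cm _ _ g1) (cm _ _ g2) (cm _ _ g3)
    have hb : p = b ∨ q = b :=
      pair_aux (Ne.symm hd₂.2.2) (Ne.symm hd₃.2.2.1) (Ne.symm hd₃.2.2.2) (cm _ _ g4) (cm _ _ g5) (cm _ _ g6)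
    rcases ha with ha | ha
    · exact Or.inl ha
    · rcases hb with hb | hb
      · exact Or.inr hb
      · exact absurd (ha.symm.trans hb) hab
  obtain ⟨b, hb⟩ := Infinite.exists_notMem_finset ({a} : Finset X)
  obtain ⟨c, hc⟩ := Infinite.exists_notMem_finset ({a, b} : Finset X)
  simp only [Finset.mem_insert, Finset.mem_singleton, not_or] at hb hc
  filter_upwards [key b (Ne.symm hb), key c (Ne.symm hc.1)] with g h1 h2
  rcases h1 with h1 | h1
  · exact h1
  · rcases h2 with h2 | h2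
    · exact h2
    · exact absurd (h2.symm.trans h1) hc.2

theorem stab_finite {X : Type} [Infinite X] [TopologicalSpace (Perm X)]
    [IsTopologicalGroup (Perm X)] [T2Space (Perm X)] (F : Set X) (hF : F.Finite) :
    {g : Perm X | ∀ x ∈ F, g x = x} ∈ 𝓝 (1 : Perm X) := by
  have : {g : Perm X | ∀ x ∈ F, g x = x} = ⋂ x ∈ F, {g : Perm X | g x = x} := by
    ext g
    simp
  rw [this, Filter.biInter_mem hF]
  intro x _
  exact stab_point x

/-- A recursive choice of points avoiding finitely many points at each earlier stage. -/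
theorem exists_seq_avoid {X : Type} (S : ℕ → Set X) (hS : ∀ k, (S k).Infinite)
    (B : ℕ → ℕ → X → Set X) (hB : ∀ j k x, (B j k x).Finite) :
    ∃ e : ℕ → X, (∀ k, e k ∈ S k) ∧ ∀ j k, j < k → e k ∉ B j k (e j) := by
  have step : ∀ (k : ℕ) (f : (j : ℕ) → j < k → X), ∃ x ∈ S k, ∀ (j : ℕ) (hj : j < k),
      x ∉ B j k (f j hj) := by
    intro k f
    have hfin : (⋃ j : Fin k, B j k (f j j.2)).Finite := Set.finite_iUnion (fun j => hB _ _ _)
    obtain ⟨x, hx, hx'⟩ := ((hS k).sdiff hfin).nonempty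
    refine ⟨x, hx, fun j hj h => hx' ?_⟩
    exact Set.mem_iUnion.mpr ⟨⟨j, hj⟩, h⟩
  choose F hF1 hF2 using step
  let e : ℕ → X := fun n => Nat.strongRec (motive := fun _ => X) (fun k ih => F k ih) n
  have he : ∀ k, e k = F k (fun j _ => e j) := by
    intro k
    change Nat.strongRec (motive := fun _ => X) (fun k ih => F k ih) k = _
    rw [Nat.strongRec_eq]
  refine ⟨e, fun k => ?_, fun j k hjk => ?_⟩
  · rw [he]
    exact hF1 _ _
  · rw [he k]
    exact hF2 k (fun j _ => e j) j hjk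

end Pool.Agent.Helper505.Sinf
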