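import Mathlib
import Pool.Agent.Helper505.SinfBasic
import Pool.Agent.Helper505.SinfGaughan

set_option autoImplicit false

open Filter Topology Equiv Equiv.Perm

namespace Pool.Agent.Helper505.Sinf

/-- The commutator. -/
def cm {G : Type} [Group G] (g s : G) : G := g * s * g⁻¹ * s⁻¹

theorem cm_one_left {G : Type} [Group G] (s : G) : cm 1 s = 1 := by simp [cm]

/-- Index set of the blocks: the nodes of the binary tree. -/
abbrev Nd : Type := List Bool

/-- Index set inside a block. -/
abbrev Zt : Type := ℤ × ℕ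

/-- The points `e i` are in general position with respect to the permutations `g m`. -/
structure Good {X : Type} (g : Nd → Perm X) (e : Nd × Zt → X) : Prop where
  inj : Function.Injective e
  r1 : ∀ m i j, i ≠ j → g m (e i) ≠ e j
  r2 : ∀ i, g i.1 (e i) ≠ e i
  r3 : ∀ i j, i ≠ j → g i.1 (e i) ≠ g j.1 (e j)

theorem exists_good {X : Type} (g : Nd → Perm X) (hg : ∀ u, {x | g u x ≠ x}.Infinite)
    (hp : ∀ x, {m | g m x ≠ x}.Finite) : ∃ e : Nd × Zt → X, Good g e := by
  obtain ⟨eq⟩ : Nonempty (Nd × Zt ≃ ℕ) := nonempty_equiv_of_countable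
  have hfin1 : ∀ x, (Set.range (fun m => g m x)).Finite := by
    intro x
    apply ((Set.finite_singleton x).union ((hp x).image (fun m => g m x))).subset
    rintro _ ⟨m, rfl⟩
    by_cases h : g m x = x
    · left; exact h
    · right; exact ⟨m, h, rfl⟩
  have hfin2 : ∀ x, (Set.range (fun m => (g m)⁻¹ x)).Finite := by
    intro x
    apply ((Set.finite_singleton x).union ((hp x).image (fun m => (g m)⁻¹ x))).subset
    rintro _ ⟨m, rfl⟩
    by_cases h : g m x = x
    · left
      change (g m)⁻¹ x = x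
      rw [Perm.inv_eq_iff_eq]
      exact h.symm
    · right; exact ⟨m, h, rfl⟩
  obtain ⟨e', h1, h2⟩ := exists_seq_avoid (fun k => {x | g (eq.symm k).1 x ≠ x})
    (fun k => hg _)
    (fun j k x => {x} ∪ Set.range (fun m => g m x) ∪ Set.range (fun m => (g m)⁻¹ x) ∪
      {(g (eq.symm k).1)⁻¹ (g (eq.symm j).1 x)})
    (fun j k x => (((Set.finite_singleton _).union (hfin1 x)).union (hfin2 x)).union
      (Set.finite_singleton _))
  have hlt : ∀ j k, j < k → e' k ≠ e' j ∧ (∀ m, g m (e' j) ≠ e' k) ∧ (∀ m, g m (e' k) ≠ e' j) ∧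
      g (eq.symm k).1 (e' k) ≠ g (eq.symm j).1 (e' j) := by
    intro j k hjk
    have := h2 j k hjk
    simp only [Set.mem_union, Set.mem_singleton_iff, Set.mem_range, not_or, not_exists] at this
    obtain ⟨⟨⟨a1, a2⟩, a3⟩, a4⟩ := this
    refine ⟨a1, a2, fun m h => a3 m ?_, fun h => a4 ?_⟩
    · rw [Perm.inv_eq_iff_eq]; exact h.symm
    · rw [← h, inv_app]
  refine ⟨fun i => e' (eq i), ?_, ?_, ?_, ?_⟩
  · intro i j hij
    by_contra hne
    have hne' : eq i ≠ eq j := fun h => hne (eq.injective h)
    rcases lt_or_gt_of_ne hne' with h | h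
    · exact (hlt _ _ h).1 hij.symm
    · exact (hlt _ _ h).1 hij
  · intro m i j hne
    have hne' : eq i ≠ eq j := fun h => hne (eq.injective h)
    rcases lt_or_gt_of_ne hne' with h | h
    · exact (hlt _ _ h).2.1 m
    · exact (hlt _ _ h).2.2.1 m
  · intro i
    have := h1 (eq i)
    simpa using this
  · intro i j hne
    have hne' : eq i ≠ eq j := fun h => hne (eq.injective h)
    rcases lt_or_gt_of_ne hne' with h | h
    · have := (hlt _ _ h).2.2.2
      simp only [Equiv.symm_apply_apply] at this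
      exact this.symm
    · have := (hlt _ _ h).2.2.2
      simp only [Equiv.symm_apply_apply] at this
      exact this

/-- Blockwise permutations of `Nd × Zt`. -/
def blockHom : (Nd → Perm Zt) →* Perm (Nd × Zt) where
  toFun q := Equiv.prodCongrRight q
  map_one' := rfl
  map_mul' _ _ := rfl

/-- The permutation of `X` acting blockwise. -/
noncomputable def Phi {X : Type} (E : Nd × Zt ↪ X) : (Nd → Perm Zt) →* Perm X :=
  (Perm.viaEmbeddingHom E).comp blockHom

theorem Phi_apply {X : Type} (E : Nd × Zt ↪ X) (q : Nd → Perm Zt) (u : Nd) (y : Zt) :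
    Phi E q (E (u, y)) = E (u, q u y) := by
  unfold Phi
  rw [MonoidHom.comp_apply, Perm.viaEmbeddingHom_apply, Perm.viaEmbedding_apply]
  rfl

theorem Phi_off {X : Type} (E : Nd × Zt ↪ X) (q : Nd → Perm Zt) :
    Off (Phi E q) (E '' {i | q i.1 ≠ 1}) := by
  intro x hx
  by_cases h : x ∈ Set.range E
  · obtain ⟨⟨u, y⟩, rfl⟩ := h
    rw [Phi_apply]
    have : q u = 1 := by
      by_contra hne
      exact hx ⟨(u, y), hne, rfl⟩
    rw [this]
    rfl
  · unfold Phi
    rw [MonoidHom.comp_apply, Perm.viaEmbeddingHom_apply]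
    exact Perm.viaEmbedding_apply_of_notMem _ _ _ h

/-- The value of a commutator on the translated block. -/
theorem comm_apply {X : Type} (g : Nd → Perm X) (E : Nd × Zt ↪ X) (hE : Good g E)
    (q : Nd → Perm Zt) (u : Nd) (y : Zt) :
    cm (g u) (Phi E q) (g u (E (u, y))) = g u (E (u, q u y)) := by
  simp only [cm, Perm.mul_apply]
  have h : g u (E (u, y)) ∉ E '' {i | q i.1 ≠ 1} := by
    rintro ⟨j, _, hj⟩
    by_cases hij : (u, y) = j
    · subst hij
      exact hE.r2 (u, y) hj.symm
    · exact hE.r1 u (u, y) j hij hj.symm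
  have h2 := (Phi_off E q).inv _ h
  rw [h2, inv_app, Phi_apply]

section Topological

variable {X : Type} [TopologicalSpace (Perm X)] [IsTopologicalGroup (Perm X)]

/-- For almost all `u` every permutation of the block `u` is realised by a small commutator. -/
theorem eventually_full (g : Nd → Perm X) (hg : Tendsto g cofinite (𝓝 1)) (E : Nd × Zt ↪ X)
    (V : Set (Perm X)) (hV : V ∈ 𝓝 (1 : Perm X)) :
    ∀ᶠ u in cofinite, ∀ f : Perm Zt, ∃ q : Nd → Perm Zt, q u = f ∧ cm (g u) (Phi E q) ∈ V := by
  classical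
  by_contra hcon
  rw [Filter.not_eventually] at hcon
  let bad : Nd → Perm Zt → Prop := fun u f => ∀ q : Nd → Perm Zt, q u = f → cm (g u) (Phi E q) ∉ V
  have hcon' : ∃ᶠ u in cofinite, ∃ f, bad u f := by
    apply hcon.mono
    intro u hu
    simp only [not_forall, not_exists, not_and] at hu
    exact hu
  let q : Nd → Perm Zt := fun u => if h : ∃ f, bad u f then h.choose else 1
  have hlim : Tendsto (fun u => cm (g u) (Phi E q)) cofinite (𝓝 1) := by
    have hc : Continuous (fun x : Perm X => cm x (Phi E q)) := by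
      simp only [cm]
      fun_prop
    have := (hc.tendsto 1).comp hg
    rw [cm_one_left] at this
    exact this
  have hev := hlim hV
  obtain ⟨u, hu1, hu2⟩ := (hcon'.and_eventually hev).exists
  have hq : q u = hu1.choose := by
    change (if h : ∃ f, bad u f then h.choose else 1) = _
    rw [dif_pos hu1]
  exact hu1.choose_spec q hq hu2

/-- Fullness on almost all members of any partition into infinite sets. -/
theorem eventually_full_partition [Countable X] (g : Nd → Perm X) (hg : Tendsto g cofinite (𝓝 1))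
    (E : Nd × Zt ↪ X) (hE : Good g E) (d : X → Nd) (hd : ∀ u, (d ⁻¹' {u}).Infinite)
    (V : Set (Perm X)) (hV : V ∈ 𝓝 (1 : Perm X)) :
    ∀ᶠ u in cofinite, ∀ f : Perm X, Off f (d ⁻¹' {u}) → ∃ v ∈ V, ∀ x, d x = u → v x = f x := by
  classical
  -- the partition given by the translated blocks
  let b : X → Nd := fun x => if h : ∃ i : Nd × Zt, x = g i.1 (E i) then h.choose.1 else []
  have hb1 : ∀ i : Nd × Zt, b (g i.1 (E i)) = i.1 := by
    intro i
    have h : ∃ j : Nd × Zt, g i.1 (E i) = g j.1 (E j) := ⟨i, rfl⟩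
    have : b (g i.1 (E i)) = h.choose.1 := dif_pos h
    rw [this]
    by_contra hne
    have hne' : i ≠ h.choose := fun h' => hne (by rw [← h'])
    exact hE.r3 _ _ hne' h.choose_spec
  have hb2 : ∀ x u, u ≠ [] → b x = u → ∃ y, x = g u (E (u, y)) := by
    intro x u hu hx
    by_cases h : ∃ i : Nd × Zt, x = g i.1 (E i)
    · obtain ⟨⟨v, y⟩, rfl⟩ := h
      rw [hb1] at hx
      simp only at hx
      subst hx
      exact ⟨y, rfl⟩
    · have : b x = [] := dif_neg h
      rw [this] at hx
      exact absurd hx.symm hu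
  have hinj : ∀ u : Nd, Function.Injective (fun y : Zt => g u (E (u, y))) := by
    intro u y y' h
    have := E.injective ((g u).injective h)
    simpa using this
  have hbinf : ∀ u, (b ⁻¹' {u}).Infinite := by
    intro u
    apply (Set.infinite_range_of_injective (hinj u)).mono
    rintro _ ⟨y, rfl⟩
    exact hb1 (u, y)
  obtain ⟨h, hh⟩ := exists_match b d hbinf hd
  have hV' : {w : Perm X | h * w * h⁻¹ ∈ V} ∈ 𝓝 (1 : Perm X) := by
    have hc : Continuous (fun w : Perm X => h * w * h⁻¹) := by fun_prop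
    have := hc.tendsto 1
    simp only [mul_one, mul_inv_cancel] at this
    exact this hV
  have hne : ∀ᶠ u : Nd in cofinite, u ≠ [] :=
    (Set.finite_singleton ([] : Nd)).compl_mem_cofinite
  filter_upwards [eventually_full g hg E _ hV', hne] with u hu hu0 f hf
  -- transport f
  have hf' : Off (h⁻¹ * f * h) (Set.range (fun y : Zt => g u (E (u, y)))) := by
    intro x hx
    have : d (h x) ≠ u := by
      rw [hh]
      intro hbx
      obtain ⟨y, rfl⟩ := hb2 x u hu0 hbx
      exact hx ⟨y, rfl⟩
    rw [Perm.mul_apply, Perm.mul_apply, hf _ this, inv_app]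
  obtain ⟨φ, hφ⟩ := perm_restrict _ (hinj u) _ hf'
  obtain ⟨q, hq, hqV⟩ := hu φ
  refine ⟨_, hqV, ?_⟩
  intro x hx
  obtain ⟨y, hy⟩ := hb2 (h⁻¹ x) u hu0 (by rw [← hh, app_inv]; exact hx)
  rw [Perm.mul_apply, Perm.mul_apply, hy, comm_apply g E hE, hq]
  have := hφ y
  rw [← this, ← hy]
  simp only [Perm.mul_apply, app_inv]

end Topological

end Pool.Agent.Helper505.Sinf
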