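import Mathlib
import Pool.Agent.Helper505.SinfBasic
import Pool.Agent.Helper505.SinfGaughan
import Pool.Agent.Helper505.SinfBlocks

set_option autoImplicit false

open Filter Topology Equiv Equiv.Perm

namespace Pool.Agent.Helper505.Sinf

section GroupLemmas

variable {G : Type} [Group G]

theorem cm_mul_of_commute {a b a' b' : G} (h2 : Commute b a')
    (h3 : Commute b b') (h4 : Commute b' a) :
    cm (a * b) (a' * b') = cm a a' := by
  unfold cm
  have e2 : b * a' = a' * b := h2
  have e3 : b * b' = b' * b := h3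
  have e4 : b' * a⁻¹ = a⁻¹ * b' := h4.inv_right
  calc a * b * (a' * b') * (a * b)⁻¹ * (a' * b')⁻¹
      = a * (b * a') * b' * b⁻¹ * a⁻¹ * b'⁻¹ * a'⁻¹ := by group
    _ = a * a' * (b * b') * b⁻¹ * a⁻¹ * b'⁻¹ * a'⁻¹ := by rw [e2]; group
    _ = a * a' * (b' * a⁻¹) * b'⁻¹ * a'⁻¹ := by rw [e3]; group
    _ = a * a' * a⁻¹ * a'⁻¹ := by rw [e4]; group

theorem cm_mul_mul {a b a' b' : G} (h1 : Commute a b) (h2 : Commute a b') (h3 : Commute a' b)
    (h4 : Commute a' b') : cm (a * b) (a' * b') = cm a a' * cm b b' := by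
  unfold cm
  have e1 : b * a' = a' * b := h3.symm
  have e2 : b' * a⁻¹ = a⁻¹ * b' := (h2.symm).inv_right
  have e3 : b * a⁻¹ = a⁻¹ * b := (h1.symm).inv_right
  have e4 : b' * a'⁻¹ = a'⁻¹ * b' := (h4.symm).inv_right
  have e5 : b⁻¹ * a⁻¹ = a⁻¹ * b⁻¹ := (h1.symm).inv_inv
  have e6 : b'⁻¹ * a'⁻¹ = a'⁻¹ * b'⁻¹ := (h4.symm).inv_inv
  have e7 : b⁻¹ * a'⁻¹ = a'⁻¹ * b⁻¹ := (h3.symm).inv_inv
  have e8 : b * a'⁻¹ = a'⁻¹ * b := (h3.symm).inv_right
  calc a * b * (a' * b') * (a * b)⁻¹ * (a' * b')⁻¹
      = a * (b * a') * b' * (b⁻¹ * a⁻¹) * (b'⁻¹ * a'⁻¹) := by group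
    _ = a * a' * b * (b' * a⁻¹) * b⁻¹ * (a'⁻¹ * b'⁻¹) := by rw [e1, e5, e6]; group
    _ = a * a' * (b * a⁻¹) * b' * (b⁻¹ * a'⁻¹) * b'⁻¹ := by rw [e2]; group
    _ = a * a' * a⁻¹ * b * (b' * a'⁻¹) * b⁻¹ * b'⁻¹ := by rw [e3, e7]; group
    _ = a * a' * a⁻¹ * (b * a'⁻¹) * b' * b⁻¹ * b'⁻¹ := by rw [e4]; group
    _ = a * a' * a⁻¹ * a'⁻¹ * (b * b' * b⁻¹ * b'⁻¹) := by rw [e8]; group

theorem cm_conj (g a b : G) : cm (g * a * g⁻¹) (g * b * g⁻¹) = g * cm a b * g⁻¹ := by
  unfold cm
  group

theorem map_cm {H : Type} [Group H] (φ : G →* H) (a b : G) : φ (cm a b) = cm (φ a) (φ b) := by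
  simp [cm]

end GroupLemmas

section Blocks

variable {X : Type} {g : Nd → Perm X} {E : Nd × Zt ↪ X}

theorem cm_split (hE : Good g E) (m : Nd) (q q' : Nd → Perm Zt) (h : ∀ j, q j = 1 ∨ q' j = 1) :
    cm (g m) (Phi E (q * q')) = cm (g m) (Phi E q) * cm (g m) (Phi E q') ∧
      Commute (cm (g m) (Phi E q)) (cm (g m) (Phi E q')) := by
  have disj : ∀ i j : Nd × Zt, q i.1 ≠ 1 → q' j.1 ≠ 1 → i ≠ j := by
    rintro i j h1 h2 rfl
    rcases h i.1 with h' | h'
    · exact h1 h'
    · exact h2 h'
  have hq := Phi_off E q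
  have hq' := Phi_off E q'
  have c0 : Commute (Phi E q) (Phi E q') := by
    apply hq.commute hq'
    rintro x ⟨i, hi, rfl⟩ ⟨j, hj, hij⟩
    exact disj i j hi hj (hE.inj hij.symm)
  have cAB' : Commute (g m * Phi E q * (g m)⁻¹) (Phi E q')⁻¹ := by
    apply (hq.conj (g m)).commute hq'.inv
    rintro _ ⟨_, ⟨i, hi, rfl⟩, rfl⟩ ⟨j, hj, hij⟩
    exact hE.r1 m i j (disj i j hi hj) hij.symm
  have cA'B : Commute (g m * Phi E q' * (g m)⁻¹) (Phi E q)⁻¹ := by
    apply (hq'.conj (g m)).commute hq.inv
    rintro _ ⟨_, ⟨i, hi, rfl⟩, rfl⟩ ⟨j, hj, hij⟩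
    exact hE.r1 m i j (Ne.symm (disj j i hj hi)) hij.symm
  have cAA' : Commute (g m * Phi E q * (g m)⁻¹) (g m * Phi E q' * (g m)⁻¹) := by
    rw [Commute, SemiconjBy]
    calc g m * Phi E q * (g m)⁻¹ * (g m * Phi E q' * (g m)⁻¹)
        = g m * (Phi E q * Phi E q') * (g m)⁻¹ := by group
      _ = g m * (Phi E q' * Phi E q) * (g m)⁻¹ := by rw [c0.eq]
      _ = _ := by group
  have cBB' : Commute (Phi E q)⁻¹ (Phi E q')⁻¹ := c0.inv_inv
  have e1 : ∀ p, cm (g m) p = (g m * p * (g m)⁻¹) * p⁻¹ := fun p => rfl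
  constructor
  · rw [map_mul, e1, e1, e1]
    have e2 : g m * (Phi E q * Phi E q') * (g m)⁻¹ * (Phi E q * Phi E q')⁻¹ =
        (g m * Phi E q * (g m)⁻¹) * (g m * Phi E q' * (g m)⁻¹) * ((Phi E q')⁻¹ * (Phi E q)⁻¹) := by
      group
    rw [e2]
    generalize g m * Phi E q * (g m)⁻¹ = A at *
    generalize g m * Phi E q' * (g m)⁻¹ = A' at *
    generalize (Phi E q)⁻¹ = B at *
    generalize (Phi E q')⁻¹ = B' at *
    calc A * A' * (B' * B) = A * A' * (B * B') := by rw [cBB'.eq]
      _ = A * (A' * B) * B' := by group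
      _ = A * (B * A') * B' := by rw [cA'B.eq]
      _ = A * B * (A' * B') := by group
  · rw [e1, e1]
    exact (cAA'.mul_right cAB').mul_left ((cA'B.symm).mul_right cBB')

theorem cm_commute (hE : Good g E) (m : Nd) (q q' : Nd → Perm Zt)
    (h : ∀ j, q j = q' j ∨ q j = 1 ∨ q' j = 1) :
    Commute (cm (g m) (Phi E q)) (cm (g m) (Phi E q')) := by
  classical
  let r : Nd → Perm Zt := fun j => if q j = q' j then q j else 1
  let x : Nd → Perm Zt := fun j => if q j = q' j then 1 else q j
  let y : Nd → Perm Zt := fun j => if q j = q' j then 1 else q' j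
  have hq : q = r * x := by
    funext j
    change q j = (if q j = q' j then q j else 1) * (if q j = q' j then 1 else q j)
    split_ifs <;> simp
  have hq' : q' = r * y := by
    funext j
    change q' j = (if q j = q' j then q j else 1) * (if q j = q' j then 1 else q' j)
    split_ifs with h
    · simp [h]
    · simp
  have hrx : ∀ j, r j = 1 ∨ x j = 1 := by
    intro j
    by_cases hj : q j = q' j
    · right; exact if_pos hj
    · left; exact if_neg hj
  have hry : ∀ j, r j = 1 ∨ y j = 1 := by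
    intro j
    by_cases hj : q j = q' j
    · right; exact if_pos hj
    · left; exact if_neg hj
  have hxy : ∀ j, x j = 1 ∨ y j = 1 := by
    intro j
    by_cases hj : q j = q' j
    · right; exact if_pos hj
    · rcases h j with h' | h' | h'
      · exact absurd h' hj
      · left
        change (if q j = q' j then 1 else q j) = 1
        rw [if_neg hj, h']
      · right
        change (if q j = q' j then 1 else q' j) = 1
        rw [if_neg hj, h']
  obtain ⟨e1, c1⟩ := cm_split hE m r x hrx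
  obtain ⟨e2, c2⟩ := cm_split hE m r y hry
  obtain ⟨-, c3⟩ := cm_split hE m x y hxy
  rw [hq, hq', e1, e2]
  exact ((Commute.refl _).mul_right c2).mul_left ((c1.symm).mul_right c3)

theorem cm_cm_eq (hE : Good g E) (m u : Nd) (q q' : Nd → Perm Zt)
    (h : ∀ j, j ≠ u → q j = q' j ∨ q j = 1 ∨ q' j = 1) :
    cm (cm (g m) (Phi E q)) (cm (g m) (Phi E q')) =
      cm (cm (g m) (Phi E (Pi.mulSingle u (q u)))) (cm (g m) (Phi E (Pi.mulSingle u (q' u)))) := by
  classical
  have split : ∀ q : Nd → Perm Zt, q = Pi.mulSingle u (q u) * Function.update q u 1 := by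
    intro q
    funext j
    rw [Pi.mul_apply]
    by_cases hj : j = u
    · subst hj
      rw [Pi.mulSingle_eq_same, Function.update_self, mul_one]
    · rw [Pi.mulSingle_eq_of_ne hj, Function.update_of_ne hj, one_mul]
  have d1 : ∀ q q' : Nd → Perm Zt, ∀ j,
      (Pi.mulSingle u (q u) : Nd → Perm Zt) j = 1 ∨ Function.update q' u 1 j = 1 := by
    intro q q' j
    by_cases hj : j = u
    · right
      subst hj
      rw [Function.update_self]
    · left
      exact Pi.mulSingle_eq_of_ne hj _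
  obtain ⟨e1, c1⟩ := cm_split hE m _ _ (d1 q q)
  obtain ⟨e2, c2⟩ := cm_split hE m _ _ (d1 q' q')
  obtain ⟨-, c3⟩ := cm_split hE m _ _ (d1 q q')
  obtain ⟨-, c4⟩ := cm_split hE m _ _ (d1 q' q)
  rw [← split q] at e1
  rw [← split q'] at e2
  have c5 : Commute (cm (g m) (Phi E (Function.update q u 1)))
      (cm (g m) (Phi E (Function.update q' u 1))) := by
    apply cm_commute hE
    intro j
    by_cases hj : j = u
    · subst hj
      left
      rw [Function.update_self, Function.update_self]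
    · rw [Function.update_of_ne hj, Function.update_of_ne hj]
      exact h j hj
  rw [e1, e2]
  exact cm_mul_of_commute c4.symm c5 c3.symm

theorem cm_single (hE : Good g E) (u : Nd) (s t : Perm Zt) :
    ∃ w₂ : Perm X, Off w₂ (E '' {i | i.1 = u}) ∧
      cm (cm (g u) (Phi E (Pi.mulSingle u s))) (cm (g u) (Phi E (Pi.mulSingle u t))) =
        (g u * Phi E (Pi.mulSingle u (cm s t)) * (g u)⁻¹) * w₂ := by
  classical
  have off : ∀ s : Perm Zt, Off (Phi E (Pi.mulSingle u s)) (E '' {i | i.1 = u}) := by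
    intro s
    apply (Phi_off E _).mono
    rintro _ ⟨i, hi, rfl⟩
    refine ⟨i, ?_, rfl⟩
    by_contra hne
    exact hi (Pi.mulSingle_eq_of_ne hne _)
  have hAB : ∀ s t : Perm Zt, Commute (g u * Phi E (Pi.mulSingle u s) * (g u)⁻¹)
      (Phi E (Pi.mulSingle u t))⁻¹ := by
    intro s t
    apply ((off s).conj (g u)).commute (off t).inv
    rintro _ ⟨_, ⟨i, hi, rfl⟩, rfl⟩ ⟨j, hj, hij⟩
    by_cases h : i = j
    · subst h
      simp only [Set.mem_ofPred_eq] at hi
      have := hE.r2 i
      rw [hi] at this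
      exact this hij.symm
    · exact hE.r1 u i j h hij.symm
  refine ⟨cm (Phi E (Pi.mulSingle u s))⁻¹ (Phi E (Pi.mulSingle u t))⁻¹, ?_, ?_⟩
  · exact (((off s).inv.mul (off t).inv).mul (off s).inv.inv).mul (off t).inv.inv
  · have e1 : ∀ p, cm (g u) p = (g u * p * (g u)⁻¹) * p⁻¹ := fun p => rfl
    rw [e1, e1, cm_mul_mul (hAB s s) (hAB s t) (hAB t s) (hAB t t), cm_conj, ← map_cm]
    congr 4
    funext j
    by_cases hj : j = u
    · subst hj
      simp [cm]
    · simp [cm, Pi.mulSingle_eq_of_ne hj]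

end Blocks

section Branches

/-- The prefix of length `k` of a branch. -/
def pre (α : ℕ → Bool) (k : ℕ) : Nd := (List.range k).map α

theorem pre_length (α : ℕ → Bool) (k : ℕ) : (pre α k).length = k := by simp [pre]

theorem pre_eq_iff (α β : ℕ → Bool) (k : ℕ) : pre α k = pre β k ↔ ∀ i < k, α i = β i := by
  unfold pre
  rw [List.map_inj_left]
  simp

/-- The shift of `ℤ` times the identity. -/
def sg : Perm Zt := Equiv.prodCongr (Equiv.addRight (1 : ℤ)) (Equiv.refl ℕ)

/-- The reflection of `ℤ` times the identity. -/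
def rf : Perm Zt := Equiv.prodCongr (Equiv.neg ℤ) (Equiv.refl ℕ)

theorem sg_apply (z : ℤ) (i : ℕ) : sg (z, i) = (z + 1, i) := rfl
theorem rf_apply (z : ℤ) (i : ℕ) : rf (z, i) = (-z, i) := rfl
theorem sg_inv_apply (z : ℤ) (i : ℕ) : sg⁻¹ (z, i) = (z - 1, i) := by
  rw [Perm.inv_eq_iff_eq, sg_apply]
  simp
theorem rf_inv_apply (z : ℤ) (i : ℕ) : rf⁻¹ (z, i) = (-z, i) := by
  rw [Perm.inv_eq_iff_eq, rf_apply]
  simp

theorem cm_sg_rf_apply (z : ℤ) (i : ℕ) : cm sg rf (z, i) = (z + 2, i) := by
  simp only [cm, Perm.mul_apply, rf_inv_apply, sg_inv_apply, rf_apply, sg_apply]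
  ext
  · simp only; ring
  · rfl

open Classical in
/-- The block permutations attached to a branch. -/
noncomputable def qb (α : ℕ → Bool) (l : Nd) : Perm Zt :=
  if l = pre α l.length then (if α l.length then rf else sg) else 1

theorem qb_tri {α β : ℕ → Bool} {k : ℕ} (hk : ∀ i < k, α i = β i) (hne : α k ≠ β k) (l : Nd)
    (hl : l ≠ pre α k) : qb α l = qb β l ∨ qb α l = 1 ∨ qb β l = 1 := by
  by_cases h1 : l = pre α l.length
  · by_cases h2 : l = pre β l.length
    · left
      have h3 : ∀ i < l.length, α i = β i := (pre_eq_iff α β _).mp (h1.symm.trans h2)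
      have h4 : l.length ≠ k := by
        intro h
        rw [h] at h1
        exact hl h1
      have h5 : l.length < k := by
        by_contra h
        exact hne (h3 k (by omega))
      unfold qb
      rw [if_pos h1, if_pos h2, hk _ h5]
    · right; right
      unfold qb
      rw [if_neg h2]
  · right; left
    unfold qb
    rw [if_neg h1]

theorem qb_node (α : ℕ → Bool) (k : ℕ) : qb α (pre α k) = if α k then rf else sg := by
  unfold qb
  rw [pre_length, if_pos rfl]

end Branches

theorem not_countable_bool : ¬ Countable (ℕ → Bool) := by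
  intro h
  obtain ⟨f, hf⟩ := exists_surjective_nat (ℕ → Bool)
  obtain ⟨n, hn⟩ := hf (fun k => !(f k k))
  have := congrFun hn n
  simp at this

section Topological

variable {X : Type} [TopologicalSpace (Perm X)] [IsTopologicalGroup (Perm X)]

/-- The commutator of the small commutators at a splitting node. -/
theorem exists_node {g : Nd → Perm X} (hg : Tendsto g cofinite (𝓝 1)) {E : Nd × Zt ↪ X}
    (hE : Good g E) (V : Set (Perm X)) (hV : V ∈ 𝓝 (1 : Perm X)) (B : Set Nd) (hB : B.Finite) :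
    ∃ u ∉ B, ∃ c ∈ V, ∃ c' ∈ V, ∃ w₂ : Perm X, Off w₂ (E '' {i | i.1 = u}) ∧
      cm c c' = (g u * Phi E (Pi.mulSingle u (cm sg rf)) * (g u)⁻¹) * w₂ := by
  classical
  have hfin : ∀ α : ℕ → Bool, {u | cm (g u) (Phi E (qb α)) ∉ V}.Finite := by
    intro α
    have hlim : Tendsto (fun u => cm (g u) (Phi E (qb α))) cofinite (𝓝 1) := by
      have hc : Continuous (fun x : Perm X => cm x (Phi E (qb α))) := by
        simp only [cm]
        fun_prop
      have := (hc.tendsto 1).comp hg
      rw [cm_one_left] at this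
      exact this
    exact hlim hV
  -- infinitely many branches with the same exceptional set
  obtain ⟨T, hT⟩ : ∃ T : Finset Nd, {α : ℕ → Bool | (hfin α).toFinset = T}.Infinite := by
    by_contra hcon
    simp only [not_exists, Set.not_infinite] at hcon
    have : (Set.univ : Set (ℕ → Bool)).Countable := by
      have h1 : (Set.univ : Set (ℕ → Bool)) = ⋃ T : Finset Nd, {α | (hfin α).toFinset = T} := by
        ext α
        simp
      rw [h1]
      exact Set.countable_iUnion (fun T => (hcon T).countable)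
    have h2 : Countable (ℕ → Bool) := Set.countable_univ_iff.mp this
    exact not_countable_bool h2
  -- a bound for the lengths
  obtain ⟨L, hL⟩ : ∃ L, ∀ l ∈ (T : Set Nd) ∪ B, l.length < L := by
    have : ((T : Set Nd) ∪ B).Finite := T.finite_toSet.union hB
    obtain ⟨L, hL⟩ := (this.image List.length).bddAbove
    refine ⟨L + 1, fun l hl => ?_⟩
    have := hL ⟨l, hl, rfl⟩
    omega
  obtain ⟨α, hα, β, hβ, hne, hres⟩ := hT.exists_ne_map_eq_of_mapsTo
    (f := fun (α : ℕ → Bool) (i : Fin L) => α i) (t := Set.univ) (fun _ _ => trivial)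
    Set.finite_univ
  have hex : ∃ k, α k ≠ β k := by
    by_contra h
    simp only [not_exists, not_not] at h
    exact hne (funext h)
  -- the first difference
  let k := Nat.find hex
  have hk : α k ≠ β k := Nat.find_spec hex
  have hk' : ∀ i < k, α i = β i := fun i hi => by
    by_contra h
    exact Nat.find_min hex hi h
  have hkL : L ≤ k := by
    by_contra h
    have := congrFun hres ⟨k, by omega⟩
    exact hk this
  -- order the pair
  have main : ∀ α β : ℕ → Bool, (hfin α).toFinset = T → (hfin β).toFinset = T →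
      (∀ i < k, α i = β i) → α k = false → β k = true →
      ∃ u ∉ B, ∃ c ∈ V, ∃ c' ∈ V, ∃ w₂ : Perm X, Off w₂ (E '' {i | i.1 = u}) ∧
      cm c c' = (g u * Phi E (Pi.mulSingle u (cm sg rf)) * (g u)⁻¹) * w₂ := by
    intro α β hα hβ hk' hf ht
    have hlen : (pre α k).length = k := pre_length α k
    have hnot : pre α k ∉ (T : Set Nd) ∪ B := by
      intro h
      have := hL _ h
      omega
    have hab : pre α k = pre β k := (pre_eq_iff α β k).mpr hk'
    refine ⟨pre α k, fun h => hnot (Or.inr h), cm (g (pre α k)) (Phi E (qb α)), ?_,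
      cm (g (pre α k)) (Phi E (qb β)), ?_, ?_⟩
    · by_contra h
      apply hnot
      left
      rw [← hα]
      simpa using h
    · by_contra h
      apply hnot
      left
      rw [← hβ]
      simpa using h
    · have hkne : α k ≠ β k := by rw [hf, ht]; decide
      rw [cm_cm_eq hE _ (pre α k) _ _ (fun j hj => qb_tri hk' hkne j hj)]
      have e1 : qb α (pre α k) = sg := by rw [qb_node, hf]; simp
      have e2 : qb β (pre α k) = rf := by rw [hab, qb_node, ht]; simp
      rw [e1, e2]
      exact cm_single hE (pre α k) sg rf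
  rcases Bool.eq_false_or_eq_true (α k) with h | h
  · have h' : β k = false := by
      rcases Bool.eq_false_or_eq_true (β k) with h'' | h''
      · exact absurd (h.trans h''.symm) hk
      · exact h''
    exact main β α hβ hα (fun i hi => (hk' i hi).symm) h' h
  · have h' : β k = true := by
      rcases Bool.eq_false_or_eq_true (β k) with h'' | h''
      · exact h''
      · exact absurd (h.trans h''.symm) hk
    exact main α β hα hβ hk' h h'

end Topological

end Pool.Agent.Helper505.Sinf
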