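import Mathlib
import Pool.Agent.Helper505.SinfBasic
import Pool.Agent.Helper505.SinfGaughan

set_option autoImplicit false

open Filter Topology Equiv Equiv.Perm

namespace Pool.Agent.Helper505.Sinf

section Topological

variable {X : Type} [TopologicalSpace (Perm X)] [IsTopologicalGroup (Perm X)]

/-- Near the identity, smallness of finitary permutations is almost invariant under conjugation by
finitary permutations. -/
theorem conj_trick [FirstCountableTopology (Perm X)] (V : Set (Perm X))
    (hV : V ∈ 𝓝 (1 : Perm X)) :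
    ∃ F : Set X, F.Finite ∧ ∃ W ∈ 𝓝 (1 : Perm X), ∀ y h : Perm X, {x | y x ≠ x}.Finite →
      {x | h x ≠ x}.Finite → (∀ x ∈ F, y x = x) → (∀ x ∈ F, h x = x) → h * y * h⁻¹ ∈ W →
      y ∈ V := by
  classical
  by_contra hcon
  obtain ⟨W, hW⟩ := (𝓝 (1 : Perm X)).exists_antitone_basis
  have step : ∀ (F : Finset X) (n : ℕ), ∃ p : Perm X × Perm X, {x | p.1 x ≠ x}.Finite ∧
      {x | p.2 x ≠ x}.Finite ∧ (∀ x ∈ F, p.1 x = x) ∧ (∀ x ∈ F, p.2 x = x) ∧
      p.2 * p.1 * p.2⁻¹ ∈ W n ∧ p.1 ∉ V := by
    intro F n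
    by_contra h
    apply hcon
    refine ⟨F, F.finite_toSet, W n, hW.mem n, ?_⟩
    intro y k h1 h2 h3 h4 h5
    by_contra hy
    exact h ⟨(y, k), h1, h2, h3, h4, h5, hy⟩
  choose P hP1 hP2 hP3 hP4 hP5 hP6 using step
  let Fn : ℕ → Finset X := fun n => Nat.rec ∅
    (fun n F => F ∪ (hP1 F n).toFinset ∪ (hP2 F n).toFinset) n
  have hFn : ∀ n, Fn (n + 1) = Fn n ∪ (hP1 (Fn n) n).toFinset ∪ (hP2 (Fn n) n).toFinset :=
    fun n => rfl
  have hmono : Monotone Fn := by
    apply monotone_nat_of_le_succ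
    intro n
    rw [hFn]
    exact Finset.subset_union_left.trans Finset.subset_union_left
  let y : ℕ → Perm X := fun n => (P (Fn n) n).1
  let k : ℕ → Perm X := fun n => (P (Fn n) n).2
  have hy1 : ∀ n x, y n x ≠ x → x ∈ Fn (n + 1) := by
    intro n x hx
    rw [hFn]
    apply Finset.mem_union_left
    apply Finset.mem_union_right
    simpa using hx
  have hk1 : ∀ n x, k n x ≠ x → x ∈ Fn (n + 1) := by
    intro n x hx
    rw [hFn]
    apply Finset.mem_union_right
    simpa using hx
  have hy0 : ∀ n, ∀ x ∈ Fn n, y n x = x := fun n => hP3 (Fn n) n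
  have hk0 : ∀ n, ∀ x ∈ Fn n, k n x = x := fun n => hP4 (Fn n) n
  let l : X → ℕ := fun x => if h : ∃ m, x ∈ Fn (m + 1) then Nat.find h else 0
  have hl : ∀ x n, x ∈ Fn (n + 1) → x ∉ Fn n → l x = n := by
    intro x n h1 h2
    have hex : ∃ m, x ∈ Fn (m + 1) := ⟨n, h1⟩
    have e : l x = Nat.find hex := dif_pos hex
    rw [e]
    apply le_antisymm (Nat.find_min' hex h1)
    by_contra hlt
    exact h2 (hmono (show Nat.find hex + 1 ≤ n by omega) (Nat.find_spec hex))
  have hkmem : ∀ n x, k n x ≠ x → l x = n ∧ l (k n x) = n := by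
    intro n x hx
    have h1 := hk1 n x hx
    have h2 : x ∉ Fn n := fun h => hx (hk0 n x h)
    have h3 : k n (k n x) ≠ k n x := fun h => hx ((k n).injective h)
    have h4 := hk1 n _ h3
    have h5 : k n x ∉ Fn n := fun h => h3 (hk0 n _ h)
    exact ⟨hl _ _ h1 h2, hl _ _ h4 h5⟩
  obtain ⟨h, hh⟩ := exists_glue l k
    (by
      intro x
      by_cases hx : k (l x) x = x
      · rw [hx]
      · exact (hkmem _ _ hx).2)
    (by
      intro x
      by_cases hx : (k (l x))⁻¹ x = x
      · rw [hx]
      · have h1 : k (l x) ((k (l x))⁻¹ x) ≠ (k (l x))⁻¹ x := by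
          rw [app_inv]
          exact Ne.symm hx
        exact (hkmem _ _ h1).1)
  have hconj : ∀ n, h * y n * h⁻¹ ∈ W n := by
    intro n
    have e : h * y n * h⁻¹ = k n * y n * (k n)⁻¹ := by
      apply conj_eq_of_agree (S := {x | y n x ≠ x})
      · intro x hx
        simpa using hx
      · intro x hx
        have h1 := hy1 n x hx
        have h2 : x ∉ Fn n := fun h => hx (hy0 n x h)
        rw [hh, hl x n h1 h2]
    rw [e]
    exact hP5 (Fn n) n
  have hlim : Tendsto (fun n => h * y n * h⁻¹) atTop (𝓝 1) := hW.tendsto hconj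
  have hc : Continuous (fun p : Perm X => h⁻¹ * p * h) := by fun_prop
  have hlim2 := (hc.tendsto 1).comp hlim
  simp only [mul_one, inv_mul_cancel] at hlim2
  obtain ⟨n, hn⟩ := (hlim2.eventually hV).exists
  apply hP6 (Fn n) n
  have e : h⁻¹ * (h * y n * h⁻¹) * h = y n := by group
  simp only [Function.comp_apply] at hn
  rw [e] at hn
  exact hn

end Topological

/-- The permutations that are products of two transpositions avoiding `F`. -/
def Dg {X : Type} [DecidableEq X] (F : Set X) : Set (Perm X) :=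
  {t | ∃ a b c d, a ∉ F ∧ b ∉ F ∧ c ∉ F ∧ d ∉ F ∧ a ≠ b ∧ c ≠ d ∧ t = swap a b * swap c d}

theorem swap_support_finite {X : Type} [DecidableEq X] (a b : X) :
    {x | swap a b x ≠ x}.Finite := by
  apply (Set.toFinite ({a, b} : Set X)).subset
  intro x hx
  by_contra h
  simp only [Set.mem_insert_iff, Set.mem_singleton_iff, not_or] at h
  exact hx (swap_apply_of_ne_of_ne h.1 h.2)

theorem mul_support_finite {X : Type} {p q : Perm X} (hp : {x | p x ≠ x}.Finite)
    (hq : {x | q x ≠ x}.Finite) : {x | (p * q) x ≠ x}.Finite := by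
  apply (hp.union hq).subset
  intro x hx
  by_contra h
  simp only [Set.mem_union, Set.mem_ofPred_eq, not_or, not_not] at h
  apply hx
  rw [Perm.mul_apply, h.2, h.1]

theorem inv_support_finite {X : Type} {p : Perm X} (hp : {x | p x ≠ x}.Finite) :
    {x | p⁻¹ x ≠ x}.Finite := by
  apply hp.subset
  intro x hx h
  apply hx
  rw [Perm.inv_eq_iff_eq]
  exact h.symm

/-- Moving a finite set away from a finite set while fixing another one. -/
theorem exists_move {X : Type} [Infinite X] (P : Finset X) :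
    ∀ (Q A : Set X), Q.Finite → A.Finite → (∀ x ∈ P, x ∉ Q) →
    ∃ h : Perm X, {x | h x ≠ x}.Finite ∧ (∀ x ∈ Q, h x = x) ∧ ∀ x ∈ P, h x ∉ A := by
  classical
  induction P using Finset.induction_on with
  | empty =>
    intro Q A _ _ _
    exact ⟨1, by simp, fun _ _ => rfl, by simp⟩
  | insert p P hp ih =>
    intro Q A hQ hA hPQ
    obtain ⟨h, h1, h2, h3⟩ := ih (Q ∪ {p}) A (hQ.union (Set.finite_singleton p)) hA (by
      intro x hx hx'
      rcases hx' with hx' | hx'
      · exact hPQ x (Finset.mem_insert_of_mem hx) hx'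
      · rw [Set.mem_singleton_iff] at hx'
        rw [hx'] at hx
        exact hp hx)
    have hfin : (A ∪ Q ∪ (h '' P) ∪ {p}).Finite :=
      ((hA.union hQ).union (P.finite_toSet.image h)).union (Set.finite_singleton p)
    obtain ⟨p', hp'⟩ := hfin.infinite_compl.nonempty
    simp only [Set.mem_compl_iff, Set.mem_union, Set.mem_singleton_iff, not_or] at hp'
    obtain ⟨⟨⟨hpA, hpQ⟩, hpP⟩, hpp⟩ := hp'
    have hhp : h p = p := h2 p (Or.inr rfl)
    refine ⟨swap p p' * h, mul_support_finite (swap_support_finite _ _) h1, ?_, ?_⟩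
    · intro x hx
      rw [Perm.mul_apply, h2 x (Or.inl hx)]
      apply swap_apply_of_ne_of_ne
      · rintro rfl
        exact hPQ x (Finset.mem_insert_self _ _) hx
      · rintro rfl
        exact hpQ hx
    · intro x hx
      rw [Perm.mul_apply]
      rcases Finset.mem_insert.mp hx with rfl | hx
      · rw [hhp, swap_apply_left]
        exact hpA
      · rw [swap_apply_of_ne_of_ne]
        · exact h3 x hx
        · intro h'
          rw [← hhp] at h'
          rw [h.injective h'] at hx
          exact hp hx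
        · intro h'
          exact hpP ⟨x, hx, h'⟩

/-- Finitary permutations off `F` act transitively on triples off `F`. -/
theorem exists_triple {X : Type} [DecidableEq X] (F : Set X) {a b c a' b' c' : X} (ha : a ∉ F)
    (hb : b ∉ F) (hc : c ∉ F) (ha' : a' ∉ F) (hb' : b' ∉ F) (hc' : c' ∉ F) (hab : a ≠ b)
    (hac : a ≠ c) (hbc : b ≠ c) (hab' : a' ≠ b') (hac' : a' ≠ c') (hbc' : b' ≠ c') :
    ∃ h : Perm X, {x | h x ≠ x}.Finite ∧ (∀ x ∈ F, h x = x) ∧ h a = a' ∧ h b = b' ∧ h c = c' := by
  have fixF : ∀ p q : X, p ∉ F → q ∉ F → ∀ x ∈ F, swap p q x = x := by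
    intro p q hp hq x hx
    apply swap_apply_of_ne_of_ne
    · rintro rfl; exact hp hx
    · rintro rfl; exact hq hx
  have notF : ∀ h : Perm X, (∀ x ∈ F, h x = x) → ∀ x, x ∉ F → h x ∉ F := by
    intro h hh x hx hx'
    have := h.injective (hh _ hx')
    rw [this] at hx'
    exact hx hx'
  let h₁ : Perm X := swap a a'
  have f1 : ∀ x ∈ F, h₁ x = x := fixF a a' ha ha'
  have e1 : h₁ a = a' := swap_apply_left _ _
  have b1 : h₁ b ≠ a' := by
    rw [← e1]
    exact fun h => hab (h₁.injective h).symm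
  have c1 : h₁ c ≠ a' := by
    rw [← e1]
    exact fun h => hac (h₁.injective h).symm
  have bc1 : h₁ b ≠ h₁ c := fun h => hbc (h₁.injective h)
  let h₂ : Perm X := swap (h₁ b) b'
  have f2 : ∀ x ∈ F, h₂ x = x := fixF _ _ (notF h₁ f1 b hb) hb'
  have e2 : h₂ a' = a' := swap_apply_of_ne_of_ne b1.symm hab'
  have e3 : h₂ (h₁ b) = b' := swap_apply_left _ _
  have c2 : h₂ (h₁ c) ≠ a' := by
    intro h
    rw [← e2] at h
    exact c1 (h₂.injective h)
  have c3 : h₂ (h₁ c) ≠ b' := by
    rw [← e3]
    exact fun h => bc1 (h₂.injective h).symm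
  let h₃ : Perm X := swap (h₂ (h₁ c)) c'
  have f3 : ∀ x ∈ F, h₃ x = x := fixF _ _ (notF h₂ f2 _ (notF h₁ f1 c hc)) hc'
  have e4 : h₃ a' = a' := swap_apply_of_ne_of_ne c2.symm hac'
  have e5 : h₃ b' = b' := swap_apply_of_ne_of_ne c3.symm hbc'
  have e6 : h₃ (h₂ (h₁ c)) = c' := swap_apply_left _ _
  refine ⟨h₃ * h₂ * h₁, mul_support_finite (mul_support_finite (swap_support_finite _ _)
    (swap_support_finite _ _)) (swap_support_finite _ _), ?_, ?_, ?_, ?_⟩
  · intro x hx
    rw [Perm.mul_apply, Perm.mul_apply, f1 x hx, f2 x hx, f3 x hx]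
  · rw [Perm.mul_apply, Perm.mul_apply, e1, e2, e4]
  · rw [Perm.mul_apply, Perm.mul_apply, e3, e5]
  · rw [Perm.mul_apply, Perm.mul_apply, e6]

theorem conj_swap_swap {X : Type} [DecidableEq X] (h : Perm X) (a b c d : X) :
    h * (swap a b * swap c d) * h⁻¹ = swap (h a) (h b) * swap (h c) (h d) := by
  have e : ∀ a b : X, h * swap a b * h⁻¹ = swap (h a) (h b) := by
    intro a b
    rw [Equiv.mul_swap_eq_swap_mul]
    group
  rw [← e, ← e]
  group

section Topological

variable {X : Type} [TopologicalSpace (Perm X)] [IsTopologicalGroup (Perm X)]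

/-- Small three-cycles off every finite set. -/
theorem exists_three_cycle [DecidableEq X] [Infinite X] [FirstCountableTopology (Perm X)]
    [T2Space (Perm X)]
    (hnd : ∀ V ∈ 𝓝 (1 : Perm X), ∃ g ∈ V, g ≠ 1 ∧ {x | g x ≠ x}.Finite)
    (V : Set (Perm X)) (hV : V ∈ 𝓝 (1 : Perm X)) (F : Set X) (hF : F.Finite) :
    ∃ a b c, a ∉ F ∧ b ∉ F ∧ c ∉ F ∧ a ≠ b ∧ a ≠ c ∧ b ≠ c ∧ swap a b * swap a c ∈ V := by
  obtain ⟨V', hV', hVV⟩ := exists_nhds_one_split hV
  obtain ⟨F', hF', W, hW, htrick⟩ := conj_trick V' hV'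
  have hFF : (F ∪ F').Finite := hF.union hF'
  have hN : V' ∩ W⁻¹ ∩ {g : Perm X | ∀ x ∈ F ∪ F', g x = x} ∈ 𝓝 (1 : Perm X) :=
    inter_mem (inter_mem hV' (inv_mem_nhds_one _ hW)) (stab_finite _ hFF)
  obtain ⟨g, ⟨⟨hgV, hgW⟩, hgF⟩, hg1, hgfin⟩ := hnd _ hN
  obtain ⟨a, ha⟩ : ∃ a, g a ≠ a := by
    by_contra h
    simp only [not_exists, not_not] at h
    exact hg1 (Equiv.ext h)
  have haF : a ∉ F ∪ F' := fun h => ha (hgF a h)
  have hgaF : g a ∉ F ∪ F' := by
    intro h
    exact ha (g.injective (hgF _ h))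
  have hfin2 : ({x | g x ≠ x} ∪ (F ∪ F')).Finite := hgfin.union hFF
  obtain ⟨b, hb⟩ := hfin2.infinite_compl.nonempty
  simp only [Set.mem_compl_iff, Set.mem_union, Set.mem_ofPred_eq, not_or, not_not] at hb
  obtain ⟨hgb, hbF, hbF'⟩ := hb
  have hba : b ≠ a := by
    rintro rfl
    exact ha hgb
  have hbga : b ≠ g a := by
    intro h
    have h1 : g b = g a := hgb.trans h
    exact hba (g.injective h1)
  -- the conjugated inverse
  have hyV : swap a b * g⁻¹ * (swap a b)⁻¹ ∈ V' := by
    apply htrick _ (swap a b)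
    · exact mul_support_finite (mul_support_finite (swap_support_finite _ _)
        (inv_support_finite hgfin)) (inv_support_finite (swap_support_finite _ _))
    · exact swap_support_finite _ _
    · intro x hx
      have h1 : swap a b x = x := by
        apply swap_apply_of_ne_of_ne
        · rintro rfl; exact haF (Or.inr hx)
        · rintro rfl; exact hbF' hx
      have h2 : g⁻¹ x = x := by
        rw [Perm.inv_eq_iff_eq]
        exact (hgF x (Or.inr hx)).symm
      rw [swap_inv, Perm.mul_apply, Perm.mul_apply, h1, h2, h1]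
    · intro x hx
      apply swap_apply_of_ne_of_ne
      · rintro rfl; exact haF (Or.inr hx)
      · rintro rfl; exact hbF' hx
    · have e : swap a b * (swap a b * g⁻¹ * (swap a b)⁻¹) * (swap a b)⁻¹ = g⁻¹ := by
        rw [swap_inv]
        calc swap a b * (swap a b * g⁻¹ * swap a b) * swap a b
            = (swap a b * swap a b) * g⁻¹ * (swap a b * swap a b) := by group
          _ = g⁻¹ := by rw [swap_mul_self]; simp
      rw [e]
      exact Set.mem_inv.mp hgW
  have hprod := hVV g hgV _ hyV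
  have e : g * (swap a b * g⁻¹ * (swap a b)⁻¹) = swap b (g a) * swap b a := by
    rw [swap_inv]
    have e1 : g * swap a b * g⁻¹ = swap (g a) (g b) := by
      rw [Equiv.mul_swap_eq_swap_mul]
      group
    calc g * (swap a b * g⁻¹ * swap a b) = (g * swap a b * g⁻¹) * swap a b := by group
      _ = swap (g a) (g b) * swap a b := by rw [e1]
      _ = swap b (g a) * swap b a := by rw [hgb, swap_comm (g a) b, swap_comm a b]
  rw [e] at hprod
  exact ⟨b, g a, a, hbF, fun h => hgaF (Or.inl h), fun h => haF (Or.inl h), hbga, hba, ha, hprod⟩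

theorem all_three_cycles [DecidableEq X] [Infinite X] [FirstCountableTopology (Perm X)]
    [T2Space (Perm X)]
    (hnd : ∀ V ∈ 𝓝 (1 : Perm X), ∃ g ∈ V, g ≠ 1 ∧ {x | g x ≠ x}.Finite)
    (V : Set (Perm X)) (hV : V ∈ 𝓝 (1 : Perm X)) :
    ∃ F : Set X, F.Finite ∧ ∀ a b c, a ∉ F → b ∉ F → c ∉ F → a ≠ b → a ≠ c → b ≠ c →
      swap a b * swap a c ∈ V := by
  obtain ⟨F, hF, W, hW, htrick⟩ := conj_trick V hV
  obtain ⟨a', b', c', ha', hb', hc', hab', hac', hbc', hW'⟩ := exists_three_cycle hnd W hW F hF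
  refine ⟨F, hF, fun a b c ha hb hc hab hac hbc => ?_⟩
  obtain ⟨h, h1, h2, h3, h4, h5⟩ := exists_triple F ha hb hc ha' hb' hc' hab hac hbc hab' hac' hbc'
  apply htrick _ h
  · exact mul_support_finite (swap_support_finite _ _) (swap_support_finite _ _)
  · exact h1
  · intro x hx
    have e1 : swap a c x = x :=
      swap_apply_of_ne_of_ne (fun h => ha (h ▸ hx)) (fun h => hc (h ▸ hx))
    have e2 : swap a b x = x :=
      swap_apply_of_ne_of_ne (fun h => ha (h ▸ hx)) (fun h => hb (h ▸ hx))
    rw [Perm.mul_apply, e1, e2]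
  · exact h2
  · rw [conj_swap_swap, h3, h4, h5]
    exact hW'

theorem all_Dg [DecidableEq X] [Infinite X] [FirstCountableTopology (Perm X)] [T2Space (Perm X)]
    (hnd : ∀ V ∈ 𝓝 (1 : Perm X), ∃ g ∈ V, g ≠ 1 ∧ {x | g x ≠ x}.Finite)
    (V : Set (Perm X)) (hV : V ∈ 𝓝 (1 : Perm X)) :
    ∃ F : Set X, F.Finite ∧ Dg F ⊆ V := by
  obtain ⟨V', hV', hVV⟩ := exists_nhds_one_split hV
  obtain ⟨F, hF, h3⟩ := all_three_cycles hnd V' hV'
  have h1 : (1 : Perm X) ∈ V' := mem_of_mem_nhds hV'
  have hV'V : V' ⊆ V := fun x hx => by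
    have := hVV x hx 1 h1
    rwa [mul_one] at this
  refine ⟨F, hF, ?_⟩
  rintro _ ⟨a, b, c, d, ha, hb, hc, hd, hab, hcd, rfl⟩
  by_cases hac : a = c
  · subst hac
    by_cases hbd : b = d
    · subst hbd
      rw [swap_mul_self]
      exact hV'V h1
    · exact hV'V (h3 a b d ha hb hd hab hcd hbd)
  by_cases had : a = d
  · subst had
    rw [swap_comm c a]
    by_cases hbc : b = c
    · subst hbc
      rw [swap_mul_self]
      exact hV'V h1
    · exact hV'V (h3 a b c ha hb hc hab hac hbc)
  by_cases hbc : b = c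
  · subst hbc
    rw [swap_comm a b]
    exact hV'V (h3 b a d hb ha hd (Ne.symm hab) hcd had)
  by_cases hbd : b = d
  · subst hbd
    rw [swap_comm a b, swap_comm c b]
    exact hV'V (h3 b a c hb ha hc (Ne.symm hab) hbc hac)
  have h4 := h3 a b c ha hb hc hab hac hbc
  have h5 := h3 c a d hc ha hd (Ne.symm hac) hcd had
  have h6 := hVV _ h4 _ h5
  have e : swap a b * swap a c * (swap c a * swap c d) = swap a b * swap c d := by
    rw [swap_comm c a]
    calc swap a b * swap a c * (swap a c * swap c d)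
        = swap a b * (swap a c * swap a c) * swap c d := by group
      _ = swap a b * swap c d := by rw [swap_mul_self, mul_one]
  rwa [e] at h6

theorem all_lists [DecidableEq X] [Infinite X] [FirstCountableTopology (Perm X)]
    [T2Space (Perm X)]
    (hnd : ∀ V ∈ 𝓝 (1 : Perm X), ∃ g ∈ V, g ≠ 1 ∧ {x | g x ≠ x}.Finite) (m : ℕ) :
    ∀ V ∈ 𝓝 (1 : Perm X), ∃ F : Set X, F.Finite ∧ ∀ l : List (Perm X), l.length = m →
      (∀ t ∈ l, t ∈ Dg F) → l.prod ∈ V := by
  induction m with
  | zero =>
    intro V hV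
    refine ⟨∅, Set.finite_empty, fun l hl _ => ?_⟩
    rw [List.length_eq_zero_iff] at hl
    subst hl
    exact mem_of_mem_nhds hV
  | succ m ih =>
    intro V hV
    obtain ⟨V', hV', hVV⟩ := exists_nhds_one_split hV
    obtain ⟨F₁, hF₁, h1⟩ := ih V' hV'
    obtain ⟨F₂, hF₂, h2⟩ := all_Dg hnd V' hV'
    refine ⟨F₁ ∪ F₂, hF₁.union hF₂, fun l hl hl' => ?_⟩
    cases l with
    | nil => simp at hl
    | cons t l =>
      rw [List.prod_cons]
      apply hVV
      · apply h2
        obtain ⟨a, b, c, d, ha, hb, hc, hd, h⟩ := hl' t (List.mem_cons_self)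
        exact ⟨a, b, c, d, fun h => ha (Or.inr h), fun h => hb (Or.inr h), fun h => hc (Or.inr h),
          fun h => hd (Or.inr h), h⟩
      · apply h1
        · simpa using hl
        · intro s hs
          obtain ⟨a, b, c, d, ha, hb, hc, hd, h⟩ := hl' s (List.mem_cons_of_mem _ hs)
          exact ⟨a, b, c, d, fun h => ha (Or.inl h), fun h => hb (Or.inl h),
            fun h => hc (Or.inl h), fun h => hd (Or.inl h), h⟩

end Topological

/-- The finitary even permutations. -/
def alt (X : Type) [DecidableEq X] : Subgroup (Perm X) :=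
  Subgroup.closure {g | ∃ a b c d : X, a ≠ b ∧ c ≠ d ∧ g = swap a b * swap c d}

theorem mem_alt_list {X : Type} [DecidableEq X] {y : Perm X} (hy : y ∈ alt X) :
    ∃ (l : List (Perm X)) (S : Set X), S.Finite ∧
      (∀ t ∈ l, ∃ a ∈ S, ∃ b ∈ S, ∃ c ∈ S, ∃ d ∈ S, a ≠ b ∧ c ≠ d ∧ t = swap a b * swap c d) ∧
      l.prod = y := by
  unfold alt at hy
  induction hy using Subgroup.closure_induction with
  | mem x hx =>
    obtain ⟨a, b, c, d, hab, hcd, rfl⟩ := hx
    refine ⟨[swap a b * swap c d], {a, b, c, d}, Set.toFinite _, ?_, by simp⟩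
    intro t ht
    rw [List.mem_singleton] at ht
    exact ⟨a, by simp, b, by simp, c, by simp, d, by simp, hab, hcd, ht⟩
  | one => exact ⟨[], ∅, Set.finite_empty, by simp, rfl⟩
  | mul x y _ _ hx hy =>
    obtain ⟨l, S, hS, h1, h2⟩ := hx
    obtain ⟨l', S', hS', h1', h2'⟩ := hy
    refine ⟨l ++ l', S ∪ S', hS.union hS', ?_, by rw [List.prod_append, h2, h2']⟩
    intro t ht
    rcases List.mem_append.mp ht with ht | ht
    · obtain ⟨a, ha, b, hb, c, hc, d, hd, h⟩ := h1 t ht
      exact ⟨a, Or.inl ha, b, Or.inl hb, c, Or.inl hc, d, Or.inl hd, h⟩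
    · obtain ⟨a, ha, b, hb, c, hc, d, hd, h⟩ := h1' t ht
      exact ⟨a, Or.inr ha, b, Or.inr hb, c, Or.inr hc, d, Or.inr hd, h⟩
  | inv x _ hx =>
    obtain ⟨l, S, hS, h1, h2⟩ := hx
    refine ⟨(l.map (fun t => t⁻¹)).reverse, S, hS, ?_, by rw [← List.prod_inv_reverse, h2]⟩
    intro t ht
    rw [List.mem_reverse, List.mem_map] at ht
    obtain ⟨s, hs, rfl⟩ := ht
    obtain ⟨a, ha, b, hb, c, hc, d, hd, hab, hcd, rfl⟩ := h1 s hs
    refine ⟨c, hc, d, hd, a, ha, b, hb, hcd, hab, ?_⟩
    rw [mul_inv_rev, swap_inv, swap_inv]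

theorem list_prod_off {X : Type} [DecidableEq X] (S : Set X) (l : List (Perm X))
    (h : ∀ t ∈ l, ∃ a ∈ S, ∃ b ∈ S, ∃ c ∈ S, ∃ d ∈ S, a ≠ b ∧ c ≠ d ∧ t = swap a b * swap c d) :
    Off l.prod S := by
  induction l with
  | nil => exact Off.one S
  | cons t l ih =>
    rw [List.prod_cons]
    apply Off.mul
    · obtain ⟨a, ha, b, hb, c, hc, d, hd, -, -, rfl⟩ := h t (List.mem_cons_self)
      intro x hx
      have e1 : swap c d x = x :=
        swap_apply_of_ne_of_ne (fun h => hx (h ▸ hc)) (fun h => hx (h ▸ hd))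
      have e2 : swap a b x = x :=
        swap_apply_of_ne_of_ne (fun h => hx (h ▸ ha)) (fun h => hx (h ▸ hb))
      rw [Perm.mul_apply, e1, e2]
    · exact ih (fun s hs => h s (List.mem_cons_of_mem _ hs))

theorem conj_list_prod {G : Type} [Group G] (r : G) (l : List G) :
    r * l.prod * r⁻¹ = (l.map (fun t => r * t * r⁻¹)).prod := by
  induction l with
  | nil => simp
  | cons t l ih =>
    rw [List.prod_cons, List.map_cons, List.prod_cons, ← ih]
    group

section Topological

variable {X : Type} [TopologicalSpace (Perm X)] [IsTopologicalGroup (Perm X)]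

/-- If there are nontrivial finitary permutations arbitrarily close to the identity, then all
finitary even permutations fixing a suitable finite set pointwise are small. -/
theorem alt_good [DecidableEq X] [Infinite X] [FirstCountableTopology (Perm X)]
    [T2Space (Perm X)]
    (hnd : ∀ V ∈ 𝓝 (1 : Perm X), ∃ g ∈ V, g ≠ 1 ∧ {x | g x ≠ x}.Finite)
    (V : Set (Perm X)) (hV : V ∈ 𝓝 (1 : Perm X)) :
    ∃ F : Set X, F.Finite ∧ ∀ y ∈ alt X, (∀ x ∈ F, y x = x) → y ∈ V := by
  obtain ⟨F, hF, W, hW, htrick⟩ := conj_trick V hV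
  refine ⟨F, hF, fun y hy hyF => ?_⟩
  obtain ⟨l, S, hS, hl, rfl⟩ := mem_alt_list hy
  obtain ⟨A, hA, hlist⟩ := all_lists hnd l.length W hW
  have hoff := list_prod_off S l hl
  obtain ⟨h, h1, h2, h3⟩ := exists_move (hS.sdiff (t := F)).toFinset F (F ∪ A ∪ S) hF
    ((hF.union hA).union hS) (by
      intro x hx
      simp only [Set.Finite.mem_toFinset] at hx
      exact hx.2)
  have h3' : ∀ x ∈ S, x ∉ F → h x ∉ F ∪ A ∪ S := by
    intro x hx hxF
    apply h3
    simp only [Set.Finite.mem_toFinset]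
    exact ⟨hx, hxF⟩
  obtain ⟨k, k1, k2, k3⟩ := exists_move (hS.inter_of_left F).toFinset (h '' (S \ F)) A
    ((hS.sdiff (t := F)).image h) hA (by
      intro x hx
      simp only [Set.Finite.mem_toFinset] at hx
      rintro ⟨y, ⟨hy1, hy2⟩, hyx⟩
      apply h3' y hy1 hy2
      rw [hyx]
      exact Or.inr hx.1)
  have k3' : ∀ x ∈ S, x ∈ F → k x ∉ A := by
    intro x hx hxF
    apply k3
    simp only [Set.Finite.mem_toFinset]
    exact ⟨hx, hxF⟩
  have hr : ∀ x ∈ S, (k * h) x ∉ A := by
    intro x hx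
    rw [Perm.mul_apply]
    by_cases hxF : x ∈ F
    · rw [h2 x hxF]
      exact k3' x hx hxF
    · rw [k2 _ ⟨x, ⟨hx, hxF⟩, rfl⟩]
      intro h'
      exact h3' x hx hxF (Or.inl (Or.inr h'))
  have hoff2 : Off l.prod (S \ F) := by
    intro x hx
    by_cases hxF : x ∈ F
    · exact hyF x hxF
    · exact hoff x (fun h' => hx ⟨h', hxF⟩)
  have hagree : (k * h) * l.prod * (k * h)⁻¹ = h * l.prod * h⁻¹ := by
    apply conj_eq_of_agree hoff2
    intro x hx
    rw [Perm.mul_apply, k2 _ ⟨x, hx, rfl⟩]
  apply htrick _ h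
  · apply hS.subset
    intro x hx
    by_contra h'
    exact hx (hoff x h')
  · exact h1
  · exact hyF
  · exact h2
  · rw [← hagree, conj_list_prod]
    apply hlist
    · simp
    · intro t ht
      rw [List.mem_map] at ht
      obtain ⟨s, hs, rfl⟩ := ht
      obtain ⟨a, ha, b, hb, c, hc, d, hd, hab, hcd, rfl⟩ := hl s hs
      rw [conj_swap_swap]
      exact ⟨_, _, _, _, hr a ha, hr b hb, hr c hc, hr d hd,
        fun h' => hab ((k * h).injective h'), fun h' => hcd ((k * h).injective h'), rfl⟩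

end Topological

/-- The finitary even permutations have index at most two among the finitary ones. -/
theorem alt_index {X : Type} [DecidableEq X] {x y : Perm X} (hx : {a | x a ≠ a}.Finite)
    (hy : {a | y a ≠ a}.Finite) (hx' : x ∉ alt X) (hy' : y ∉ alt X) : x⁻¹ * y ∈ alt X := by
  have hgen : ∀ a b c d : X, a ≠ b → c ≠ d → swap a b * swap c d ∈ alt X := fun a b c d h1 h2 =>
    Subgroup.subset_closure ⟨a, b, c, d, h1, h2, rfl⟩
  have hconj : ∀ a b : X, ∀ t ∈ alt X, swap a b * t * (swap a b)⁻¹ ∈ alt X := by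
    intro a b t ht
    unfold alt at ht
    induction ht using Subgroup.closure_induction with
    | mem t ht =>
      obtain ⟨p, q, r, s, h1, h2, rfl⟩ := ht
      rw [conj_swap_swap]
      exact hgen _ _ _ _ (fun h => h1 ((swap a b).injective h))
        (fun h => h2 ((swap a b).injective h))
    | one => simp [(alt X).one_mem]
    | mul s t _ _ hs ht =>
      have e : swap a b * (s * t) * (swap a b)⁻¹ =
        (swap a b * s * (swap a b)⁻¹) * (swap a b * t * (swap a b)⁻¹) := by group
      rw [e]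
      exact (alt X).mul_mem hs ht
    | inv t _ ht =>
      have e : swap a b * t⁻¹ * (swap a b)⁻¹ = (swap a b * t * (swap a b)⁻¹)⁻¹ := by group
      rw [e]
      exact (alt X).inv_mem ht
  -- every finitary permutation is even or becomes even after any transposition
  have key : ∀ z : Perm X, z ∈ Subgroup.closure {σ : Perm X | σ.IsSwap} →
      z ∈ alt X ∨ ∀ a b : X, a ≠ b → swap a b * z ∈ alt X := by
    intro z hz
    induction hz using Subgroup.closure_induction with
    | mem t ht =>
      obtain ⟨c, d, hcd, rfl⟩ := ht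
      exact Or.inr (fun a b hab => hgen a b c d hab hcd)
    | one => exact Or.inl (alt X).one_mem
    | mul s t _ _ hs ht =>
      rcases hs with hs | hs
      · rcases ht with ht | ht
        · exact Or.inl ((alt X).mul_mem hs ht)
        · right
          intro a b hab
          have e : swap a b * (s * t) = (swap a b * s * (swap a b)⁻¹) * (swap a b * t) := by group
          rw [e]
          exact (alt X).mul_mem (hconj a b s hs) (ht a b hab)
      · rcases ht with ht | ht
        · right
          intro a b hab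
          rw [← mul_assoc]
          exact (alt X).mul_mem (hs a b hab) ht
        · by_cases hsub : ∃ a b : X, a ≠ b
          · left
            obtain ⟨a, b, hab⟩ := hsub
            have e : s * t = (swap a b)⁻¹ * ((swap a b * s) * (swap a b)⁻¹⁻¹⁻¹) *
                ((swap a b) * t) := by group
            have e2 : s * t = (swap a b * (swap a b * s) * (swap a b)⁻¹) * (swap a b * t) := by
              calc s * t = (swap a b * swap a b) * s * t := by rw [swap_mul_self, one_mul]
                _ = _ := by group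
            rw [e2]
            exact (alt X).mul_mem (hconj a b _ (hs a b hab)) (ht a b hab)
          · left
            have : s * t = 1 := by
              apply Equiv.ext
              intro a
              by_contra hne
              exact hsub ⟨_, _, hne⟩
            rw [this]
            exact (alt X).one_mem
    | inv t _ ht =>
      rcases ht with ht | ht
      · exact Or.inl ((alt X).inv_mem ht)
      · right
        intro a b hab
        have h1 := (alt X).inv_mem (ht a b hab)
        have h2 := hconj a b _ h1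
        have e : swap a b * (swap a b * t)⁻¹ * (swap a b)⁻¹ = swap a b * t⁻¹ := by
          rw [mul_inv_rev, swap_inv]
          calc swap a b * (t⁻¹ * swap a b) * swap a b
              = swap a b * t⁻¹ * (swap a b * swap a b) := by group
            _ = swap a b * t⁻¹ := by rw [swap_mul_self, mul_one]
        rwa [e] at h2
  have hx1 := key x (by
    rw [mem_closure_isSwap']
    exact hx)
  have hy1 := key y (by
    rw [mem_closure_isSwap']
    exact hy)
  rcases hx1 with h | hx1
  · exact absurd h hx'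
  rcases hy1 with h | hy1
  · exact absurd h hy'
  by_cases hsub : ∃ a b : X, a ≠ b
  · obtain ⟨a, b, hab⟩ := hsub
    have := (alt X).mul_mem ((alt X).inv_mem (hx1 a b hab)) (hy1 a b hab)
    have e : (swap a b * x)⁻¹ * (swap a b * y) = x⁻¹ * y := by group
    rwa [e] at this
  · have : x⁻¹ * y = 1 := by
      apply Equiv.ext
      intro a
      by_contra hne
      exact hsub ⟨_, _, hne⟩
    rw [this]
    exact (alt X).one_mem

end Pool.Agent.Helper505.Sinf
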