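import Mathlib
import Pool.Agent.Helper505.SinfBasic
import Pool.Agent.Helper505.SinfGaughan
import Pool.Agent.Helper505.SinfBlocks
import Pool.Agent.Helper505.SinfComm

set_option autoImplicit false

open Filter Topology Equiv Equiv.Perm

namespace Pool.Agent.Helper505.Sinf

theorem cm_sg_rf_inv_apply (z : ℤ) (i : ℕ) : (cm sg rf)⁻¹ (z, i) = (z - 2, i) := by
  rw [Perm.inv_eq_iff_eq, cm_sg_rf_apply]
  simp

open Classical in
/-- The permutation acting as `π` on the even nonnegative columns. -/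
noncomputable def tel (π : Perm ℕ) : Perm Zt :=
  Equiv.prodCongrRight (fun z : ℤ => if 0 ≤ z ∧ Even z then π else 1)

theorem tel_apply (π : Perm ℕ) (z : ℤ) (i : ℕ) (h : 0 ≤ z ∧ Even z) : tel π (z, i) = (z, π i) := by
  unfold tel
  rw [Equiv.prodCongrRight_apply, if_pos h]

theorem tel_apply' (π : Perm ℕ) (z : ℤ) (i : ℕ) (h : ¬ (0 ≤ z ∧ Even z)) :
    tel π (z, i) = (z, i) := by
  unfold tel
  rw [Equiv.prodCongrRight_apply, if_neg h]
  rfl

theorem tel_inv_apply (π : Perm ℕ) (z : ℤ) (i : ℕ) (h : 0 ≤ z ∧ Even z) :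
    (tel π)⁻¹ (z, i) = (z, π⁻¹ i) := by
  rw [Perm.inv_eq_iff_eq, tel_apply _ _ _ h, app_inv]

theorem tel_inv_apply' (π : Perm ℕ) (z : ℤ) (i : ℕ) (h : ¬ (0 ≤ z ∧ Even z)) :
    (tel π)⁻¹ (z, i) = (z, i) := by
  rw [Perm.inv_eq_iff_eq, tel_apply' _ _ _ h]

theorem cm_tel_zero (π : Perm ℕ) (i : ℕ) : cm (tel π) (cm sg rf) (0, i) = (0, π i) := by
  unfold cm
  rw [Perm.mul_apply]
  change (tel π * cm sg rf * (tel π)⁻¹) ((cm sg rf)⁻¹ (0, i)) = _
  rw [cm_sg_rf_inv_apply, Perm.mul_apply, tel_inv_apply' _ _ _ (by omega), Perm.mul_apply,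
    cm_sg_rf_apply]
  simp only [zero_sub, neg_add_cancel]
  rw [tel_apply _ _ _ ⟨le_refl _, Even.zero⟩]

theorem cm_tel_ne (π : Perm ℕ) (z : ℤ) (hz : z ≠ 0) (i : ℕ) :
    cm (tel π) (cm sg rf) (z, i) = (z, i) := by
  unfold cm
  rw [Perm.mul_apply]
  change (tel π * cm sg rf * (tel π)⁻¹) ((cm sg rf)⁻¹ (z, i)) = _
  rw [cm_sg_rf_inv_apply, Perm.mul_apply, Perm.mul_apply]
  by_cases h : 0 ≤ z ∧ Even z
  · have h' : 0 ≤ z - 2 ∧ Even (z - 2) := by
      obtain ⟨h1, k, hk⟩ := h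
      refine ⟨by omega, k - 1, by omega⟩
    rw [tel_inv_apply _ _ _ h', cm_sg_rf_apply, sub_add_cancel, tel_apply _ _ _ h, app_inv]
  · have h' : ¬ (0 ≤ z - 2 ∧ Even (z - 2)) := by
      rintro ⟨h1, k, hk⟩
      exact h ⟨by omega, k + 1, by omega⟩
    rw [tel_inv_apply' _ _ _ h', cm_sg_rf_apply, sub_add_cancel, tel_apply' _ _ _ h]

/-- A neighbourhood for the three factors of the iterated commutator. -/
theorem exists_three {G : Type} [Group G] [TopologicalSpace G] [IsTopologicalGroup G] (h : G)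
    (U : Set G) (hU : U ∈ 𝓝 (1 : G)) : ∃ V ∈ 𝓝 (1 : G), ∀ v ∈ V, ∀ c ∈ V, ∀ c' ∈ V,
      h * cm v (cm c c') * h⁻¹ ∈ U := by
  have hc : Continuous (fun p : G × G × G => h * cm p.1 (cm p.2.1 p.2.2) * h⁻¹) := by
    simp only [cm]
    fun_prop
  have ht := hc.tendsto (1, 1, 1)
  have e : h * cm (1 : G) (cm 1 1) * h⁻¹ = 1 := by simp [cm]
  simp only [e] at ht
  have := ht hU
  rw [nhds_prod_eq, nhds_prod_eq, mem_map, mem_prod_iff] at this
  obtain ⟨V₁, hV₁, W, hW, h1⟩ := this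
  rw [mem_prod_iff] at hW
  obtain ⟨V₂, hV₂, V₃, hV₃, h2⟩ := hW
  refine ⟨V₁ ∩ (V₂ ∩ V₃), inter_mem hV₁ (inter_mem hV₂ hV₃), ?_⟩
  intro v hv c hc c' hc'
  exact h1 (Set.mk_mem_prod hv.1 (h2 (Set.mk_mem_prod hc.2.1 hc'.2.2)))

/-- The partition of `X` with members containing `E_u` and its translate. -/
theorem exists_partition {X : Type} {g : Nd → Perm X} {E : Nd × Zt ↪ X} (hE : Good g E) :
    ∃ C : X → Nd, (∀ i, C (E i) = i.1) ∧ (∀ i, C (g i.1 (E i)) = i.1) ∧
      ∀ u, (C ⁻¹' {u}).Infinite := by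
  classical
  let C : X → Nd := fun x => if h : ∃ i : Nd × Zt, x = E i ∨ x = g i.1 (E i) then
    h.choose.1 else []
  have huniq : ∀ (x : X) (i j : Nd × Zt), (x = E i ∨ x = g i.1 (E i)) →
      (x = E j ∨ x = g j.1 (E j)) → i = j := by
    intro x i j hi hj
    by_contra hne
    rcases hi with hi | hi <;> rcases hj with hj | hj
    · exact hne (E.injective (hi.symm.trans hj))
    · exact hE.r1 j.1 j i (Ne.symm hne) (hj.symm.trans hi)
    · exact hE.r1 i.1 i j hne (hi.symm.trans hj)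
    · exact hE.r3 i j hne (hi.symm.trans hj)
  have hC : ∀ (x : X) (i : Nd × Zt), (x = E i ∨ x = g i.1 (E i)) → C x = i.1 := by
    intro x i hi
    have h : ∃ i : Nd × Zt, x = E i ∨ x = g i.1 (E i) := ⟨i, hi⟩
    have h1 : C x = h.choose.1 := dif_pos h
    rw [h1, huniq x _ i h.choose_spec hi]
  refine ⟨C, fun i => hC _ i (Or.inl rfl), fun i => hC _ i (Or.inr rfl), fun u => ?_⟩
  have hinj : Function.Injective (fun y : Zt => E (u, y)) := by
    intro i j h
    have := E.injective h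
    simpa using this
  apply (Set.infinite_range_of_injective hinj).mono
  rintro _ ⟨y, rfl⟩
  exact hC _ (u, y) (Or.inl rfl)

/-- The partition of `X` whose members are the special columns of the translated blocks. -/
theorem exists_columns {X : Type} {g : Nd → Perm X} {E : Nd × Zt ↪ X} (hE : Good g E) :
    ∃ b : X → Nd, (∀ x u, u ≠ [] → b x = u → ∃ i : ℕ, x = g u (E (u, ((0 : ℤ), i)))) ∧
      ∀ u, (b ⁻¹' {u}).Infinite := by
  classical
  let b : X → Nd := fun x => if h : ∃ i : Nd × ℕ, x = g i.1 (E (i.1, ((0 : ℤ), i.2))) then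
    h.choose.1 else []
  have hb1 : ∀ i : Nd × ℕ, b (g i.1 (E (i.1, ((0 : ℤ), i.2)))) = i.1 := by
    intro i
    have h : ∃ j : Nd × ℕ, g i.1 (E (i.1, ((0 : ℤ), i.2))) = g j.1 (E (j.1, ((0 : ℤ), j.2))) :=
      ⟨i, rfl⟩
    have : b (g i.1 (E (i.1, ((0 : ℤ), i.2)))) = h.choose.1 := dif_pos h
    rw [this]
    by_contra hne
    have hne' : (i.1, ((0 : ℤ), i.2)) ≠ (h.choose.1, ((0 : ℤ), h.choose.2)) := by
      intro h'
      exact hne (Prod.mk.inj h').1.symm
    exact hE.r3 _ _ hne' h.choose_spec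
  refine ⟨b, ?_, ?_⟩
  · intro x u hu hx
    by_cases h : ∃ i : Nd × ℕ, x = g i.1 (E (i.1, ((0 : ℤ), i.2)))
    · obtain ⟨⟨v, y⟩, rfl⟩ := h
      rw [hb1] at hx
      simp only at hx
      subst hx
      exact ⟨y, rfl⟩
    · have : b x = [] := dif_neg h
      rw [this] at hx
      exact absurd hx.symm hu
  · intro u
    have hinj : Function.Injective (fun i : ℕ => g u (E (u, ((0 : ℤ), i)))) := by
      intro i j h
      have := E.injective ((g u).injective h)
      simpa using this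
    apply (Set.infinite_range_of_injective hinj).mono
    rintro _ ⟨y, rfl⟩
    exact hb1 (u, y)

/-- The pointwise form of the main commutator computation. -/
theorem node_realises {X : Type} {g : Nd → Perm X} {E : Nd × Zt ↪ X} (hE : Good g E) (u : Nd)
    (p : Perm X) (hp : Off p (Set.range (fun i : ℕ => g u (E (u, ((0 : ℤ), i))))))
    (w₂ : Perm X) (hw₂ : Off w₂ (E '' {i | i.1 = u})) :
    ∃ F : Perm X, Off F (g u '' (E '' {i | i.1 = u})) ∧
      cm F ((g u * Phi E (Pi.mulSingle u (cm sg rf)) * (g u)⁻¹) * w₂) = p := by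
  classical
  have hinj : Function.Injective (fun i : ℕ => g u (E (u, ((0 : ℤ), i)))) := by
    intro i j h
    have := E.injective ((g u).injective h)
    simpa using this
  obtain ⟨π, hπ⟩ := perm_restrict _ hinj p hp
  have off : ∀ s : Perm Zt, Off (Phi E (Pi.mulSingle u s)) (E '' {i | i.1 = u}) := by
    intro s
    apply (Phi_off E _).mono
    rintro _ ⟨i, hi, rfl⟩
    refine ⟨i, ?_, rfl⟩
    by_contra hne
    exact hi (Pi.mulSingle_eq_of_ne hne _)
  refine ⟨g u * Phi E (Pi.mulSingle u (tel π)) * (g u)⁻¹, (off _).conj (g u), ?_⟩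
  have hcomm : Commute w₂ (g u * Phi E (Pi.mulSingle u (tel π)) * (g u)⁻¹) := by
    apply hw₂.commute ((off _).conj (g u))
    rintro x ⟨i, hi, rfl⟩ ⟨_, ⟨j, hj, rfl⟩, hij⟩
    by_cases h : j = i
    · subst h
      simp only [Set.mem_ofPred_eq] at hj
      have := hE.r2 j
      rw [hj] at this
      exact this hij
    · exact hE.r1 u j i h hij
  have e1 := cm_mul_of_commute (a := g u * Phi E (Pi.mulSingle u (tel π)) * (g u)⁻¹) (b := 1)
    (a' := g u * Phi E (Pi.mulSingle u (cm sg rf)) * (g u)⁻¹) (b' := w₂)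
    (Commute.one_left _) (Commute.one_left _) hcomm
  rw [mul_one] at e1
  rw [e1, cm_conj, ← map_cm]
  have e2 : cm (Pi.mulSingle u (tel π)) (Pi.mulSingle u (cm sg rf)) =
      (Pi.mulSingle u (cm (tel π) (cm sg rf)) : Nd → Perm Zt) := by
    funext j
    by_cases hj : j = u
    · subst hj
      simp [cm]
    · simp [cm, Pi.mulSingle_eq_of_ne hj]
  rw [e2]
  apply Equiv.ext
  intro x
  rw [Perm.mul_apply, Perm.mul_apply]
  by_cases hx : x ∈ Set.range (fun i : ℕ => g u (E (u, ((0 : ℤ), i))))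
  · obtain ⟨i, rfl⟩ := hx
    simp only
    rw [inv_app, Phi_apply, Pi.mulSingle_eq_same, cm_tel_zero]
    exact (hπ i).symm
  · rw [hp x hx]
    by_cases hy : (g u)⁻¹ x ∈ Set.range E
    · obtain ⟨⟨l, z, i⟩, hl⟩ := hy
      rw [← hl, Phi_apply]
      by_cases hlu : l = u
      · subst hlu
        rw [Pi.mulSingle_eq_same]
        have hz : z ≠ 0 := by
          rintro rfl
          apply hx
          refine ⟨i, ?_⟩
          simp only
          rw [hl, app_inv]
        rw [cm_tel_ne _ _ hz, hl, app_inv]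
      · rw [Pi.mulSingle_eq_of_ne hlu]
        simp only [Perm.coe_one, id_eq]
        rw [hl, app_inv]
    · have : (g u)⁻¹ x ∉ E '' {i | i.1 = u} := fun ⟨i, _, hi⟩ => hy ⟨i, hi⟩
      rw [off _ _ this, app_inv]

section Topological

variable {X : Type} [TopologicalSpace (Perm X)] [IsTopologicalGroup (Perm X)]

/-- In every partition into infinite sets some member `S` has all permutations of `S` in a given
neighbourhood of the identity. -/
theorem good_fiber [Countable X] {g : Nd → Perm X} (hg : Tendsto g cofinite (𝓝 1))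
    {E : Nd × Zt ↪ X} (hE : Good g E) (a : X → Nd) (ha : ∀ u, (a ⁻¹' {u}).Infinite)
    (U : Set (Perm X)) (hU : U ∈ 𝓝 (1 : Perm X)) :
    ∃ u, ∀ p : Perm X, Off p (a ⁻¹' {u}) → p ∈ U := by
  classical
  obtain ⟨b, hb2, hbinf⟩ := exists_columns hE
  obtain ⟨h, hh⟩ := exists_match b a hbinf ha
  obtain ⟨V, hV, hVU⟩ := exists_three h U hU
  -- the partition used for fullness
  obtain ⟨C, hC1, hC2, hCinf⟩ := exists_partition hE
  have hfull := eventually_full_partition g hg E hE C hCinf V hV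
  have hne : ∀ᶠ u : Nd in cofinite, u ≠ [] :=
    (Set.finite_singleton ([] : Nd)).compl_mem_cofinite
  have hgood := hfull.and hne
  obtain ⟨u, hu, c, hc, c', hc', w₂, hw₂, hw⟩ := exists_node hg hE V hV _ hgood
  simp only [Set.mem_compl_iff, Set.mem_ofPred_eq, not_not] at hu
  obtain ⟨hu1, hu2⟩ := hu
  refine ⟨u, fun p hp => ?_⟩
  -- transport p
  have hp' : Off (h⁻¹ * p * h) (Set.range (fun i : ℕ => g u (E (u, ((0 : ℤ), i))))) := by
    intro x hx
    have : a (h x) ≠ u := by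
      rw [hh]
      intro hbx
      obtain ⟨y, rfl⟩ := hb2 x u hu2 hbx
      exact hx ⟨y, rfl⟩
    rw [Perm.mul_apply, Perm.mul_apply, hp _ this, inv_app]
  obtain ⟨F, hF, hFp⟩ := node_realises hE u _ hp' w₂ hw₂
  have hFC : Off F (C ⁻¹' {u}) := by
    apply hF.mono
    rintro _ ⟨_, ⟨i, hi, rfl⟩, rfl⟩
    simp only [Set.mem_ofPred_eq] at hi
    have := hC2 i
    rw [hi] at this
    exact this
  obtain ⟨v, hv, hvF⟩ := hu1 F hFC
  have hwC : Off (cm c c') (C ⁻¹' {u}) := by
    rw [hw]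
    apply Off.mul
    · have off : Off (Phi E (Pi.mulSingle u (cm sg rf))) (E '' {i | i.1 = u}) := by
        apply (Phi_off E _).mono
        rintro _ ⟨i, hi, rfl⟩
        refine ⟨i, ?_, rfl⟩
        by_contra hne
        exact hi (Pi.mulSingle_eq_of_ne hne _)
      apply (off.conj (g u)).mono
      rintro _ ⟨_, ⟨i, hi, rfl⟩, rfl⟩
      simp only [Set.mem_ofPred_eq] at hi
      have := hC2 i
      rw [hi] at this
      exact this
    · apply hw₂.mono
      rintro _ ⟨i, hi, rfl⟩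
      have := hC1 i
      rw [Set.mem_preimage, this]
      exact hi
  have hconj : v * cm c c' * v⁻¹ = F * cm c c' * F⁻¹ := conj_eq_of_agree hwC hvF
  have hcm : cm v (cm c c') = h⁻¹ * p * h := by
    have h1 : cm v (cm c c') = (v * cm c c' * v⁻¹) * (cm c c')⁻¹ := rfl
    have h2 : cm F (cm c c') = (F * cm c c' * F⁻¹) * (cm c c')⁻¹ := rfl
    rw [h1, hconj, ← h2, hw]
    exact hFp
  have := hVU v hv c hc c' hc'
  rw [hcm] at this
  have e : h * (h⁻¹ * p * h) * h⁻¹ = p := by group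
  rwa [e] at this

end Topological

end Pool.Agent.Helper505.Sinf
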