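import Mathlib
import Pool.Agent.Helper505.SinfBasic
import Pool.Agent.Helper505.SinfGaughan
import Pool.Agent.Helper505.SinfBlocks
import Pool.Agent.Helper505.SinfComm
import Pool.Agent.Helper505.SinfMain

set_option autoImplicit false

open Filter Topology Equiv Equiv.Perm

namespace Pool.Agent.Helper505.Sinf

theorem pre_injective (α : ℕ → Bool) : Function.Injective (pre α) := by
  intro k k' h
  have := congrArg List.length h
  rwa [pre_length, pre_length] at this

/-- An almost disjoint family of moieties. -/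
theorem exists_ad {X : Type} [Countable X] [Infinite X] : ∃ A : (ℕ → Bool) → Set X,
    (∀ α, (A α).Infinite) ∧ (∀ α, (A α)ᶜ.Infinite) ∧ ∀ α β, α ≠ β → (A α ∩ A β).Finite := by
  obtain ⟨θ⟩ : Nonempty (Nd ≃ X) := nonempty_equiv_of_countable
  refine ⟨fun α => Set.range (fun k => θ (pre α k)), ?_, ?_, ?_⟩
  · intro α
    exact Set.infinite_range_of_injective (θ.injective.comp (pre_injective α))
  · intro α
    have hinj : Function.Injective (fun k => θ (pre (fun i => !α i) (k + 1))) := by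
      intro k k' h
      have := pre_injective _ (θ.injective h)
      omega
    apply (Set.infinite_range_of_injective hinj).mono
    rintro _ ⟨k, rfl⟩ ⟨k', h⟩
    have h1 : pre α k' = pre (fun i => !α i) (k + 1) := θ.injective h
    have h2 : k' = k + 1 := by
      have := congrArg List.length h1
      rwa [pre_length, pre_length] at this
    rw [h2, pre_eq_iff] at h1
    have := h1 0 (by omega)
    simp at this
  · intro α β hne
    obtain ⟨k, hk⟩ : ∃ k, α k ≠ β k := by
      by_contra h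
      simp only [not_exists, not_not] at h
      exact hne (funext h)
    apply ((Set.finite_Iic k).image (fun m => θ (pre α m))).subset
    rintro x ⟨⟨m, rfl⟩, ⟨m', h⟩⟩
    have h1 : pre β m' = pre α m := θ.injective h
    have h2 : m' = m := by
      have := congrArg List.length h1
      rwa [pre_length, pre_length] at this
    subst h2
    rw [pre_eq_iff] at h1
    refine ⟨m', ?_, rfl⟩
    rw [Set.mem_Iic]
    by_contra hlt
    exact hk (h1 k (by omega)).symm

theorem exists_half {X : Type} (R : Set X) (hR : R.Infinite) :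
    ∃ T ⊆ R, T.Infinite ∧ (R \ T).Infinite := by
  let φ := hR.natEmbedding
  have h1 : Function.Injective (fun n : ℕ => (φ (2 * n) : X)) := by
    intro m n h
    have := φ.injective (Subtype.ext h)
    omega
  have h2 : Function.Injective (fun n : ℕ => (φ (2 * n + 1) : X)) := by
    intro m n h
    have := φ.injective (Subtype.ext h)
    omega
  refine ⟨Set.range (fun n : ℕ => (φ (2 * n) : X)), ?_, Set.infinite_range_of_injective h1, ?_⟩
  · rintro _ ⟨n, rfl⟩
    exact (φ (2 * n)).2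
  · apply (Set.infinite_range_of_injective h2).mono
    rintro _ ⟨n, rfl⟩
    refine ⟨(φ (2 * n + 1)).2, ?_⟩
    rintro ⟨m, hm⟩
    have := φ.injective (Subtype.ext hm)
    omega

section Topological

variable {X : Type} [TopologicalSpace (Perm X)] [IsTopologicalGroup (Perm X)]

/-- For every moiety, almost all of its symmetric group is small. -/
theorem moiety_good [Countable X] [Infinite X] [FirstCountableTopology (Perm X)]
    {g : Nd → Perm X} (hg : Tendsto g cofinite (𝓝 1))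
    {E : Nd × Zt ↪ X} (hE : Good g E) (X₀ : Set X) (h0 : X₀.Infinite) (h0' : X₀ᶜ.Infinite)
    (U : Set (Perm X)) (hU : U ∈ 𝓝 (1 : Perm X)) :
    ∃ F : Set X, F.Finite ∧ ∀ p : Perm X, Off p (X₀ \ F) → p ∈ U := by
  classical
  by_contra hcon
  simp only [not_exists, not_and, not_forall] at hcon
  obtain ⟨A, hA1, hA2, hA3⟩ := exists_ad (X := X)
  have hmatch : ∀ α, ∃ h : Perm X, ∀ x, h x ∈ X₀ ↔ x ∈ A α := by
    intro α
    obtain ⟨u, -, hu⟩ := exists_match_in (Set.univ) (A α) X₀ (by simpa using hA1 α)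
      (by rw [← Set.compl_eq_univ_sdiff]; exact hA2 α) (by simpa using h0)
      (by rw [← Set.compl_eq_univ_sdiff]; exact h0')
    exact ⟨u, fun x => hu x trivial⟩
  choose h hh using hmatch
  obtain ⟨V, hV⟩ := (𝓝 (1 : Perm X)).exists_antitone_basis
  have hN : ∀ α, ∃ n, ∀ w ∈ V n, h α * w * (h α)⁻¹ ∈ U := by
    intro α
    have hc : Continuous (fun w : Perm X => h α * w * (h α)⁻¹) := by fun_prop
    have ht := hc.tendsto 1
    simp only [mul_one, mul_inv_cancel] at ht
    obtain ⟨n, hn⟩ := hV.mem_iff.mp (ht hU)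
    exact ⟨n, fun w hw => hn hw⟩
  choose N hN using hN
  obtain ⟨n, hn⟩ : ∃ n, {α | N α = n}.Infinite := by
    by_contra hc
    simp only [not_exists, Set.not_infinite] at hc
    have : (Set.univ : Set (ℕ → Bool)).Countable := by
      have h1 : (Set.univ : Set (ℕ → Bool)) = ⋃ n : ℕ, {α | N α = n} := by
        ext α
        simp
      rw [h1]
      exact Set.countable_iUnion (fun T => (hc T).countable)
    exact not_countable_bool (Set.countable_univ_iff.mp this)
  let φ := hn.natEmbedding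
  let al : ℕ → (ℕ → Bool) := fun j => (φ j).1
  have hal1 : ∀ j, N (al j) = n := fun j => (φ j).2
  have hal2 : Function.Injective al := fun i j hij => φ.injective (Subtype.ext hij)
  obtain ⟨ε⟩ : Nonempty (ℕ ≃ Nd) := nonempty_equiv_of_countable
  let a : X → Nd := fun x => ε (if h : ∃ j, x ∈ A (al j) then Nat.find h else 0)
  have ha : ∀ j x, x ∈ A (al j) → (∀ i < j, x ∉ A (al i)) → a x = ε j := by
    intro j x hx hx'
    have hex : ∃ j, x ∈ A (al j) := ⟨j, hx⟩
    have h1 : a x = ε (Nat.find hex) := by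
      change ε (if h : ∃ j, x ∈ A (al j) then Nat.find h else 0) = _
      rw [dif_pos hex]
    rw [h1]
    congr 1
    apply le_antisymm (Nat.find_min' hex hx)
    by_contra hlt
    exact hx' _ (not_le.mp hlt) (Nat.find_spec hex)
  have hfin : ∀ j, (A (al j) ∩ ⋃ i : Fin j, A (al i)).Finite := by
    intro j
    rw [Set.inter_iUnion]
    apply Set.finite_iUnion
    intro i
    apply hA3
    intro hij
    have := hal2 hij
    have := i.2
    omega
  have hsub : ∀ j, A (al j) \ (A (al j) ∩ ⋃ i : Fin j, A (al i)) ⊆ a ⁻¹' {ε j} := by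
    rintro j x ⟨hx, hx'⟩
    apply ha j x hx
    intro i hi hxi
    exact hx' ⟨hx, Set.mem_iUnion.mpr ⟨⟨i, hi⟩, hxi⟩⟩
  have hinf : ∀ u, (a ⁻¹' {u}).Infinite := by
    intro u
    obtain ⟨j, rfl⟩ := ε.surjective u
    exact ((hA1 _).sdiff (hfin j)).mono (hsub j)
  obtain ⟨u, hu⟩ := good_fiber hg hE a hinf (V n) (hV.mem n)
  obtain ⟨j, rfl⟩ := ε.surjective u
  obtain ⟨p, hp, hpU⟩ := hcon (h (al j) '' (A (al j) ∩ ⋃ i : Fin j, A (al i)))
    ((hfin j).image _)
  apply hpU
  have hp' : Off ((h (al j))⁻¹ * p * h (al j)) (a ⁻¹' {ε j}) := by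
    apply Off.mono _ (hsub j)
    intro x hx
    rw [Perm.mul_apply, Perm.mul_apply, hp, inv_app]
    rintro ⟨h1, h2⟩
    apply hx
    refine ⟨(hh _ x).mp h1, fun h3 => h2 ⟨x, h3, rfl⟩⟩
  have h1 := hu _ hp'
  have h2 := hN (al j) _ (by rw [hal1]; exact h1)
  have e : h (al j) * ((h (al j))⁻¹ * p * h (al j)) * (h (al j))⁻¹ = p := by group
  rwa [e] at h2

end Topological

/-- The decomposition of permutations used to pass from moieties to cofinite sets. -/
theorem decomp {X : Type} [Countable X] (S₀ S₁ S₂ F : Set X)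
    (h01 : ∀ x, x ∈ S₀ → x ∈ S₁ → False)
    (h12 : ∀ x, x ∈ S₁ → x ∈ S₂ → False)
    (hS₀ : S₀.Infinite) (hS₁ : S₁.Infinite) (hS₂ : S₂.Infinite)
    (hcov : ∀ x, x ∉ F ↔ x ∈ S₀ ∨ x ∈ S₁ ∨ x ∈ S₂)
    (f : Perm X) (hf : ∀ x ∈ F, f x = x) (hinf : ((S₁ ∪ S₂) \ (f '' S₀)).Infinite) :
    ∃ v₁ v₂ v₃ : Perm X, Off v₁ (S₁ ∪ S₂) ∧ Off v₂ (S₀ ∪ S₁) ∧ Off v₃ (S₁ ∪ S₂) ∧
      f = v₁ * v₂ * v₃ := by
  classical
  obtain ⟨T, hTR, hT, hRT⟩ := exists_half _ hinf
  obtain ⟨u, hu, hu'⟩ := exists_match_in (S₁ ∪ S₂) T S₂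
    (by
      apply hT.mono
      intro x hx
      exact ⟨(hTR hx).1, hx⟩)
    (by
      apply hRT.mono
      intro x hx
      exact ⟨hx.1.1, hx.2⟩)
    (by
      apply hS₂.mono
      intro x hx
      exact ⟨Or.inr hx, hx⟩)
    (by
      apply hS₁.mono
      intro x hx
      exact ⟨Or.inl hx, fun h => h12 x hx h⟩)
  have hfF : ∀ x, x ∉ F → f x ∉ F := by
    intro x hx h
    have := f.injective (hf _ h)
    rw [this] at h
    exact hx h
  -- the image set
  have hQ : ∀ y ∈ S₀, u (f y) ∈ S₀ ∪ S₁ := by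
    intro y hy
    have hyF : y ∉ F := (hcov y).mpr (Or.inl hy)
    by_cases h : f y ∈ S₁ ∪ S₂
    · have h1 : f y ∉ T := fun h' => (hTR h').2 ⟨y, hy, rfl⟩
      have h2 : u (f y) ∉ S₂ := fun h' => h1 ((hu' _ h).mp h')
      have h3 : u (f y) ∈ S₁ ∪ S₂ := (hu.mem_iff _).mpr h
      rcases h3 with h3 | h3
      · exact Or.inr h3
      · exact absurd h3 h2
    · rw [hu _ h]
      rcases (hcov (f y)).mp (hfF y hyF) with h' | h' | h'
      · exact Or.inl h'
      · exact absurd (Or.inl h') h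
      · exact absurd (Or.inr h') h
  obtain ⟨u₂, hu₂, hu₂'⟩ := exists_match_in (S₀ ∪ S₁) (u '' (f '' S₀)) S₀
    (by
      have : ((u '' (f '' S₀))).Infinite :=
        (hS₀.image f.injective.injOn).image u.injective.injOn
      apply this.mono
      rintro _ ⟨_, ⟨y, hy, rfl⟩, rfl⟩
      exact ⟨hQ y hy, ⟨_, ⟨y, hy, rfl⟩, rfl⟩⟩)
    (by
      have : (u '' (((S₁ ∪ S₂) \ (f '' S₀)) \ T)).Infinite := hRT.image u.injective.injOn
      apply this.mono
      rintro _ ⟨x, ⟨⟨hx1, hx2⟩, hx3⟩, rfl⟩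
      have h2 : u x ∉ S₂ := fun h' => hx3 ((hu' _ hx1).mp h')
      have h3 : u x ∈ S₁ ∪ S₂ := (hu.mem_iff _).mpr hx1
      refine ⟨?_, ?_⟩
      · rcases h3 with h3 | h3
        · exact Or.inr h3
        · exact absurd h3 h2
      · rintro ⟨y, hy, hyx⟩
        rw [u.injective hyx] at hy
        exact hx2 hy)
    (by
      apply hS₀.mono
      intro x hx
      exact ⟨Or.inl hx, hx⟩)
    (by
      apply hS₁.mono
      intro x hx
      exact ⟨Or.inr hx, fun h => h01 x h hx⟩)
  have hf3 : ∀ x, (u₂ * u * f) x ∈ S₀ ↔ x ∈ S₀ := by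
    intro x
    rw [Perm.mul_apply, Perm.mul_apply]
    constructor
    · intro h
      have h1 : u (f x) ∈ S₀ ∪ S₁ := (hu₂.mem_iff _).mp (Or.inl h)
      obtain ⟨y, ⟨z, hz, rfl⟩, hy⟩ := (hu₂' _ h1).mp h
      have := f.injective (u.injective hy)
      rw [← this]
      exact hz
    · intro h
      exact (hu₂' _ (hQ x h)).mpr ⟨_, ⟨x, h, rfl⟩, rfl⟩
  let f' : Perm X := Perm.ofSubtype ((u₂ * u * f).subtypePerm (p := fun x => x ∈ S₀) hf3)
  have hf'1 : ∀ x ∈ S₀, f' x = (u₂ * u * f) x := by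
    intro x hx
    exact Perm.ofSubtype_apply_of_mem _ hx
  have hf'2 : Off f' S₀ := by
    intro x hx
    exact Perm.ofSubtype_apply_of_not_mem _ hx
  refine ⟨u⁻¹, u₂⁻¹ * f', f'⁻¹ * (u₂ * u * f), hu.inv, hu₂.inv.mul (hf'2.mono Set.subset_union_left),
    ?_, ?_⟩
  · intro x hx
    rw [Perm.mul_apply, Perm.inv_eq_iff_eq]
    by_cases h : x ∈ S₀
    · exact (hf'1 x h).symm
    · rw [hf'2 x h]
      have hxF : x ∈ F := by
        by_contra hxF
        rcases (hcov x).mp hxF with h' | h' | h'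
        · exact h h'
        · exact hx (Or.inl h')
        · exact hx (Or.inr h')
      rw [Perm.mul_apply, Perm.mul_apply, hf x hxF, hu x hx]
      apply hu₂
      rintro (h' | h')
      · exact h h'
      · exact hx (Or.inl h')
  · group

section Topological

variable {X : Type} [TopologicalSpace (Perm X)] [IsTopologicalGroup (Perm X)]

/-- If every neighbourhood of the identity contains a permutation of infinite support, then the
topology is coarser than the topology of pointwise convergence. -/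
theorem stab_good [Countable X] [Infinite X] [FirstCountableTopology (Perm X)] [T2Space (Perm X)]
    (hinf : ∀ V ∈ 𝓝 (1 : Perm X), ∃ g ∈ V, {x | g x ≠ x}.Infinite)
    (U : Set (Perm X)) (hU : U ∈ 𝓝 (1 : Perm X)) :
    ∃ F : Set X, F.Finite ∧ ∀ p : Perm X, (∀ x ∈ F, p x = x) → p ∈ U := by
  classical
  -- the sequence
  obtain ⟨W, hW⟩ := (𝓝 (1 : Perm X)).exists_antitone_basis
  have hseq : ∀ n, ∃ g ∈ W n, {x | g x ≠ x}.Infinite := fun n => hinf _ (hW.mem n)
  choose g' hg'1 hg'2 using hseq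
  have hlim' : Tendsto g' atTop (𝓝 1) := hW.tendsto hg'1
  obtain ⟨ε⟩ : Nonempty (Nd ≃ ℕ) := nonempty_equiv_of_countable
  let g : Nd → Perm X := fun u => g' (ε u)
  have hg : Tendsto g cofinite (𝓝 1) := by
    have h1 : Tendsto ε cofinite cofinite := ε.injective.tendsto_cofinite
    rw [Nat.cofinite_eq_atTop] at h1
    exact hlim'.comp h1
  have hp : ∀ x, {m | g m x ≠ x}.Finite := by
    intro x
    exact hg (stab_point x)
  obtain ⟨e, he⟩ := exists_good g (fun u => hg'2 _) hp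
  let E : Nd × Zt ↪ X := ⟨e, he.inj⟩
  have hE : Good g E := he
  -- three parts
  obtain ⟨e3⟩ : Nonempty (X ≃ ℕ × Fin 3) := nonempty_equiv_of_countable
  have hS : ∀ i : Fin 3, {x | (e3 x).2 = i}.Infinite := by
    intro i
    have hinj : Function.Injective (fun n : ℕ => e3.symm (n, i)) := by
      intro m n h
      have := e3.symm.injective h
      simpa using this
    apply (Set.infinite_range_of_injective hinj).mono
    rintro _ ⟨n, rfl⟩
    simp
  obtain ⟨V, hV, hVU⟩ := exists_nhds_one_split4 hU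
  obtain ⟨F₁, hF₁, h1⟩ := moiety_good hg hE {x | (e3 x).2 = 0 ∨ (e3 x).2 = 1}
    ((hS 0).mono (fun x hx => Or.inl hx)) ((hS 2).mono (fun x hx => by
      simp only [Set.mem_ofPred_eq] at hx
      simp [hx])) V hV
  obtain ⟨F₂, hF₂, h2⟩ := moiety_good hg hE {x | (e3 x).2 = 1 ∨ (e3 x).2 = 2}
    ((hS 1).mono (fun x hx => Or.inl hx)) ((hS 0).mono (fun x hx => by
      simp only [Set.mem_ofPred_eq] at hx
      simp [hx])) V hV
  have hF : (F₁ ∪ F₂).Finite := hF₁.union hF₂
  refine ⟨F₁ ∪ F₂, hF, fun f hf => ?_⟩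
  set F := F₁ ∪ F₂ with hFdef
  let S : Fin 3 → Set X := fun i => {x | (e3 x).2 = i} \ F
  have hSinf : ∀ i, (S i).Infinite := fun i => (hS i).sdiff hF
  have h01 : ∀ x, x ∈ S 0 → x ∈ S 1 → False := by
    rintro x ⟨hx, _⟩ ⟨hx', _⟩
    simp only [Set.mem_ofPred_eq] at hx hx'
    rw [hx] at hx'
    exact absurd hx' (by decide)
  have h12 : ∀ x, x ∈ S 1 → x ∈ S 2 → False := by
    rintro x ⟨hx, _⟩ ⟨hx', _⟩
    simp only [Set.mem_ofPred_eq] at hx hx'
    rw [hx] at hx'
    exact absurd hx' (by decide)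
  have hcov : ∀ x, x ∉ F ↔ x ∈ S 0 ∨ x ∈ S 1 ∨ x ∈ S 2 := by
    intro x
    constructor
    · intro hx
      have h3 : ∀ j : Fin 3, j = 0 ∨ j = 1 ∨ j = 2 := by decide
      rcases h3 (e3 x).2 with h | h | h
      · exact Or.inl ⟨h, hx⟩
      · exact Or.inr (Or.inl ⟨h, hx⟩)
      · exact Or.inr (Or.inr ⟨h, hx⟩)
    · rintro (h | h | h) <;> exact h.2
  have hV01 : ∀ p : Perm X, Off p (S 0 ∪ S 1) → p ∈ V := by
    intro p hp
    apply h1
    apply hp.mono
    rintro x (⟨hx, hxF⟩ | ⟨hx, hxF⟩)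
    · exact ⟨Or.inl hx, fun h => hxF (Or.inl h)⟩
    · exact ⟨Or.inr hx, fun h => hxF (Or.inl h)⟩
  have hV12 : ∀ p : Perm X, Off p (S 1 ∪ S 2) → p ∈ V := by
    intro p hp
    apply h2
    apply hp.mono
    rintro x (⟨hx, hxF⟩ | ⟨hx, hxF⟩)
    · exact ⟨Or.inl hx, fun h => hxF (Or.inr h)⟩
    · exact ⟨Or.inr hx, fun h => hxF (Or.inr h)⟩
  have hone : (1 : Perm X) ∈ V := mem_of_mem_nhds hV
  by_cases hcase : ((S 1 ∪ S 2) \ (f '' S 0)).Infinite
  · obtain ⟨v₁, v₂, v₃, a1, a2, a3, rfl⟩ := decomp (S 0) (S 1) (S 2) F h01 h12 (hSinf 0)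
      (hSinf 1) (hSinf 2) hcov f hf hcase
    have := hVU (hV12 _ a1) (hV01 _ a2) (hV12 _ a3) hone
    simpa using this
  · rw [Set.not_infinite] at hcase
    obtain ⟨u₀, hu₀, hu₀'⟩ := exists_match_in (S 0 ∪ S 1) (S 0) (S 1)
      ((hSinf 0).mono (fun x hx => ⟨Or.inl hx, hx⟩))
      ((hSinf 1).mono (fun x hx => ⟨Or.inr hx, fun h => h01 x h hx⟩))
      ((hSinf 1).mono (fun x hx => ⟨Or.inr hx, hx⟩))
      ((hSinf 0).mono (fun x hx => ⟨Or.inl hx, fun h => h01 x hx h⟩))
    have hfF : ∀ x, x ∉ F → f x ∉ F := by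
      intro x hx h
      have := f.injective (hf _ h)
      rw [this] at h
      exact hx h
    have hP : (S 0 \ (f '' S 0)).Infinite := by
      intro hfin
      have h3 : (f '' S 1).Infinite := (hSinf 1).image f.injective.injOn
      apply h3
      apply (hfin.union hcase).subset
      rintro _ ⟨x, hx, rfl⟩
      have hx' : f x ∉ f '' S 0 := by
        rintro ⟨y, hy, hyx⟩
        rw [f.injective hyx] at hy
        exact h01 x hy hx
      rcases (hcov (f x)).mp (hfF x hx.2) with h | h | h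
      · exact Or.inl ⟨h, hx'⟩
      · exact Or.inr ⟨Or.inl h, hx'⟩
      · exact Or.inr ⟨Or.inr h, hx'⟩
    have hcase' : ((S 1 ∪ S 2) \ ((u₀ * f : Perm X) '' S 0)).Infinite := by
      have h3 : (u₀ '' (S 0 \ (f '' S 0))).Infinite := hP.image u₀.injective.injOn
      apply h3.mono
      rintro _ ⟨x, ⟨hx, hx'⟩, rfl⟩
      refine ⟨Or.inl ((hu₀' x (Or.inl hx)).mpr hx), ?_⟩
      rintro ⟨y, hy, hyx⟩
      rw [Perm.mul_apply] at hyx
      exact hx' ⟨y, hy, u₀.injective hyx⟩
    have hf' : ∀ x ∈ F, (u₀ * f) x = x := by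
      intro x hx
      rw [Perm.mul_apply, hf x hx]
      apply hu₀
      rintro (h | h) <;> exact h.2 hx
    obtain ⟨v₁, v₂, v₃, a1, a2, a3, a4⟩ := decomp (S 0) (S 1) (S 2) F h01 h12 (hSinf 0)
      (hSinf 1) (hSinf 2) hcov (u₀ * f) hf' hcase'
    have := hVU (hV01 _ hu₀.inv) (hV12 _ a1) (hV01 _ a2) (hV12 _ a3)
    have e : u₀⁻¹ * v₁ * v₂ * v₃ = f := by
      calc u₀⁻¹ * v₁ * v₂ * v₃ = u₀⁻¹ * (v₁ * v₂ * v₃) := by group
        _ = u₀⁻¹ * (u₀ * f) := by rw [a4]
        _ = f := by group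
    rwa [e] at this

end Topological

end Pool.Agent.Helper505.Sinf
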