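import Mathlib

set_option autoImplicit false

namespace Pool.Agent.Helper505.Wr

/-- The group of affine maps of the rational plane with linear part of determinant one: the linear
part is `(a, b; c, d)` and the translation part is `(x, y)`. -/
@[ext]
structure AG where
  a : ℚ
  b : ℚ
  c : ℚ
  d : ℚ
  x : ℚ
  y : ℚ
  det : a * d - b * c = 1

namespace AG

def mul (p q : AG) : AG where
  a := p.a * q.a + p.b * q.c
  b := p.a * q.b + p.b * q.d
  c := p.c * q.a + p.d * q.c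
  d := p.c * q.b + p.d * q.d
  x := p.a * q.x + p.b * q.y + p.x
  y := p.c * q.x + p.d * q.y + p.y
  det := by linear_combination q.det * (p.a * p.d - p.b * p.c) + p.det

def inv (p : AG) : AG where
  a := p.d
  b := -p.b
  c := -p.c
  d := p.a
  x := -(p.d * p.x - p.b * p.y)
  y := -(-p.c * p.x + p.a * p.y)
  det := by linear_combination p.det

instance : Group AG where
  mul := mul
  one := ⟨1, 0, 0, 1, 0, 0, by norm_num⟩
  inv := inv
  mul_assoc p q r := by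
    apply AG.ext
    · show (p.a * q.a + p.b * q.c) * r.a + (p.a * q.b + p.b * q.d) * r.c =
        p.a * (q.a * r.a + q.b * r.c) + p.b * (q.c * r.a + q.d * r.c)
      ring
    · show (p.a * q.a + p.b * q.c) * r.b + (p.a * q.b + p.b * q.d) * r.d =
        p.a * (q.a * r.b + q.b * r.d) + p.b * (q.c * r.b + q.d * r.d)
      ring
    · show (p.c * q.a + p.d * q.c) * r.a + (p.c * q.b + p.d * q.d) * r.c =
        p.c * (q.a * r.a + q.b * r.c) + p.d * (q.c * r.a + q.d * r.c)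
      ring
    · show (p.c * q.a + p.d * q.c) * r.b + (p.c * q.b + p.d * q.d) * r.d =
        p.c * (q.a * r.b + q.b * r.d) + p.d * (q.c * r.b + q.d * r.d)
      ring
    · show (p.a * q.a + p.b * q.c) * r.x + (p.a * q.b + p.b * q.d) * r.y +
          (p.a * q.x + p.b * q.y + p.x) =
        p.a * (q.a * r.x + q.b * r.y + q.x) + p.b * (q.c * r.x + q.d * r.y + q.y) + p.x
      ring
    · show (p.c * q.a + p.d * q.c) * r.x + (p.c * q.b + p.d * q.d) * r.y +
          (p.c * q.x + p.d * q.y + p.y) =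
        p.c * (q.a * r.x + q.b * r.y + q.x) + p.d * (q.c * r.x + q.d * r.y + q.y) + p.y
      ring
  one_mul p := by
    apply AG.ext
    · show 1 * p.a + 0 * p.c = p.a
      ring
    · show 1 * p.b + 0 * p.d = p.b
      ring
    · show 0 * p.a + 1 * p.c = p.c
      ring
    · show 0 * p.b + 1 * p.d = p.d
      ring
    · show 1 * p.x + 0 * p.y + 0 = p.x
      ring
    · show 0 * p.x + 1 * p.y + 0 = p.y
      ring
  mul_one p := by
    apply AG.ext
    · show p.a * 1 + p.b * 0 = p.a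
      ring
    · show p.a * 0 + p.b * 1 = p.b
      ring
    · show p.c * 1 + p.d * 0 = p.c
      ring
    · show p.c * 0 + p.d * 1 = p.d
      ring
    · show p.a * 0 + p.b * 0 + p.x = p.x
      ring
    · show p.c * 0 + p.d * 0 + p.y = p.y
      ring
  inv_mul_cancel p := by
    have h := p.det
    apply AG.ext
    · show p.d * p.a + -p.b * p.c = 1
      linear_combination h
    · show p.d * p.b + -p.b * p.d = 0
      ring
    · show -p.c * p.a + p.a * p.c = 0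
      ring
    · show -p.c * p.b + p.a * p.d = 1
      linear_combination h
    · show p.d * p.x + -p.b * p.y + -(p.d * p.x - p.b * p.y) = 0
      ring
    · show -p.c * p.x + p.a * p.y + -(-p.c * p.x + p.a * p.y) = 0
      ring

theorem mul_a (p q : AG) : (p * q).a = p.a * q.a + p.b * q.c := rfl
theorem mul_b (p q : AG) : (p * q).b = p.a * q.b + p.b * q.d := rfl
theorem mul_c (p q : AG) : (p * q).c = p.c * q.a + p.d * q.c := rfl
theorem mul_d (p q : AG) : (p * q).d = p.c * q.b + p.d * q.d := rfl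
theorem mul_x (p q : AG) : (p * q).x = p.a * q.x + p.b * q.y + p.x := rfl
theorem mul_y (p q : AG) : (p * q).y = p.c * q.x + p.d * q.y + p.y := rfl
theorem inv_a (p : AG) : (p⁻¹).a = p.d := rfl
theorem inv_b (p : AG) : (p⁻¹).b = -p.b := rfl
theorem inv_c (p : AG) : (p⁻¹).c = -p.c := rfl
theorem inv_d (p : AG) : (p⁻¹).d = p.a := rfl
theorem inv_x (p : AG) : (p⁻¹).x = -(p.d * p.x - p.b * p.y) := rfl
theorem inv_y (p : AG) : (p⁻¹).y = -(-p.c * p.x + p.a * p.y) := rfl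
theorem one_a : (1 : AG).a = 1 := rfl
theorem one_b : (1 : AG).b = 0 := rfl
theorem one_c : (1 : AG).c = 0 := rfl
theorem one_d : (1 : AG).d = 1 := rfl
theorem one_x : (1 : AG).x = 0 := rfl
theorem one_y : (1 : AG).y = 0 := rfl

instance : Countable AG := by
  have h : Function.Injective (fun p : AG => (p.a, p.b, p.c, p.d, p.x, p.y)) := by
    intro p q h
    simp only [Prod.mk.injEq] at h
    exact AG.ext h.1 h.2.1 h.2.2.1 h.2.2.2.1 h.2.2.2.2.1 h.2.2.2.2.2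
  exact h.countable

/-- upper unipotent -/
def up (t : ℚ) : AG := ⟨1, t, 0, 1, 0, 0, by ring⟩
/-- lower unipotent -/
def lo (t : ℚ) : AG := ⟨1, 0, t, 1, 0, 0, by ring⟩
/-- rotation -/
def ro : AG := ⟨0, 1, -1, 0, 0, 0, by ring⟩
/-- diagonal -/
def dg (t : ℚ) (h : t ≠ 0) : AG := ⟨t, 0, 0, t⁻¹, 0, 0, by field_simp; ring⟩
/-- translation -/
def tr (x y : ℚ) : AG := ⟨1, 0, 0, 1, x, y, by ring⟩

end AG

open AG

/-- the 2-adic norm -/
noncomputable abbrev v (q : ℚ) : ℚ := padicNorm 2 q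

theorem v_add {q r t : ℚ} (hq : v q ≤ t) (hr : v r ≤ t) : v (q + r) ≤ t :=
  padicNorm.nonarchimedean.trans (max_le hq hr)

theorem v_mul (q r : ℚ) : v (q * r) = v q * v r := padicNorm.mul q r

theorem v_nonneg (q : ℚ) : 0 ≤ v q := padicNorm.nonneg q

theorem v_neg (q : ℚ) : v (-q) = v q := padicNorm.neg q

theorem v_one : v 1 = 1 := padicNorm.one

theorem v_zero : v 0 = 0 := padicNorm.zero

theorem v_two : v 2 = 1 / 2 := by
  have h := padicNorm.padicNorm_p_of_prime (p := 2)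
  simpa using h

theorem v_mul_le {q r t : ℚ} (hq : v q ≤ 1) (hr : v r ≤ t) : v (q * r) ≤ t := by
  rw [v_mul]
  have h1 := v_nonneg q
  have h2 := v_nonneg r
  nlinarith

theorem v_inv (q : ℚ) (hq : q ≠ 0) : v q⁻¹ = (v q)⁻¹ := by
  have h : v (q * q⁻¹) = 1 := by rw [mul_inv_cancel₀ hq, v_one]
  rw [v_mul] at h
  exact eq_inv_of_mul_eq_one_right h

/-- Discreteness: a norm bigger than one is at least two. -/
theorem v_disc {q : ℚ} (hq : ¬ v q ≤ 1) : 2 ≤ v q := by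
  have h0 : q ≠ 0 := by
    rintro rfl
    rw [v_zero] at hq
    norm_num at hq
  obtain ⟨z, hz⟩ := padicNorm.values_discrete (p := 2) h0
  have hz' : v q = (2 : ℚ) ^ (-z) := by simpa using hz
  rw [hz'] at hq ⊢
  have h1 : 0 < -z := by
    by_contra h
    push Not at h
    apply hq
    exact zpow_le_one_of_nonpos₀ (by norm_num) h
  calc (2 : ℚ) = 2 ^ (1 : ℤ) := by norm_num
    _ ≤ 2 ^ (-z) := zpow_le_zpow_right₀ (by norm_num) (by omega)

theorem v_ne_zero {q : ℚ} (hq : ¬ v q ≤ 1) : q ≠ 0 := by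
  rintro rfl
  rw [v_zero] at hq
  norm_num at hq

/-- the integral linear maps -/
def G0 : Subgroup AG where
  carrier := {p | (v p.a ≤ 1 ∧ v p.b ≤ 1 ∧ v p.c ≤ 1 ∧ v p.d ≤ 1) ∧ p.x = 0 ∧ p.y = 0}
  one_mem' := by
    refine ⟨⟨?_, ?_, ?_, ?_⟩, rfl, rfl⟩
    · rw [one_a, v_one]
    · rw [one_b, v_zero]; norm_num
    · rw [one_c, v_zero]; norm_num
    · rw [one_d, v_one]
  mul_mem' := by
    rintro p q ⟨⟨h1, h2, h3, h4⟩, h5, h6⟩ ⟨⟨k1, k2, k3, k4⟩, k5, k6⟩
    refine ⟨⟨?_, ?_, ?_, ?_⟩, ?_, ?_⟩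
    · rw [mul_a]; exact v_add (v_mul_le h1 k1) (v_mul_le h2 k3)
    · rw [mul_b]; exact v_add (v_mul_le h1 k2) (v_mul_le h2 k4)
    · rw [mul_c]; exact v_add (v_mul_le h3 k1) (v_mul_le h4 k3)
    · rw [mul_d]; exact v_add (v_mul_le h3 k2) (v_mul_le h4 k4)
    · rw [mul_x, h5, k5, k6]; ring
    · rw [mul_y, h6, k5, k6]; ring
  inv_mem' := by
    rintro p ⟨⟨h1, h2, h3, h4⟩, h5, h6⟩
    refine ⟨⟨?_, ?_, ?_, ?_⟩, ?_, ?_⟩
    · rw [inv_a]; exact h4
    · rw [inv_b, v_neg]; exact h2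
    · rw [inv_c, v_neg]; exact h3
    · rw [inv_d]; exact h1
    · rw [inv_x, h5, h6]; ring
    · rw [inv_y, h5, h6]; ring

/-- all linear maps -/
def G1 : Subgroup AG where
  carrier := {p | p.x = 0 ∧ p.y = 0}
  one_mem' := ⟨rfl, rfl⟩
  mul_mem' := by
    rintro p q ⟨h5, h6⟩ ⟨k5, k6⟩
    refine ⟨?_, ?_⟩
    · rw [mul_x, h5, k5, k6]; ring
    · rw [mul_y, h6, k5, k6]; ring
  inv_mem' := by
    rintro p ⟨h5, h6⟩
    refine ⟨?_, ?_⟩
    · rw [inv_x, h5, h6]; ring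
    · rw [inv_y, h5, h6]; ring

/-- the intermediate groups -/
def Dk (k : ℕ) : Subgroup AG where
  carrier := {p | (v p.a ≤ 1 ∧ v p.b ≤ 1 ∧ v p.c ≤ 1 ∧ v p.d ≤ 1) ∧ v p.x ≤ (1 / 2) ^ k ∧
    v p.y ≤ (1 / 2) ^ k}
  one_mem' := by
    refine ⟨⟨?_, ?_, ?_, ?_⟩, ?_, ?_⟩
    · rw [one_a, v_one]
    · rw [one_b, v_zero]; norm_num
    · rw [one_c, v_zero]; norm_num
    · rw [one_d, v_one]
    · rw [one_x, v_zero]; positivity
    · rw [one_y, v_zero]; positivity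
  mul_mem' := by
    rintro p q ⟨⟨h1, h2, h3, h4⟩, h5, h6⟩ ⟨⟨k1, k2, k3, k4⟩, k5, k6⟩
    refine ⟨⟨?_, ?_, ?_, ?_⟩, ?_, ?_⟩
    · rw [mul_a]; exact v_add (v_mul_le h1 k1) (v_mul_le h2 k3)
    · rw [mul_b]; exact v_add (v_mul_le h1 k2) (v_mul_le h2 k4)
    · rw [mul_c]; exact v_add (v_mul_le h3 k1) (v_mul_le h4 k3)
    · rw [mul_d]; exact v_add (v_mul_le h3 k2) (v_mul_le h4 k4)
    · rw [mul_x]; exact v_add (v_add (v_mul_le h1 k5) (v_mul_le h2 k6)) h5
    · rw [mul_y]; exact v_add (v_add (v_mul_le h3 k5) (v_mul_le h4 k6)) h6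
  inv_mem' := by
    rintro p ⟨⟨h1, h2, h3, h4⟩, h5, h6⟩
    refine ⟨⟨?_, ?_, ?_, ?_⟩, ?_, ?_⟩
    · rw [inv_a]; exact h4
    · rw [inv_b, v_neg]; exact h2
    · rw [inv_c, v_neg]; exact h3
    · rw [inv_d]; exact h1
    · rw [inv_x, v_neg, sub_eq_add_neg, ← neg_mul]
      exact v_add (v_mul_le h4 h5) (v_mul_le (by rw [v_neg]; exact h2) h6)
    · rw [inv_y, v_neg]
      exact v_add (v_mul_le (by rw [v_neg]; exact h3) h5) (v_mul_le h1 h6)

theorem G0_le_G1 : G0 ≤ G1 := fun _ h => h.2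

theorem up_mem_G0 {t : ℚ} (h : v t ≤ 1) : up t ∈ G0 := by
  refine ⟨⟨?_, h, ?_, ?_⟩, rfl, rfl⟩
  · show v 1 ≤ 1
    rw [v_one]
  · show v 0 ≤ 1
    rw [v_zero]; norm_num
  · show v 1 ≤ 1
    rw [v_one]

theorem lo_mem_G0 {t : ℚ} (h : v t ≤ 1) : lo t ∈ G0 := by
  refine ⟨⟨?_, ?_, h, ?_⟩, rfl, rfl⟩
  · show v 1 ≤ 1
    rw [v_one]
  · show v 0 ≤ 1
    rw [v_zero]; norm_num
  · show v 1 ≤ 1
    rw [v_one]

theorem ro_mem_G0 : ro ∈ G0 := by
  refine ⟨⟨?_, ?_, ?_, ?_⟩, rfl, rfl⟩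
  · show v 0 ≤ 1
    rw [v_zero]; norm_num
  · show v 1 ≤ 1
    rw [v_one]
  · show v (-1) ≤ 1
    rw [v_neg, v_one]
  · show v 0 ≤ 1
    rw [v_zero]; norm_num

theorem half_not : ¬ v (1 / 2) ≤ 1 := by
  have h : v (1 / 2 : ℚ) = 2 := by
    have := v_inv 2 (by norm_num)
    rw [v_two] at this
    rw [one_div, this]
    norm_num
  rw [h]
  norm_num

end Pool.Agent.Helper505.Wr
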