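import Mathlib
import Pool.Agent.Helper505.GT

set_option autoImplicit false

open Filter Topology Equiv Equiv.Perm

namespace Pool.Agent.Helper505.Wr

open Pool.Agent.Helper505.GT

/-- The restricted wreath product of `D` with the finitary symmetric group of `ℕ`. -/
@[ext]
structure WG (D : Type) [Group D] where
  f : ℕ → D
  s : Perm ℕ
  hf : {i | f i ≠ 1}.Finite
  hs : {i | s i ≠ i}.Finite

variable {D : Type} [Group D]

theorem sinv_app (s : Perm ℕ) (i : ℕ) : s⁻¹ (s i) = i := Equiv.symm_apply_apply s i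
theorem s_app_inv (s : Perm ℕ) (i : ℕ) : s (s⁻¹ i) = i := Equiv.apply_symm_apply s i

theorem fix_inv {s : Perm ℕ} {i : ℕ} (h : s i = i) : s⁻¹ i = i := by
  rw [Perm.inv_eq_iff_eq]
  exact h.symm

theorem fix_of_fix_inv {s : Perm ℕ} {i : ℕ} (h : s⁻¹ i = i) : s i = i := by
  rw [Perm.inv_eq_iff_eq] at h
  exact h.symm

/-- multiplication -/
def WG.mul (g h : WG D) : WG D where
  f := fun i => g.f i * h.f (g.s⁻¹ i)
  s := g.s * h.s
  hf := by
    apply (g.hf.union (h.hf.image g.s)).subset
    intro i hi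
    by_contra hcon
    simp only [Set.mem_union, Set.mem_ofPred_eq, Set.mem_image, not_or, not_not, not_exists,
      not_and] at hcon
    apply hi
    have h2 : h.f (g.s⁻¹ i) = 1 := by
      by_contra h3
      exact hcon.2 _ h3 (s_app_inv _ _)
    show g.f i * h.f (g.s⁻¹ i) = 1
    rw [hcon.1, h2, one_mul]
  hs := by
    apply (g.hs.union h.hs).subset
    intro i hi
    by_contra hcon
    simp only [Set.mem_union, Set.mem_ofPred_eq, not_or, not_not] at hcon
    apply hi
    rw [Perm.mul_apply, hcon.2, hcon.1]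

/-- inverse -/
def WG.inv (g : WG D) : WG D where
  f := fun i => (g.f (g.s i))⁻¹
  s := g.s⁻¹
  hf := by
    apply (g.hf.image (fun i => g.s⁻¹ i)).subset
    intro i hi
    refine ⟨g.s i, ?_, sinv_app _ _⟩
    intro h
    apply hi
    show (g.f (g.s i))⁻¹ = 1
    rw [h, inv_one]
  hs := by
    apply g.hs.subset
    intro i hi h
    exact hi (fix_inv h)

instance : Group (WG D) where
  mul := WG.mul
  one := ⟨fun _ => 1, 1, by simp, by simp⟩
  inv := WG.inv
  mul_assoc := by
    intro a b c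
    apply WG.ext
    · funext i
      show a.f i * b.f (a.s⁻¹ i) * c.f ((a.s * b.s)⁻¹ i) =
        a.f i * (b.f (a.s⁻¹ i) * c.f (b.s⁻¹ (a.s⁻¹ i)))
      rw [mul_inv_rev, Perm.mul_apply, mul_assoc]
    · show a.s * b.s * c.s = a.s * (b.s * c.s)
      rw [mul_assoc]
  one_mul := by
    intro a
    apply WG.ext
    · funext i
      show 1 * a.f ((1 : Perm ℕ)⁻¹ i) = a.f i
      rw [inv_one, one_mul, Perm.one_apply]
    · show 1 * a.s = a.s
      rw [one_mul]
  mul_one := by
    intro a
    apply WG.ext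
    · funext i
      show a.f i * 1 = a.f i
      rw [mul_one]
    · show a.s * 1 = a.s
      rw [mul_one]
  inv_mul_cancel := by
    intro a
    apply WG.ext
    · funext i
      show (a.f (a.s i))⁻¹ * a.f ((a.s⁻¹)⁻¹ i) = 1
      rw [inv_inv, inv_mul_cancel]
    · show a.s⁻¹ * a.s = 1
      rw [inv_mul_cancel]

theorem mul_f (g h : WG D) (i : ℕ) : (g * h).f i = g.f i * h.f (g.s⁻¹ i) := rfl
theorem mul_s (g h : WG D) : (g * h).s = g.s * h.s := rfl
theorem inv_f (g : WG D) (i : ℕ) : (g⁻¹).f i = (g.f (g.s i))⁻¹ := rfl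
theorem inv_s (g : WG D) : (g⁻¹).s = g.s⁻¹ := rfl
theorem one_f (i : ℕ) : (1 : WG D).f i = 1 := rfl
theorem one_s : (1 : WG D).s = 1 := rfl

/-- the element `d` in coordinate `i` -/
def co (i : ℕ) (d : D) : WG D where
  f := fun j => if j = i then d else 1
  s := 1
  hf := by
    apply (Set.finite_singleton i).subset
    intro j hj
    by_contra h
    apply hj
    exact if_neg h
  hs := by simp

/-- a finitary permutation -/
def pm (s : Perm ℕ) (hs : {i | s i ≠ i}.Finite) : WG D where
  f := fun _ => 1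
  s := s
  hf := by simp
  hs := hs

/-- a finitely supported function -/
def fn (f : ℕ → D) (hf : {i | f i ≠ 1}.Finite) : WG D where
  f := f
  s := 1
  hf := hf
  hs := by simp

instance [Countable D] : Countable (WG D) := by
  classical
  let φ : WG D → Finset (ℕ × D) × Finset (ℕ × ℕ) := fun g =>
    (g.hf.toFinset.image (fun i => (i, g.f i)), g.hs.toFinset.image (fun i => (i, g.s i)))
  have hφ : Function.Injective φ := by
    intro g h hgh
    have h1 : g.hf.toFinset.image (fun i => (i, g.f i)) =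
      h.hf.toFinset.image (fun i => (i, h.f i)) := congrArg Prod.fst hgh
    have h2 : g.hs.toFinset.image (fun i => (i, g.s i)) =
      h.hs.toFinset.image (fun i => (i, h.s i)) := congrArg Prod.snd hgh
    apply WG.ext
    · funext i
      by_cases hi : g.f i = 1
      · by_cases hi' : h.f i = 1
        · rw [hi, hi']
        · have : (i, h.f i) ∈ g.hf.toFinset.image (fun i => (i, g.f i)) := by
            rw [h1]
            exact Finset.mem_image_of_mem _ (by simpa using hi')
          rw [Finset.mem_image] at this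
          obtain ⟨j, _, hj⟩ := this
          rw [Prod.mk.injEq] at hj
          rw [← hj.2, hj.1]
      · have : (i, g.f i) ∈ h.hf.toFinset.image (fun i => (i, h.f i)) := by
          rw [← h1]
          exact Finset.mem_image_of_mem _ (by simpa using hi)
        rw [Finset.mem_image] at this
        obtain ⟨j, _, hj⟩ := this
        rw [Prod.mk.injEq] at hj
        rw [← hj.2, hj.1]
    · apply Equiv.ext
      intro i
      by_cases hi : g.s i = i
      · by_cases hi' : h.s i = i
        · rw [hi, hi']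
        · have : (i, h.s i) ∈ g.hs.toFinset.image (fun i => (i, g.s i)) := by
            rw [h2]
            exact Finset.mem_image_of_mem _ (by simpa using hi')
          rw [Finset.mem_image] at this
          obtain ⟨j, _, hj⟩ := this
          rw [Prod.mk.injEq] at hj
          rw [← hj.2, hj.1]
      · have : (i, g.s i) ∈ h.hs.toFinset.image (fun i => (i, h.s i)) := by
          rw [← h2]
          exact Finset.mem_image_of_mem _ (by simpa using hi)
        rw [Finset.mem_image] at this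
        obtain ⟨j, _, hj⟩ := this
        rw [Prod.mk.injEq] at hj
        rw [← hj.2, hj.1]
  exact hφ.countable

theorem swap_supp (a b : ℕ) : {i | swap a b i ≠ i}.Finite := by
  apply (Set.toFinite ({a, b} : Set ℕ)).subset
  intro x hx
  by_contra h
  simp only [Set.mem_insert_iff, Set.mem_singleton_iff, not_or] at h
  exact hx (swap_apply_of_ne_of_ne h.1 h.2)

instance : Infinite (WG D) := by
  apply Infinite.of_injective (fun n : ℕ => (pm (swap 0 (n + 1)) (swap_supp _ _) : WG D))
  intro m n hmn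
  have h : swap 0 (m + 1) = swap 0 (n + 1) := congrArg WG.s hmn
  have h2 : swap 0 (m + 1) 0 = swap 0 (n + 1) 0 := by rw [h]
  rw [swap_apply_left, swap_apply_left] at h2
  omega

/-- the basic neighbourhoods -/
def O (L : Subgroup D) (F : Finset ℕ) : Set (WG D) :=
  {g | (∀ i, g.f i ∈ L) ∧ (∀ i ∈ F, g.f i = 1) ∧ ∀ i ∈ F, g.s i = i}

theorem O_anti (L : Subgroup D) {F F' : Finset ℕ} (h : F ⊆ F') : O L F' ⊆ O L F :=
  fun _ hg => ⟨hg.1, fun i hi => hg.2.1 i (h hi), fun i hi => hg.2.2 i (h hi)⟩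

theorem O_mono {L M : Subgroup D} (h : L ≤ M) (F : Finset ℕ) : O L F ⊆ O M F :=
  fun _ hg => ⟨fun i => h (hg.1 i), hg.2.1, hg.2.2⟩

theorem one_mem_O (L : Subgroup D) (F : Finset ℕ) : (1 : WG D) ∈ O L F :=
  ⟨fun _ => L.one_mem, fun _ _ => rfl, fun _ _ => rfl⟩

theorem mul_mem_O {L : Subgroup D} {F : Finset ℕ} {g h : WG D} (hg : g ∈ O L F) (hh : h ∈ O L F) :
    g * h ∈ O L F := by
  refine ⟨fun i => ?_, fun i hi => ?_, fun i hi => ?_⟩
  · rw [mul_f]
    exact L.mul_mem (hg.1 i) (hh.1 _)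
  · rw [mul_f, fix_inv (hg.2.2 i hi), hg.2.1 i hi, hh.2.1 i hi, one_mul]
  · rw [mul_s, Perm.mul_apply, hh.2.2 i hi, hg.2.2 i hi]

theorem inv_mem_O {L : Subgroup D} {F : Finset ℕ} {g : WG D} (hg : g ∈ O L F) : g⁻¹ ∈ O L F := by
  refine ⟨fun i => ?_, fun i hi => ?_, fun i hi => ?_⟩
  · rw [inv_f]
    exact L.inv_mem (hg.1 _)
  · rw [inv_f, hg.2.2 i hi, hg.2.1 i hi, inv_one]
  · rw [inv_s]
    exact fix_inv (hg.2.2 i hi)

/-- Elements with disjoint supports commute. -/
theorem commute_O (g : WG D) : ∃ F : Finset ℕ, ∀ x ∈ O (⊤ : Subgroup D) F, g * x = x * g := by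
  classical
  refine ⟨g.hf.toFinset ∪ g.hs.toFinset, fun x hx => ?_⟩
  have hF1 : ∀ i, g.f i ≠ 1 → i ∈ g.hf.toFinset ∪ g.hs.toFinset := by
    intro i hi
    exact Finset.mem_union_left _ (by simpa using hi)
  have hF2 : ∀ i, g.s i ≠ i → i ∈ g.hf.toFinset ∪ g.hs.toFinset := by
    intro i hi
    exact Finset.mem_union_right _ (by simpa using hi)
  apply WG.ext
  · funext i
    rw [mul_f, mul_f]
    by_cases h1 : g.s i = i
    · rw [fix_inv h1]
      by_cases h2 : g.f i = 1
      · rw [h2, one_mul]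
        have h3 : g.f (x.s⁻¹ i) = 1 := by
          by_contra h4
          have h5 := hx.2.2 _ (hF1 _ h4)
          rw [s_app_inv] at h5
          rw [← h5] at h4
          exact h4 h2
        rw [h3, mul_one]
      · rw [hx.2.1 i (hF1 i h2), fix_inv (hx.2.2 i (hF1 i h2)), mul_one, one_mul]
    · have h3 := hF2 i h1
      have h4 : g.s⁻¹ i ∈ g.hf.toFinset ∪ g.hs.toFinset := by
        apply hF2
        rw [s_app_inv]
        intro h5
        exact h1 (fix_of_fix_inv h5.symm)
      rw [hx.2.1 _ h4, hx.2.1 i h3, fix_inv (hx.2.2 i h3), mul_one, one_mul]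
  · rw [mul_s, mul_s]
    apply Perm.Disjoint.commute
    intro i
    by_cases h1 : g.s i = i
    · exact Or.inl h1
    · exact Or.inr (hx.2.2 i (hF2 i h1))

/-- the neighbourhood filter -/
def nf (L : Subgroup D) : Filter (WG D) where
  sets := {U | ∃ F : Finset ℕ, O L F ⊆ U}
  univ_sets := ⟨∅, Set.subset_univ _⟩
  sets_of_superset := by
    rintro U V ⟨F, hF⟩ h
    exact ⟨F, hF.trans h⟩
  inter_sets := by
    classical
    rintro U V ⟨F, hF⟩ ⟨F', hF'⟩
    exact ⟨F ∪ F', fun g hg => ⟨hF (O_anti L Finset.subset_union_left hg),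
      hF' (O_anti L Finset.subset_union_right hg)⟩⟩

theorem mem_nf (L : Subgroup D) (U : Set (WG D)) : U ∈ nf L ↔ ∃ F : Finset ℕ, O L F ⊆ U := Iff.rfl

/-- The topology attached to a subgroup. -/
def tau (L : Subgroup D) : GroupTopology (WG D) :=
  ofFilter (nf L)
    (by
      rintro U ⟨F, hF⟩
      exact hF (one_mem_O L F))
    (by
      rintro U ⟨F, hF⟩
      exact ⟨O L F, ⟨F, subset_rfl⟩, fun x hx y hy => hF (mul_mem_O hx hy)⟩)
    (by
      rintro U ⟨F, hF⟩
      exact ⟨O L F, ⟨F, subset_rfl⟩, fun x hx => hF (inv_mem_O hx)⟩)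
    (by
      classical
      rintro g U ⟨F, hF⟩
      obtain ⟨F', hF'⟩ := commute_O g
      refine ⟨O L (F ∪ F'), ⟨F ∪ F', subset_rfl⟩, fun x hx => ?_⟩
      have h1 : x ∈ O (⊤ : Subgroup D) F' :=
        O_mono le_top _ (O_anti L Finset.subset_union_right hx)
      rw [hF' x h1, mul_assoc, mul_inv_cancel, mul_one]
      exact hF (O_anti L Finset.subset_union_left hx))

theorem nh_tau (L : Subgroup D) : nh (tau L) = nf L := nh_ofFilter _ _ _ _ _

theorem mem_nh_tau (L : Subgroup D) (U : Set (WG D)) :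
    U ∈ nh (tau L) ↔ ∃ F : Finset ℕ, O L F ⊆ U := by
  rw [nh_tau]
  exact mem_nf L U

theorem O_mem (L : Subgroup D) (F : Finset ℕ) : O L F ∈ nh (tau L) :=
  (mem_nh_tau L _).mpr ⟨F, subset_rfl⟩

theorem tau_t2 (L : Subgroup D) : @T2Space (WG D) (tau L).toTopologicalSpace := by
  let := (tau L).toTopologicalSpace
  have := (tau L).toIsTopologicalGroup
  apply IsTopologicalGroup.t2Space_of_one_sep
  intro x hx
  by_cases h : ∃ i, x.f i ≠ 1 ∨ x.s i ≠ i
  · obtain ⟨i, hi⟩ := h
    refine ⟨O L {i}, O_mem L {i}, ?_⟩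
    intro h
    rcases hi with hi | hi
    · exact hi (h.2.1 i (Finset.mem_singleton_self i))
    · exact hi (h.2.2 i (Finset.mem_singleton_self i))
  · exfalso
    apply hx
    simp only [not_exists, not_or, not_not] at h
    apply WG.ext
    · funext i
      exact (h i).1
    · apply Equiv.ext
      intro i
      exact (h i).2

theorem tau_mono {L M : Subgroup D} (h : L ≤ M) : tau L ≤ tau M := by
  rw [nh_le]
  intro U hU
  rw [mem_nh_tau] at hU ⊢
  obtain ⟨F, hF⟩ := hU
  exact ⟨F, (O_mono h F).trans hF⟩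

theorem co_mem_O {L : Subgroup D} {F : Finset ℕ} {i : ℕ} {d : D} (hi : i ∉ F) (hd : d ∈ L) :
    co i d ∈ O L F := by
  refine ⟨fun j => ?_, fun j hj => ?_, fun j _ => rfl⟩
  · show (if j = i then d else 1) ∈ L
    split_ifs
    · exact hd
    · exact L.one_mem
  · show (if j = i then d else 1) = 1
    rw [if_neg]
    rintro rfl
    exact hi hj

theorem pm_mem_O {L : Subgroup D} {F : Finset ℕ} {s : Perm ℕ} (hs : {i | s i ≠ i}.Finite)
    (h : ∀ i ∈ F, s i = i) : pm s hs ∈ O L F :=
  ⟨fun _ => L.one_mem, fun _ _ => rfl, h⟩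

theorem le_of_tau_le {L M : Subgroup D} (h : tau L ≤ tau M) : L ≤ M := by
  intro d hd
  rw [nh_le] at h
  have h1 := h (O_mem M ∅)
  rw [mem_nh_tau] at h1
  obtain ⟨F, hF⟩ := h1
  obtain ⟨i, hi⟩ := Infinite.exists_notMem_finset F
  have h2 := hF (co_mem_O hi hd)
  have h3 := h2.1 i
  have h4 : (co i d).f i = d := if_pos rfl
  rwa [h4] at h3

theorem tau_lt {L M : Subgroup D} (h : L < M) : tau L < tau M :=
  lt_of_le_of_ne (tau_mono h.le) (fun h' => absurd (le_of_tau_le h'.ge) (not_le_of_gt h))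

theorem tau_inj : Function.Injective (tau : Subgroup D → GroupTopology (WG D)) :=
  fun _ _ h => le_antisymm (le_of_tau_le h.le) (le_of_tau_le h.ge)

theorem tau_ne_bot (L : Subgroup D) : (tau L).toTopologicalSpace ≠ ⊥ := by
  intro h
  have h1 : {(1 : WG D)} ∈ nh (tau L) := by
    unfold nh
    rw [h, @nhds_discrete (WG D) ⊥ (@DiscreteTopology.mk (WG D) ⊥ rfl)]
    exact Filter.mem_pure.mpr rfl
  rw [mem_nh_tau] at h1
  obtain ⟨F, hF⟩ := h1
  obtain ⟨i, hi⟩ := Infinite.exists_notMem_finset F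
  obtain ⟨j, hj⟩ := Infinite.exists_notMem_finset (insert i F)
  rw [Finset.mem_insert, not_or] at hj
  have h2 : (pm (swap i j) (swap_supp i j) : WG D) ∈ O L F := by
    apply pm_mem_O
    intro k hk
    apply swap_apply_of_ne_of_ne
    · rintro rfl; exact hi hk
    · rintro rfl; exact hj.2 hk
  have h3 : (pm (swap i j) (swap_supp i j) : WG D) = 1 := hF h2
  have h4 : swap i j = 1 := congrArg WG.s h3
  have h5 : swap i j i = i := by rw [h4]; rfl
  rw [swap_apply_left] at h5
  exact hj.1 h5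

end Pool.Agent.Helper505.Wr
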