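import Mathlib
import Pool.Agent.Helper505.GT
import Pool.Agent.Helper505.WrBasic

set_option autoImplicit false

open Filter Topology Equiv Equiv.Perm

namespace Pool.Agent.Helper505.Wr

open Pool.Agent.Helper505.GT

/-- Small symmetric neighbourhoods with products of lists of length `n` in a given one. -/
theorem nh_list {G : Type} [Group G] (t : GroupTopology G) (n : ℕ) :
    ∀ U ∈ nh t, ∃ V ∈ nh t, (∀ x ∈ V, x⁻¹ ∈ V) ∧
      ∀ l : List G, l.length = n → (∀ x ∈ l, x ∈ V) → l.prod ∈ U := by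
  induction n with
  | zero =>
    intro U hU
    refine ⟨Set.univ, univ_mem, fun _ _ => Set.mem_univ _, fun l hl _ => ?_⟩
    rw [List.length_eq_zero_iff] at hl
    subst hl
    exact nh_one hU
  | succ n ih =>
    intro U hU
    obtain ⟨V, hV, h1⟩ := nh_mul hU
    obtain ⟨W, hW, h2, h3⟩ := ih V hV
    obtain ⟨V', hV', h4⟩ := nh_inv (inter_mem hV hW)
    refine ⟨(V ∩ W ∩ V') ∩ {x | x⁻¹ ∈ V ∩ W ∩ V'}, ?_, ?_, ?_⟩
    · apply inter_mem (inter_mem (inter_mem hV hW) hV')
      obtain ⟨A, hA, h5⟩ := nh_inv (inter_mem (inter_mem hV hW) hV')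
      exact mem_of_superset hA h5
    · rintro x ⟨hx1, hx2⟩
      exact ⟨hx2, by simpa using hx1⟩
    · intro l hl hl'
      cases l with
      | nil => simp at hl
      | cons a l =>
        rw [List.prod_cons]
        apply h1
        · exact (hl' a (List.mem_cons_self)).1.1.1
        · apply h3
          · simpa using hl
          · intro x hx
            exact (hl' x (List.mem_cons_of_mem _ hx)).1.1.2

variable {D : Type} [Group D]

theorem mul_support_finite' {p q : Perm ℕ} (hp : {x | p x ≠ x}.Finite)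
    (hq : {x | q x ≠ x}.Finite) : {x | (p * q) x ≠ x}.Finite := by
  apply (hp.union hq).subset
  intro x hx
  by_contra h
  simp only [Set.mem_union, Set.mem_ofPred_eq, not_or, not_not] at h
  apply hx
  rw [Perm.mul_apply, h.2, h.1]

/-- Moving a finite set off a finite set while fixing another one. -/
theorem exists_move (P : Finset ℕ) :
    ∀ (Q A : Finset ℕ), (∀ x ∈ P, x ∉ Q) →
    ∃ h : Perm ℕ, {x | h x ≠ x}.Finite ∧ (∀ x ∈ Q, h x = x) ∧ ∀ x ∈ P, h x ∉ A := by
  classical
  induction P using Finset.induction_on with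
  | empty =>
    intro Q A _
    exact ⟨1, by simp, fun _ _ => rfl, by simp⟩
  | insert p P hp ih =>
    intro Q A hPQ
    obtain ⟨h, h1, h2, h3⟩ := ih (insert p Q) A (by
      intro x hx hx'
      rcases Finset.mem_insert.mp hx' with rfl | hx'
      · exact hp hx
      · exact hPQ x (Finset.mem_insert_of_mem hx) hx')
    obtain ⟨p', hp'⟩ := Infinite.exists_notMem_finset (A ∪ Q ∪ (P.image h) ∪ {p})
    simp only [Finset.mem_union, Finset.mem_singleton, not_or] at hp'
    obtain ⟨⟨⟨hpA, hpQ⟩, hpP⟩, hpp⟩ := hp'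
    have hhp : h p = p := h2 p (Finset.mem_insert_self _ _)
    refine ⟨swap p p' * h, mul_support_finite' (swap_supp _ _) h1, ?_, ?_⟩
    · intro x hx
      rw [Perm.mul_apply, h2 x (Finset.mem_insert_of_mem hx)]
      apply swap_apply_of_ne_of_ne
      · rintro rfl
        exact hPQ x (Finset.mem_insert_self _ _) hx
      · rintro rfl
        exact hpQ hx
    · intro x hx
      rw [Perm.mul_apply]
      rcases Finset.mem_insert.mp hx with rfl | hx
      · rw [hhp, swap_apply_left]
        exact hpA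
      · rw [swap_apply_of_ne_of_ne]
        · exact h3 x hx
        · intro h'
          rw [← hhp] at h'
          rw [h.injective h'] at hx
          exact hp hx
        · intro h'
          exact hpP (h' ▸ Finset.mem_image_of_mem _ hx)

theorem co_mul (i : ℕ) (d e : D) : co i (d * e) = co i d * co i e := by
  apply WG.ext
  · funext j
    rw [mul_f]
    show (if j = i then d * e else 1) =
      (if j = i then d else 1) * (if (1 : Perm ℕ)⁻¹ j = i then e else 1)
    rw [inv_one, Perm.one_apply]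
    split_ifs
    · rfl
    · rw [one_mul]
  · rfl

theorem co_inv (i : ℕ) (d : D) : co i d⁻¹ = (co i d)⁻¹ := by
  apply WG.ext
  · funext j
    rw [inv_f]
    show (if j = i then d⁻¹ else 1) = (if (1 : Perm ℕ) j = i then d else 1)⁻¹
    rw [Perm.one_apply]
    split_ifs
    · rfl
    · rw [inv_one]
  · rfl

/-- Conjugating an element supported in one coordinate. -/
theorem conj_co (u : WG D) (i : ℕ) (b : D) :
    u * co i b * u⁻¹ = co (u.s i) (u.f (u.s i) * b * (u.f (u.s i))⁻¹) := by
  apply WG.ext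
  · funext j
    rw [mul_f, mul_f, inv_f]
    show u.f j * (if u.s⁻¹ j = i then b else 1) * (u.f (u.s ((u.s * 1)⁻¹ j)))⁻¹ =
      if j = u.s i then u.f (u.s i) * b * (u.f (u.s i))⁻¹ else 1
    rw [mul_one, s_app_inv]
    by_cases h : j = u.s i
    · subst h
      rw [sinv_app, if_pos rfl, if_pos rfl]
    · rw [if_neg h, if_neg, mul_one, mul_inv_cancel]
      intro h'
      apply h
      rw [← h', s_app_inv]
  · show u.s * 1 * u.s⁻¹ = 1
    rw [mul_one, mul_inv_cancel]

theorem conj_pm_co (s : Perm ℕ) (hs : {i | s i ≠ i}.Finite) (i : ℕ) (b : D) :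
    pm s hs * co i b * (pm s hs)⁻¹ = co (s i) b := by
  rw [conj_co]
  show co (s i) (1 * b * (1 : D)⁻¹) = co (s i) b
  rw [one_mul, inv_one, mul_one]

section Cover

variable {L M : Subgroup D} {σ : GroupTopology (WG D)}

/-- first step: the distinguished element is small in almost all coordinates -/
theorem step_one (c : D)
    (hc : ∀ x ∈ M, x ∉ L → ∃ a ∈ L, ∃ b ∈ L, ∃ e ∈ L, c = a * (x * b * x⁻¹) * e)
    (h1 : ∀ U ∈ nh σ, ∃ F : Finset ℕ, O L F ⊆ U) (h2 : ∀ F, O M F ∈ nh σ)
    (F₀ : Finset ℕ) (hF₀ : O L F₀ ∉ nh σ) (U : Set (WG D)) (hU : U ∈ nh σ) :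
    ∃ F : Finset ℕ, ∀ i ∉ F, co i c ∈ U := by
  classical
  obtain ⟨V, hV, hVi, hVl⟩ := nh_list σ 7 U hU
  obtain ⟨F₁, hF₁⟩ := h1 V hV
  have hN := inter_mem hV (h2 (F₁ ∪ F₀))
  obtain ⟨u, ⟨huV, huM⟩, huL⟩ : ∃ u ∈ V ∩ O M (F₁ ∪ F₀), u ∉ O L F₀ := by
    by_contra hcon
    push Not at hcon
    exact hF₀ (mem_of_superset hN hcon)
  obtain ⟨i₀, hi₀⟩ : ∃ i, u.f i ∉ L := by
    by_contra hcon
    push Not at hcon
    exact huL ⟨hcon, fun i hi => huM.2.1 i (Finset.mem_union_right _ hi),
      fun i hi => huM.2.2 i (Finset.mem_union_right _ hi)⟩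
  have hi₀F : i₀ ∉ F₁ := by
    intro h
    apply hi₀
    rw [huM.2.1 i₀ (Finset.mem_union_left _ h)]
    exact L.one_mem
  have hi₁F : u.s⁻¹ i₀ ∉ F₁ := by
    intro h
    have h3 := huM.2.2 _ (Finset.mem_union_left _ h)
    rw [s_app_inv] at h3
    rw [← h3] at h
    exact hi₀F h
  obtain ⟨a, ha, b, hb, e, he, hce⟩ := hc _ (huM.1 i₀) hi₀
  have hcon : co i₀ c = co i₀ a * (u * co (u.s⁻¹ i₀) b * u⁻¹) * co i₀ e := by
    rw [conj_co, s_app_inv, ← co_mul, ← co_mul, ← hce]
  refine ⟨F₁, fun i hi => ?_⟩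
  have hsw : (pm (swap i₀ i) (swap_supp i₀ i) : WG D) ∈ V := by
    apply hF₁
    apply pm_mem_O
    intro k hk
    apply swap_apply_of_ne_of_ne
    · rintro rfl; exact hi₀F hk
    · rintro rfl; exact hi hk
  have hfin := hVl [pm (swap i₀ i) (swap_supp i₀ i), co i₀ a, u, co (u.s⁻¹ i₀) b, u⁻¹, co i₀ e,
    (pm (swap i₀ i) (swap_supp i₀ i))⁻¹] rfl (by
      intro x hx
      simp only [List.mem_cons, List.not_mem_nil, or_false] at hx
      rcases hx with rfl | rfl | rfl | rfl | rfl | rfl | rfl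
      · exact hsw
      · exact hF₁ (co_mem_O hi₀F ha)
      · exact huV
      · exact hF₁ (co_mem_O hi₁F hb)
      · exact hVi _ huV
      · exact hF₁ (co_mem_O hi₀F he)
      · exact hVi _ hsw)
  have e2 : co i c = [pm (swap i₀ i) (swap_supp i₀ i), co i₀ a, u, co (u.s⁻¹ i₀) b, u⁻¹, co i₀ e,
    (pm (swap i₀ i) (swap_supp i₀ i))⁻¹].prod := by
    have e3 := conj_pm_co (D := D) (swap i₀ i) (swap_supp i₀ i) i₀ c
    rw [swap_apply_left] at e3
    rw [← e3, hcon]
    simp only [List.prod_cons, List.prod_nil, mul_one, mul_assoc]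
  rw [e2]
  exact hfin

/-- the elements that are small in almost all coordinates form a subgroup -/
theorem step_two (c : D)
    (h1 : ∀ U ∈ nh σ, ∃ F : Finset ℕ, O L F ⊆ U)
    (h3 : ∀ U ∈ nh σ, ∃ F : Finset ℕ, ∀ i ∉ F, co i c ∈ U) (d : D)
    (hd : d ∈ Subgroup.closure ((L : Set D) ∪ {c})) :
    ∀ U ∈ nh σ, ∃ F : Finset ℕ, ∀ i ∉ F, co i d ∈ U := by
  classical
  induction hd using Subgroup.closure_induction with
  | mem x hx =>
    rcases hx with hx | hx
    · intro U hU
      obtain ⟨F, hF⟩ := h1 U hU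
      exact ⟨F, fun i hi => hF (co_mem_O hi hx)⟩
    · rw [Set.mem_singleton_iff] at hx
      subst hx
      exact h3
  | one =>
    intro U hU
    obtain ⟨F, hF⟩ := h1 U hU
    exact ⟨F, fun i hi => hF (co_mem_O hi L.one_mem)⟩
  | mul x y _ _ hx hy =>
    intro U hU
    obtain ⟨V, hV, hVU⟩ := nh_mul hU
    obtain ⟨F, hF⟩ := hx V hV
    obtain ⟨F', hF'⟩ := hy V hV
    refine ⟨F ∪ F', fun i hi => ?_⟩
    rw [Finset.mem_union, not_or] at hi
    rw [co_mul]
    exact hVU _ (hF i hi.1) _ (hF' i hi.2)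
  | inv x _ hx =>
    intro U hU
    obtain ⟨V, hV, hVU⟩ := nh_inv hU
    obtain ⟨F, hF⟩ := hx V hV
    refine ⟨F, fun i hi => ?_⟩
    rw [co_inv]
    exact hVU _ (hF i hi)

/-- a finitely supported function, moved by a permutation -/
theorem moved_fin (f : ℕ → D) (hf : {i | f i ≠ 1}.Finite) (t : Perm ℕ) :
    {i | f (t⁻¹ i) ≠ 1}.Finite := by
  apply (hf.image t).subset
  intro i hi
  exact ⟨t⁻¹ i, hi, s_app_inv t i⟩

/-- finite products of small elements in far coordinates are small -/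
theorem step_three
    (h4 : ∀ d ∈ M, ∀ U ∈ nh σ, ∃ F : Finset ℕ, ∀ i ∉ F, co i d ∈ U) (P : Finset ℕ) :
    ∀ (f : ℕ → D) (hf : {i | f i ≠ 1}.Finite), (∀ i, f i ∈ M) → (∀ i, f i ≠ 1 → i ∈ P) →
    ∀ U ∈ nh σ, ∃ F : Finset ℕ, ∀ t : Perm ℕ, (∀ i ∈ P, t i ∉ F) →
      fn (fun i => f (t⁻¹ i)) (moved_fin f hf t) ∈ U := by
  classical
  induction P using Finset.induction_on with
  | empty =>
    intro f hf _ hP U hU
    refine ⟨∅, fun t _ => ?_⟩
    have e : fn (fun i => f (t⁻¹ i)) (moved_fin f hf t) = 1 := by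
      apply WG.ext
      · funext i
        show f (t⁻¹ i) = 1
        by_contra h
        exact absurd (hP _ h) (Finset.notMem_empty _)
      · rfl
    rw [e]
    exact nh_one hU
  | insert p P hp ih =>
    intro f hf hM hP U hU
    obtain ⟨V, hV, hVU⟩ := nh_mul hU
    have hf' : {i | (if i = p then (1 : D) else f i) ≠ 1}.Finite := by
      apply hf.subset
      intro i hi h
      apply hi
      by_cases hip : i = p
      · rw [if_pos hip]
      · rw [if_neg hip]
        exact h
    obtain ⟨F, hF⟩ := ih (fun i => if i = p then 1 else f i) hf'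
      (by
        intro i
        show (if i = p then (1 : D) else f i) ∈ M
        split_ifs
        · exact M.one_mem
        · exact hM i)
      (by
        intro i hi
        by_cases hip : i = p
        · exact absurd (if_pos hip) hi
        · have h : f i ≠ 1 := by
            intro h
            apply hi
            show (if i = p then (1 : D) else f i) = 1
            rw [if_neg hip]
            exact h
          rcases Finset.mem_insert.mp (hP i h) with h' | h'
          · exact absurd h' hip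
          · exact h') V hV
    obtain ⟨F', hF'⟩ := h4 (f p) (hM p) V hV
    refine ⟨F ∪ F', fun t ht => ?_⟩
    have h5 := hF t (fun i hi => fun h => ht i (Finset.mem_insert_of_mem hi)
      (Finset.mem_union_left _ h))
    have h6 := hF' (t p) (fun h => ht p (Finset.mem_insert_self _ _) (Finset.mem_union_right _ h))
    have h7 := hVU _ h5 _ h6
    have e : fn (fun i => f (t⁻¹ i)) (moved_fin f hf t) =
        fn (fun i => (fun i => if i = p then (1 : D) else f i) (t⁻¹ i))
          (moved_fin (fun i => if i = p then (1 : D) else f i) hf' t) * co (t p) (f p) := by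
      apply WG.ext
      · funext j
        rw [mul_f]
        show f (t⁻¹ j) = (if t⁻¹ j = p then (1 : D) else f (t⁻¹ j)) *
          (if (1 : Perm ℕ)⁻¹ j = t p then f p else 1)
        rw [inv_one, Perm.one_apply]
        by_cases h : j = t p
        · subst h
          rw [sinv_app, if_pos rfl, if_pos rfl, one_mul]
        · rw [if_neg h, mul_one, if_neg]
          intro h'
          apply h
          rw [← h', s_app_inv]
      · rfl
    rw [e]
    exact h7

/-- last step -/
theorem step_four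
    (h1 : ∀ U ∈ nh σ, ∃ F : Finset ℕ, O L F ⊆ U)
    (h4 : ∀ d ∈ M, ∀ U ∈ nh σ, ∃ F : Finset ℕ, ∀ i ∉ F, co i d ∈ U) (U : Set (WG D))
    (hU : U ∈ nh σ) : ∃ F : Finset ℕ, O M F ⊆ U := by
  classical
  obtain ⟨V, hV, hVi, hVl⟩ := nh_list σ 4 U hU
  obtain ⟨F₁, hF₁⟩ := h1 V hV
  refine ⟨F₁, fun g hg => ?_⟩
  obtain ⟨A, hA⟩ := step_three h4 g.hf.toFinset g.f g.hf hg.1 (by simp) V hV
  obtain ⟨t, ht1, ht2, ht3⟩ := exists_move g.hf.toFinset F₁ A (by
    intro x hx hx'
    simp only [Set.Finite.mem_toFinset, Set.mem_ofPred_eq] at hx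
    exact hx (hg.2.1 x hx'))
  have h5 := hA t ht3
  have ht : (pm t ht1 : WG D) ∈ V := hF₁ (pm_mem_O ht1 ht2)
  have hs : (pm g.s g.hs : WG D) ∈ V := hF₁ (pm_mem_O g.hs hg.2.2)
  have h6 := hVl [(pm t ht1)⁻¹, fn (fun i => g.f (t⁻¹ i)) (moved_fin g.f g.hf t), pm t ht1,
    pm g.s g.hs] rfl (by
      intro x hx
      simp only [List.mem_cons, List.not_mem_nil, or_false] at hx
      rcases hx with rfl | rfl | rfl | rfl
      · exact hVi _ ht
      · exact h5
      · exact ht
      · exact hs)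
  have e : g = [(pm t ht1)⁻¹, fn (fun i => g.f (t⁻¹ i)) (moved_fin g.f g.hf t), pm t ht1,
    pm g.s g.hs].prod := by
    simp only [List.prod_cons, List.prod_nil, mul_one]
    apply WG.ext
    · funext i
      rw [mul_f, mul_f, mul_f]
      show g.f i = (1 : D)⁻¹ * (g.f (t⁻¹ ((t⁻¹)⁻¹ i)) * (1 * 1))
      rw [inv_inv, sinv_app, inv_one, one_mul, one_mul, mul_one]
    · show g.s = t⁻¹ * (1 * (t * g.s))
      rw [one_mul, inv_mul_cancel_left]
  rw [e]
  exact h6

end Cover

/-- **Covers.** If `L < M`, `M` is generated by `L` and `c`, and `c` can be reached from every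
element `x` of `M` outside `L` in the form `a (x b x⁻¹) e` with `a, b, e ∈ L`, then there is no
group topology strictly between the topologies attached to `L` and `M`. -/
theorem tau_covBy {L M : Subgroup D} (hLM : L < M) (c : D)
    (hM : M ≤ Subgroup.closure ((L : Set D) ∪ {c}))
    (hc : ∀ x ∈ M, x ∉ L → ∃ a ∈ L, ∃ b ∈ L, ∃ e ∈ L, c = a * (x * b * x⁻¹) * e) :
    tau L ⋖ tau M := by
  refine ⟨tau_lt hLM, fun σ h1 h2 => ?_⟩
  have h1' : ∀ U ∈ nh σ, ∃ F : Finset ℕ, O L F ⊆ U := by
    intro U hU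
    exact (mem_nh_tau L U).mp (nh_le.mp h1.le hU)
  have h2' : ∀ F, O M F ∈ nh σ := fun F => nh_le.mp h2.le (O_mem M F)
  obtain ⟨F₀, hF₀⟩ : ∃ F₀, O L F₀ ∉ nh σ := by
    by_contra hcon
    push Not at hcon
    apply absurd h1 (not_lt_of_ge _)
    rw [nh_le]
    intro U hU
    obtain ⟨F, hF⟩ := (mem_nh_tau L U).mp hU
    exact mem_of_superset (hcon F) hF
  apply absurd h2 (not_lt_of_ge _)
  rw [nh_le]
  intro U hU
  rw [mem_nh_tau]
  apply step_four h1' _ U hU
  intro d hd
  exact step_two c h1' (fun U hU => step_one c hc h1' h2' F₀ hF₀ U hU) d (hM hd)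

end Pool.Agent.Helper505.Wr
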