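import Mathlib
import Pool.Agent.Helper505.WrAff

set_option autoImplicit false
set_option linter.unusedSimpArgs false

namespace Pool.Agent.Helper505.Wr

open AG

/-- Conjugating a unipotent element to a fixed one: first column `(a, c)` with `a` large. -/
theorem reach_a (g : AG) (hx : g.x = 0) (hy : g.y = 0) (ha : ¬ v g.a ≤ 1) (hc : v g.c ≤ v g.a) :
    ∃ k ∈ G0, ∃ t : ℚ, v t ≤ 1 ∧ up (1 / 2) = k * (g * up t * g⁻¹) * k⁻¹ := by
  have ha0 : g.a ≠ 0 := v_ne_zero ha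
  have hva : 2 ≤ v g.a := v_disc ha
  have hinv : v (g.a)⁻¹ ≤ 1 / 2 := by
    rw [v_inv _ ha0, inv_le_comm₀ (by linarith) (by norm_num)]
    linarith
  refine ⟨lo (-(g.c * (g.a)⁻¹)), lo_mem_G0 ?_, (g.a)⁻¹ * (g.a)⁻¹ * (1 / 2), ?_, ?_⟩
  · rw [v_neg, v_mul, v_inv _ ha0]
    have : v g.a * (v g.a)⁻¹ = 1 := mul_inv_cancel₀ (by linarith)
    have h2 : 0 ≤ (v g.a)⁻¹ := by positivity
    nlinarith
  · rw [v_mul, v_mul, one_div, v_inv 2 (by norm_num), v_two]
    have h1 := v_nonneg (g.a)⁻¹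
    nlinarith
  · have hd := g.det
    apply AG.ext
    · simp only [mul_a, mul_b, mul_c, mul_d, inv_a, inv_b, inv_c, inv_d, up, lo]
      field_simp
      linear_combination (-(2 * g.a ^ 2)) * hd
    · simp only [mul_a, mul_b, mul_c, mul_d, inv_a, inv_b, inv_c, inv_d, up, lo]
      field_simp
      ring
    · simp only [mul_a, mul_b, mul_c, mul_d, inv_a, inv_b, inv_c, inv_d, up, lo]
      field_simp
      ring
    · simp only [mul_a, mul_b, mul_c, mul_d, inv_a, inv_b, inv_c, inv_d, up, lo]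
      field_simp
      linear_combination (-(2 * g.a ^ 2)) * hd
    · simp only [mul_x, mul_y, inv_x, inv_y, mul_a, mul_b, mul_c, mul_d, inv_a, inv_b, inv_c,
        inv_d, up, lo, hx, hy]
      ring
    · simp only [mul_x, mul_y, inv_x, inv_y, mul_a, mul_b, mul_c, mul_d, inv_a, inv_b, inv_c,
        inv_d, up, lo, hx, hy]
      ring

/-- Same with either entry of the first column large. -/
theorem reach_col (g : AG) (hx : g.x = 0) (hy : g.y = 0) (h : ¬ v g.a ≤ 1 ∨ ¬ v g.c ≤ 1) :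
    ∃ k ∈ G0, ∃ t : ℚ, v t ≤ 1 ∧ up (1 / 2) = k * (g * up t * g⁻¹) * k⁻¹ := by
  by_cases hle : v g.c ≤ v g.a
  · apply reach_a g hx hy _ hle
    intro ha
    rcases h with h | h
    · exact h ha
    · exact h (hle.trans ha)
  · push Not at hle
    have hc : ¬ v g.c ≤ 1 := by
      intro hc
      rcases h with h | h
      · exact h (hle.le.trans hc)
      · exact h hc
    obtain ⟨k, hk, t, ht, he⟩ := reach_a (ro * g)
      (by rw [mul_x, hx, hy]; simp [ro]) (by rw [mul_y, hx, hy]; simp [ro])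
      (by
        rw [mul_a]
        simpa [ro] using hc)
      (by
        rw [mul_a, mul_c]
        simpa [ro, v_neg] using hle.le)
    refine ⟨k * ro, G0.mul_mem hk ro_mem_G0, t, ht, ?_⟩
    rw [he]
    group

/-- `G0` is strongly maximal in `G1`. -/
theorem reach_one (g : AG) (hg : g ∈ G1) (hg0 : g ∉ G0) :
    ∃ a ∈ G0, ∃ b ∈ G0, ∃ e ∈ G0, up (1 / 2) = a * (g * b * g⁻¹) * e := by
  obtain ⟨hx, hy⟩ := hg
  by_cases h : ¬ v g.a ≤ 1 ∨ ¬ v g.c ≤ 1
  · obtain ⟨k, hk, t, ht, he⟩ := reach_col g hx hy h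
    exact ⟨k, hk, up t, up_mem_G0 ht, k⁻¹, G0.inv_mem hk, he⟩
  · simp only [not_or, not_not] at h
    have h2 : ¬ v g.b ≤ 1 ∨ ¬ v g.d ≤ 1 := by
      by_contra hcon
      simp only [not_or, not_not] at hcon
      exact hg0 ⟨⟨h.1, hcon.1, h.2, hcon.2⟩, hx, hy⟩
    obtain ⟨k, hk, t, ht, he⟩ := reach_col (g * ro)
      (by rw [mul_x, hx]; simp [ro]) (by rw [mul_y, hy]; simp [ro])
      (by
        rw [mul_a, mul_c]
        simpa [ro, v_neg] using h2)
    refine ⟨k, hk, ro * up t * ro⁻¹, ?_, k⁻¹, G0.inv_mem hk, ?_⟩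
    · exact G0.mul_mem (G0.mul_mem ro_mem_G0 (up_mem_G0 ht)) (G0.inv_mem ro_mem_G0)
    · rw [he]
      group

theorem up_mem_closure (n : ℕ) : ∀ t : ℚ, v (4 ^ n * t) ≤ 1 →
    up t ∈ Subgroup.closure ((G0 : Set AG) ∪ {up (1 / 2)}) := by
  set S := Subgroup.closure ((G0 : Set AG) ∪ {up (1 / 2)}) with hS
  have hG : ∀ g ∈ G0, g ∈ S := fun g hg => Subgroup.subset_closure (Or.inl hg)
  have hu : up (1 / 2) ∈ S := Subgroup.subset_closure (Or.inr rfl)
  have hdg : dg (1 / 2) (by norm_num) ∈ S := by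
    have h1 : lo (-2) ∈ S := hG _ (lo_mem_G0 (by
      rw [v_neg, v_two]
      norm_num))
    have h2 : ro⁻¹ ∈ S := S.inv_mem (hG _ ro_mem_G0)
    have h3 := S.mul_mem (S.mul_mem (S.mul_mem hu h1) hu) h2
    have e : up (1 / 2) * lo (-2) * up (1 / 2) * ro⁻¹ = dg (1 / 2) (by norm_num) := by
      apply AG.ext <;>
      simp only [mul_a, mul_b, mul_c, mul_d, mul_x, mul_y, inv_a, inv_b, inv_c, inv_d, inv_x,
        inv_y, up, lo, ro, dg] <;> norm_num
    rwa [e] at h3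
  induction n with
  | zero =>
    intro t ht
    rw [pow_zero, one_mul] at ht
    exact hG _ (up_mem_G0 ht)
  | succ n ih =>
    intro t ht
    have h1 := ih (4 * t) (by
      rw [pow_succ, mul_assoc] at ht
      exact ht)
    have h2 := S.mul_mem (S.mul_mem hdg h1) (S.inv_mem hdg)
    have e : dg (1 / 2) (by norm_num) * up (4 * t) * (dg (1 / 2) (by norm_num))⁻¹ = up t := by
      apply AG.ext <;>
      simp only [mul_a, mul_b, mul_c, mul_d, mul_x, mul_y, inv_a, inv_b, inv_c, inv_d, inv_x,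
        inv_y, up, dg] <;> norm_num
      ring
    rwa [e] at h2

theorem exists_pow (t : ℚ) : ∃ n : ℕ, v (4 ^ n * t) ≤ 1 := by
  have h4 : v 4 = 1 / 4 := by
    have : (4 : ℚ) = 2 * 2 := by norm_num
    rw [this, v_mul, v_two]
    norm_num
  have hpow : ∀ n : ℕ, v (4 ^ n) = (1 / 4) ^ n := by
    intro n
    induction n with
    | zero => rw [pow_zero, pow_zero, v_one]
    | succ n ih => rw [pow_succ, pow_succ, v_mul, ih, h4]
  have h0 := v_nonneg t
  obtain ⟨n, hn⟩ := exists_pow_lt_of_lt_one (show (0 : ℚ) < 1 / (v t + 1) by positivity)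
    (show (1 / 4 : ℚ) < 1 by norm_num)
  refine ⟨n, ?_⟩
  rw [v_mul, hpow]
  have h1 : (0 : ℚ) ≤ (1 / 4) ^ n := by positivity
  calc (1 / 4 : ℚ) ^ n * v t ≤ (1 / (v t + 1)) * (v t + 1) :=
        mul_le_mul hn.le (by linarith) h0 (by positivity)
    _ = 1 := by field_simp

theorem gen_one : G1 ≤ Subgroup.closure ((G0 : Set AG) ∪ {up (1 / 2)}) := by
  set S := Subgroup.closure ((G0 : Set AG) ∪ {up (1 / 2)}) with hS
  have hG : ∀ g ∈ G0, g ∈ S := fun g hg => Subgroup.subset_closure (Or.inl hg)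
  have hup : ∀ t, up t ∈ S := by
    intro t
    obtain ⟨n, hn⟩ := exists_pow t
    exact up_mem_closure n t hn
  have hlo : ∀ t, lo t ∈ S := by
    intro t
    have h := S.mul_mem (S.mul_mem (hG _ ro_mem_G0) (hup (-t))) (S.inv_mem (hG _ ro_mem_G0))
    have e : ro * up (-t) * ro⁻¹ = lo t := by
      apply AG.ext <;>
      simp only [mul_a, mul_b, mul_c, mul_d, mul_x, mul_y, inv_a, inv_b, inv_c, inv_d, inv_x,
        inv_y, up, lo, ro] <;> ring
    rwa [e] at h
  have key : ∀ g ∈ G1, g.c ≠ 0 → g ∈ S := by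
    rintro g ⟨hx, hy⟩ hc
    have h := S.mul_mem (S.mul_mem (hup ((g.a - 1) / g.c)) (hlo g.c)) (hup ((g.d - 1) / g.c))
    have hd := g.det
    have e : up ((g.a - 1) / g.c) * lo g.c * up ((g.d - 1) / g.c) = g := by
      apply AG.ext
      · simp only [mul_a, mul_b, mul_c, mul_d, up, lo]
        field_simp
        ring
      · simp only [mul_a, mul_b, mul_c, mul_d, up, lo]
        field_simp
        linear_combination hd
      · simp only [mul_a, mul_b, mul_c, mul_d, up, lo]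
        ring
      · simp only [mul_a, mul_b, mul_c, mul_d, up, lo]
        field_simp
        ring
      · simp only [mul_a, mul_b, mul_c, mul_d, mul_x, up, lo, hx]
        ring
      · simp only [mul_a, mul_b, mul_c, mul_d, mul_y, up, lo, hy]
        ring
    rwa [e] at h
  intro g hg
  by_cases hc : g.c = 0
  · have hd := g.det
    have hd0 : g.d ≠ 0 := by
      intro h
      rw [hc, h] at hd
      norm_num at hd
    have h1 : g * lo 1 ∈ S := by
      apply key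
      · exact G1.mul_mem hg ⟨rfl, rfl⟩
      · rw [mul_c, hc]
        simpa [lo] using hd0
    have h2 := S.mul_mem h1 (S.inv_mem (hlo 1))
    rwa [mul_inv_cancel_right] at h2
  · exact key g hg hc

/-- `G1` is strongly maximal in the whole group. -/
theorem reach_two (g : AG) (hg : g ∉ G1) :
    ∃ a ∈ G1, ∃ b ∈ G1, ∃ e ∈ G1, tr 1 0 = a * (g * b * g⁻¹) * e := by
  -- conjugates of linear maps
  have key : ∀ B : AG, B ∈ G1 → ∃ b ∈ G1, ∃ e ∈ G1,
      tr (g.x - (B.a * g.x + B.b * g.y)) (g.y - (B.c * g.x + B.d * g.y)) = g * b * g⁻¹ * e := by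
    rintro B ⟨hBx, hBy⟩
    have hA : (⟨g.a, g.b, g.c, g.d, 0, 0, g.det⟩ : AG) ∈ G1 := ⟨rfl, rfl⟩
    refine ⟨(⟨g.a, g.b, g.c, g.d, 0, 0, g.det⟩ : AG)⁻¹ * B * ⟨g.a, g.b, g.c, g.d, 0, 0, g.det⟩,
      G1.mul_mem (G1.mul_mem (G1.inv_mem hA) ⟨hBx, hBy⟩) hA, B⁻¹, G1.inv_mem ⟨hBx, hBy⟩, ?_⟩
    have e1 : g = tr g.x g.y * ⟨g.a, g.b, g.c, g.d, 0, 0, g.det⟩ := by
      apply AG.ext <;>
      simp only [mul_a, mul_b, mul_c, mul_d, mul_x, mul_y, tr] <;> ring
    have e2 : g * ((⟨g.a, g.b, g.c, g.d, 0, 0, g.det⟩ : AG)⁻¹ * B *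
        ⟨g.a, g.b, g.c, g.d, 0, 0, g.det⟩) * g⁻¹ * B⁻¹ =
        tr g.x g.y * B * (tr g.x g.y)⁻¹ * B⁻¹ := by
      calc _ = (tr g.x g.y * ⟨g.a, g.b, g.c, g.d, 0, 0, g.det⟩) *
            ((⟨g.a, g.b, g.c, g.d, 0, 0, g.det⟩ : AG)⁻¹ * B *
              ⟨g.a, g.b, g.c, g.d, 0, 0, g.det⟩) *
            (tr g.x g.y * ⟨g.a, g.b, g.c, g.d, 0, 0, g.det⟩)⁻¹ * B⁻¹ := by rw [← e1]
        _ = _ := by group
    rw [e2]
    have hd := B.det
    apply AG.ext
    · simp only [mul_a, mul_b, mul_c, mul_d, mul_x, mul_y, inv_a, inv_b, inv_c, inv_d, inv_x,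
        inv_y, tr]
      linear_combination -hd
    · simp only [mul_a, mul_b, mul_c, mul_d, mul_x, mul_y, inv_a, inv_b, inv_c, inv_d, inv_x,
        inv_y, tr]
      ring
    · simp only [mul_a, mul_b, mul_c, mul_d, mul_x, mul_y, inv_a, inv_b, inv_c, inv_d, inv_x,
        inv_y, tr]
      ring
    · simp only [mul_a, mul_b, mul_c, mul_d, mul_x, mul_y, inv_a, inv_b, inv_c, inv_d, inv_x,
        inv_y, tr]
      linear_combination -hd
    · simp only [mul_a, mul_b, mul_c, mul_d, mul_x, mul_y, inv_a, inv_b, inv_c, inv_d, inv_x,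
        inv_y, tr, hBx, hBy]
      ring
    · simp only [mul_a, mul_b, mul_c, mul_d, mul_x, mul_y, inv_a, inv_b, inv_c, inv_d, inv_x,
        inv_y, tr, hBx, hBy]
      ring
  by_cases hy : g.y = 0
  · have hx : g.x ≠ 0 := fun hx => hg ⟨hx, hy⟩
    obtain ⟨b, hb, e, he, h⟩ := key (lo (-1 / g.x)) ⟨rfl, rfl⟩
    refine ⟨ro, ⟨rfl, rfl⟩, b, hb, e * ro⁻¹, G1.mul_mem he (G1.inv_mem ⟨rfl, rfl⟩), ?_⟩
    have e1 : ro * (g * b * g⁻¹) * (e * ro⁻¹) = ro * (g * b * g⁻¹ * e) * ro⁻¹ := by group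
    rw [e1, ← h, hy]
    apply AG.ext
    · simp only [mul_a, mul_b, mul_c, mul_d, mul_x, mul_y, inv_a, inv_b, inv_c, inv_d, inv_x,
        inv_y, tr, ro, lo]
      ring
    · simp only [mul_a, mul_b, mul_c, mul_d, mul_x, mul_y, inv_a, inv_b, inv_c, inv_d, inv_x,
        inv_y, tr, ro, lo]
      ring
    · simp only [mul_a, mul_b, mul_c, mul_d, mul_x, mul_y, inv_a, inv_b, inv_c, inv_d, inv_x,
        inv_y, tr, ro, lo]
      ring
    · simp only [mul_a, mul_b, mul_c, mul_d, mul_x, mul_y, inv_a, inv_b, inv_c, inv_d, inv_x,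
        inv_y, tr, ro, lo]
      ring
    · simp only [mul_a, mul_b, mul_c, mul_d, mul_x, mul_y, inv_a, inv_b, inv_c, inv_d, inv_x,
        inv_y, tr, ro, lo]
      field_simp
      ring
    · simp only [mul_a, mul_b, mul_c, mul_d, mul_x, mul_y, inv_a, inv_b, inv_c, inv_d, inv_x,
        inv_y, tr, ro, lo]
      ring
  · obtain ⟨b, hb, e, he, h⟩ := key (up (-1 / g.y)) ⟨rfl, rfl⟩
    refine ⟨1, G1.one_mem, b, hb, e, he, ?_⟩
    rw [one_mul, ← h]
    apply AG.ext
    · rfl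
    · rfl
    · rfl
    · rfl
    · simp only [tr, up]
      field_simp
      ring
    · simp only [tr, up]
      ring

theorem gen_two : (⊤ : Subgroup AG) ≤ Subgroup.closure ((G1 : Set AG) ∪ {tr 1 0}) := by
  set S := Subgroup.closure ((G1 : Set AG) ∪ {tr 1 0}) with hS
  have hG : ∀ g ∈ G1, g ∈ S := fun g hg => Subgroup.subset_closure (Or.inl hg)
  have ht : tr 1 0 ∈ S := Subgroup.subset_closure (Or.inr rfl)
  have hconj : ∀ A ∈ G1, tr A.a A.c ∈ S := by
    rintro A ⟨hx, hy⟩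
    have h := S.mul_mem (S.mul_mem (hG A ⟨hx, hy⟩) ht) (S.inv_mem (hG A ⟨hx, hy⟩))
    have hd := A.det
    have e : A * tr 1 0 * A⁻¹ = tr A.a A.c := by
      apply AG.ext
      · simp only [mul_a, mul_b, mul_c, mul_d, mul_x, mul_y, inv_a, inv_b, inv_c, inv_d, inv_x,
          inv_y, tr]
        linear_combination hd
      · simp only [mul_a, mul_b, mul_c, mul_d, mul_x, mul_y, inv_a, inv_b, inv_c, inv_d, inv_x,
          inv_y, tr]
        ring
      · simp only [mul_a, mul_b, mul_c, mul_d, mul_x, mul_y, inv_a, inv_b, inv_c, inv_d, inv_x,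
          inv_y, tr]
        ring
      · simp only [mul_a, mul_b, mul_c, mul_d, mul_x, mul_y, inv_a, inv_b, inv_c, inv_d, inv_x,
          inv_y, tr]
        linear_combination hd
      · simp only [mul_a, mul_b, mul_c, mul_d, mul_x, mul_y, inv_a, inv_b, inv_c, inv_d, inv_x,
          inv_y, tr, hx, hy]
        ring
      · simp only [mul_a, mul_b, mul_c, mul_d, mul_x, mul_y, inv_a, inv_b, inv_c, inv_d, inv_x,
          inv_y, tr, hx, hy]
        ring
    rwa [e] at h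
  have htr : ∀ x y : ℚ, tr x y ∈ S := by
    intro x y
    by_cases hx : x = 0
    · by_cases hy : y = 0
      · subst hx hy
        have : tr 0 0 = 1 := rfl
        rw [this]
        exact S.one_mem
      · have h := hconj ⟨x, -1 / y, y, 0, 0, 0, by field_simp; ring⟩ ⟨rfl, rfl⟩
        exact h
    · have h := hconj ⟨x, 0, y, 1 / x, 0, 0, by field_simp; ring⟩ ⟨rfl, rfl⟩
      exact h
  intro g _
  have e1 : g = tr g.x g.y * ⟨g.a, g.b, g.c, g.d, 0, 0, g.det⟩ := by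
    apply AG.ext <;>
    simp only [mul_a, mul_b, mul_c, mul_d, mul_x, mul_y, tr] <;> ring
  rw [e1]
  exact S.mul_mem (htr _ _) (hG _ ⟨rfl, rfl⟩)

end Pool.Agent.Helper505.Wr
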